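import Pool.Agent.HC.Part

/-!
# HC block P2 : from the partition to the structure `Cells`

`Om = ((Finset (Fin d) ⊕ Finset (Fin d)) × Fin (d + 10)) ⊕ (Finset (Fin d) × Fin M × Bool)`: real
cells `(c y, #y + 4)` and private dummies of `x`. `lo x` is an injection of `Fin M` whose range
contains all `(c y, #x + 3)`, `y = flip x a`, `a ∈ x` (at most `η d ≤ M` many), the other values are
dummies of `x`; `up x` the same with `#x + 5`, `a ∉ x`.
`deg`: a real cell `(inl z, l)` is seen only by `x` with `#(x Δ z) ≤ r + 1`, at most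
`(d+1)^(r+1)` many; `(inr y, l)` by the `d` neighbours of `y`; a dummy of `x` only by `x`.
-/

namespace Pool.Agent.HC

open Finset Classical

/-- an injection of `Fin M` which enumerates a small finset and takes prescribed other values -/
theorem enum_pad {A : Type} (S : Finset A) {M : ℕ} (h : S.card ≤ M) (dm : Fin M → A)
    (hdm : Function.Injective dm) (hd : ∀ i, dm i ∉ S) :
    ∃ f : Fin M → A, Function.Injective f ∧ (∀ s ∈ S, ∃ i, f i = s) ∧ ∀ i, f i ∈ S ∨ f i = dm i := by
  refine ⟨fun i => if h : i.val < S.card then (S.equivFin.symm ⟨i.val, h⟩ : S).val else dm i,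
    ?_, ?_, ?_⟩
  · intro i j hij
    by_cases hi : i.val < S.card <;> by_cases hj : j.val < S.card
    · simp only [hi, hj, dif_pos] at hij
      have h1 := S.equivFin.symm.injective (Subtype.ext hij)
      have h2 : i.val = j.val := by simpa using congrArg Fin.val h1
      exact Fin.ext h2
    · simp only [hi, hj, dif_pos, dif_neg, not_false_eq_true] at hij
      exact absurd (hij ▸ (S.equivFin.symm ⟨i.val, hi⟩ : S).2) (hd j)
    · simp only [hi, hj, dif_pos, dif_neg, not_false_eq_true] at hij
      exact absurd (hij ▸ (S.equivFin.symm ⟨j.val, hj⟩ : S).2) (hd i)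
    · simp only [hi, hj, dif_neg, not_false_eq_true] at hij
      exact hdm hij
  · intro s hs
    have h1 := (S.equivFin ⟨s, hs⟩).2
    refine ⟨⟨(S.equivFin ⟨s, hs⟩).val, lt_of_lt_of_le h1 h⟩, ?_⟩
    simp only [h1, dif_pos]
    simp
  · intro i
    by_cases hi : i.val < S.card
    · left
      simp only [hi, dif_pos]
      exact (S.equivFin.symm ⟨i.val, hi⟩ : S).2
    · right
      simp only [hi, dif_neg, not_false_eq_true]

/-- the number of the subsets of `Fin d` with at most `k` elements -/
theorem card_small {d k : ℕ} :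
    ((univ : Finset (Finset (Fin d))).filter fun x => x.card ≤ k).card ≤ (d + 1) ^ k := by
  have h1 : ((univ : Finset (Finset (Fin d))).filter fun x => x.card ≤ k) ⊆
      (univ : Finset (Fin k → Option (Fin d))).image
        fun f => univ.filter fun a : Fin d => ∃ i, f i = some a := by
    intro x hx
    rw [mem_filter] at hx
    rw [mem_image]
    refine ⟨fun i => if h : i.val < x.card then some (x.equivFin.symm ⟨i.val, h⟩ : x).val else none,
      mem_univ _, ?_⟩
    ext a
    rw [mem_filter]
    constructor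
    · rintro ⟨_, i, hi⟩
      by_cases h : i.val < x.card
      · simp only [h, dif_pos, Option.some.injEq] at hi
        rw [← hi]
        exact (x.equivFin.symm ⟨i.val, h⟩ : x).2
      · simp only [h, dif_neg, not_false_eq_true] at hi
        exact absurd hi (by simp)
    · intro ha
      refine ⟨mem_univ _, ⟨(x.equivFin ⟨a, ha⟩).val, lt_of_lt_of_le (x.equivFin ⟨a, ha⟩).2 hx.2⟩, ?_⟩
      have h2 := (x.equivFin ⟨a, ha⟩).2
      simp only [h2, dif_pos]
      simp
  refine (card_le_card h1).trans (card_image_le.trans ?_)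
  rw [card_univ, Fintype.card_fun, Fintype.card_option, Fintype.card_fin, Fintype.card_fin]

/-- balls of the cube are small -/
theorem card_ball {d k : ℕ} (z : Finset (Fin d)) :
    ((univ : Finset (Finset (Fin d))).filter fun x => (symmDiff x z).card ≤ k).card ≤
      (d + 1) ^ k := by
  refine le_trans ?_ (card_small (d := d) (k := k))
  refine card_le_card_of_injOn (fun x => symmDiff x z) ?_ ?_
  · intro x hx
    simp only [coe_filter, mem_univ, true_and, Set.mem_setOf_eq] at hx ⊢
    exact hx
  · intro x _ y _ hxy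
    exact symmDiff_left_injective z hxy

theorem symmDiff_flip_card {d r : ℕ} {x z : Finset (Fin d)} {a : Fin d}
    (h : (symmDiff (flip x a) z).card ≤ r) : (symmDiff x z).card ≤ r + 1 := by
  have h1 : symmDiff x z = symmDiff (symmDiff (flip x a) z) {a} := by
    unfold flip
    rw [symmDiff_right_comm, symmDiff_symmDiff_cancel_right]
  rw [h1]
  have h2 : symmDiff (symmDiff (flip x a) z) {a} ⊆ (symmDiff (flip x a) z) ∪ {a} :=
    symmDiff_le_sup
  exact (card_le_card h2).trans ((card_union_le _ _).trans (by simpa using h))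

theorem flip_card_of_notMem {d : ℕ} {y : Finset (Fin d)} {a : Fin d} (h : a ∉ y) :
    (flip y a).card = y.card + 1 := by
  unfold flip
  have h1 : symmDiff y {a} = insert a y := by
    ext b
    rw [mem_symmDiff, mem_insert, mem_singleton]
    by_cases hb : b = a
    · subst hb; simp [h]
    · simp [hb]
  rw [h1, card_insert_of_notMem h]

theorem flip_card_of_mem {d : ℕ} {y : Finset (Fin d)} {a : Fin d} (h : a ∈ y) :
    (flip y a).card + 1 = y.card := by
  unfold flip
  have h1 : symmDiff y {a} = y.erase a := by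
    ext b
    rw [mem_symmDiff, mem_erase, mem_singleton]
    by_cases hb : b = a
    · subst hb; simp [h]
    · simp [hb]
  rw [h1, card_erase_add_one h]

theorem flip_flip {d : ℕ} (y : Finset (Fin d)) (a : Fin d) : flip (flip y a) a = y := by
  unfold flip
  rw [symmDiff_symmDiff_cancel_right]

/-- the real cells and the dummies -/
abbrev OmT (d M : ℕ) : Type :=
  ((Finset (Fin d) ⊕ Finset (Fin d)) × Fin (d + 10)) ⊕ (Finset (Fin d) × Fin M × Bool)

theorem cells_exist {η : ℝ} (hη : 0 < η) : ∃ r d0 : ℕ, ∀ d : ℕ, d0 ≤ d → ∀ M : ℕ, η * d ≤ M →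
    ∃ (Om : Type) (_ : Fintype Om), Nonempty (Cells d M ((d + 1) ^ (r + 1)) Om) := by
  obtain ⟨r, d0, H⟩ := partition hη
  refine ⟨r, d0, fun d hd M hM => ?_⟩
  obtain ⟨c, hc1, hc2, hc3⟩ := H d hd
  have hcard : ∀ x : Finset (Fin d), x.card ≤ d := fun x => by
    simpa using card_le_univ x
  -- the cells seen by `x` at level `l`
  let Sl : Finset (Fin d) → Fin (d + 10) → Finset (OmT d M) := fun x l =>
    (univ.image fun a : Fin d => c (flip x a)).image fun z => Sum.inl (z, l)
  have hSl : ∀ x l, (Sl x l).card ≤ M := by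
    intro x l
    refine card_image_le.trans ?_
    have := (hc3 x).trans hM
    exact_mod_cast this
  have hpad : ∀ (x : Finset (Fin d)) (l : Fin (d + 10)) (b : Bool), ∃ f : Fin M → OmT d M,
      Function.Injective f ∧ (∀ s ∈ Sl x l, ∃ i, f i = s) ∧
        ∀ i, f i ∈ Sl x l ∨ f i = Sum.inr (x, i, b) := by
    intro x l b
    refine enum_pad (Sl x l) (hSl x l) (fun i => Sum.inr (x, i, b)) ?_ ?_
    · intro i j hij
      have := Sum.inr.inj hij
      exact (Prod.mk.inj (Prod.mk.inj this).2).1
    · intro i hi
      simp only [Sl, mem_image] at hi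
      obtain ⟨z, _, hz⟩ := hi
      exact absurd hz (by simp)
  choose F hF1 hF2 hF3 using hpad
  let l3 : Finset (Fin d) → Fin (d + 10) := fun x => ⟨x.card + 3, by have := hcard x; omega⟩
  let l4 : Finset (Fin d) → Fin (d + 10) := fun x => ⟨x.card + 4, by have := hcard x; omega⟩
  let l5 : Finset (Fin d) → Fin (d + 10) := fun x => ⟨x.card + 5, by have := hcard x; omega⟩
  have hcls : ∀ (x : Finset (Fin d)) (l : Fin (d + 10)) (s : OmT d M), s ∈ Sl x l →
      ∃ z, s = Sum.inl (z, l) ∧ ∃ a, z = c (flip x a) := by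
    intro x l s hs
    simp only [Sl, mem_image, mem_univ, true_and] at hs
    obtain ⟨z, ⟨a, ha⟩, hz⟩ := hs
    exact ⟨z, hz.symm, a, ha.symm⟩
  have hdeg : ∀ w : OmT d M, (univ.filter fun x => (∃ i, F x (l3 x) false i = w) ∨
      ∃ i, F x (l5 x) true i = w).card ≤ (d + 1) ^ (r + 1) := by
    intro w
    have key : ∃ z : Finset (Fin d), ∀ x, ((∃ i, F x (l3 x) false i = w) ∨
        ∃ i, F x (l5 x) true i = w) → (symmDiff x z).card ≤ r + 1 := by
      have aux : ∀ (x : Finset (Fin d)) (l : Fin (d + 10)) (b : Bool) (i : Fin M),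
          F x l b i = w → (∃ z l' a, w = Sum.inl (z, l') ∧ z = c (flip x a)) ∨
            ∃ i, w = Sum.inr (x, i, b) := by
        intro x l b i hi
        rcases hF3 x l b i with h | h
        · left
          obtain ⟨z, hz, a, ha⟩ := hcls x _ _ h
          exact ⟨z, l, a, hi ▸ hz, ha⟩
        · right
          exact ⟨i, hi ▸ h⟩
      have aux2 : ∀ x, ((∃ i, F x (l3 x) false i = w) ∨ ∃ i, F x (l5 x) true i = w) →
          (∃ z l' a, w = Sum.inl (z, l') ∧ z = c (flip x a)) ∨ ∃ i b, w = Sum.inr (x, i, b) := by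
        intro x hx
        rcases hx with ⟨i, hi⟩ | ⟨i, hi⟩
        · rcases aux x _ _ i hi with h | ⟨i, h⟩
          · exact Or.inl h
          · exact Or.inr ⟨i, _, h⟩
        · rcases aux x _ _ i hi with h | ⟨i, h⟩
          · exact Or.inl h
          · exact Or.inr ⟨i, _, h⟩
      rcases w with ⟨z | y, l⟩ | ⟨x', i, b⟩
      · refine ⟨z, fun x hx => ?_⟩
        rcases aux2 x hx with ⟨z', l', a, h1, h2⟩ | ⟨i, b, h1⟩
        · have h3 : z' = Sum.inl z := ((Prod.mk.inj (Sum.inl.inj h1)).1).symm
          rw [h3] at h2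
          exact symmDiff_flip_card (hc1 _ _ h2.symm)
        · exact absurd h1 (by simp)
      · refine ⟨y, fun x hx => ?_⟩
        rcases aux2 x hx with ⟨z', l', a, h1, h2⟩ | ⟨i, b, h1⟩
        · have h3 : z' = Sum.inr y := ((Prod.mk.inj (Sum.inl.inj h1)).1).symm
          rw [h3] at h2
          have h4 := hc2 _ _ h2.symm
          refine symmDiff_flip_card (a := a) ?_
          rw [h4]
          simp
        · exact absurd h1 (by simp)
      · refine ⟨x', fun x hx => ?_⟩
        rcases aux2 x hx with ⟨z', l', a, h1, h2⟩ | ⟨i, b, h1⟩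
        · exact absurd h1 (by simp)
        · have h3 : x' = x := (Prod.mk.inj (Sum.inr.inj h1)).1
          rw [h3]
          simp
    obtain ⟨z, hz⟩ := key
    refine (card_le_card ?_).trans (card_ball z)
    intro x hx
    have hx2 := (mem_filter.1 hx).2
    exact mem_filter.2 ⟨mem_univ _, hz x hx2⟩
  refine ⟨OmT d M, inferInstance, ⟨{
    cls := fun w => match w with
      | Sum.inl (_, l) => l.val
      | Sum.inr (x, _, b) => if b then x.card + 5 else x.card + 3
    lo := fun x => F x (l3 x) false
    up := fun x => F x (l5 x) true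
    cen := fun y => Sum.inl (c y, l4 y)
    lo_inj := fun x => hF1 x _ _
    up_inj := fun x => hF1 x _ _
    cls_lo := ?_
    cls_up := ?_
    cls_cen := fun y => rfl
    cen_lo := ?_
    cen_up := ?_
    deg := fun w => by convert hdeg w }⟩⟩
  · intro x i
    rcases hF3 x (l3 x) false i with h | h
    · obtain ⟨z, hz, _⟩ := hcls x _ _ h
      rw [hz]
    · rw [h]
      simp
  · intro x i
    rcases hF3 x (l5 x) true i with h | h
    · obtain ⟨z, hz, _⟩ := hcls x _ _ h
      rw [hz]
    · rw [h]
      simp
  · intro y a ha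
    have h1 : l3 (flip y a) = l4 y := by
      apply Fin.ext
      show (flip y a).card + 3 = y.card + 4
      rw [flip_card_of_notMem ha]
    apply hF2
    rw [h1]
    simp only [Sl, mem_image, mem_univ, true_and]
    exact ⟨c y, ⟨a, by rw [flip_flip]⟩, rfl⟩
  · intro y a ha
    have h1 : l5 (flip y a) = l4 y := by
      apply Fin.ext
      show (flip y a).card + 5 = y.card + 4
      have := flip_card_of_mem ha
      omega
    apply hF2
    rw [h1]
    simp only [Sl, mem_image, mem_univ, true_and]
    exact ⟨c y, ⟨a, by rw [flip_flip]⟩, rfl⟩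

end Pool.Agent.HC
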