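import Pool.Agent.H97.QD.Final

/-!
# HC block C : the chain (note 2854, section 2)

As in `Pool.Agent.H97.QD.core` (Core.lean): `g = τ^2/32`, `K = ⌈1/g⌉ + 1`, `chain_exists` with
`r = K`, blocks of length `l = N / ((d + 20) * (K + 1))`, then `clean`; but now
`lam0 = 2^(-s)`, `s = ⌈δ d⌉ + 1` with `δ = ε / (8 K (K+2))` (instead of `4 √d + 1`).
-/

namespace Pool.Agent.HC

open Finset Classical
open Pool.Agent.H97.QD

/-- Conditions on the size which hold for large `d`. -/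
lemma chain_conds {a g : ℝ} (ha : 0 < a) (hg : 0 < g) {δ : ℝ} (hδ : 0 < δ) (B : ℝ) :
    ∃ d0 : ℕ, ∀ d : ℕ, d0 ≤ d → B * (d + 20) ≤ (2:ℝ) ^ (a * d) ∧ (2:ℝ) ^ (-(δ * d)) ≤ g := by
  have h2 : (1:ℝ) < (2:ℝ) ^ a := Real.one_lt_rpow (by norm_num) ha
  have h1 : Filter.Tendsto (fun d : ℕ => B * ((d : ℝ) + 20) / ((2:ℝ) ^ a) ^ d) Filter.atTop (nhds 0) := by
    have e1 := tendsto_pow_const_div_const_pow_of_one_lt 1 h2
    have e2 := tendsto_pow_const_div_const_pow_of_one_lt 0 h2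
    have e3 := (e1.const_mul B).add (e2.const_mul (20 * B))
    simp only [mul_zero, add_zero] at e3
    refine e3.congr (fun d => ?_)
    simp only [pow_one, pow_zero]
    ring
  have h3 : (2:ℝ) ^ (-δ) < 1 := Real.rpow_lt_one_of_one_lt_of_neg (by norm_num) (by linarith)
  have h4 : Filter.Tendsto (fun d : ℕ => ((2:ℝ) ^ (-δ)) ^ d) Filter.atTop (nhds 0) :=
    tendsto_pow_atTop_nhds_zero_of_lt_one (by positivity) h3
  have e1 := h1.eventually (gt_mem_nhds one_pos)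
  have e2 := h4.eventually (gt_mem_nhds hg)
  obtain ⟨d0, hd0⟩ := Filter.eventually_atTop.1 (e1.and e2)
  refine ⟨d0, fun d hd => ?_⟩
  obtain ⟨f1, f2⟩ := hd0 d hd
  have g1 : ((2:ℝ) ^ a) ^ d = (2:ℝ) ^ (a * d) := by
    rw [Real.rpow_mul (by norm_num), Real.rpow_natCast]
  have g2 : ((2:ℝ) ^ (-δ)) ^ d = (2:ℝ) ^ (-(δ * d)) := by
    rw [← Real.rpow_natCast, ← Real.rpow_mul (by norm_num)]
    congr 1
    ring
  constructor
  · rw [g1, div_lt_one (by positivity)] at f1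
    exact f1.le
  · rw [g2] at f2
    exact f2.le

theorem chain_ex {ε τ : ℝ} (hε : 0 < ε) (hε1 : ε ≤ 1) (hτ : 0 < τ) (hτ1 : τ ≤ 1 / 100) :
    ∃ δ : ℝ, 0 < δ ∧ δ ≤ ε / 2 ∧ ∃ d0 : ℕ, ∀ d : ℕ, d0 ≤ d → ∀ N : ℕ,
      (2:ℝ) ^ ((1 + ε) * d) ≤ N → ∀ T : Fin N → Fin N → Prop, IsTournament T → Med T →
      ∃ (W : ℕ → Finset (Fin N)) (p : ℕ → ℝ), CChain T (d + 12) W p (1 / 2 - τ) τ
        ((2:ℝ) ^ (-(δ * d))) ((2:ℝ) ^ ((1 + 3 / 4 * ε) * d)) := by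
  obtain ⟨g, hg⟩ : ∃ g : ℝ, g = τ ^ 2 / 32 := ⟨_, rfl⟩
  have hg0 : 0 < g := by rw [hg]; positivity
  have hg1 : g ≤ τ / 3200 := by rw [hg]; nlinarith
  obtain ⟨q, hq⟩ : ∃ q : ℝ, q = 1 / 2 - g := ⟨_, rfl⟩
  obtain ⟨K, hK⟩ : ∃ K : ℕ, K = ⌈1 / g⌉₊ + 1 := ⟨_, rfl⟩
  have hK0 : 0 < K := by omega
  have hKr : (1:ℝ) ≤ K := by exact_mod_cast hK0
  have hKg : 1 < K * g := by
    have h1 : 1 / g ≤ (⌈1 / g⌉₊ : ℝ) := Nat.le_ceil _
    have h2 : (K : ℝ) = (⌈1 / g⌉₊ : ℝ) + 1 := by rw [hK]; push_cast; ring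
    rw [div_le_iff₀ hg0] at h1
    rw [h2]
    nlinarith
  obtain ⟨E, hE⟩ : ∃ E : ℕ, E = K * (K + 2) := ⟨_, rfl⟩
  have hEr : (3:ℝ) ≤ E := by
    have : 3 ≤ E := by rw [hE]; nlinarith
    exact_mod_cast this
  have hE0 : (0:ℝ) < E := by linarith
  obtain ⟨δ, hδ⟩ : ∃ δ : ℝ, δ = ε / (8 * E) := ⟨_, rfl⟩
  have hδ0 : 0 < δ := by rw [hδ]; positivity
  have hδE : δ * E = ε / 8 := by rw [hδ]; field_simp
  have hδ2 : δ ≤ ε / 2 := by nlinarith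
  obtain ⟨B, hB⟩ : ∃ B : ℝ, B = 8 * (K + 1) * (2 * K) ^ K * 2 ^ (2 * E) := ⟨_, rfl⟩
  have hB1 : 1 ≤ (2 * (K:ℝ)) ^ K := one_le_pow₀ (by linarith)
  have hB2 : (1:ℝ) ≤ 2 ^ (2 * E) := one_le_pow₀ (by norm_num)
  have hBK : (K:ℝ) + 1 ≤ B := by
    rw [hB]
    have h1 : (1:ℝ) ≤ (2 * K) ^ K * 2 ^ (2 * E) := one_le_mul_of_one_le_of_one_le hB1 hB2
    nlinarith
  obtain ⟨d0, hd0⟩ := chain_conds (a := ε / 8) (by positivity) hg0 hδ0 B
  refine ⟨δ, hδ0, hδ2, d0, fun d hd N hN T hT hmed => ?_⟩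
  obtain ⟨hc1, hc2⟩ := hd0 d hd
  have hdr : (0:ℝ) ≤ d := Nat.cast_nonneg _
  obtain ⟨s, hs⟩ : ∃ s : ℕ, s = ⌈δ * d⌉₊ + 1 := ⟨_, rfl⟩
  have hs1 : δ * d + 1 ≤ s := by
    rw [hs]; push_cast
    linarith [Nat.le_ceil (δ * (d:ℝ))]
  have hs2 : (s:ℝ) ≤ δ * d + 2 := by
    rw [hs]; push_cast
    linarith [Nat.ceil_lt_add_one (a := δ * (d:ℝ)) (by positivity)]
  obtain ⟨D, hD⟩ : ∃ D : ℕ, D = (d + 20) * (K + 1) := ⟨_, rfl⟩
  have hD0 : 0 < D := by rw [hD]; positivity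
  have hDN : D ≤ N := by
    have h1 : ((D:ℕ) : ℝ) ≤ N := by
      calc ((D:ℕ) : ℝ) = ((K:ℝ) + 1) * (d + 20) := by rw [hD]; push_cast; ring
        _ ≤ B * (d + 20) := mul_le_mul_of_nonneg_right hBK (by positivity)
        _ ≤ (2:ℝ) ^ (ε / 8 * d) := hc1
        _ ≤ (2:ℝ) ^ ((1 + ε) * d) := by
            apply Real.rpow_le_rpow_of_exponent_le (by norm_num)
            nlinarith
        _ ≤ N := hN
    exact_mod_cast h1
  obtain ⟨l, hl⟩ : ∃ l : ℕ, l = N / D := ⟨_, rfl⟩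
  have hl0 : 0 < l := by
    rw [hl]
    exact Nat.div_pos hDN hD0
  have hlN : D * l ≤ N := by rw [hl]; exact Nat.mul_div_le N D
  have hNl : N ≤ 2 * D * l := by
    have h1 : N < D * (l + 1) := by
      rw [hl]
      have h2 := Nat.div_add_mod N D
      have h3 := Nat.mod_lt N hD0
      nlinarith
    nlinarith
  obtain ⟨lam0, hlam0⟩ : ∃ lam0 : ℝ, lam0 = ((2:ℝ) ^ s)⁻¹ := ⟨_, rfl⟩
  obtain ⟨lam2, hlam2⟩ : ∃ lam2 : ℝ, lam2 = lam0 ^ (K + 1) / (2 * K) := ⟨_, rfl⟩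
  have hlampos : 0 < lam0 := by rw [hlam0]; positivity
  have h2lam : 2 * lam0 ≤ (2:ℝ) ^ (-(δ * d)) := by
    have h1 : 2 * lam0 = (2:ℝ) ^ (1 - (s:ℝ)) := by
      rw [hlam0, Real.rpow_sub (by norm_num), Real.rpow_one, Real.rpow_natCast]
      rfl
    rw [h1]
    apply Real.rpow_le_rpow_of_exponent_le (by norm_num)
    linarith
  have hlamg : lam0 ≤ g / 2 := by linarith
  have hlam1 : lam0 ≤ 1 := by linarith
  have hlam2le : lam2 ≤ lam0 / 2 := by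
    rw [hlam2, div_le_div_iff₀ (by positivity) (by norm_num)]
    have h1 : lam0 ^ (K + 1) ≤ lam0 := by
      calc lam0 ^ (K + 1) ≤ lam0 ^ 1 := pow_le_pow_of_le_one hlampos.le hlam1 (by omega)
        _ = lam0 := pow_one _
    nlinarith
  have hpar : Par q g (2 * g) lam0 lam2 K K l := by
    refine ⟨by rw [hq]; linarith, hg0, hlampos, hlam1, hK0, hl0, hlam2, ?_, ?_, ?_⟩
    · rw [hq]; linarith
    · linarith
    · rw [hq]; nlinarith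
  have hlN' : 0 + (d + 12 + 1) * ((K + 1) * l) ≤ N := by
    calc 0 + (d + 12 + 1) * ((K + 1) * l) ≤ (d + 20) * ((K + 1) * l) := by
          rw [zero_add]; exact Nat.mul_le_mul_right _ (by omega)
      _ = D * l := by rw [hD]; ring
      _ ≤ N := hlN
  have hX : lam2 ^ K * l / 2 ≤ ((blk N 0 l).card : ℝ) := by
    have h1 : (blk N 0 l).card = l := card_blk (by
      have : l ≤ D * l := Nat.le_mul_of_pos_left l hD0
      omega)
    rw [h1]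
    have h2 : lam2 ^ K ≤ 1 := by
      apply pow_le_one₀
      · rw [hlam2]; positivity
      · linarith
    have h3 : (0:ℝ) ≤ l := Nat.cast_nonneg _
    nlinarith
  obtain ⟨W, p, hW0, hW0c, hWc, hWd, hWs, hWp⟩ := chain_exists hT hmed hpar (d + 12) 0
    (blk N 0 l) subset_rfl hX hlN'
  have hlam2pos : 0 < lam2 := by rw [hlam2]; positivity
  have hlpos : (0:ℝ) < l := by exact_mod_cast hl0
  obtain ⟨W', hW'⟩ := clean (τ := τ) (w0 := lam0 ^ K * (lam2 ^ K * l / 2)) (by positivity) hlampos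
    hlam1 hg0 (by linarith) (by linarith) hτ (by rw [hq]; linarith) (by linarith)
    (by rw [hg] at hlamg ⊢; nlinarith) hWd hWs hWp
  obtain ⟨w, hw⟩ : ∃ w : ℝ, w = lam0 ^ K * (lam2 ^ K * l / 2) / 2 := ⟨_, rfl⟩
  rw [← hw] at hW'
  -- the size
  have hw2 : w = l / (4 * (2 * K) ^ K * 2 ^ (s * E)) := by
    have h1 : lam0 ^ K * (lam0 ^ (K + 1)) ^ K = ((2:ℝ) ^ (s * E))⁻¹ := by
      rw [hlam0, ← pow_mul, ← pow_add, inv_pow, ← pow_mul, hE]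
      congr 2
      ring
    rw [hw, hlam2, div_pow]
    calc lam0 ^ K * ((lam0 ^ (K + 1)) ^ K / (2 * K) ^ K * l / 2) / 2
        = (lam0 ^ K * (lam0 ^ (K + 1)) ^ K) * l / (4 * (2 * K) ^ K) := by ring
      _ = l / (4 * (2 * K) ^ K * 2 ^ (s * E)) := by
          rw [h1]
          field_simp
  have hsE : (2:ℝ) ^ (s * E) ≤ (2:ℝ) ^ (ε / 8 * d) * 2 ^ (2 * E) := by
    rw [← Real.rpow_natCast, ← Real.rpow_natCast (2:ℝ) (2 * E), ← Real.rpow_add (by norm_num)]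
    apply Real.rpow_le_rpow_of_exponent_le (by norm_num)
    push_cast
    have h1 : (s:ℝ) * E ≤ (δ * d + 2) * E := mul_le_mul_of_nonneg_right hs2 hE0.le
    have h2 : (δ * d + 2) * E = δ * E * d + 2 * E := by ring
    rw [h2, hδE] at h1
    exact h1
  have hwbig : (2:ℝ) ^ ((1 + 3 / 4 * ε) * d) ≤ w := by
    rw [hw2, le_div_iff₀ (by positivity)]
    have h1 : (N:ℝ) ≤ 2 * (((d:ℝ) + 20) * (K + 1)) * l := by
      have h2 : (N:ℝ) ≤ ((2 * D * l : ℕ) : ℝ) := by exact_mod_cast hNl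
      rw [hD] at h2
      push_cast at h2
      exact h2
    have h3 : (2:ℝ) ^ ((1 + ε) * d) =
        (2:ℝ) ^ ((1 + 3 / 4 * ε) * d) * ((2:ℝ) ^ (ε / 8 * d) * (2:ℝ) ^ (ε / 8 * d)) := by
      rw [← Real.rpow_add (by norm_num), ← Real.rpow_add (by norm_num)]
      congr 1
      ring
    -- multiply by `2 (d + 20) (K + 1)`
    have hpos : (0:ℝ) < 2 * (((d:ℝ) + 20) * (K + 1)) := by positivity
    refine le_of_mul_le_mul_left ?_ hpos
    calc 2 * (((d:ℝ) + 20) * (K + 1)) *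
          ((2:ℝ) ^ ((1 + 3 / 4 * ε) * d) * (4 * (2 * K) ^ K * 2 ^ (s * E)))
        ≤ 2 * (((d:ℝ) + 20) * (K + 1)) * ((2:ℝ) ^ ((1 + 3 / 4 * ε) * d) *
          (4 * (2 * K) ^ K * ((2:ℝ) ^ (ε / 8 * d) * 2 ^ (2 * E)))) := by gcongr
      _ = (2:ℝ) ^ ((1 + 3 / 4 * ε) * d) * (2:ℝ) ^ (ε / 8 * d) * (B * (d + 20)) := by
          rw [hB]; ring
      _ ≤ (2:ℝ) ^ ((1 + 3 / 4 * ε) * d) * (2:ℝ) ^ (ε / 8 * d) * (2:ℝ) ^ (ε / 8 * d) := by
          gcongr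
      _ = (2:ℝ) ^ ((1 + ε) * d) := by rw [h3]; ring
      _ ≤ N := hN
      _ ≤ 2 * (((d:ℝ) + 20) * (K + 1)) * l := h1
  refine ⟨W', p, ?_⟩
  constructor
  · exact hW'.disj
  · intro i hi
    exact hwbig.trans (hW'.size i hi)
  · intro i hi
    have h1 := hW'.pq i hi
    rw [hq] at h1
    linarith
  · exact hW'.p1
  · exact hW'.hin
  · exact hW'.hout
  · intro i hi A' hA B' hB hA1 hB1
    refine hW'.reg i hi A' hA B' hB (le_trans ?_ hA1) (le_trans ?_ hB1)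
    · exact mul_le_mul_of_nonneg_right h2lam (Nat.cast_nonneg _)
    · exact mul_le_mul_of_nonneg_right h2lam (Nat.cast_nonneg _)

end Pool.Agent.HC
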