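import Pool.Agent.HC.Defs

/-!
# HC block F : resampling of the centre of an odd vertex (F1, F2, F3 of note 2854)

For one odd vertex `y`: `ι` = its neighbours, `A i` = candidates of the neighbour `i` before the
centre of `y` is chosen, `R i b v` = adjacency of the host `b` of `y` with the host `v` of the
neighbour `i` (in the right direction), `C` = possible centres. `wt b X` = the posterior weight of
the centre `b` if the images of the neighbours are `X`, `Wt` = total weight, `heavy` = the dyadic
class of weights with the largest total weight.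
-/

namespace Pool.Agent.HC

open Finset Classical

variable {ι V : Type}

/-- candidates of the neighbour `i` if the centre is `b` -/
noncomputable abbrev nb (A : ι → Finset V) (R : ι → V → V → Prop) (b : V) (i : ι) : Finset V :=
  (A i).filter fun v => R i b v

/-- the centre `b` is good: it leaves a fraction at least `al` of the candidates -/
def GoodB (A : ι → Finset V) (R : ι → V → V → Prop) (al : ℝ) (b : V) : Prop :=
  ∀ i, al * (A i).card ≤ (nb A R b i).card

/-- the weight `w_b (X)` -/
noncomputable def wt [Fintype ι] (A : ι → Finset V) (R : ι → V → V → Prop) (al : ℝ) (b : V)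
    (X : ι → V) : ℝ :=
  if GoodB A R al b ∧ ∀ i, X i ∈ nb A R b i then
    ∏ i, ((A i).card : ℝ) / (nb A R b i).card else 0

/-- the total weight -/
noncomputable def Wt [Fintype ι] (C : Finset V) (A : ι → Finset V) (R : ι → V → V → Prop)
    (al : ℝ) (X : ι → V) : ℝ := ∑ b ∈ C, wt A R al b X

/-- the dyadic classes of the weights -/
noncomputable def cl [Fintype ι] (C : Finset V) (A : ι → Finset V) (R : ι → V → V → Prop)
    (al : ℝ) (X : ι → V) (k : ℕ) : Finset V :=
  C.filter (fun b => wt A R al b X ≠ 0 ∧ Nat.log 2 ⌊wt A R al b X⌋₊ = k)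

/-- number of the best class among the first `K + 1` ones -/
noncomputable def best [Fintype ι] (C : Finset V) (A : ι → Finset V) (R : ι → V → V → Prop)
    (al : ℝ) (K : ℕ) (X : ι → V) : ℕ :=
  (Finset.exists_max_image (range (K + 1)) (fun k => ∑ b ∈ cl C A R al X k, wt A R al b X)
    ⟨0, Finset.mem_range.mpr (Nat.succ_pos K)⟩).choose

/-- the set from which the image of `y` is chosen -/
noncomputable def heavy [Fintype ι] (C : Finset V) (A : ι → Finset V) (R : ι → V → V → Prop)
    (al : ℝ) (K : ℕ) (X : ι → V) : Finset V := cl C A R al X (best C A R al K X)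

theorem nb_subset (A : ι → Finset V) (R : ι → V → V → Prop) (b : V) (i : ι) :
    nb A R b i ⊆ A i := Finset.filter_subset _ _

theorem GoodB.card_pos {A : ι → Finset V} {R : ι → V → V → Prop} {al : ℝ} {b : V} (ha : 0 < al)
    (hA : ∀ i, (A i).Nonempty) (h : GoodB A R al b) (i : ι) : 0 < ((nb A R b i).card : ℝ) := by
  have h1 : (0 : ℝ) < (A i).card := by exact_mod_cast Finset.card_pos.mpr (hA i)
  exact lt_of_lt_of_le (by positivity) (h i)

theorem wt_nonneg [Fintype ι] (A : ι → Finset V) (R : ι → V → V → Prop) (al : ℝ) (b : V)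
    (X : ι → V) : 0 ≤ wt A R al b X := by
  unfold wt
  split_ifs
  · exact Finset.prod_nonneg (fun i _ => by positivity)
  · exact le_rfl

theorem Wt_nonneg [Fintype ι] (C : Finset V) (A : ι → Finset V) (R : ι → V → V → Prop) (al : ℝ)
    (X : ι → V) : 0 ≤ Wt C A R al X := Finset.sum_nonneg (fun b _ => wt_nonneg A R al b X)

theorem wt_ne [Fintype ι] {A : ι → Finset V} {R : ι → V → V → Prop} {al : ℝ} {b : V} {X : ι → V}
    (h : wt A R al b X ≠ 0) : GoodB A R al b ∧ ∀ i, X i ∈ nb A R b i := by
  unfold wt at h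
  by_contra hc
  rw [if_neg hc] at h
  exact h rfl

theorem one_le_wt [Fintype ι] {A : ι → Finset V} {R : ι → V → V → Prop} {al : ℝ} {b : V}
    {X : ι → V} (ha : 0 < al) (hA : ∀ i, (A i).Nonempty) (h : wt A R al b X ≠ 0) :
    1 ≤ wt A R al b X := by
  have h1 := wt_ne h
  unfold wt
  rw [if_pos h1]
  calc (1 : ℝ) = ∏ _i : ι, (1 : ℝ) := by rw [Finset.prod_const_one]
    _ ≤ ∏ i, ((A i).card : ℝ) / (nb A R b i).card := by
        apply Finset.prod_le_prod
        · intro i _; exact zero_le_one
        · intro i _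
          rw [le_div_iff₀ (h1.1.card_pos ha hA i), one_mul]
          exact_mod_cast Finset.card_le_card (nb_subset A R b i)

theorem wt_le [Fintype ι] {A : ι → Finset V} {R : ι → V → V → Prop} {al : ℝ} {b : V} {X : ι → V}
    (ha : 0 < al) (hA : ∀ i, (A i).Nonempty) : wt A R al b X ≤ (1 / al) ^ Fintype.card ι := by
  unfold wt
  split_ifs with h
  · calc ∏ i, ((A i).card : ℝ) / (nb A R b i).card ≤ ∏ _i : ι, 1 / al := by
          apply Finset.prod_le_prod
          · intro i _; positivity
          · intro i _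
            have h1 := h.1.card_pos ha hA i
            rw [div_le_div_iff₀ h1 ha, one_mul, mul_comm]
            exact h.1 i
      _ = (1 / al) ^ Fintype.card ι := by rw [Finset.prod_const, Finset.card_univ]
  · positivity

theorem sum_wt_mul [Fintype ι] [DecidableEq ι] {A : ι → Finset V} {R : ι → V → V → Prop} {al : ℝ}
    {b : V} (hb : GoodB A R al b) (f : (ι → V) → ℝ) :
    ∑ X ∈ Fintype.piFinset A, wt A R al b X * f X =
      (∏ i, ((A i).card : ℝ) / (nb A R b i).card) *
        ∑ X ∈ Fintype.piFinset (nb A R b), f X := by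
  have h1 : ∑ X ∈ Fintype.piFinset A, wt A R al b X * f X =
      ∑ X ∈ Fintype.piFinset (nb A R b), wt A R al b X * f X := by
    symm
    apply Finset.sum_subset
    · exact Fintype.piFinset_subset _ _ (fun i => nb_subset A R b i)
    · intro X _ hX
      have h2 : wt A R al b X = 0 := by
        unfold wt
        rw [if_neg]
        intro h3
        exact hX (Fintype.mem_piFinset.mpr h3.2)
      rw [h2, zero_mul]
  rw [h1, Finset.mul_sum]
  apply Finset.sum_congr rfl
  intro X hX
  rw [Fintype.mem_piFinset] at hX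
  unfold wt
  rw [if_pos ⟨hb, hX⟩]

/-- `sum over X of w_b (X) = prod |A i|` for a good `b` -/
theorem sum_wt [Fintype ι] [DecidableEq ι] {A : ι → Finset V} {R : ι → V → V → Prop} {al : ℝ}
    {b : V} (ha : 0 < al) (hA : ∀ i, (A i).Nonempty) (hb : GoodB A R al b) :
    ∑ X ∈ Fintype.piFinset A, wt A R al b X = ∏ i, ((A i).card : ℝ) := by
  have h1 := sum_wt_mul hb (fun _ => (1 : ℝ))
  simp only [mul_one] at h1
  rw [h1, Finset.sum_const, Fintype.card_piFinset, nsmul_eq_mul, mul_one]
  push_cast
  rw [← Finset.prod_mul_distrib]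
  apply Finset.prod_congr rfl
  intro i _
  have h2 := hb.card_pos ha hA i
  field_simp

theorem prodA_pos [Fintype ι] {A : ι → Finset V} (hA : ∀ i, (A i).Nonempty) :
    (0 : ℝ) < ∏ i, ((A i).card : ℝ) := Finset.prod_pos (fun i _ => by
  exact_mod_cast Finset.card_pos.mpr (hA i))

/-- the law of the images of the neighbours for a good centre `b` -/
theorem sum_img [Fintype ι] [DecidableEq ι] {A : ι → Finset V} {R : ι → V → V → Prop} {al : ℝ}
    {b : V} (ha : 0 < al) (hA : ∀ i, (A i).Nonempty) (hb : GoodB A R al b) (f : (ι → V) → ℝ) :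
    ∑ X ∈ Fintype.piFinset (nb A R b), (∏ i, 1 / ((nb A R b i).card : ℝ)) * f X =
      1 / (∏ i, ((A i).card : ℝ)) * ∑ X ∈ Fintype.piFinset A, wt A R al b X * f X := by
  rw [sum_wt_mul hb f, ← Finset.mul_sum, ← mul_assoc]
  congr 1
  rw [Finset.prod_div_distrib, Finset.prod_div_distrib, Finset.prod_const_one]
  have h3 := prodA_pos hA
  have h4 : (0 : ℝ) < ∏ i, ((nb A R b i).card : ℝ) := Finset.prod_pos (fun i _ =>
    hb.card_pos ha hA i)
  field_simp

/-- summed over the good centres -/
theorem sum_good_img [Fintype ι] [DecidableEq ι] {A : ι → Finset V} {R : ι → V → V → Prop}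
    {al : ℝ} (ha : 0 < al) (hA : ∀ i, (A i).Nonempty) (C : Finset V) (f : (ι → V) → ℝ) :
    ∑ b ∈ C.filter (fun b => GoodB A R al b), ∑ X ∈ Fintype.piFinset (nb A R b),
      (∏ i, 1 / ((nb A R b i).card : ℝ)) * f X =
      1 / (∏ i, ((A i).card : ℝ)) * ∑ X ∈ Fintype.piFinset A, Wt C A R al X * f X := by
  rw [Finset.sum_filter]
  have h1 : ∀ b ∈ C, (if GoodB A R al b then ∑ X ∈ Fintype.piFinset (nb A R b),
      (∏ i, 1 / ((nb A R b i).card : ℝ)) * f X else 0)
      = 1 / (∏ i, ((A i).card : ℝ)) *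
        ∑ X ∈ Fintype.piFinset A, wt A R al b X * f X := by
    intro b hb
    split_ifs with hg
    · exact sum_img ha hA hg f
    · have h2 : ∑ X ∈ Fintype.piFinset A, wt A R al b X * f X = 0 := by
        apply Finset.sum_eq_zero
        intro X _
        unfold wt
        rw [if_neg (fun h => hg h.1), zero_mul]
      rw [h2, mul_zero]
  rw [Finset.sum_congr rfl h1, ← Finset.mul_sum, Finset.sum_comm]
  congr 1
  apply Finset.sum_congr rfl
  intro X _
  unfold Wt
  rw [Finset.sum_mul]

/-- F1 -/
theorem F1 [Fintype ι] [DecidableEq ι] {A : ι → Finset V} {R : ι → V → V → Prop} {al : ℝ}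
    (ha : 0 < al) (hA : ∀ i, (A i).Nonempty) (C : Finset V) {th : ℝ} (hth : 0 ≤ th) :
    ∑ b ∈ C.filter (fun b => GoodB A R al b), ∑ X ∈ Fintype.piFinset (nb A R b),
      (∏ i, 1 / ((nb A R b i).card : ℝ)) *
        (if Wt C A R al X < th * C.card then (1 : ℝ) else 0) ≤ th * C.card := by
  rw [sum_good_img ha hA C (fun X => if Wt C A R al X < th * C.card then (1 : ℝ) else 0)]
  have h3 := prodA_pos hA
  have h1 : ∑ X ∈ Fintype.piFinset A, Wt C A R al X *
      (if Wt C A R al X < th * C.card then (1 : ℝ) else 0) ≤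
      (∏ i, ((A i).card : ℝ)) * (th * C.card) := by
    calc ∑ X ∈ Fintype.piFinset A, Wt C A R al X *
          (if Wt C A R al X < th * C.card then (1 : ℝ) else 0)
        ≤ ∑ _X ∈ Fintype.piFinset A, th * (C.card : ℝ) := by
          apply Finset.sum_le_sum
          intro X _
          split_ifs with h
          · linarith
          · rw [mul_zero]; positivity
      _ = (∏ i, ((A i).card : ℝ)) * (th * C.card) := by
          rw [Finset.sum_const, Fintype.card_piFinset, nsmul_eq_mul]
          push_cast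
          rfl
  calc 1 / (∏ i, ((A i).card : ℝ)) *
        ∑ X ∈ Fintype.piFinset A, Wt C A R al X *
          (if Wt C A R al X < th * C.card then (1 : ℝ) else 0)
      ≤ 1 / (∏ i, ((A i).card : ℝ)) * ((∏ i, ((A i).card : ℝ)) * (th * C.card)) :=
        mul_le_mul_of_nonneg_left h1 (by positivity)
    _ = th * C.card := by field_simp

theorem best_spec [Fintype ι] (C : Finset V) (A : ι → Finset V) (R : ι → V → V → Prop) (al : ℝ)
    (K : ℕ) (X : ι → V) {k : ℕ} (hk : k ≤ K) :
    ∑ b ∈ cl C A R al X k, wt A R al b X ≤ ∑ b ∈ heavy C A R al K X, wt A R al b X :=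
  (Finset.exists_max_image (range (K + 1)) (fun k => ∑ b ∈ cl C A R al X k, wt A R al b X)
    ⟨0, Finset.mem_range.mpr (Nat.succ_pos K)⟩).choose_spec.2 k
    (Finset.mem_range.mpr (Nat.lt_succ_of_le hk))

theorem heavy_subset [Fintype ι] (C : Finset V) (A : ι → Finset V) (R : ι → V → V → Prop)
    (al : ℝ) (K : ℕ) (X : ι → V) : heavy C A R al K X ⊆ C := Finset.filter_subset _ _

theorem heavy_wt [Fintype ι] {C : Finset V} {A : ι → Finset V} {R : ι → V → V → Prop} {al : ℝ}
    {K : ℕ} {X : ι → V} {b : V} (h : b ∈ heavy C A R al K X) : wt A R al b X ≠ 0 := by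
  unfold heavy cl at h
  exact (Finset.mem_filter.mp h).2.1

/-- members of `heavy` are adjacent to all images of the neighbours -/
theorem heavy_adj [Fintype ι] {C : Finset V} {A : ι → Finset V} {R : ι → V → V → Prop} {al : ℝ}
    {K : ℕ} {X : ι → V} {b : V} (h : b ∈ heavy C A R al K X) (i : ι) : R i b (X i) :=
  (Finset.mem_filter.mp ((wt_ne (heavy_wt h)).2 i)).2

theorem cl_two [Fintype ι] {C : Finset V} {A : ι → Finset V} {R : ι → V → V → Prop} {al : ℝ}
    (ha : 0 < al) (hA : ∀ i, (A i).Nonempty) {X : ι → V} {k : ℕ} {b b' : V}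
    (hb : b ∈ cl C A R al X k) (hb' : b' ∈ cl C A R al X k) :
    wt A R al b' X ≤ 2 * wt A R al b X := by
  unfold cl at hb hb'
  rw [Finset.mem_filter] at hb hb'
  have h1 := one_le_wt ha hA hb.2.1
  have h1' := one_le_wt ha hA hb'.2.1
  have hf : ⌊wt A R al b X⌋₊ ≠ 0 := by
    have := (Nat.one_le_floor_iff _).mpr h1
    omega
  have hf' : ⌊wt A R al b' X⌋₊ ≠ 0 := by
    have := (Nat.one_le_floor_iff _).mpr h1'
    omega
  have h2 : 2 ^ k ≤ ⌊wt A R al b X⌋₊ := by
    have := Nat.pow_log_le_self 2 hf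
    rwa [hb.2.2] at this
  have h3 : ⌊wt A R al b' X⌋₊ + 1 ≤ 2 ^ (k + 1) := by
    have := Nat.lt_pow_succ_log_self (b := 2) (by norm_num) ⌊wt A R al b' X⌋₊
    rw [hb'.2.2] at this
    exact this
  have h4 : ((2 : ℝ) ^ k) ≤ wt A R al b X := by
    have h5 : ((2 ^ k : ℕ) : ℝ) ≤ (⌊wt A R al b X⌋₊ : ℝ) := by exact_mod_cast h2
    have h6 := Nat.floor_le (by linarith : 0 ≤ wt A R al b X)
    push_cast at h5
    linarith
  have h7 : wt A R al b' X ≤ (2 : ℝ) ^ (k + 1) := by
    have h5 : ((⌊wt A R al b' X⌋₊ + 1 : ℕ) : ℝ) ≤ ((2 ^ (k + 1) : ℕ) : ℝ) := by exact_mod_cast h3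
    have h6 := (Nat.lt_floor_add_one (wt A R al b' X)).le
    push_cast at h5
    linarith
  calc wt A R al b' X ≤ (2 : ℝ) ^ (k + 1) := h7
    _ = 2 * 2 ^ k := by ring
    _ ≤ 2 * wt A R al b X := by linarith

/-- the best class carries a fraction `1 / (K + 1)` of the weight -/
theorem Wt_le_heavy [Fintype ι] {A : ι → Finset V} {R : ι → V → V → Prop} {al : ℝ} (ha : 0 < al)
    (hA : ∀ i, (A i).Nonempty) (C : Finset V) {K : ℕ}
    (hK : (1 / al) ^ Fintype.card ι ≤ 2 ^ K) (X : ι → V) :
    Wt C A R al X ≤ ((K : ℝ) + 1) * ∑ b ∈ heavy C A R al K X, wt A R al b X := by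
  have h1 : Wt C A R al X = ∑ b ∈ C.filter (fun b => wt A R al b X ≠ 0), wt A R al b X := by
    unfold Wt
    rw [Finset.sum_filter_ne_zero]
  have h2 : ∑ b ∈ C.filter (fun b => wt A R al b X ≠ 0), wt A R al b X =
      ∑ k ∈ range (K + 1), ∑ b ∈ cl C A R al X k, wt A R al b X := by
    have h3 := Finset.sum_fiberwise_of_maps_to (s := C.filter (fun b => wt A R al b X ≠ 0))
      (t := range (K + 1)) (g := fun b => Nat.log 2 ⌊wt A R al b X⌋₊)
      (fun b hb => by
        rw [Finset.mem_filter] at hb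
        rw [Finset.mem_range]
        apply Nat.log_lt_of_lt_pow
        · have := (Nat.one_le_floor_iff _).mpr (one_le_wt ha hA hb.2)
          omega
        · have h4 : wt A R al b X < ((2 ^ (K + 1) : ℕ) : ℝ) := by
            push_cast
            have h5 : (2 : ℝ) ^ K < 2 ^ (K + 1) := by
              rw [pow_succ]
              have : (0 : ℝ) < 2 ^ K := by positivity
              linarith
            exact lt_of_le_of_lt (le_trans (wt_le ha hA) hK) h5
          exact (Nat.floor_lt (wt_nonneg A R al b X)).mpr h4)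
      (fun b => wt A R al b X)
    rw [← h3]
    apply Finset.sum_congr rfl
    intro k _
    apply Finset.sum_congr
    · ext b
      unfold cl
      simp only [Finset.mem_filter]
      tauto
    · intro b _; rfl
  rw [h1, h2]
  calc ∑ k ∈ range (K + 1), ∑ b ∈ cl C A R al X k, wt A R al b X
      ≤ ∑ _k ∈ range (K + 1), ∑ b ∈ heavy C A R al K X, wt A R al b X := by
        apply Finset.sum_le_sum
        intro k hk
        exact best_spec C A R al K X (Nat.lt_succ_iff.mp (Finset.mem_range.mp hk))
    _ = ((K : ℝ) + 1) * ∑ b ∈ heavy C A R al K X, wt A R al b X := by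
        rw [Finset.sum_const, Finset.card_range, nsmul_eq_mul]
        push_cast
        rfl

/-- F3 -/
theorem F3 [Fintype ι] {A : ι → Finset V} {R : ι → V → V → Prop} {al : ℝ} (ha : 0 < al)
    (hA : ∀ i, (A i).Nonempty) (C : Finset V) {K : ℕ}
    (hK : (1 / al) ^ Fintype.card ι ≤ 2 ^ K) (X : ι → V) {th : ℝ}
    (hth : th * C.card ≤ Wt C A R al X) :
    th * C.card * al ^ Fintype.card ι ≤ ((K : ℝ) + 1) * (heavy C A R al K X).card := by
  have h1 := Wt_le_heavy ha hA C hK (R := R) X
  have h2 : ∑ b ∈ heavy C A R al K X, wt A R al b X ≤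
      (heavy C A R al K X).card * (1 / al) ^ Fintype.card ι := by
    calc ∑ b ∈ heavy C A R al K X, wt A R al b X
        ≤ ∑ _b ∈ heavy C A R al K X, (1 / al) ^ Fintype.card ι :=
          Finset.sum_le_sum (fun b _ => wt_le ha hA)
      _ = _ := by rw [Finset.sum_const, nsmul_eq_mul]
  have h3 : (0 : ℝ) < (K : ℝ) + 1 := by positivity
  have h4 : th * C.card ≤ ((K : ℝ) + 1) *
      ((heavy C A R al K X).card * (1 / al) ^ Fintype.card ι) :=
    le_trans hth (le_trans h1 (mul_le_mul_of_nonneg_left h2 h3.le))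
  have h5 : (1 / al) ^ Fintype.card ι * al ^ Fintype.card ι = 1 := by
    rw [← mul_pow, one_div, inv_mul_cancel₀ ha.ne', one_pow]
  calc th * C.card * al ^ Fintype.card ι
      ≤ (((K : ℝ) + 1) * ((heavy C A R al K X).card * (1 / al) ^ Fintype.card ι)) *
        al ^ Fintype.card ι := mul_le_mul_of_nonneg_right h4 (by positivity)
    _ = ((K : ℝ) + 1) * (heavy C A R al K X).card * ((1 / al) ^ Fintype.card ι *
        al ^ Fintype.card ι) := by ring
    _ = ((K : ℝ) + 1) * (heavy C A R al K X).card := by rw [h5]; ring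

/-- F2 -/
theorem F2 [Fintype ι] [DecidableEq ι] {A : ι → Finset V} {R : ι → V → V → Prop} {al : ℝ}
    (ha : 0 < al) (hA : ∀ i, (A i).Nonempty) (C : Finset V) {K : ℕ}
    (hK : (1 / al) ^ Fintype.card ι ≤ 2 ^ K) (b0 : V) :
    ∑ b ∈ C.filter (fun b => GoodB A R al b), ∑ X ∈ Fintype.piFinset (nb A R b),
      (∏ i, 1 / ((nb A R b i).card : ℝ)) *
        (if b0 ∈ heavy C A R al K X then 1 / ((heavy C A R al K X).card : ℝ) else 0) ≤
      2 * ((K : ℝ) + 1) := by
  rw [sum_good_img ha hA C (fun X => if b0 ∈ heavy C A R al K X then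
        1 / ((heavy C A R al K X).card : ℝ) else 0)]
  have h3 := prodA_pos hA
  have hpt : ∀ X, Wt C A R al X * (if b0 ∈ heavy C A R al K X then
        1 / ((heavy C A R al K X).card : ℝ) else 0) ≤ 2 * ((K : ℝ) + 1) * wt A R al b0 X := by
    intro X
    split_ifs with h
    · have h1 := Wt_le_heavy ha hA C hK (R := R) X
      have hc : (0 : ℝ) < (heavy C A R al K X).card := by
        exact_mod_cast Finset.card_pos.mpr ⟨b0, h⟩
      have h2 : ∑ b ∈ heavy C A R al K X, wt A R al b X ≤
          (heavy C A R al K X).card * (2 * wt A R al b0 X) := by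
        calc ∑ b ∈ heavy C A R al K X, wt A R al b X
            ≤ ∑ _b ∈ heavy C A R al K X, 2 * wt A R al b0 X :=
              Finset.sum_le_sum (fun b hb => cl_two ha hA h hb)
          _ = _ := by rw [Finset.sum_const, nsmul_eq_mul]
      rw [mul_one_div, div_le_iff₀ hc]
      calc Wt C A R al X ≤ ((K : ℝ) + 1) * ∑ b ∈ heavy C A R al K X, wt A R al b X := h1
        _ ≤ ((K : ℝ) + 1) * ((heavy C A R al K X).card * (2 * wt A R al b0 X)) :=
            mul_le_mul_of_nonneg_left h2 (by positivity)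
        _ = 2 * ((K : ℝ) + 1) * wt A R al b0 X * (heavy C A R al K X).card := by ring
    · rw [mul_zero]
      have := wt_nonneg A R al b0 X
      positivity
  have hsum : ∑ X ∈ Fintype.piFinset A, Wt C A R al X * (if b0 ∈ heavy C A R al K X then
        1 / ((heavy C A R al K X).card : ℝ) else 0) ≤
      2 * ((K : ℝ) + 1) * ∏ i, ((A i).card : ℝ) := by
    calc ∑ X ∈ Fintype.piFinset A, Wt C A R al X * (if b0 ∈ heavy C A R al K X then
        1 / ((heavy C A R al K X).card : ℝ) else 0)
        ≤ ∑ X ∈ Fintype.piFinset A, 2 * ((K : ℝ) + 1) * wt A R al b0 X :=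
          Finset.sum_le_sum (fun X _ => hpt X)
      _ = 2 * ((K : ℝ) + 1) * ∑ X ∈ Fintype.piFinset A, wt A R al b0 X := by
          rw [Finset.mul_sum]
      _ ≤ 2 * ((K : ℝ) + 1) * ∏ i, ((A i).card : ℝ) := by
          apply mul_le_mul_of_nonneg_left _ (by positivity)
          by_cases hg : GoodB A R al b0
          · exact (sum_wt ha hA hg).le
          · have h4 : ∑ X ∈ Fintype.piFinset A, wt A R al b0 X = 0 := by
              apply Finset.sum_eq_zero
              intro X _
              unfold wt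
              rw [if_neg (fun h => hg h.1)]
            rw [h4]
            exact h3.le
  calc 1 / (∏ i, ((A i).card : ℝ)) *
        ∑ X ∈ Fintype.piFinset A, Wt C A R al X * (if b0 ∈ heavy C A R al K X then
        1 / ((heavy C A R al K X).card : ℝ) else 0)
      ≤ 1 / (∏ i, ((A i).card : ℝ)) * (2 * ((K : ℝ) + 1) * ∏ i, ((A i).card : ℝ)) :=
        mul_le_mul_of_nonneg_left hsum (by positivity)
    _ = 2 * ((K : ℝ) + 1) := by field_simp

end Pool.Agent.HC
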