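import Pool.Agent.HC.Pick
import Pool.Agent.HC.Post

/-!
# HC : the random placement (definitions; note 2854, section 4)

Coordinates: `Sum.inl w` (centre `w : Om`) and `Sum.inr v` (cube vertex `v`), values in `Sd N`.
Even vertices `x` go to `phi .. z x`, odd vertices `y` to `psi .. z y`.
-/

namespace Pool.Agent.HC

open Finset Classical
open Pool.Agent.H23.RS

/-- the coordinates -/
abbrev Ix (d : ℕ) (Om : Type) : Type := Om ⊕ Finset (Fin d)

/-- All the data of the placement. -/
structure Data (N d M D0 K : ℕ) (Om : Type) where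
  T : Fin N → Fin N → Prop
  W : ℕ → Finset (Fin N)
  C : ℕ → Finset (Fin N)
  cl : Cells d M D0 Om
  nu : ℝ
  al : ℝ
  th : ℝ

variable {N d M D0 K : ℕ} [NeZero N] {Om : Type}

namespace Data

variable (P : Data N d M D0 K Om)

/-- the centre `w` -/
noncomputable def bet (z : Ix d Om → Sd N) (w : Om) : Fin N := pick (P.C (P.cl.cls w)) (z (Sum.inl w))

noncomputable def blo (z : Ix d Om → Sd N) (x : Finset (Fin d)) : Fin M → Fin N :=
  fun i => P.bet z (P.cl.lo x i)

noncomputable def bup (z : Ix d Om → Sd N) (x : Finset (Fin d)) : Fin M → Fin N :=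
  fun i => P.bet z (P.cl.up x i)

/-- the candidates of the even vertex `x` -/
noncomputable def Ast (z : Ix d Om → Sd N) (x : Finset (Fin d)) : Finset (Fin N) :=
  com P.T (P.W (x.card + 4)) (P.blo z x) (P.bup z x)

/-- the tuple of centres of `x` is good -/
def okx (z : Ix d Om → Sd N) (x : Finset (Fin d)) : Prop :=
  Good P.T (P.W (x.card + 4)) P.nu P.al (P.blo z x) (P.bup z x)

noncomputable def phi (z : Ix d Om → Sd N) (x : Finset (Fin d)) : Fin N :=
  pick (P.Ast z x) (z (Sum.inr x))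

/-- the position of the centre of `y` in the list of its neighbour `flip y a` -/
noncomputable def jj (y : Finset (Fin d)) (a : Fin d) : Fin M :=
  if h : a ∈ y then (P.cl.cen_up y a h).choose else (P.cl.cen_lo y a h).choose

/-- the candidates of the neighbour `flip y a` of the odd vertex `y`, the centre of `y` ignored -/
noncomputable def Ay (z : Ix d Om → Sd N) (y : Finset (Fin d)) (a : Fin d) : Finset (Fin N) :=
  if a ∈ y then comR P.T (P.W ((flip y a).card + 4)) (P.blo z (flip y a)) (P.bup z (flip y a)) (P.jj y a)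
  else comL P.T (P.W ((flip y a).card + 4)) (P.blo z (flip y a)) (P.bup z (flip y a)) (P.jj y a)

/-- adjacency to the centre `b` of `y` in the right direction -/
def Ry (y : Finset (Fin d)) (a : Fin d) (b v : Fin N) : Prop :=
  if a ∈ y then P.T v b else P.T b v

/-- the total weight at `y` -/
noncomputable def Wy (z : Ix d Om → Sd N) (y : Finset (Fin d)) : ℝ :=
  Wt (P.C (y.card + 4)) (P.Ay z y) (P.Ry y) P.al (fun a => P.phi z (flip y a))

/-- the heavy class at `y` -/
noncomputable def Hy (z : Ix d Om → Sd N) (y : Finset (Fin d)) : Finset (Fin N) :=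
  heavy (P.C (y.card + 4)) (P.Ay z y) (P.Ry y) P.al K (fun a => P.phi z (flip y a))

noncomputable def psi (z : Ix d Om → Sd N) (y : Finset (Fin d)) : Fin N :=
  pick (P.Hy z y) (z (Sum.inr y))

/-- all neighbours of the odd vertex `y` have good tuples -/
def oky (z : Ix d Om → Sd N) (y : Finset (Fin d)) : Prop := ∀ a, P.okx z (flip y a)

/-- the variables of an even vertex -/
noncomputable def Vx (x : Finset (Fin d)) : Finset (Ix d Om) :=
  {Sum.inr x} ∪ (univ.image fun i => Sum.inl (P.cl.lo x i)) ∪ (univ.image fun i => Sum.inl (P.cl.up x i))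

/-- the variables of a cube vertex -/
noncomputable def Vr (v : Finset (Fin d)) : Finset (Ix d Om) :=
  if Even v.card then P.Vx v else {Sum.inr v} ∪ univ.biUnion fun a => P.Vx (flip v a)

/-- The hypotheses of the placement. -/
structure Ok [Fintype Om] (e1 c0 L : ℝ) : Prop where
  dpos : 0 < d
  disj : ∀ i j, i ≠ j → i ≤ d + 4 → j ≤ d + 4 → 4 ≤ i → 4 ≤ j → Disjoint (P.W i) (P.W j)
  CW : ∀ l, Odd l → 3 ≤ l → l ≤ d + 5 → P.C l ⊆ P.W l
  bad : ∀ m, Even m → 4 ≤ m → m ≤ d + 4 → (nbad P.T (P.W m) P.nu P.al M (P.C (m - 1)) (P.C (m + 1)) : ℝ) ≤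
    e1 * (((P.C (m - 1)).card : ℝ) ^ M * ((P.C (m + 1)).card : ℝ) ^ M)
  c0pos : 0 < c0
  Cc : ∀ l, Odd l → 3 ≤ l → l ≤ d + 5 → c0 ≤ ((P.C l).card : ℝ)
  Lpos : 0 < L
  Wc : ∀ m, Even m → 4 ≤ m → m ≤ d + 4 → L ≤ P.nu * ((P.W m).card : ℝ)
  al0 : 0 < P.al
  al1 : P.al ≤ 1
  th0 : 0 < P.th
  hK : (1 / P.al) ^ d ≤ 2 ^ K

end Data

end Pool.Agent.HC
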