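import Pool.Agent.HC.Conf

/-!
# HC block E-D : dependencies of the placement
-/

namespace Pool.Agent.HC

open Finset Classical
open Pool.Agent.H23.RS

variable {N d M D0 K : ℕ} [NeZero N] {Om : Type} [Fintype Om]

namespace Data

variable {P : Data N d M D0 K Om}

omit [Fintype Om] in
theorem congr_blo {x : Finset (Fin d)} {z z' : Ix d Om → Sd N} (h : ∀ v ∈ P.Vx x, z v = z' v) :
    P.blo z x = P.blo z' x := by
  funext i
  unfold blo bet
  rw [h]
  unfold Vx
  exact Finset.mem_union_left _ (Finset.mem_union_right _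
    (Finset.mem_image_of_mem _ (Finset.mem_univ i)))

omit [Fintype Om] in
theorem congr_bup {x : Finset (Fin d)} {z z' : Ix d Om → Sd N} (h : ∀ v ∈ P.Vx x, z v = z' v) :
    P.bup z x = P.bup z' x := by
  funext i
  unfold bup bet
  rw [h]
  unfold Vx
  exact Finset.mem_union_right _ (Finset.mem_image_of_mem _ (Finset.mem_univ i))

omit [Fintype Om] in
theorem congr_phi {x : Finset (Fin d)} {z z' : Ix d Om → Sd N} (h : ∀ v ∈ P.Vx x, z v = z' v) :
    P.phi z x = P.phi z' x := by
  unfold phi Ast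
  rw [congr_blo h, congr_bup h, h (Sum.inr x)]
  unfold Vx
  exact Finset.mem_union_left _ (Finset.mem_union_left _ (Finset.mem_singleton_self _))

omit [Fintype Om] in
/-- the variables of a neighbour of the odd vertex `y` are variables of `y` -/
theorem Vx_sub_Vr {y : Finset (Fin d)} (hy : ¬ Even y.card) (a : Fin d) :
    P.Vx (flip y a) ⊆ P.Vr y := by
  unfold Vr
  rw [if_neg hy]
  exact (Finset.subset_biUnion_of_mem (fun a => P.Vx (flip y a)) (Finset.mem_univ a)).trans
    Finset.subset_union_right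

omit [Fintype Om] in
theorem congr_Ay {y : Finset (Fin d)} (hy : ¬ Even y.card) {z z' : Ix d Om → Sd N}
    (h : ∀ v ∈ P.Vr y, z v = z' v) : P.Ay z y = P.Ay z' y := by
  funext a
  have ha : ∀ v ∈ P.Vx (flip y a), z v = z' v := fun v hv => h v (Vx_sub_Vr hy a hv)
  unfold Ay
  rw [congr_blo ha, congr_bup ha]

omit [Fintype Om] in
theorem congr_phis {y : Finset (Fin d)} (hy : ¬ Even y.card) {z z' : Ix d Om → Sd N}
    (h : ∀ v ∈ P.Vr y, z v = z' v) :
    (fun a => P.phi z (flip y a)) = fun a => P.phi z' (flip y a) := by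
  funext a
  exact congr_phi fun v hv => h v (Vx_sub_Vr hy a hv)

omit [Fintype Om] in
theorem congr_Wy {y : Finset (Fin d)} (hy : ¬ Even y.card) {z z' : Ix d Om → Sd N}
    (h : ∀ v ∈ P.Vr y, z v = z' v) : P.Wy z y = P.Wy z' y := by
  unfold Wy
  rw [congr_Ay hy h, congr_phis hy h]

omit [Fintype Om] in
theorem congr_Hy {y : Finset (Fin d)} (hy : ¬ Even y.card) {z z' : Ix d Om → Sd N}
    (h : ∀ v ∈ P.Vr y, z v = z' v) : P.Hy z y = P.Hy z' y := by
  unfold Hy
  rw [congr_Ay hy h, congr_phis hy h]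

omit [Fintype Om] in
theorem congr_psi {y : Finset (Fin d)} (hy : ¬ Even y.card) {z z' : Ix d Om → Sd N}
    (h : ∀ v ∈ P.Vr y, z v = z' v) : P.psi z y = P.psi z' y := by
  unfold psi
  rw [congr_Hy hy h, h (Sum.inr y)]
  unfold Vr
  rw [if_neg hy]
  exact Finset.mem_union_left _ (Finset.mem_singleton_self _)

omit [Fintype Om] in
theorem dep_okx (x : Finset (Fin d)) : DepOn (P.Vx x) (fun z => P.okx z x) := by
  intro z z' h hA
  unfold okx at hA ⊢
  rwa [← congr_blo h, ← congr_bup h]

omit [Fintype Om] in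
theorem dep_phi (x : Finset (Fin d)) (v : Fin N) : DepOn (P.Vx x) (fun z => P.phi z x = v) := by
  intro z z' h hA
  rwa [← congr_phi h]

omit [Fintype Om] in
theorem dep_oky (y : Finset (Fin d)) (hy : ¬ Even y.card) : DepOn (P.Vr y) (fun z => P.oky z y) := by
  intro z z' h hA a
  exact dep_okx (flip y a) z z' (fun v hv => h v (Vx_sub_Vr hy a hv)) (hA a)

omit [Fintype Om] in
theorem dep_Wy (y : Finset (Fin d)) (hy : ¬ Even y.card) (s : ℝ) :
    DepOn (P.Vr y) (fun z => P.Wy z y < s) := by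
  intro z z' h hA
  rwa [← congr_Wy hy h]

omit [Fintype Om] in
theorem dep_psi (y : Finset (Fin d)) (hy : ¬ Even y.card) (v : Fin N) :
    DepOn (P.Vr y) (fun z => P.psi z y = v) := by
  intro z z' h hA
  rwa [← congr_psi hy h]

end Data

end Pool.Agent.HC
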