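import Pool.Agent.HC.Conf

/-!
# HC block E-0 : the tuple of an even vertex is good with probability `≥ 1 - e1`

Sum over the pairs of tuples `(b1, b2)` in `pairs M (C (#x+3)) (C (#x+5))` which are not `Good`:
`Pr (blo = b1 ∧ bup = b2) = 1 / (#C1^M #C2^M)` by `Pr_pick` with the `2 M` distinct coordinates
`Sum.inl (lo x i)`, `Sum.inl (up x i)` (injective, different classes); `P.bad`.
-/

namespace Pool.Agent.HC

open Finset Classical
open Pool.Agent.H23.RS

variable {N d M D0 K : ℕ} [NeZero N] {Om : Type} [Fintype Om]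

namespace Data

variable {P : Data N d M D0 K Om} {e1 c0 L : ℝ}

/-- the probability of prescribed centres below and above `x` -/
theorem pE0_pair (x : Finset (Fin d)) (b1 b2 : Fin M → Fin N)
    (h1 : ∀ i, b1 i ∈ P.C (x.card + 3)) (h2 : ∀ i, b2 i ∈ P.C (x.card + 5)) :
    Pr (fun z => P.blo z x = b1 ∧ P.bup z x = b2) ≤
      (1 / ((P.C (x.card + 3)).card : ℝ)) ^ M * (1 / ((P.C (x.card + 5)).card : ℝ)) ^ M := by
  set I1 : Finset (Ix d Om) := univ.image fun i : Fin M => Sum.inl (P.cl.lo x i) with hI1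
  set I2 : Finset (Ix d Om) := univ.image fun i : Fin M => Sum.inl (P.cl.up x i) with hI2
  set S : Ix d Om → Finset (Fin N) := fun v => Sum.elim (fun w => P.C (P.cl.cls w)) (fun _ => ∅) v
    with hS
  set a : Ix d Om → Fin N := fun v => Sum.elim
    (fun w => if h : ∃ i, P.cl.lo x i = w then b1 h.choose else
      if h' : ∃ i, P.cl.up x i = w then b2 h'.choose else 0) (fun _ => 0) v with ha
  have hne : ∀ i j, P.cl.lo x i ≠ P.cl.up x j := by
    intro i j h
    have e1 := P.cl.cls_lo x i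
    have e2 := P.cl.cls_up x j
    rw [h] at e1
    omega
  have ha1 : ∀ i, a (Sum.inl (P.cl.lo x i)) = b1 i := by
    intro i
    have hex : ∃ j, P.cl.lo x j = P.cl.lo x i := ⟨i, rfl⟩
    simp only [ha, Sum.elim_inl, dif_pos hex]
    exact congrArg b1 (P.cl.lo_inj x hex.choose_spec)
  have ha2 : ∀ i, a (Sum.inl (P.cl.up x i)) = b2 i := by
    intro i
    have hno : ¬ ∃ j, P.cl.lo x j = P.cl.up x i := by
      rintro ⟨j, hj⟩
      exact hne j i hj
    have hex : ∃ j, P.cl.up x j = P.cl.up x i := ⟨i, rfl⟩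
    simp only [ha, Sum.elim_inl, dif_neg hno, dif_pos hex]
    exact congrArg b2 (P.cl.up_inj x hex.choose_spec)
  have hS1 : ∀ i, S (Sum.inl (P.cl.lo x i)) = P.C (x.card + 3) := by
    intro i
    simp only [hS, Sum.elim_inl, P.cl.cls_lo]
  have hS2 : ∀ i, S (Sum.inl (P.cl.up x i)) = P.C (x.card + 5) := by
    intro i
    simp only [hS, Sum.elim_inl, P.cl.cls_up]
  have hmem : ∀ v ∈ I1 ∪ I2, a v ∈ S v := by
    intro v hv
    rcases mem_union.1 hv with hv | hv
    · obtain ⟨i, _, rfl⟩ := mem_image.1 hv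
      rw [ha1, hS1]
      exact h1 i
    · obtain ⟨i, _, rfl⟩ := mem_image.1 hv
      rw [ha2, hS2]
      exact h2 i
  have hdisj : Disjoint I1 I2 := by
    rw [disjoint_left]
    intro v hv hv'
    obtain ⟨i, _, rfl⟩ := mem_image.1 hv
    obtain ⟨j, _, hj⟩ := mem_image.1 hv'
    exact hne i j (Sum.inl_injective hj).symm
  have hc1 : I1.card = M := by
    have hinj : Function.Injective (fun i : Fin M => (Sum.inl (P.cl.lo x i) : Ix d Om)) :=
      Sum.inl_injective.comp (P.cl.lo_inj x)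
    rw [hI1, card_image_of_injective _ hinj, card_univ, Fintype.card_fin]
  have hc2 : I2.card = M := by
    have hinj : Function.Injective (fun i : Fin M => (Sum.inl (P.cl.up x i) : Ix d Om)) :=
      Sum.inl_injective.comp (P.cl.up_inj x)
    rw [hI2, card_image_of_injective _ hinj, card_univ, Fintype.card_fin]
  have hprod : ∏ v ∈ I1 ∪ I2, (1 / ((S v).card : ℝ)) =
      (1 / ((P.C (x.card + 3)).card : ℝ)) ^ M * (1 / ((P.C (x.card + 5)).card : ℝ)) ^ M := by
    rw [prod_union hdisj]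
    congr 1
    · rw [prod_congr rfl (g := fun _ => 1 / ((P.C (x.card + 3)).card : ℝ)), prod_const, hc1]
      intro v hv
      obtain ⟨i, _, rfl⟩ := mem_image.1 hv
      rw [hS1]
    · rw [prod_congr rfl (g := fun _ => 1 / ((P.C (x.card + 5)).card : ℝ)), prod_const, hc2]
      intro v hv
      obtain ⟨i, _, rfl⟩ := mem_image.1 hv
      rw [hS2]
  rw [← hprod, ← Pr_pick (I1 ∪ I2) S a hmem]
  refine Pr_mono ?_
  rintro z ⟨hz1, hz2⟩ v hv
  rcases mem_union.1 hv with hv | hv
  · obtain ⟨i, _, rfl⟩ := mem_image.1 hv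
    rw [ha1, ← hz1]
    rfl
  · obtain ⟨i, _, rfl⟩ := mem_image.1 hv
    rw [ha2, ← hz2]
    rfl

theorem pE0 (hP : P.Ok e1 c0 L) (x : Finset (Fin d)) (hx : Even x.card) :
    Pr (fun z => ¬ P.okx z x) ≤ e1 := by
  have hxd : x.card ≤ d := by
    simpa using card_le_univ x
  have ho3 : Odd (x.card + 3) := hx.add_odd (by decide)
  have ho5 : Odd (x.card + 5) := hx.add_odd (by decide)
  have hc3 := hP.Cc (x.card + 3) ho3 (by omega) (by omega)
  have hc5 := hP.Cc (x.card + 5) ho5 (by omega) (by omega)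
  have hp3 : (0 : ℝ) < (P.C (x.card + 3)).card := lt_of_lt_of_le hP.c0pos hc3
  have hp5 : (0 : ℝ) < (P.C (x.card + 5)).card := lt_of_lt_of_le hP.c0pos hc5
  have hn3 : (P.C (x.card + 3)).Nonempty := card_pos.1 (by exact_mod_cast hp3)
  have hn5 : (P.C (x.card + 5)).Nonempty := card_pos.1 (by exact_mod_cast hp5)
  have hbad := hP.bad (x.card + 4) (hx.add (by decide)) (by omega) (by omega)
  have hm1 : x.card + 4 - 1 = x.card + 3 := by omega
  have hm2 : x.card + 4 + 1 = x.card + 5 := by omega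
  rw [hm1, hm2] at hbad
  set F := (pairs M (P.C (x.card + 3)) (P.C (x.card + 5))).filter
    fun b => ¬ Good P.T (P.W (x.card + 4)) P.nu P.al b.1 b.2 with hF
  have hFc : (F.card : ℝ) ≤ e1 * (((P.C (x.card + 3)).card : ℝ) ^ M *
      ((P.C (x.card + 5)).card : ℝ) ^ M) := hbad
  have hle : Pr (fun z => ¬ P.okx z x) ≤
      Pr (fun z => ∃ b ∈ F, P.blo z x = b.1 ∧ P.bup z x = b.2) := by
    refine Pr_mono ?_
    intro z hz
    refine ⟨(P.blo z x, P.bup z x), ?_, rfl, rfl⟩
    rw [hF, mem_filter]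
    refine ⟨?_, hz⟩
    rw [pairs, mem_product, Fintype.mem_piFinset, Fintype.mem_piFinset]
    constructor
    · intro i
      have := pick_mem hn3 (z (Sum.inl (P.cl.lo x i)))
      simpa only [blo, bet, P.cl.cls_lo] using this
    · intro i
      have := pick_mem hn5 (z (Sum.inl (P.cl.up x i)))
      simpa only [bup, bet, P.cl.cls_up] using this
  refine hle.trans ((Pr_exists_le F _).trans ?_)
  calc ∑ b ∈ F, Pr (fun z => P.blo z x = b.1 ∧ P.bup z x = b.2)
      ≤ ∑ _b ∈ F, (1 / ((P.C (x.card + 3)).card : ℝ)) ^ M *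
          (1 / ((P.C (x.card + 5)).card : ℝ)) ^ M := by
        refine sum_le_sum fun b hb => ?_
        rw [hF, mem_filter, pairs, mem_product, Fintype.mem_piFinset, Fintype.mem_piFinset] at hb
        exact pE0_pair x b.1 b.2 hb.1.1 hb.1.2
    _ = (F.card : ℝ) * ((1 / ((P.C (x.card + 3)).card : ℝ)) ^ M *
          (1 / ((P.C (x.card + 5)).card : ℝ)) ^ M) := by
        rw [sum_const, nsmul_eq_mul]
    _ ≤ (e1 * (((P.C (x.card + 3)).card : ℝ) ^ M * ((P.C (x.card + 5)).card : ℝ) ^ M)) *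
          ((1 / ((P.C (x.card + 3)).card : ℝ)) ^ M *
          (1 / ((P.C (x.card + 5)).card : ℝ)) ^ M) :=
        mul_le_mul_of_nonneg_right hFc (by positivity)
    _ = e1 := by
        rw [one_div, one_div, inv_pow, inv_pow]
        have h3 : ((P.C (x.card + 3)).card : ℝ) ^ M ≠ 0 := (pow_pos hp3 M).ne'
        have h5 : ((P.C (x.card + 5)).card : ℝ) ^ M ≠ 0 := (pow_pos hp5 M).ne'
        field_simp

end Data

end Pool.Agent.HC
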