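import Pool.Agent.HC.ConfR

/-!
# HC block E-1b : the image of an odd vertex is almost uniform

Resample the coordinates `Sum.inl (cen y)`, `Sum.inr y`, `Sum.inr (flip y a)` (all `a`), the others are
fixed (`ConfR`, `rs_main`); then `F2`, `F3`.
-/

namespace Pool.Agent.HC

open Finset Classical
open Pool.Agent.H23.RS

variable {N d M D0 K : ℕ} [NeZero N] {Om : Type} [Fintype Om]

namespace Data

variable {P : Data N d M D0 K Om} {e1 c0 L : ℝ}

omit [NeZero N] in
theorem frac_zero (p : Sd N → Prop) (inst : DecidablePred p) (h : ∀ i, ¬ p i) :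
    ((@Finset.filter _ p inst univ).card : ℝ) / (Fintype.card (Sd N) : ℝ) ≤ 0 := by
  rw [Finset.filter_false_of_mem (fun i _ => h i), Finset.card_empty, Nat.cast_zero, zero_div]

omit [NeZero N] in
theorem frac_mono {q : Sd N → Prop} [DecidablePred q] (p : Sd N → Prop) (inst : DecidablePred p)
    (h : ∀ i, p i → q i) :
    ((@Finset.filter _ p inst univ).card : ℝ) / (Fintype.card (Sd N) : ℝ) ≤
      ((univ.filter q).card : ℝ) / (Fintype.card (Sd N) : ℝ) := by
  refine div_le_div_of_nonneg_right ?_ (Nat.cast_nonneg _)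
  have h1 : @Finset.filter _ p inst univ ⊆ univ.filter q := by
    intro i hi
    rw [Finset.mem_filter] at hi ⊢
    exact ⟨hi.1, h i hi.2⟩
  exact_mod_cast Finset.card_le_card h1

theorem pF2 (hP : P.Ok e1 c0 L) (y : Finset (Fin d)) (hy : ¬ Even y.card) (b0 : Fin N) :
    Pr (fun z => (P.oky z y ∧ P.th * (P.C (y.card + 4)).card ≤ P.Wy z y) ∧ P.psi z y = b0) ≤
      2 * (K + 1) / c0 := by
  have hc0 := hP.c0pos
  have hth := hP.th0
  have hal := hP.al0
  have hCne := C_nonempty hP y hy
  have hCpos : (0 : ℝ) < ((P.C (y.card + 4)).card : ℝ) := by exact_mod_cast hCne.card_pos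
  have hK : (1 / P.al) ^ Fintype.card (Fin d) ≤ 2 ^ K := by
    rw [Fintype.card_fin]
    exact hP.hK
  have hCc : c0 ≤ ((P.C (y.card + 4)).card : ℝ) := by
    have h1 : Odd (y.card + 4) := (Nat.not_even_iff_odd.mp hy).add_even (by decide)
    have h2 : y.card ≤ d := by
      have := Finset.card_le_univ y
      rwa [Fintype.card_fin] at this
    exact hP.Cc (y.card + 4) h1 (by omega) (by omega)
  have hp0 : (0 : ℝ) ≤ 2 * (K + 1) / c0 := by positivity
  refine rs_main hP y hy hp0 (fun A X i =>
    P.th * (P.C (y.card + 4)).card ≤ Wt (P.C (y.card + 4)) A (P.Ry y) P.al X ∧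
      pick (heavy (P.C (y.card + 4)) A (P.Ry y) P.al K X) i = b0)
    (fun z hz => ⟨hz.1.1, hz.1.2, hz.2⟩) (fun A hA => ?_)
  refine le_trans (Finset.sum_le_sum (fun b _ => Finset.sum_le_sum (fun X _ => ?_)))
    (le_trans (F2 (ι := Fin d) (A := A) (R := P.Ry y) hP.al0 hA (P.C (y.card + 4)) hK b0) ?_)
  · apply mul_le_mul_of_nonneg_left _ (Finset.prod_nonneg (fun a _ => by positivity))
    by_cases h : P.th * (P.C (y.card + 4)).card ≤ Wt (P.C (y.card + 4)) A (P.Ry y) P.al X
    · have hF3 := F3 (ι := Fin d) (A := A) (R := P.Ry y) hP.al0 hA (P.C (y.card + 4)) hK X h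
      have hne : (heavy (P.C (y.card + 4)) A (P.Ry y) P.al K X).Nonempty := by
        rw [Finset.nonempty_iff_ne_empty]
        intro he
        rw [he, Finset.card_empty, Nat.cast_zero, mul_zero] at hF3
        have : 0 < P.th * (P.C (y.card + 4)).card * P.al ^ Fintype.card (Fin d) := by positivity
        linarith
      by_cases hb : b0 ∈ heavy (P.C (y.card + 4)) A (P.Ry y) P.al K X
      · rw [if_pos hb, ← pick_count hb]
        exact frac_mono _ _ (fun i hi => hi.2)
      · rw [if_neg hb]
        exact frac_zero _ _ (fun i hi => hb (by rw [← hi.2]; exact pick_mem hne i))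
    · refine le_trans (frac_zero _ _ (fun i hi => h hi.1)) ?_
      split_ifs
      · positivity
      · exact le_rfl
  · rw [div_mul_eq_mul_div, le_div_iff₀ hc0]
    exact mul_le_mul_of_nonneg_left hCc (by positivity)

end Data

end Pool.Agent.HC
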