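import Pool.Agent.HC.ConfR
import Pool.Agent.HC.ConfE1b

/-!
# HC block E-1 : the probabilities at an odd vertex

Resample the coordinates `Sum.inl (cen y)`, `Sum.inr y`, `Sum.inr (flip y a)` (all `a`), the others are
fixed (`ConfR`, `rs_main`); then `F1`.
-/

namespace Pool.Agent.HC

open Finset Classical
open Pool.Agent.H23.RS

variable {N d M D0 K : ℕ} [NeZero N] {Om : Type} [Fintype Om]

namespace Data

variable {P : Data N d M D0 K Om} {e1 c0 L : ℝ}

theorem pE1 (hP : P.Ok e1 c0 L) (y : Finset (Fin d)) (hy : ¬ Even y.card) :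
    Pr (fun z => P.oky z y ∧ P.Wy z y < P.th * (P.C (y.card + 4)).card) ≤ P.th := by
  refine rs_main hP y hy hP.th0.le (fun A X _ =>
    Wt (P.C (y.card + 4)) A (P.Ry y) P.al X < P.th * (P.C (y.card + 4)).card)
    (fun z hz => hz) (fun A hA => ?_)
  refine le_trans (le_of_eq ?_) (F1 (ι := Fin d) (A := A) (R := P.Ry y) hP.al0 hA
    (P.C (y.card + 4)) hP.th0.le)
  have hS : (Fintype.card (Sd N) : ℝ) ≠ 0 := by
    have := Fintype.card_pos (α := Sd N)
    positivity
  refine Finset.sum_congr rfl (fun b _ => Finset.sum_congr rfl (fun X _ => ?_))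
  congr 1
  by_cases h : Wt (P.C (y.card + 4)) A (P.Ry y) P.al X < P.th * (P.C (y.card + 4)).card
  · rw [if_pos h, Finset.filter_true_of_mem (fun _ _ => h), Finset.card_univ, div_self hS]
  · rw [if_neg h, Finset.filter_false_of_mem (fun _ _ => h), Finset.card_empty, Nat.cast_zero,
      zero_div]

end Data

end Pool.Agent.HC
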