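import Pool.Agent.HC.Conf

/-!
# HC block E-2 : collisions of even vertices, collisions of near odd vertices

`pE2`: resample `Sum.inr x` only (`Pr_cond`): `Ast z x`, `phi z x'` are fixed, `okx` gives
`L ≤ nu * #W ≤ #(Ast z x)`, `pick_count_le`.
`pE3near`: resample `Sum.inr y` only: `Hy z y`, `psi z y'` are fixed (`y' ≠ y` odd), `F3` and `hs2` give
`s ≤ #(Hy z y)`.
-/

namespace Pool.Agent.HC

open Finset Classical
open Pool.Agent.H23.RS

variable {N d M D0 K : ℕ} [NeZero N] {Om : Type} [Fintype Om]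

namespace E2Aux

/-- Resampling of one coordinate `v` from which an element of `S z` is picked. -/
theorem Pr_one {Q : Type} [Fintype Q] (v : Q) (A : (Q → Sd N) → Prop)
    (S : (Q → Sd N) → Finset (Fin N)) (a : (Q → Sd N) → Fin N) {p : ℝ} (hp : 0 ≤ p)
    (hA : ∀ x y : Q → Sd N, (∀ u, u ≠ v → x u = y u) → A x → A y)
    (hS : ∀ x y : Q → Sd N, (∀ u, u ≠ v → x u = y u) → S x = S y)
    (ha : ∀ x y : Q → Sd N, (∀ u, u ≠ v → x u = y u) → a x = a y)
    (hne : ∀ x, A x → (S x).Nonempty) (hle : ∀ x, A x → 1 / ((S x).card : ℝ) ≤ p) :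
    Pr (fun z => A z ∧ pick (S z) (z v) = a z) ≤ p := by
  have hdep : DepOn ({v} : Finset Q)ᶜ A := by
    intro x y hxy hx
    exact hA x y (fun u hu => hxy u (by simpa using hu)) hx
  have hpw : ∀ x y : Q → Sd N, ∀ u, u ≠ v → (({v} : Finset Q).piecewise y x) u = x u := by
    intro x y u hu
    exact Finset.piecewise_eq_of_notMem _ _ _ (by simpa using hu)
  have hv : ∀ x y : Q → Sd N, (({v} : Finset Q).piecewise y x) v = y v := by
    intro x y
    exact Finset.piecewise_eq_of_mem _ _ _ (by simp)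
  have h := Pr_cond (V := Q) (Ω := Sd N) {v} (A := A)
    (B := fun z => pick (S z) (z v) = a z) hdep (p := p) (by
      intro x hx
      have h1 : (fun y : Q → Sd N => pick (S (({v} : Finset Q).piecewise y x))
          ((({v} : Finset Q).piecewise y x) v) = a (({v} : Finset Q).piecewise y x)) =
          fun y : Q → Sd N => ∀ w ∈ ({v} : Finset Q), pick (S x) (y w) = a x := by
        funext y
        rw [hS _ x (hpw x y), ha _ x (hpw x y), hv x y]
        simp
      rw [h1, Pr_coord ({v} : Finset Q) (fun _ i => pick (S x) i = a x), Finset.prod_singleton]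
      refine le_trans (le_of_eq_of_le ?_ (pick_count_le (hne x hx) (a x))) (hle x hx)
      exact congrArg (fun n : ℕ => (n : ℝ) / (Fintype.card (Sd N) : ℝ)) (card_filter_inst _ _ _ _))
  have h1 : Pr A ≤ 1 := le_trans (Pr_mono (B := fun _ => True) fun _ _ => trivial) Pr_true.le
  calc Pr (fun z => A z ∧ pick (S z) (z v) = a z) ≤ p * Pr A := h
    _ ≤ p * 1 := mul_le_mul_of_nonneg_left h1 hp
    _ = p := mul_one p

end E2Aux

open E2Aux

namespace Data

variable {P : Data N d M D0 K Om} {e1 c0 L : ℝ}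

omit [Fintype Om] in
theorem bet_inr {z z' : Ix d Om → Sd N} {v : Finset (Fin d)}
    (h : ∀ u, u ≠ Sum.inr v → z u = z' u) (w : Om) : P.bet z w = P.bet z' w := by
  unfold bet
  rw [h (Sum.inl w) (by simp)]

omit [Fintype Om] in
theorem blo_inr {z z' : Ix d Om → Sd N} {v : Finset (Fin d)}
    (h : ∀ u, u ≠ Sum.inr v → z u = z' u) (x : Finset (Fin d)) : P.blo z x = P.blo z' x := by
  funext i
  exact bet_inr h _

omit [Fintype Om] in
theorem bup_inr {z z' : Ix d Om → Sd N} {v : Finset (Fin d)}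
    (h : ∀ u, u ≠ Sum.inr v → z u = z' u) (x : Finset (Fin d)) : P.bup z x = P.bup z' x := by
  funext i
  exact bet_inr h _

omit [Fintype Om] in
theorem Ast_inr {z z' : Ix d Om → Sd N} {v : Finset (Fin d)}
    (h : ∀ u, u ≠ Sum.inr v → z u = z' u) (x : Finset (Fin d)) : P.Ast z x = P.Ast z' x := by
  unfold Ast
  rw [blo_inr h, bup_inr h]

omit [Fintype Om] in
theorem phi_inr {z z' : Ix d Om → Sd N} {v : Finset (Fin d)}
    (h : ∀ u, u ≠ Sum.inr v → z u = z' u) {x : Finset (Fin d)} (hx : x ≠ v) :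
    P.phi z x = P.phi z' x := by
  unfold phi
  rw [Ast_inr h, h (Sum.inr x) (by simpa using hx)]

omit [Fintype Om] in
theorem okx_inr {z z' : Ix d Om → Sd N} {v : Finset (Fin d)}
    (h : ∀ u, u ≠ Sum.inr v → z u = z' u) (x : Finset (Fin d)) (hz : P.okx z x) : P.okx z' x := by
  unfold okx at hz ⊢
  rw [← blo_inr h, ← bup_inr h]
  exact hz

omit [Fintype Om] in
theorem Ay_inr {z z' : Ix d Om → Sd N} {v : Finset (Fin d)}
    (h : ∀ u, u ≠ Sum.inr v → z u = z' u) (y : Finset (Fin d)) : P.Ay z y = P.Ay z' y := by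
  funext a
  unfold Ay
  rw [blo_inr h, bup_inr h]

theorem odd_ne_flip {v y : Finset (Fin d)} (hv : ¬ Even v.card) (hy : ¬ Even y.card) (a : Fin d) :
    flip y a ≠ v := by
  intro he
  apply hv
  rw [← he]
  by_cases ha : a ∈ y
  · have h1 : flip y a = y.erase a := by
      ext b
      simp only [flip, Finset.mem_symmDiff, Finset.mem_singleton, Finset.mem_erase]
      constructor
      · rintro (h1 | h1)
        · exact ⟨h1.2, h1.1⟩
        · exact absurd (h1.1 ▸ ha) h1.2
      · intro h1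
        exact Or.inl ⟨h1.2, h1.1⟩
    rw [h1, Finset.card_erase_of_mem ha]
    have h2 := Finset.card_pos.mpr ⟨a, ha⟩
    rcases Nat.not_even_iff_odd.mp hy with ⟨k, hk⟩
    exact ⟨k, by omega⟩
  · have h1 : flip y a = insert a y := by
      ext b
      simp only [flip, Finset.mem_symmDiff, Finset.mem_singleton, Finset.mem_insert]
      constructor
      · rintro (h1 | h1)
        · exact Or.inr h1.1
        · exact Or.inl h1.1
      · rintro (h1 | h1)
        · exact Or.inr ⟨h1, h1 ▸ ha⟩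
        · exact Or.inl ⟨h1, fun h2 => ha (h2 ▸ h1)⟩
    rw [h1, Finset.card_insert_of_notMem ha]
    rcases Nat.not_even_iff_odd.mp hy with ⟨k, hk⟩
    exact ⟨k + 1, by omega⟩

omit [Fintype Om] in
theorem phis_inr {z z' : Ix d Om → Sd N} {v : Finset (Fin d)} (hv : ¬ Even v.card)
    (h : ∀ u, u ≠ Sum.inr v → z u = z' u) {y : Finset (Fin d)} (hy : ¬ Even y.card) :
    (fun a => P.phi z (flip y a)) = fun a => P.phi z' (flip y a) := by
  funext a
  exact phi_inr h (odd_ne_flip hv hy a)

omit [Fintype Om] in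
theorem Hy_inr {z z' : Ix d Om → Sd N} {v : Finset (Fin d)} (hv : ¬ Even v.card)
    (h : ∀ u, u ≠ Sum.inr v → z u = z' u) {y : Finset (Fin d)} (hy : ¬ Even y.card) :
    P.Hy z y = P.Hy z' y := by
  unfold Hy
  rw [Ay_inr h, phis_inr hv h hy]

omit [Fintype Om] in
theorem Wy_inr {z z' : Ix d Om → Sd N} {v : Finset (Fin d)} (hv : ¬ Even v.card)
    (h : ∀ u, u ≠ Sum.inr v → z u = z' u) {y : Finset (Fin d)} (hy : ¬ Even y.card) :
    P.Wy z y = P.Wy z' y := by
  unfold Wy
  rw [Ay_inr h, phis_inr hv h hy]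

theorem pE2 (hP : P.Ok e1 c0 L) (x x' : Finset (Fin d)) (hx : Even x.card) (hx' : Even x'.card)
    (hne : x ≠ x') : Pr (fun z => P.okx z x ∧ P.phi z x = P.phi z x') ≤ 1 / L := by
  have hL := hP.Lpos
  have hcard : ∀ z, P.okx z x → L ≤ ((P.Ast z x).card : ℝ) := by
    intro z hz
    have h1 : Even (x.card + 4) := hx.add (by decide)
    have h2 : x.card ≤ d := by
      have := Finset.card_le_univ x
      rwa [Fintype.card_fin] at this
    have h3 := hP.Wc (x.card + 4) h1 (by omega) (by omega)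
    exact le_trans h3 hz.1
  exact Pr_one (Sum.inr x) (fun z => P.okx z x) (fun z => P.Ast z x) (fun z => P.phi z x')
    (by positivity) (fun z z' h hz => okx_inr h x hz) (fun z z' h => Ast_inr h x)
    (fun z z' h => phi_inr h (Ne.symm hne))
    (fun z hz => by
      rw [← Finset.card_pos]
      exact_mod_cast lt_of_lt_of_le hL (hcard z hz))
    (fun z hz => one_div_le_one_div_of_le hL (hcard z hz))

theorem pE3near (hP : P.Ok e1 c0 L) {s : ℝ} (hs : 0 < s)
    (hs2 : s * (2 * (K + 1)) ≤ P.th * c0 * P.al ^ d) (y y' : Finset (Fin d)) (hy : ¬ Even y.card)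
    (hy' : ¬ Even y'.card) (hne : y ≠ y') :
    Pr (fun z => P.th * (P.C (y.card + 4)).card ≤ P.Wy z y ∧ P.psi z y = P.psi z y') ≤ 1 / s := by
  have hth := hP.th0
  have hal := hP.al0
  have hc0 := hP.c0pos
  have hCc : c0 ≤ ((P.C (y.card + 4)).card : ℝ) := by
    have h1 : Odd (y.card + 4) := (Nat.not_even_iff_odd.mp hy).add_even (by decide)
    have h2 : y.card ≤ d := by
      have := Finset.card_le_univ y
      rwa [Fintype.card_fin] at this
    exact hP.Cc (y.card + 4) h1 (by omega) (by omega)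
  have hK : (1 / P.al) ^ Fintype.card (Fin d) ≤ 2 ^ K := by
    rw [Fintype.card_fin]
    exact hP.hK
  have hcard : ∀ z, P.th * (P.C (y.card + 4)).card ≤ P.Wy z y → s ≤ ((P.Hy z y).card : ℝ) := by
    intro z hz
    have hpos : 0 < P.Wy z y := lt_of_lt_of_le (mul_pos hth (lt_of_lt_of_le hc0 hCc)) hz
    have hA : ∀ a, (P.Ay z y a).Nonempty := by
      unfold Wy Wt at hpos
      obtain ⟨b, _, hb⟩ := Finset.exists_ne_zero_of_sum_ne_zero hpos.ne'
      intro a
      have h1 := (wt_ne hb).2 a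
      exact ⟨_, (nb_subset _ _ _ _) h1⟩
    have h1 := F3 (ι := Fin d) (A := P.Ay z y) (R := P.Ry y) hal hA (P.C (y.card + 4)) hK
      (fun a => P.phi z (flip y a)) (th := P.th) hz
    rw [Fintype.card_fin] at h1
    have h2 : P.th * c0 * P.al ^ d ≤ P.th * (P.C (y.card + 4)).card * P.al ^ d := by gcongr
    have h3 : s * (2 * ((K : ℝ) + 1)) ≤ ((K : ℝ) + 1) * ((P.Hy z y).card : ℝ) :=
      le_trans hs2 (le_trans h2 h1)
    have h4 : (0 : ℝ) < (K : ℝ) + 1 := by positivity
    have h5 : 2 * s ≤ ((P.Hy z y).card : ℝ) := by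
      by_contra hcon
      push Not at hcon
      nlinarith [mul_lt_mul_of_pos_left hcon h4]
    linarith
  exact Pr_one (Sum.inr y) (fun z => P.th * (P.C (y.card + 4)).card ≤ P.Wy z y)
    (fun z => P.Hy z y) (fun z => P.psi z y')
    (by positivity)
    (fun z z' h hz => by rw [← Wy_inr hy h hy]; exact hz)
    (fun z z' h => Hy_inr hy h hy)
    (fun z z' h => by
      unfold psi
      rw [Hy_inr hy h hy', h (Sum.inr y') (by simpa using (Ne.symm hne))])
    (fun z hz => by
      rw [← Finset.card_pos]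
      exact_mod_cast lt_of_lt_of_le hs (hcard z hz))
    (fun z hz => one_div_le_one_div_of_le hs (hcard z hz))

end Data

end Pool.Agent.HC
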