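import Pool.Agent.HC.Conf

/-!
# HC block E-R : resampling at an odd vertex (used by `ConfE1` and `ConfE1b`)

The coordinates `Sum.inl (cen y)`, `Sum.inr y` and `Sum.inr (flip y a)` (all `a`) are resampled, the
others are fixed. Then `Ay z y` is fixed, `Ast z (flip y a)` is `nb (Ay z y) (Ry y) (bet z (cen y)) a`
and the coordinates are independent.
-/

namespace Pool.Agent.HC

open Finset Classical
open Pool.Agent.H23.RS

variable {N d M D0 K : ℕ} [NeZero N] {Om : Type} [Fintype Om]

namespace RsAux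

theorem flip_mem {y : Finset (Fin d)} {a : Fin d} (h : a ∈ y) : flip y a = y.erase a := by
  ext b
  simp only [flip, Finset.mem_symmDiff, Finset.mem_singleton, Finset.mem_erase]
  constructor
  · rintro (h1 | h1)
    · exact ⟨h1.2, h1.1⟩
    · exact absurd (h1.1 ▸ h) h1.2
  · intro h1
    exact Or.inl ⟨h1.2, h1.1⟩

theorem flip_notMem {y : Finset (Fin d)} {a : Fin d} (h : a ∉ y) : flip y a = insert a y := by
  ext b
  simp only [flip, Finset.mem_symmDiff, Finset.mem_singleton, Finset.mem_insert]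
  constructor
  · rintro (h1 | h1)
    · exact Or.inr h1.1
    · exact Or.inl h1.1
  · rintro (h1 | h1)
    · exact Or.inr ⟨h1, h1 ▸ h⟩
    · exact Or.inl ⟨h1, fun h2 => h (h2 ▸ h1)⟩

theorem card_flip_mem {y : Finset (Fin d)} {a : Fin d} (h : a ∈ y) :
    (flip y a).card + 1 = y.card := by
  rw [flip_mem h, Finset.card_erase_of_mem h]
  have := Finset.card_pos.mpr ⟨a, h⟩
  omega

theorem card_flip_notMem {y : Finset (Fin d)} {a : Fin d} (h : a ∉ y) :
    (flip y a).card = y.card + 1 := by
  rw [flip_notMem h, Finset.card_insert_of_notMem h]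

theorem flip_inj (y : Finset (Fin d)) : Function.Injective (flip y) := by
  intro a b hab
  have h1 : symmDiff y (flip y a) = symmDiff y (flip y b) := by rw [hab]
  simp only [flip, symmDiff_symmDiff_cancel_left] at h1
  exact Finset.singleton_injective h1

theorem flip_ne (y : Finset (Fin d)) (a : Fin d) : flip y a ≠ y := by
  intro h
  by_cases ha : a ∈ y
  · have := card_flip_mem ha
    rw [h] at this
    omega
  · have := card_flip_notMem ha
    rw [h] at this
    omega

end RsAux

open RsAux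

namespace Data

variable {P : Data N d M D0 K Om} {e1 c0 L : ℝ}

omit [NeZero N] [Fintype Om] in
theorem jj_lo (y : Finset (Fin d)) (a : Fin d) (h : a ∉ y) :
    P.cl.lo (flip y a) (P.jj y a) = P.cl.cen y := by
  unfold jj
  rw [dif_neg h]
  exact (P.cl.cen_lo y a h).choose_spec

omit [NeZero N] [Fintype Om] in
theorem jj_up (y : Finset (Fin d)) (a : Fin d) (h : a ∈ y) :
    P.cl.up (flip y a) (P.jj y a) = P.cl.cen y := by
  unfold jj
  rw [dif_pos h]
  exact (P.cl.cen_up y a h).choose_spec

/-- the resampled coordinates -/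
noncomputable def Rs (P : Data N d M D0 K Om) (y : Finset (Fin d)) : Finset (Ix d Om) :=
  {Sum.inl (P.cl.cen y)} ∪ {Sum.inr y} ∪ univ.image fun a => Sum.inr (flip y a)

omit [NeZero N] [Fintype Om] in
theorem inl_mem_Rs (y : Finset (Fin d)) (w : Om) : Sum.inl w ∈ P.Rs y ↔ w = P.cl.cen y := by
  unfold Rs
  simp

omit [NeZero N] [Fintype Om] in
theorem inr_mem_Rs (y v : Finset (Fin d)) :
    Sum.inr v ∈ P.Rs y ↔ v = y ∨ ∃ a, flip y a = v := by
  unfold Rs
  simp

omit [Fintype Om] in
theorem bet_rs (y : Finset (Fin d)) (z w : Ix d Om → Sd N) (u : Om) (hu : u ≠ P.cl.cen y) :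
    P.bet ((P.Rs y).piecewise w z) u = P.bet z u := by
  unfold bet
  rw [Finset.piecewise_eq_of_notMem _ _ _ (fun h => hu ((inl_mem_Rs y u).mp h))]

omit [Fintype Om] in
theorem bet_rs_cen (y : Finset (Fin d)) (z w : Ix d Om → Sd N) :
    P.bet ((P.Rs y).piecewise w z) (P.cl.cen y) =
      pick (P.C (y.card + 4)) (w (Sum.inl (P.cl.cen y))) := by
  unfold bet
  rw [Finset.piecewise_eq_of_mem _ _ _ ((inl_mem_Rs y _).mpr rfl), P.cl.cls_cen]

omit [Fintype Om] in
theorem Ay_rs (y : Finset (Fin d)) (z w : Ix d Om → Sd N) :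
    P.Ay ((P.Rs y).piecewise w z) y = P.Ay z y := by
  funext a
  unfold Ay
  by_cases ha : a ∈ y
  · rw [if_pos ha, if_pos ha]
    have hc := card_flip_mem ha
    have h1 : ∀ i, P.blo ((P.Rs y).piecewise w z) (flip y a) i = P.blo z (flip y a) i := by
      intro i
      unfold blo
      apply bet_rs
      intro h
      have h2 := P.cl.cls_lo (flip y a) i
      rw [h, P.cl.cls_cen] at h2
      omega
    have h2 : ∀ i, i ≠ P.jj y a →
        P.bup ((P.Rs y).piecewise w z) (flip y a) i = P.bup z (flip y a) i := by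
      intro i hi
      unfold bup
      apply bet_rs
      intro h
      apply hi
      apply P.cl.up_inj (flip y a)
      rw [h, jj_up y a ha]
    unfold comR
    apply Finset.filter_congr
    intro v _
    apply and_congr
    · exact forall_congr' (fun i => by rw [h1 i])
    · exact forall_congr' (fun i => imp_congr_right (fun hi => by rw [h2 i hi]))
  · rw [if_neg ha, if_neg ha]
    have hc := card_flip_notMem ha
    have h1 : ∀ i, P.bup ((P.Rs y).piecewise w z) (flip y a) i = P.bup z (flip y a) i := by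
      intro i
      unfold bup
      apply bet_rs
      intro h
      have h2 := P.cl.cls_up (flip y a) i
      rw [h, P.cl.cls_cen] at h2
      omega
    have h2 : ∀ i, i ≠ P.jj y a →
        P.blo ((P.Rs y).piecewise w z) (flip y a) i = P.blo z (flip y a) i := by
      intro i hi
      unfold blo
      apply bet_rs
      intro h
      apply hi
      apply P.cl.lo_inj (flip y a)
      rw [h, jj_lo y a ha]
    unfold comL
    apply Finset.filter_congr
    intro v _
    apply and_congr
    · exact forall_congr' (fun i => imp_congr_right (fun hi => by rw [h2 i hi]))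
    · exact forall_congr' (fun i => by rw [h1 i])

omit [Fintype Om] in
theorem Ast_eq (y : Finset (Fin d)) (z : Ix d Om → Sd N) (a : Fin d) :
    P.Ast z (flip y a) = nb (P.Ay z y) (P.Ry y) (P.bet z (P.cl.cen y)) a := by
  ext v
  unfold Ast nb Ay Ry
  by_cases ha : a ∈ y
  · have h1 : P.bup z (flip y a) (P.jj y a) = P.bet z (P.cl.cen y) := by
      unfold bup
      rw [jj_up y a ha]
    simp only [if_pos ha]
    unfold com comR
    simp only [Finset.mem_filter]
    rw [← h1]
    constructor
    · rintro ⟨h2, h3, h4⟩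
      exact ⟨⟨h2, h3, fun i _ => h4 i⟩, h4 _⟩
    · rintro ⟨⟨h2, h3, h4⟩, h5⟩
      refine ⟨h2, h3, fun i => ?_⟩
      by_cases hi : i = P.jj y a
      · rw [hi]; exact h5
      · exact h4 i hi
  · have h1 : P.blo z (flip y a) (P.jj y a) = P.bet z (P.cl.cen y) := by
      unfold blo
      rw [jj_lo y a ha]
    simp only [if_neg ha]
    unfold com comL
    simp only [Finset.mem_filter]
    rw [← h1]
    constructor
    · rintro ⟨h2, h3, h4⟩
      exact ⟨⟨h2, fun i _ => h3 i, h4⟩, h3 _⟩
    · rintro ⟨⟨h2, h3, h4⟩, h5⟩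
      refine ⟨h2, fun i => ?_, h4⟩
      by_cases hi : i = P.jj y a
      · rw [hi]; exact h5
      · exact h3 i hi

omit [NeZero N] in
theorem C_nonempty (hP : P.Ok e1 c0 L) (y : Finset (Fin d)) (hy : ¬ Even y.card) :
    (P.C (y.card + 4)).Nonempty := by
  have h1 : Odd (y.card + 4) := (Nat.not_even_iff_odd.mp hy).add_even (by decide)
  have h2 : y.card ≤ d := by
    have := Finset.card_le_univ y
    rwa [Fintype.card_fin] at this
  have h3 := hP.Cc (y.card + 4) h1 (by omega) (by omega)
  have h4 := hP.c0pos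
  rw [← Finset.card_pos]
  exact_mod_cast lt_of_lt_of_le h4 h3

theorem Ast_nonempty (hP : P.Ok e1 c0 L) (x : Finset (Fin d)) (hx : Even x.card)
    (z : Ix d Om → Sd N) (h : P.okx z x) : (P.Ast z x).Nonempty := by
  have h1 : Even (x.card + 4) := hx.add (by decide)
  have h2 : x.card ≤ d := by
    have := Finset.card_le_univ x
    rwa [Fintype.card_fin] at this
  have h3 := hP.Wc (x.card + 4) h1 (by omega) (by omega)
  have h4 := hP.Lpos
  rw [← Finset.card_pos]
  have h5 := h.1
  unfold Ast
  exact_mod_cast lt_of_lt_of_le h4 (le_trans h3 h5)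

omit [NeZero N] [Fintype Om] in
theorem even_flip {y : Finset (Fin d)} (hy : ¬ Even y.card) (a : Fin d) :
    Even (flip y a).card := by
  have ho := Nat.not_even_iff_odd.mp hy
  by_cases ha : a ∈ y
  · have := card_flip_mem ha
    rcases ho with ⟨k, hk⟩
    exact ⟨k, by omega⟩
  · have := card_flip_notMem ha
    rcases ho with ⟨k, hk⟩
    exact ⟨k + 1, by omega⟩

/-- If the neighbours of `y` are good, then the centre of `y` is good. -/
theorem oky_good (hP : P.Ok e1 c0 L) (y : Finset (Fin d)) (hy : ¬ Even y.card)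
    (z : Ix d Om → Sd N) (h : P.oky z y) :
    (∀ a, (P.Ay z y a).Nonempty) ∧
      P.bet z (P.cl.cen y) ∈ (P.C (y.card + 4)).filter (fun b => GoodB (P.Ay z y) (P.Ry y) P.al b) ∧
      (fun a => P.phi z (flip y a)) ∈
        Fintype.piFinset (nb (P.Ay z y) (P.Ry y) (P.bet z (P.cl.cen y))) := by
  have hne : ∀ a, (P.Ast z (flip y a)).Nonempty := fun a =>
    Ast_nonempty hP (flip y a) (even_flip hy a) z (h a)
  refine ⟨fun a => ?_, ?_, ?_⟩
  · have h1 := hne a
    rw [Ast_eq] at h1
    exact h1.mono (nb_subset _ _ _ _)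
  · rw [Finset.mem_filter]
    constructor
    · unfold bet
      rw [P.cl.cls_cen]
      exact pick_mem (C_nonempty hP y hy) _
    · intro a
      rw [← Ast_eq]
      have h1 := h a
      unfold okx Good at h1
      unfold Ay Ast
      by_cases ha : a ∈ y
      · rw [if_pos ha]
        exact h1.2.2 _
      · rw [if_neg ha]
        exact h1.2.1 _
  · rw [Fintype.mem_piFinset]
    intro a
    rw [← Ast_eq]
    unfold phi
    exact pick_mem (hne a) _

/-- the properties of the resampled seeds -/
def BB (P : Data N d M D0 K Om) (y : Finset (Fin d)) (z : Ix d Om → Sd N) (b : Fin N)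
    (X : Fin d → Fin N) (E : Sd N → Prop) (v : Ix d Om) (s : Sd N) : Prop :=
  (∀ u : Om, v = Sum.inl u → pick (P.C (y.card + 4)) s = b) ∧ (v = Sum.inr y → E s) ∧
    ∀ a, v = Sum.inr (flip y a) → pick (nb (P.Ay z y) (P.Ry y) b a) s = X a

/-- the joint law of the centre, the images of the neighbours and the seed -/
theorem joint (y : Finset (Fin d))
    (z : Ix d Om → Sd N) {b : Fin N} (hb : b ∈ P.C (y.card + 4)) {X : Fin d → Fin N}
    (hX : X ∈ Fintype.piFinset (nb (P.Ay z y) (P.Ry y) b)) (E : Sd N → Prop) :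
    Pr (fun w : Ix d Om → Sd N =>
        pick (P.C (y.card + 4)) (w (Sum.inl (P.cl.cen y))) = b ∧ E (w (Sum.inr y)) ∧
        ∀ a, pick (nb (P.Ay z y) (P.Ry y) b a) (w (Sum.inr (flip y a))) = X a) =
      1 / ((P.C (y.card + 4)).card : ℝ) *
        ((∏ a, 1 / ((nb (P.Ay z y) (P.Ry y) b a).card : ℝ)) *
              (((univ.filter E).card : ℝ) / (Fintype.card (Sd N) : ℝ))) := by
  rw [Fintype.mem_piFinset] at hX
  have h1 : (fun w : Ix d Om → Sd N =>
        pick (P.C (y.card + 4)) (w (Sum.inl (P.cl.cen y))) = b ∧ E (w (Sum.inr y)) ∧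
        ∀ a, pick (nb (P.Ay z y) (P.Ry y) b a) (w (Sum.inr (flip y a))) = X a) =
      fun w => ∀ v ∈ P.Rs y, P.BB y z b X E v (w v) := by
    funext w
    apply propext
    constructor
    · rintro ⟨h2, h3, h4⟩ v hv
      unfold BB
      refine ⟨?_, ?_, ?_⟩
      · rintro u rfl
        rw [inl_mem_Rs] at hv
        rw [hv]
        exact h2
      · rintro rfl
        exact h3
      · rintro a rfl
        exact h4 a
    · intro h
      refine ⟨?_, ?_, fun a => ?_⟩
      · exact (h (Sum.inl (P.cl.cen y)) ((inl_mem_Rs y _).mpr rfl)).1 _ rfl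
      · exact (h (Sum.inr y) ((inr_mem_Rs y y).mpr (Or.inl rfl))).2.1 rfl
      · exact (h (Sum.inr (flip y a)) ((inr_mem_Rs y _).mpr (Or.inr ⟨a, rfl⟩))).2.2 a rfl
  rw [h1, Pr_coord (P.Rs y) (P.BB y z b X E)]
  have hd1 : Disjoint ({Sum.inl (P.cl.cen y)} ∪ {Sum.inr y} : Finset (Ix d Om))
      (univ.image fun a : Fin d => (Sum.inr (flip y a) : Ix d Om)) := by
    rw [Finset.disjoint_left]
    intro v hv hv2
    rw [Finset.mem_image] at hv2
    obtain ⟨a, _, rfl⟩ := hv2
    rw [Finset.mem_union, Finset.mem_singleton, Finset.mem_singleton] at hv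
    rcases hv with hv | hv
    · exact absurd hv (by simp)
    · exact flip_ne y a (Sum.inr_injective hv)
  have hd2 : Disjoint ({Sum.inl (P.cl.cen y)} : Finset (Ix d Om)) {Sum.inr y} := by
    rw [Finset.disjoint_singleton]
    simp
  unfold Rs
  rw [Finset.prod_union hd1, Finset.prod_union hd2, Finset.prod_singleton, Finset.prod_singleton,
    Finset.prod_image (fun a _ a' _ h => flip_inj y (Sum.inr_injective h))]
  have e1 : (univ.filter (P.BB y z b X E (Sum.inl (P.cl.cen y)))) =
      univ.filter fun i : Sd N => pick (P.C (y.card + 4)) i = b := by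
    apply Finset.filter_congr
    intro i _
    unfold BB
    constructor
    · intro h; exact h.1 _ rfl
    · intro h
      exact ⟨fun _ _ => h, fun h2 => absurd h2 (by simp), fun a h2 => absurd h2 (by simp)⟩
  have e2 : (univ.filter (P.BB y z b X E (Sum.inr y))) = univ.filter E := by
    apply Finset.filter_congr
    intro i _
    unfold BB
    constructor
    · intro h; exact h.2.1 rfl
    · intro h
      exact ⟨fun _ h2 => absurd h2 (by simp), fun _ => h,
        fun a h2 => absurd (Sum.inr_injective h2).symm (flip_ne y a)⟩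
  have e3 : ∀ a, (univ.filter (P.BB y z b X E (Sum.inr (flip y a)))) =
      univ.filter fun i : Sd N => pick (nb (P.Ay z y) (P.Ry y) b a) i = X a := by
    intro a
    apply Finset.filter_congr
    intro i _
    unfold BB
    constructor
    · intro h; exact h.2.2 a rfl
    · intro h
      refine ⟨fun _ h2 => absurd h2 (by simp), fun h2 => absurd (Sum.inr_injective h2) (flip_ne y a),
        fun a' h2 => ?_⟩
      have h3 := flip_inj y (Sum.inr_injective h2)
      rw [← h3]
      exact h
  rw [e1, e2, pick_count hb]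
  have e4 : ∏ a, (((univ.filter (P.BB y z b X E (Sum.inr (flip y a)))).card : ℝ) /
      (Fintype.card (Sd N) : ℝ)) = ∏ a, 1 / ((nb (P.Ay z y) (P.Ry y) b a).card : ℝ) := by
    apply Finset.prod_congr rfl
    intro a _
    rw [e3 a, pick_count (hX a)]
  rw [e4]
  ring

/-- The resampling lemma: `E X i` is any property of the images `X` of the neighbours of `y` and of
the seed `i` of `y`. -/
theorem resample (hP : P.Ok e1 c0 L) (y : Finset (Fin d)) (hy : ¬ Even y.card)
    (z : Ix d Om → Sd N) (_hA : ∀ a, (P.Ay z y a).Nonempty)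
    (E : (Fin d → Fin N) → Sd N → Prop) :
    Pr (fun w : Ix d Om → Sd N => P.oky ((P.Rs y).piecewise w z) y ∧
        E (fun a => P.phi ((P.Rs y).piecewise w z) (flip y a)) (w (Sum.inr y))) ≤
      1 / ((P.C (y.card + 4)).card : ℝ) *
        ∑ b ∈ (P.C (y.card + 4)).filter (fun b => GoodB (P.Ay z y) (P.Ry y) P.al b),
          ∑ X ∈ Fintype.piFinset (nb (P.Ay z y) (P.Ry y) b),
            (∏ a, 1 / ((nb (P.Ay z y) (P.Ry y) b a).card : ℝ)) *
              (((univ.filter (E X)).card : ℝ) / (Fintype.card (Sd N) : ℝ)) := by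
  set G := (P.C (y.card + 4)).filter (fun b => GoodB (P.Ay z y) (P.Ry y) P.al b) with hG
  set J : Finset ((_ : Fin N) × (Fin d → Fin N)) :=
    G.sigma (fun b => Fintype.piFinset (nb (P.Ay z y) (P.Ry y) b)) with hJ
  have h1 : Pr (fun w : Ix d Om → Sd N => P.oky ((P.Rs y).piecewise w z) y ∧
        E (fun a => P.phi ((P.Rs y).piecewise w z) (flip y a)) (w (Sum.inr y))) ≤
      Pr (fun w : Ix d Om → Sd N => ∃ p ∈ J,
        (pick (P.C (y.card + 4)) (w (Sum.inl (P.cl.cen y))) = p.1 ∧ E p.2 (w (Sum.inr y)) ∧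
        ∀ a, pick (nb (P.Ay z y) (P.Ry y) p.1 a) (w (Sum.inr (flip y a))) = p.2 a)) := by
    refine Pr_mono (fun w hw => ?_)
    obtain ⟨h2, h3⟩ := hw
    obtain ⟨_, h5, h6⟩ := oky_good hP y hy _ h2
    rw [Ay_rs, bet_rs_cen] at h5 h6
    refine ⟨⟨pick (P.C (y.card + 4)) (w (Sum.inl (P.cl.cen y))),
      fun a => P.phi ((P.Rs y).piecewise w z) (flip y a)⟩, ?_, rfl, h3, ?_⟩
    · rw [hJ, Finset.mem_sigma]
      exact ⟨h5, h6⟩
    · intro a
      show pick _ _ = P.phi ((P.Rs y).piecewise w z) (flip y a)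
      unfold phi
      rw [Ast_eq, Ay_rs, bet_rs_cen,
        Finset.piecewise_eq_of_mem _ _ _ ((inr_mem_Rs y _).mpr (Or.inr ⟨a, rfl⟩))]
  refine le_trans h1 (le_trans (Pr_exists_le J _) ?_)
  rw [hJ, Finset.sum_sigma, Finset.mul_sum]
  refine le_of_eq (Finset.sum_congr rfl (fun b hb => ?_))
  rw [Finset.mul_sum]
  refine Finset.sum_congr rfl (fun X hX => ?_)
  exact joint y z (Finset.mem_filter.mp hb).1 hX (E X)

/-- `piecewise` does not depend on the decidability instance. -/
theorem piecewise_inst {I O : Type} (s : Finset I) (f g : I → O)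
    (h1 h2 : ∀ j, Decidable (j ∈ s)) :
    @Finset.piecewise I (fun _ => O) s f g h1 = @Finset.piecewise I (fun _ => O) s f g h2 := by
  funext j
  by_cases hj : j ∈ s
  · rw [@Finset.piecewise_eq_of_mem I (fun _ => O) s f g h1 j hj,
      @Finset.piecewise_eq_of_mem I (fun _ => O) s f g h2 j hj]
  · rw [@Finset.piecewise_eq_of_notMem I (fun _ => O) s f g h1 j hj,
      @Finset.piecewise_eq_of_notMem I (fun _ => O) s f g h2 j hj]

/-- `Pr_cond` for the resampled coordinates of `y` -/
theorem rs_cond (hP : P.Ok e1 c0 L) (y : Finset (Fin d)) (hy : ¬ Even y.card)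
    {B : (Ix d Om → Sd N) → Prop} {p : ℝ} (hp : 0 ≤ p) (hB : ∀ z, B z → P.oky z y)
    (h : ∀ z : Ix d Om → Sd N, (∀ a, (P.Ay z y a).Nonempty) →
      Pr (fun w : Ix d Om → Sd N => B ((P.Rs y).piecewise w z)) ≤ p) : Pr B ≤ p := by
  have h0 := Pr_cond (P.Rs y) (A := fun _ : Ix d Om → Sd N => True) (B := B) (p := p)
    (fun _ _ _ h => h) (fun z _ => ?_)
  · rw [Pr_true, mul_one] at h0
    exact le_trans (Pr_mono (fun z hz => ⟨trivial, hz⟩)) h0
  · by_cases hA : ∀ a, (P.Ay z y a).Nonempty
    · have h1 := h z hA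
      exact le_trans (le_of_eq (congrArg Pr (funext fun w =>
        congrArg B (piecewise_inst _ _ _ _ _)))) h1
    · have h1 : Pr (fun w : Ix d Om → Sd N => B ((P.Rs y).piecewise w z)) ≤
          Pr (fun _ : Ix d Om → Sd N => False) := by
        refine Pr_mono (fun w hw => hA ?_)
        have h2 := (oky_good hP y hy _ (hB _ hw)).1
        rwa [Ay_rs] at h2
      rw [Pr_false] at h1
      have h2 : Pr (fun w : Ix d Om → Sd N => B ((P.Rs y).piecewise w z)) ≤ p := le_trans h1 hp
      exact le_trans (le_of_eq (congrArg Pr (funext fun w =>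
        congrArg B (piecewise_inst _ _ _ _ _)))) h2

/-- The resampling lemma without `piecewise`: `E A X i` is any property of the candidate sets `A`, the
images `X` of the neighbours of `y` and of the seed `i` of `y`. -/
theorem rs_main (hP : P.Ok e1 c0 L) (y : Finset (Fin d)) (hy : ¬ Even y.card)
    {B : (Ix d Om → Sd N) → Prop} {p : ℝ} (hp : 0 ≤ p)
    (E : (Fin d → Finset (Fin N)) → (Fin d → Fin N) → Sd N → Prop)
    (hB : ∀ z, B z → P.oky z y ∧ E (P.Ay z y) (fun a => P.phi z (flip y a)) (z (Sum.inr y)))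
    (h : ∀ A : Fin d → Finset (Fin N), (∀ a, (A a).Nonempty) →
      ∑ b ∈ (P.C (y.card + 4)).filter (fun b => GoodB A (P.Ry y) P.al b),
          ∑ X ∈ Fintype.piFinset (nb A (P.Ry y) b),
            (∏ a, 1 / ((nb A (P.Ry y) b a).card : ℝ)) *
              (((univ.filter (E A X)).card : ℝ) / (Fintype.card (Sd N) : ℝ)) ≤
        p * (P.C (y.card + 4)).card) : Pr B ≤ p := by
  have hCpos : (0 : ℝ) < ((P.C (y.card + 4)).card : ℝ) := by
    exact_mod_cast (C_nonempty hP y hy).card_pos
  refine rs_cond hP y hy hp (fun z hz => (hB z hz).1) (fun z hA => ?_)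
  have h1 := resample hP y hy z hA (E (P.Ay z y))
  have h2 := h (P.Ay z y) hA
  have h3 : Pr (fun w : Ix d Om → Sd N => B ((P.Rs y).piecewise w z)) ≤
      Pr (fun w : Ix d Om → Sd N => P.oky ((P.Rs y).piecewise w z) y ∧
        E (P.Ay z y) (fun a => P.phi ((P.Rs y).piecewise w z) (flip y a)) (w (Sum.inr y))) := by
    refine Pr_mono (fun w hw => ?_)
    have h4 := hB _ hw
    rw [Ay_rs, Finset.piecewise_eq_of_mem _ _ _ ((inr_mem_Rs y y).mpr (Or.inl rfl))] at h4
    exact h4
  refine le_trans h3 (le_trans h1 (le_trans (mul_le_mul_of_nonneg_left h2 (by positivity))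
    (le_of_eq ?_)))
  field_simp

end Data

end Pool.Agent.HC
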