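import Pool.Agent.H97.QD.Tuples
import Pool.Agent.H23.RS.LLL

/-!
# HC : oriented hypercubes in tournaments on `2 ^ ((1 + ε) d)` vertices (note 2854) : definitions
-/

namespace Pool.Agent.HC

open Finset Classical
open Pool.Agent.H97.QD (out inn outT innT Link CChain IsTournament)

/-- flip the coordinate `a` -/
def flip {d : ℕ} (x : Finset (Fin d)) (a : Fin d) : Finset (Fin d) := symmDiff x {a}

variable {V : Type}

/-- the vertices of `W` dominated by all entries of `b1` and dominating all entries of `b2` -/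
noncomputable def com (T : V → V → Prop) (W : Finset V) {k l : ℕ} (b1 : Fin k → V)
    (b2 : Fin l → V) : Finset V :=
  W.filter fun a => (∀ i, T (b1 i) a) ∧ ∀ i, T a (b2 i)

/-- the same, the entry `j` of `b1` is ignored -/
noncomputable def comL (T : V → V → Prop) (W : Finset V) {k l : ℕ} (b1 : Fin k → V)
    (b2 : Fin l → V) (j : Fin k) : Finset V :=
  W.filter fun a => (∀ i, i ≠ j → T (b1 i) a) ∧ ∀ i, T a (b2 i)

/-- the same, the entry `j` of `b2` is ignored -/
noncomputable def comR (T : V → V → Prop) (W : Finset V) {k l : ℕ} (b1 : Fin k → V)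
    (b2 : Fin l → V) (j : Fin l) : Finset V :=
  W.filter fun a => (∀ i, T (b1 i) a) ∧ ∀ i, i ≠ j → T a (b2 i)

/-- good pairs of tuples of centres -/
def Good (T : V → V → Prop) (W : Finset V) (nu al : ℝ) {k l : ℕ} (b1 : Fin k → V)
    (b2 : Fin l → V) : Prop :=
  nu * W.card ≤ (com T W b1 b2).card ∧
  (∀ j, al * (comL T W b1 b2 j).card ≤ (com T W b1 b2).card) ∧
  (∀ j, al * (comR T W b1 b2 j).card ≤ (com T W b1 b2).card)

/-- the tuples in `W` with many common neighbours on both sides -/
noncomputable def TT (T : V → V → Prop) (U1 W U2 : Finset V) (t : ℕ) : Finset (Fin t → V) :=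
  (Fintype.piFinset fun _ : Fin t => W).filter fun x =>
    (1 / 4 : ℝ) ^ t * U1.card ≤ (innT T U1 x).card ∧ (1 / 4 : ℝ) ^ t * U2.card ≤ (outT T U2 x).card

/-- the pairs of tuples of centres -/
noncomputable def pairs (M : ℕ) (C1 C2 : Finset V) : Finset ((Fin M → V) × (Fin M → V)) :=
  (Fintype.piFinset fun _ : Fin M => C1) ×ˢ (Fintype.piFinset fun _ : Fin M => C2)

/-- the number of the pairs of tuples of centres which are not good -/
noncomputable def nbad (T : V → V → Prop) (W : Finset V) (nu al : ℝ) (M : ℕ) (C1 C2 : Finset V) : ℕ :=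
  ((pairs M C1 C2).filter fun b => ¬ Good T W nu al b.1 b.2).card

/-- The cells of the odd vertices and their centres. `lo x`, `up x` are the centres seen by `x`
below and above; `cls` is the class of a centre (layer `+ 4`). -/
structure Cells (d M D0 : ℕ) (Om : Type) where
  cls : Om → ℕ
  lo : Finset (Fin d) → Fin M → Om
  up : Finset (Fin d) → Fin M → Om
  cen : Finset (Fin d) → Om
  lo_inj : ∀ x, Function.Injective (lo x)
  up_inj : ∀ x, Function.Injective (up x)
  cls_lo : ∀ x i, cls (lo x i) = x.card + 3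
  cls_up : ∀ x i, cls (up x i) = x.card + 5
  cls_cen : ∀ y, cls (cen y) = y.card + 4
  cen_lo : ∀ y a, a ∉ y → ∃ i, lo (flip y a) i = cen y
  cen_up : ∀ y a, a ∈ y → ∃ i, up (flip y a) i = cen y
  deg : ∀ w, (univ.filter fun x => (∃ i, lo x i = w) ∨ ∃ i, up x i = w).card ≤ D0

end Pool.Agent.HC
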