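import Mathlib

/-!
# HC block N2 : the final numerical conditions

With `t = ⌈√d⌉`, `M = ⌈δ/16 d⌉`, `D0 = (d+1)^(r+1)`, `D = (d+1)^2 (1 + 2 M D0) + 1`, `K = 2 d`, `n = d + 12`,
`e1 = n ee`, `ee = 2 M c^t + 3 (1/2)^t` (`c = a1/r < 1`), `th = (1/2)^t`, `L = 2^((1+ε/2) d)`,
`c0 = (1/32)^t 2^((1+3ε/4) d)`, `s = 2^((ε/2) d)`: for large `d` all conditions of `placement` hold
(polynomials in `d` against `c^√d`, `2^(-√d)`, `2^(-ε d/4)`).
-/

namespace Pool.Agent.HC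

namespace NumAux

theorem ev (C b : ℝ) (k : ℕ) (hb : 0 < b) :
    ∃ u0 : ℝ, ∀ u : ℝ, u0 ≤ u → C * u ^ k * Real.exp (-(b * u)) ≤ 1 := by
  have h1 : Filter.Tendsto (fun x : ℝ => x ^ k * Real.exp (-x)) Filter.atTop (nhds 0) :=
    Real.tendsto_pow_mul_exp_neg_atTop_nhds_zero k
  have h2 : Filter.Tendsto (fun u : ℝ => b * u) Filter.atTop Filter.atTop :=
    Filter.tendsto_id.const_mul_atTop hb
  have h3 : Filter.Tendsto (fun u : ℝ => (C / b ^ k) * ((b * u) ^ k * Real.exp (-(b * u))))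
      Filter.atTop (nhds ((C / b ^ k) * 0)) := (h1.comp h2).const_mul _
  rw [mul_zero] at h3
  have h4 : ∀ᶠ u : ℝ in Filter.atTop,
      (C / b ^ k) * ((b * u) ^ k * Real.exp (-(b * u))) < 1 :=
    h3.eventually (gt_mem_nhds one_pos)
  obtain ⟨u0, h5⟩ := Filter.eventually_atTop.1 h4
  refine ⟨u0, fun u hu => ?_⟩
  have h6 := h5 u hu
  have h7 : (C / b ^ k) * ((b * u) ^ k * Real.exp (-(b * u))) = C * u ^ k * Real.exp (-(b * u)) := by
    have : b ^ k ≠ 0 := (pow_pos hb k).ne'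
    rw [mul_pow]
    field_simp
  rw [h7] at h6
  exact h6.le

theorem quad (a b c : ℝ) (ha : 0 < a) (hb : 0 ≤ b) (hc : 0 ≤ c) :
    ∀ u : ℝ, 1 ≤ u → (b + c) / a ≤ u → b * u + c ≤ a * u ^ 2 := by
  intro u h1 h2
  have h3 : b + c ≤ u * a := (div_le_iff₀ ha).1 h2
  nlinarith [mul_nonneg hc (sub_nonneg.2 h1), mul_le_mul_of_nonneg_right h3 (by linarith : (0:ℝ) ≤ u)]

theorem Dle (u d M : ℝ) (r : ℕ) (hu : 1 ≤ u) (hd : d = u ^ 2) (hM : M ≤ d) (hM0 : 0 ≤ M) :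
    (d + 1) ^ 2 * (1 + 2 * M * (d + 1) ^ (r + 1)) + 1 ≤ 3 * 2 ^ (r + 4) * u ^ (2 * r + 8) := by
  have hu2 : 1 ≤ u ^ 2 := one_le_pow₀ hu
  have hy : d + 1 ≤ 2 * u ^ 2 := by rw [hd]; linarith
  have hy0 : 0 ≤ d + 1 := by rw [hd]; positivity
  have hy1 : 1 ≤ 2 * u ^ 2 := by linarith
  have e1 : (d + 1) ^ (r + 1) ≤ (2 * u ^ 2) ^ (r + 1) := pow_le_pow_left₀ hy0 hy _
  have e2 : (d + 1) ^ 2 ≤ (2 * u ^ 2) ^ 2 := pow_le_pow_left₀ hy0 hy _
  have e3 : 2 * M ≤ 2 * u ^ 2 := by rw [hd] at hM; linarith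
  have e4 : 2 * M * (d + 1) ^ (r + 1) ≤ (2 * u ^ 2) * (2 * u ^ 2) ^ (r + 1) :=
    mul_le_mul e3 e1 (pow_nonneg hy0 _) (by positivity)
  have e5 : (1 : ℝ) ≤ (2 * u ^ 2) * (2 * u ^ 2) ^ (r + 1) := by
    rw [← pow_succ']; exact one_le_pow₀ hy1
  have e6 : (1 : ℝ) ≤ (2 * u ^ 2) ^ (r + 4) := one_le_pow₀ hy1
  calc (d + 1) ^ 2 * (1 + 2 * M * (d + 1) ^ (r + 1)) + 1
      ≤ (2 * u ^ 2) ^ 2 * (2 * ((2 * u ^ 2) * (2 * u ^ 2) ^ (r + 1))) + (2 * u ^ 2) ^ (r + 4) := by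
        refine add_le_add (mul_le_mul e2 (by linarith) ?_ (by positivity)) e6
        have : 0 ≤ 2 * M * (d + 1) ^ (r + 1) := mul_nonneg (by linarith) (pow_nonneg hy0 _)
        linarith
    _ = 3 * (2 * u ^ 2) ^ (r + 4) := by ring
    _ = 3 * 2 ^ (r + 4) * u ^ (2 * r + 8) := by
        rw [mul_pow, ← pow_mul, show 2 * (r + 4) = 2 * r + 8 from by ring]; ring

end NumAux

open NumAux in
theorem num {ε δ c : ℝ} (hε : 0 < ε) (hε1 : ε ≤ 1) (hδ : 0 < δ) (hδ1 : δ ≤ 1) (hc : 0 < c) (hc1 : c < 1)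
    (r : ℕ) : ∃ d0 : ℕ, ∀ d : ℕ, d0 ≤ d →
    let t := ⌈Real.sqrt d⌉₊
    let M := ⌈δ / 16 * d⌉₊
    let D : ℕ := (d + 1) ^ 2 * (1 + 2 * M * (d + 1) ^ (r + 1)) + 1
    let ee : ℝ := 2 * M * c ^ t + 3 * (1 / 2) ^ t
    let c0 : ℝ := (1 / 32) ^ t * (2:ℝ) ^ ((1 + 3 / 4 * ε) * d)
    let s : ℝ := (2:ℝ) ^ (ε / 2 * d)
    ((d + 12 : ℕ) : ℝ) * ee < 1 ∧
    s * (2 * ((2 * d : ℕ) + 1)) ≤ (1 / 2) ^ t * c0 * (2:ℝ) ^ (-((1 + ε / 100) * d)) ∧
    16 * (D : ℝ) * (((d + 12 : ℕ) : ℝ) * ee + (1 / 2) ^ t + 2 ^ d / (2:ℝ) ^ ((1 + ε / 2) * d) +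
      2 ^ d * (2 * ((2 * d : ℕ) + 1) / c0) + D / s) ≤ 1 := by
  have hl2 : 0 < Real.log 2 := Real.log_pos one_lt_two
  have hlc : 0 < -Real.log c := neg_pos.2 (Real.log_neg hc hc1)
  obtain ⟨b, hb, hbc, hb2⟩ : ∃ b : ℝ, 0 < b ∧ b ≤ -Real.log c ∧ b ≤ Real.log 2 :=
    ⟨min (-Real.log c) (Real.log 2), lt_min hlc hl2, min_le_left _ _, min_le_right _ _⟩
  obtain ⟨A, hA⟩ : ∃ A : ℝ, A = 3 * 2 ^ (r + 4) := ⟨_, rfl⟩
  have hA0 : 0 < A := by rw [hA]; positivity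
  obtain ⟨u1, h1⟩ := ev 130 b 4 hb
  obtain ⟨u2, h2⟩ := ev 6 b 2 hb
  obtain ⟨u3, h3⟩ := ev (5 * (16 * A * 65)) b (2 * r + 12) hb
  obtain ⟨u4, h4⟩ := ev (5 * (16 * A)) b (2 * r + 8) hb
  obtain ⟨u5, h5⟩ := ev (5 * (16 * A * 6)) b (2 * r + 10) hb
  obtain ⟨u6, h6⟩ := ev (5 * (16 * A * A)) b (4 * r + 16) hb
  obtain ⟨U, hU⟩ : ∃ U : ℝ, U = |u1| + |u2| + |u3| + |u4| + |u5| + |u6| + 1 +
      ((6 * Real.log 2 + b) + 6 * Real.log 2) / (6 / 25 * ε * Real.log 2) +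
      ((5 * Real.log 2 + b) + 5 * Real.log 2) / (3 / 4 * ε * Real.log 2) +
      (b + 0) / (ε / 2 * Real.log 2) := ⟨_, rfl⟩
  refine ⟨⌈U ^ 2⌉₊, fun d hd => ?_⟩
  intro t M D ee c0 s
  have p1 : 0 ≤ ((6 * Real.log 2 + b) + 6 * Real.log 2) / (6 / 25 * ε * Real.log 2) := by positivity
  have p2 : 0 ≤ ((5 * Real.log 2 + b) + 5 * Real.log 2) / (3 / 4 * ε * Real.log 2) := by positivity
  have p3 : 0 ≤ (b + 0) / (ε / 2 * Real.log 2) := by positivity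
  have q1 := abs_nonneg u1
  have q2 := abs_nonneg u2
  have q3 := abs_nonneg u3
  have q4 := abs_nonneg u4
  have q5 := abs_nonneg u5
  have q6 := abs_nonneg u6
  have hU0 : 0 ≤ U := by rw [hU]; linarith
  have hdU : U ^ 2 ≤ (d : ℝ) := (Nat.le_ceil _).trans (by exact_mod_cast hd)
  obtain ⟨u, hu⟩ : ∃ u : ℝ, u = Real.sqrt d := ⟨_, rfl⟩
  have hdu : (d : ℝ) = u ^ 2 := by rw [hu, Real.sq_sqrt (Nat.cast_nonneg d)]
  have hu0 : 0 ≤ u := by rw [hu]; exact Real.sqrt_nonneg _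
  have hUu : U ≤ u := by
    rw [hu]; exact Real.le_sqrt_of_sq_le hdU
  have hu1 : 1 ≤ u := by linarith
  have g1 := h1 u (by linarith [le_abs_self u1])
  have g2 := h2 u (by linarith [le_abs_self u2])
  have g3 := h3 u (by linarith [le_abs_self u3])
  have g4 := h4 u (by linarith [le_abs_self u4])
  have g5 := h5 u (by linarith [le_abs_self u5])
  have g6 := h6 u (by linarith [le_abs_self u6])
  have k1 := quad (6 / 25 * ε * Real.log 2) (6 * Real.log 2 + b) (6 * Real.log 2) (by positivity)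
    (by positivity) (by positivity) u hu1 (by linarith)
  have k2 := quad (3 / 4 * ε * Real.log 2) (5 * Real.log 2 + b) (5 * Real.log 2) (by positivity)
    (by positivity) (by positivity) u hu1 (by linarith)
  have k3 := quad (ε / 2 * Real.log 2) b 0 (by positivity) hb.le le_rfl u hu1 (by linarith)
  -- the integer `t`
  have t1 : u ≤ (t : ℝ) := by rw [hu]; exact Nat.le_ceil _
  have t2 : (t : ℝ) ≤ u + 1 := by rw [hu]; exact (Nat.ceil_lt_add_one (Real.sqrt_nonneg _)).le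
  -- powers
  have hct : c ^ t ≤ Real.exp (-(b * u)) := by
    rw [← Real.rpow_natCast, Real.rpow_def_of_pos hc]
    refine Real.exp_le_exp.2 ?_
    nlinarith [mul_le_mul_of_nonneg_left t1 hlc.le, mul_le_mul_of_nonneg_right hbc hu0]
  have hhalf : ∀ m : ℕ, ((1:ℝ) / 2) ^ m = Real.exp (-(Real.log 2 * m)) := by
    intro m
    rw [← Real.rpow_natCast, Real.rpow_def_of_pos (by norm_num), one_div, Real.log_inv, neg_mul]
  have h32 : ((1:ℝ) / 32) ^ t = Real.exp (-(5 * Real.log 2 * t)) := by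
    rw [show ((1:ℝ) / 32) = (1 / 2) ^ 5 by norm_num, ← pow_mul, hhalf]
    congr 1; push_cast; ring
  have hht : ((1:ℝ) / 2) ^ t ≤ Real.exp (-(b * u)) := by
    rw [hhalf]
    refine Real.exp_le_exp.2 ?_
    nlinarith [mul_le_mul_of_nonneg_left t1 hl2.le, mul_le_mul_of_nonneg_right hb2 hu0]
  have h2p : ∀ x : ℝ, (2:ℝ) ^ x = Real.exp (Real.log 2 * x) := fun x =>
    Real.rpow_def_of_pos two_pos x
  have h2d : (2:ℝ) ^ d = Real.exp (Real.log 2 * u ^ 2) := by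
    rw [← Real.rpow_natCast, h2p, hdu]
  have hu2 : 1 ≤ u ^ 2 := one_le_pow₀ hu1
  -- `M` and `D`
  have hM : (M : ℝ) ≤ d := by
    have : M ≤ d := Nat.ceil_le.2 (by nlinarith [(Nat.cast_nonneg d : (0:ℝ) ≤ d)])
    exact_mod_cast this
  have hM0 : (0 : ℝ) ≤ M := Nat.cast_nonneg _
  have hD : (D : ℝ) ≤ A * u ^ (2 * r + 8) := by
    have := Dle u d M r hu1 hdu hM hM0
    rw [hA]
    refine le_trans (le_of_eq ?_) this
    simp only [D]
    push_cast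
    ring
  have hD0 : (0 : ℝ) ≤ D := Nat.cast_nonneg _
  obtain ⟨E, hE⟩ : ∃ E : ℝ, E = Real.exp (-(b * u)) := ⟨_, rfl⟩
  rw [← hE] at g1 g2 g3 g4 g5 g6 hct hht
  have hE0 : 0 < E := by rw [hE]; exact Real.exp_pos _
  have hee : ee ≤ 5 * u ^ 2 * E := by
    have e1 : 2 * (M : ℝ) * c ^ t ≤ 2 * u ^ 2 * E :=
      mul_le_mul (by rw [hdu] at hM; linarith) hct (pow_nonneg hc.le _) (by positivity)
    have e2 : 3 * ((1:ℝ) / 2) ^ t ≤ 3 * u ^ 2 * E := by nlinarith [mul_le_mul_of_nonneg_right hu2 hE0.le]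
    simp only [ee]
    linarith
  have hee0 : 0 ≤ ee := by simp only [ee]; positivity
  have hn : (((d + 12 : ℕ) : ℕ) : ℝ) ≤ 13 * u ^ 2 := by push_cast; rw [hdu]; linarith
  have hn0 : (0:ℝ) ≤ (((d + 12 : ℕ) : ℕ) : ℝ) := Nat.cast_nonneg _
  have hne : (((d + 12 : ℕ) : ℕ) : ℝ) * ee ≤ 65 * u ^ 4 * E := by
    calc (((d + 12 : ℕ) : ℕ) : ℝ) * ee ≤ (13 * u ^ 2) * (5 * u ^ 2 * E) :=
          mul_le_mul hn hee hee0 (by positivity)
      _ = 65 * u ^ 4 * E := by ring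
  have h6u : 2 * (((2 * d : ℕ) : ℝ) + 1) ≤ 6 * u ^ 2 := by push_cast; rw [hdu]; linarith
  have h6u0 : (0:ℝ) ≤ 2 * (((2 * d : ℕ) : ℝ) + 1) := by positivity
  have hs : s = Real.exp (ε / 2 * Real.log 2 * u ^ 2) := by
    simp only [s]; rw [h2p, hdu]; congr 1; ring
  have hc0 : c0 = Real.exp (-(5 * Real.log 2 * t) + Real.log 2 * ((1 + 3 / 4 * ε) * u ^ 2)) := by
    simp only [c0]; rw [h2p, hdu, h32, ← Real.exp_add]
  refine ⟨?_, ?_, ?_⟩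
  · refine lt_of_le_of_lt hne ?_
    have : 0 < u ^ 4 * E := by positivity
    nlinarith
  · have key : (1 / 2 : ℝ) ^ t * c0 * (2:ℝ) ^ (-((1 + ε / 100) * (d:ℝ))) =
        s * Real.exp (-(6 * Real.log 2 * t) + (6 / 25 * ε * Real.log 2) * u ^ 2) := by
      rw [hs, hc0, hhalf, h2p, hdu, ← Real.exp_add, ← Real.exp_add, ← Real.exp_add]
      congr 1; ring
    rw [key]
    refine mul_le_mul_of_nonneg_left ?_ (by rw [hs]; exact (Real.exp_pos _).le)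
    have e1 : Real.exp (b * u) ≤ Real.exp (-(6 * Real.log 2 * t) + (6 / 25 * ε * Real.log 2) * u ^ 2) := by
      refine Real.exp_le_exp.2 ?_
      nlinarith [mul_le_mul_of_nonneg_left t2 hl2.le]
    have e2 : 6 * u ^ 2 ≤ Real.exp (b * u) := by
      have e3 : Real.exp (b * u) * E = 1 := by rw [hE, ← Real.exp_add]; simp
      nlinarith [Real.exp_pos (b * u)]
    exact h6u.trans (e2.trans e1)
  · have d1 : 16 * (D:ℝ) * ((((d + 12 : ℕ) : ℕ) : ℝ) * ee) ≤ 1 / 5 := by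
      have : 16 * (D:ℝ) * ((((d + 12 : ℕ) : ℕ) : ℝ) * ee) ≤
          16 * (A * u ^ (2 * r + 8)) * (65 * u ^ 4 * E) :=
        mul_le_mul (by linarith) hne (mul_nonneg hn0 hee0) (by positivity)
      have e : 5 * (16 * A * 65) * u ^ (2 * r + 12) * E =
          5 * (16 * (A * u ^ (2 * r + 8)) * (65 * u ^ 4 * E)) := by
        rw [show 2 * r + 12 = (2 * r + 8) + 4 from rfl, pow_add]; ring
      rw [e] at g3
      linarith
    have d2 : 16 * (D:ℝ) * (1 / 2) ^ t ≤ 1 / 5 := by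
      have : 16 * (D:ℝ) * (1 / 2) ^ t ≤ 16 * (A * u ^ (2 * r + 8)) * E :=
        mul_le_mul (by linarith) hht (by positivity) (by positivity)
      have e : 5 * (16 * A) * u ^ (2 * r + 8) * E = 5 * (16 * (A * u ^ (2 * r + 8)) * E) := by ring
      rw [e] at g4
      linarith
    have hexp3 : Real.exp (-(ε / 2 * Real.log 2 * u ^ 2)) ≤ E := by
      rw [hE]; refine Real.exp_le_exp.2 ?_; linarith
    have d3 : 16 * (D:ℝ) * (2 ^ d / (2:ℝ) ^ ((1 + ε / 2) * (d:ℝ))) ≤ 1 / 5 := by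
      have e0 : (2:ℝ) ^ d / (2:ℝ) ^ ((1 + ε / 2) * (d:ℝ)) = Real.exp (-(ε / 2 * Real.log 2 * u ^ 2)) := by
        rw [h2d, h2p, hdu, ← Real.exp_sub]; congr 1; ring
      rw [e0]
      have : 16 * (D:ℝ) * Real.exp (-(ε / 2 * Real.log 2 * u ^ 2)) ≤ 16 * (A * u ^ (2 * r + 8)) * E :=
        mul_le_mul (by linarith) hexp3 (Real.exp_pos _).le (by positivity)
      have e : 5 * (16 * A) * u ^ (2 * r + 8) * E = 5 * (16 * (A * u ^ (2 * r + 8)) * E) := by ring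
      rw [e] at g4
      linarith
    have d4 : 16 * (D:ℝ) * (2 ^ d * (2 * (((2 * d : ℕ) : ℝ) + 1) / c0)) ≤ 1 / 5 := by
      have e0 : (2:ℝ) ^ d * (2 * (((2 * d : ℕ) : ℝ) + 1) / c0) =
          (2 * (((2 * d : ℕ) : ℝ) + 1)) *
            Real.exp (5 * Real.log 2 * t - (3 / 4 * ε * Real.log 2) * u ^ 2) := by
        rw [mul_div_assoc', mul_comm ((2:ℝ) ^ d), mul_div_assoc, h2d, hc0, ← Real.exp_sub]
        congr 2; ring
      have e1 : Real.exp (5 * Real.log 2 * t - (3 / 4 * ε * Real.log 2) * u ^ 2) ≤ E := by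
        rw [hE]; refine Real.exp_le_exp.2 ?_
        nlinarith [mul_le_mul_of_nonneg_left t2 hl2.le]
      rw [e0]
      have : 16 * (D:ℝ) * ((2 * (((2 * d : ℕ) : ℝ) + 1)) *
            Real.exp (5 * Real.log 2 * t - (3 / 4 * ε * Real.log 2) * u ^ 2)) ≤
          16 * (A * u ^ (2 * r + 8)) * (6 * u ^ 2 * E) :=
        mul_le_mul (by linarith) (mul_le_mul h6u e1 (Real.exp_pos _).le (by positivity))
          (mul_nonneg h6u0 (Real.exp_pos _).le) (by positivity)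
      have e : 5 * (16 * A * 6) * u ^ (2 * r + 10) * E =
          5 * (16 * (A * u ^ (2 * r + 8)) * (6 * u ^ 2 * E)) := by
        rw [show 2 * r + 10 = (2 * r + 8) + 2 from rfl, pow_add]; ring
      rw [e] at g5
      linarith
    have d5 : 16 * (D:ℝ) * (D / s) ≤ 1 / 5 := by
      have e0 : (D:ℝ) / s = D * Real.exp (-(ε / 2 * Real.log 2 * u ^ 2)) := by
        rw [hs, Real.exp_neg, div_eq_mul_inv]
      rw [e0]
      have : 16 * (D:ℝ) * (D * Real.exp (-(ε / 2 * Real.log 2 * u ^ 2))) ≤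
          16 * (A * u ^ (2 * r + 8)) * ((A * u ^ (2 * r + 8)) * E) :=
        mul_le_mul (by linarith) (mul_le_mul hD hexp3 (Real.exp_pos _).le (by positivity))
          (mul_nonneg hD0 (Real.exp_pos _).le) (by positivity)
      have e : 5 * (16 * A * A) * u ^ (4 * r + 16) * E =
          5 * (16 * (A * u ^ (2 * r + 8)) * ((A * u ^ (2 * r + 8)) * E)) := by
        rw [show 4 * r + 16 = (2 * r + 8) + (2 * r + 8) by ring, pow_add]; ring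
      rw [e] at g6
      linarith
    calc 16 * (D : ℝ) * ((((d + 12 : ℕ) : ℕ) : ℝ) * ee + (1 / 2) ^ t +
          2 ^ d / (2:ℝ) ^ ((1 + ε / 2) * (d:ℝ)) +
          2 ^ d * (2 * (((2 * d : ℕ) : ℝ) + 1) / c0) + D / s)
        = 16 * (D:ℝ) * ((((d + 12 : ℕ) : ℕ) : ℝ) * ee) + 16 * (D:ℝ) * (1 / 2) ^ t +
          16 * (D:ℝ) * (2 ^ d / (2:ℝ) ^ ((1 + ε / 2) * (d:ℝ))) +
          16 * (D:ℝ) * (2 ^ d * (2 * (((2 * d : ℕ) : ℝ) + 1) / c0)) + 16 * (D:ℝ) * (D / s) := by ring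
      _ ≤ 1 := by linarith

end Pool.Agent.HC
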