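import Pool.Agent.HC.ParS

/-!
# HC block N1 : the numerical conditions of one site hold for large `d`

`x = ξ/10`, `κ = 1 - x`, `r = (1-x)/2`, `a1 = (1-x)^2/2`, `al = (1-x)^3/2`, `θ = ρ = x/10`,
`τ = ρ^2/16`; the work is in `ParS.lean`.
-/

namespace Pool.Agent.HC

theorem spar_ex {ξ : ℝ} (hξ : 0 < ξ) (hξ1 : ξ ≤ 1 / 10) :
    ∃ τ ρ θ κ a1 r al : ℝ, 0 < τ ∧ τ ≤ 1 / 100 ∧ 0 < a1 ∧ a1 < r ∧ 0 < al ∧ al ≤ 1 ∧
      1 / al ≤ (2:ℝ) ^ (1 + ξ) ∧
      ∀ δ : ℝ, 0 < δ → δ ≤ 1 → ∃ d0 : ℕ, ∀ d : ℕ, d0 ≤ d →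
        SPar (1 / 2 - τ) τ ((2:ℝ) ^ (-(δ * d))) ρ θ ((2:ℝ) ^ (-(δ / 2 * d))) κ a1 r al
          ((1 / 2) ^ ⌈Real.sqrt d⌉₊) ⌈Real.sqrt d⌉₊ ⌈δ / 16 * d⌉₊ := by
  obtain ⟨x, hx⟩ : ∃ x : ℝ, x = ξ / 10 := ⟨_, rfl⟩
  have hx0 : 0 < x := by rw [hx]; positivity
  have hx1 : x ≤ 1 / 100 := by rw [hx]; linarith
  obtain ⟨K0, hK1, hK0⟩ := spar_of_large (x := x) (ρ := x / 10) (τ := (x / 10) ^ 2 / 16)
    (q := 1 / 2 - (x / 10) ^ 2 / 16) hx0 hx1 (by positivity) (le_refl _) (by positivity)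
    (le_refl _) (by nlinarith)
  refine ⟨(x / 10) ^ 2 / 16, x / 10, x / 10, 1 - x, (1 - x) ^ 2 / 2, (1 - x) / 2, (1 - x) ^ 3 / 2,
    by positivity, by nlinarith, ?_, ?_, ?_, ?_, ?_, ?_⟩
  · have : 0 < 1 - x := by linarith
    positivity
  · nlinarith
  · have : 0 < 1 - x := by linarith
    positivity
  · have h1 : (1 - x) ^ 3 ≤ 1 := pow_le_one₀ (by linarith) (by linarith)
    linarith
  · -- `1 / al ≤ 2 ^ (1 + ξ)`
    have h1 : 0 < 1 - x := by linarith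
    have h2 : 1 + 5 * x ≤ (2:ℝ) ^ ξ := by
      have h3 : (2:ℝ) ^ ξ = Real.exp (Real.log 2 * ξ) := by
        rw [Real.rpow_def_of_pos (by norm_num)]
      have h4 := Real.add_one_le_exp (Real.log 2 * ξ)
      have h5 := Real.log_two_gt_d9
      have h6 : ξ = 10 * x := by rw [hx]; ring
      rw [h3]
      rw [h6] at h4 ⊢
      nlinarith
    have h7 : 1 ≤ (1 + 5 * x) * (1 - x) ^ 3 := by
      have h8 : 1 - 3 * x ≤ (1 - x) ^ 3 := by
        have : (1 - x) ^ 3 - (1 - 3 * x) = x ^ 2 * (3 - x) := by ring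
        have h9 : 0 ≤ x ^ 2 * (3 - x) := mul_nonneg (by positivity) (by linarith)
        linarith
      calc (1:ℝ) ≤ (1 + 5 * x) * (1 - 3 * x) := by nlinarith
        _ ≤ _ := mul_le_mul_of_nonneg_left h8 (by linarith)
    rw [div_le_iff₀ (by positivity), Real.rpow_add (by norm_num), Real.rpow_one]
    have h10 : (1 + 5 * x) * (1 - x) ^ 3 ≤ (2:ℝ) ^ ξ * (1 - x) ^ 3 :=
      mul_le_mul_of_nonneg_right h2 (by positivity)
    linarith
  · intro δ hδ hδ1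
    obtain ⟨d1, hd1⟩ := exists_nat_ge (256 / δ ^ 2)
    refine ⟨max (K0 ^ 2) d1, fun d hd => ?_⟩
    have hdK : K0 ^ 2 ≤ d := le_trans (le_max_left _ _) hd
    have hdd : d1 ≤ d := le_trans (le_max_right _ _) hd
    have hdR : 256 / δ ^ 2 ≤ (d:ℝ) := hd1.trans (by exact_mod_cast hdd)
    have hd256 : 256 ≤ δ ^ 2 * d := by
      rw [div_le_iff₀ (by positivity)] at hdR
      linarith
    have hd0 : (0:ℝ) ≤ d := Nat.cast_nonneg d
    -- `16 ≤ δ √d`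
    have hs : 16 ≤ δ * Real.sqrt d := by
      have h1 : (δ * Real.sqrt d) ^ 2 = δ ^ 2 * d := by
        rw [mul_pow, Real.sq_sqrt hd0]
      have h2 : 0 ≤ δ * Real.sqrt d := by positivity
      nlinarith
    have hs2 : Real.sqrt d ≤ δ / 16 * d := by
      have h1 : Real.sqrt d * Real.sqrt d = d := Real.mul_self_sqrt hd0
      have h2 : 0 ≤ Real.sqrt d := Real.sqrt_nonneg _
      nlinarith
    have hsK : (K0:ℝ) ≤ Real.sqrt d := by
      apply Real.le_sqrt_of_sq_le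
      exact_mod_cast hdK
    have hδd : 256 ≤ δ * d := by nlinarith
    have hM16 : (16:ℝ) ≤ ⌈δ / 16 * (d:ℝ)⌉₊ := by
      refine le_trans ?_ (Nat.le_ceil _)
      linarith
    have hMlt : (⌈δ / 16 * (d:ℝ)⌉₊ : ℝ) < δ / 16 * d + 1 := Nat.ceil_lt_add_one (by positivity)
    have hMd : 15 * (⌈δ / 16 * (d:ℝ)⌉₊ : ℝ) ≤ δ * d := by linarith
    have hpow : ∀ (a : ℝ) (n : ℕ), (n:ℝ) ≤ a → (2:ℝ) ^ (-a) ≤ (1 / 2) ^ n := by
      intro a n hn
      have h1 : ((1:ℝ) / 2) ^ n = (2:ℝ) ^ (-(n:ℝ)) := by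
        rw [Real.rpow_neg (by norm_num), Real.rpow_natCast, one_div, inv_pow]
      rw [h1]
      exact Real.rpow_le_rpow_of_exponent_le (by norm_num) (by linarith)
    apply hK0
    · have h1 : (K0:ℝ) ≤ ⌈Real.sqrt d⌉₊ := hsK.trans (Nat.le_ceil _)
      exact_mod_cast h1
    · exact Nat.ceil_le_ceil hs2
    · positivity
    · apply hpow
      push_cast
      linarith
    · apply Real.rpow_le_rpow_of_exponent_le (by norm_num)
      linarith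
    · apply hpow
      push_cast
      linarith
    · rw [← Real.rpow_sub (by norm_num)]
      have h1 : -(δ * d) - -(δ / 2 * d) = -(δ / 2 * d) := by ring
      rw [h1]
      apply hpow
      push_cast
      linarith

end Pool.Agent.HC
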