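import Mathlib

/-!
# HC block G5a : averaging along a path of sites (note 2854, 3 GLOBAL)

`x k ∈ S k` for `k < K`, weight `∏ k + 1 < K, c k (x k) (x (k + 1))`. If at every inner site the
badness `F` is at most `ε` times the weight, summed over the choices at this site, then some `x` of
positive weight has badness at most `K * ε` times the weight at all inner sites.
-/

namespace Pool.Agent.HC

open Finset

/-- Averaging over one coordinate. -/
theorem sum_coord {ι α : Type*} [Fintype ι] [DecidableEq ι] (S : ι → Finset α) (i : ι)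
    (G : (ι → α) → ℝ) :
    ∑ x ∈ Fintype.piFinset S, ∑ y ∈ S i, G (Function.update x i y) =
      (S i).card * ∑ x ∈ Fintype.piFinset S, G x := by
  have h1 : ((S i).card : ℝ) * ∑ x ∈ Fintype.piFinset S, G x =
      ∑ x ∈ Fintype.piFinset S, ∑ _y ∈ S i, G x := by
    rw [Finset.mul_sum]
    refine Finset.sum_congr rfl fun x _ => ?_
    rw [Finset.sum_const, nsmul_eq_mul]
  rw [h1, ← Finset.sum_product', ← Finset.sum_product']
  refine Finset.sum_nbij' (fun z => (Function.update z.1 i z.2, z.1 i))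
    (fun z => (Function.update z.1 i z.2, z.1 i)) ?_ ?_ ?_ ?_ ?_
  · rintro ⟨x, y⟩ hz
    simp only [mem_product, Fintype.mem_piFinset] at hz ⊢
    refine ⟨fun j => ?_, hz.1 i⟩
    by_cases hj : j = i
    · subst hj; simpa using hz.2
    · rw [Function.update_of_ne hj]; exact hz.1 j
  · rintro ⟨x, y⟩ hz
    simp only [mem_product, Fintype.mem_piFinset] at hz ⊢
    refine ⟨fun j => ?_, hz.1 i⟩
    by_cases hj : j = i
    · subst hj; simpa using hz.2
    · rw [Function.update_of_ne hj]; exact hz.1 j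
  · rintro ⟨x, y⟩ _
    simp
  · rintro ⟨x, y⟩ _
    simp
  · rintro ⟨x, y⟩ _
    rfl

/-- Extension of a tuple by a default value. -/
def extD {α : Type*} {K : ℕ} (a0 : α) (x : Fin K → α) (k : ℕ) : α :=
  if h : k < K then x ⟨k, h⟩ else a0

theorem extD_update {α : Type*} {K : ℕ} (a0 : α) (x : Fin K → α) (i : Fin K) (y : α) (k : ℕ) :
    extD a0 (Function.update x i y) k = if k = i then y else extD a0 x k := by
  unfold extD
  by_cases hk : k < K
  · rw [dif_pos hk, dif_pos hk]
    by_cases hki : k = i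
    · rw [if_pos hki]
      have : (⟨k, hk⟩ : Fin K) = i := Fin.ext hki
      rw [this, Function.update_self]
    · rw [if_neg hki, Function.update_of_ne]
      intro h
      exact hki (congrArg Fin.val h)
  · rw [dif_neg hk, dif_neg hk]
    have hki : k ≠ i := fun h => hk (h ▸ i.2)
    rw [if_neg hki]

theorem path_select {α : Type*} {K : ℕ} (S : ℕ → Finset α) (c : ℕ → α → α → ℝ)
    (F : ℕ → α → α → α → ℝ) (ε : ℝ) (hc : ∀ k a b, 0 ≤ c k a b) (hF : ∀ k a y b, 0 ≤ F k a y b)
    (h0 : (S 0).Nonempty)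
    (hstep : ∀ k, k + 1 < K → ∀ a ∈ S k, ∃ b ∈ S (k + 1), 0 < c k a b)
    (hsite : ∀ k, k + 2 < K → ∀ a ∈ S k, ∀ b ∈ S (k + 2),
      ∑ y ∈ S (k + 1), F k a y b ≤ ε * ∑ y ∈ S (k + 1), c k a y * c (k + 1) y b) :
    ∃ x : ℕ → α, (∀ k < K, x k ∈ S k) ∧ (∀ k, k + 1 < K → 0 < c k (x k) (x (k + 1))) ∧
      ∀ k, k + 2 < K → F k (x k) (x (k + 1)) (x (k + 2)) ≤
        K * ε * (c k (x k) (x (k + 1)) * c (k + 1) (x (k + 1)) (x (k + 2))) := by
  classical
  obtain ⟨a0, ha0⟩ := h0
  -- a tuple of positive weight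
  have hpos : ∃ x : ℕ → α, (∀ k < K, x k ∈ S k) ∧ ∀ k, k + 1 < K → 0 < c k (x k) (x (k + 1)) := by
    have hst' : ∀ k (a : α), ∃ b : α, k + 1 < K → a ∈ S k → b ∈ S (k + 1) ∧ 0 < c k a b := by
      intro k a
      by_cases h : k + 1 < K ∧ a ∈ S k
      · obtain ⟨b, hb, hb'⟩ := hstep k h.1 a h.2
        exact ⟨b, fun _ _ => ⟨hb, hb'⟩⟩
      · exact ⟨a0, fun h1 h2 => absurd ⟨h1, h2⟩ h⟩
    choose nx hnx using hst'
    let z : ℕ → α := fun k => Nat.rec a0 (fun k a => nx k a) k
    have hz0 : z 0 = a0 := rfl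
    have hzs : ∀ k, z (k + 1) = nx k (z k) := fun k => rfl
    have hmem : ∀ k, k < K → z k ∈ S k := by
      intro k
      induction k with
      | zero => intro _; rw [hz0]; exact ha0
      | succ k ih =>
        intro hk
        rw [hzs]
        exact (hnx k (z k) hk (ih (by omega))).1
    refine ⟨z, hmem, fun k hk => ?_⟩
    rw [hzs]
    exact (hnx k (z k) hk (hmem k (by omega))).2
  obtain ⟨z, hzS, hzpos⟩ := hpos
  set P : Finset (Fin K → α) := Fintype.piFinset (fun k : Fin K => S k) with hP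
  set e : (Fin K → α) → ℕ → α := extD a0 with he
  set w : (Fin K → α) → ℝ := fun x => ∏ j ∈ range (K - 1), c j (e x j) (e x (j + 1)) with hw
  set R : ℕ → (Fin K → α) → ℝ := fun k x =>
    ∏ j ∈ ((range (K - 1)).erase k).erase (k + 1), c j (e x j) (e x (j + 1)) with hR
  set G : ℕ → (Fin K → α) → ℝ := fun k x =>
    F k (e x k) (e x (k + 1)) (e x (k + 2)) * R k x with hG
  have hw0 : ∀ x, 0 ≤ w x := fun x => Finset.prod_nonneg fun j _ => hc _ _ _
  have hR0 : ∀ k x, 0 ≤ R k x := fun k x => Finset.prod_nonneg fun j _ => hc _ _ _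
  have hG0 : ∀ k x, 0 ≤ G k x := fun k x => mul_nonneg (hF _ _ _ _) (hR0 _ _)
  have hwR : ∀ k, k + 2 < K → ∀ x, w x =
      (c k (e x k) (e x (k + 1)) * c (k + 1) (e x (k + 1)) (e x (k + 2))) * R k x := by
    intro k hk x
    have h1 : k ∈ range (K - 1) := by rw [mem_range]; omega
    have h2 : k + 1 ∈ (range (K - 1)).erase k := by
      rw [mem_erase, mem_range]; omega
    rw [hw, hR]
    simp only
    rw [← Finset.mul_prod_erase _ _ h1, ← Finset.mul_prod_erase _ _ h2, mul_assoc]
  have heS : ∀ x ∈ P, ∀ k, k < K → e x k ∈ S k := by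
    intro x hx k hk
    rw [hP, Fintype.mem_piFinset] at hx
    have := hx ⟨k, hk⟩
    rw [he, extD, dif_pos hk]
    exact this
  -- the positive tuple
  have hzP : (fun k : Fin K => z k) ∈ P := by
    rw [hP, Fintype.mem_piFinset]
    exact fun k => hzS k k.2
  have hez : ∀ k, k < K → e (fun k : Fin K => z k) k = z k := by
    intro k hk
    rw [he, extD, dif_pos hk]
  have hwz : 0 < w (fun k : Fin K => z k) := by
    rw [hw]
    refine Finset.prod_pos fun j hj => ?_
    rw [mem_range] at hj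
    rw [hez j (by omega), hez (j + 1) (by omega)]
    exact hzpos j (by omega)
  have hwsum : 0 < ∑ x ∈ P, w x :=
    lt_of_lt_of_le hwz (Finset.single_le_sum (fun x _ => hw0 x) hzP)
  -- averaging over one site
  have hone : ∀ k, k + 2 < K → ∑ x ∈ P, G k x ≤ ε * ∑ x ∈ P, w x := by
    intro k hk
    set i : Fin K := ⟨k + 1, by omega⟩ with hi
    have hSi : (S (k + 1)).Nonempty := ⟨z (k + 1), hzS (k + 1) (by omega)⟩
    have hcard : (0 : ℝ) < (S (k + 1)).card := by exact_mod_cast Finset.card_pos.mpr hSi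
    have hu : ∀ x y j, e (Function.update x i y) j = if j = k + 1 then y else e x j := by
      intro x y j
      rw [he, extD_update]
    have hRu : ∀ x y, R k (Function.update x i y) = R k x := by
      intro x y
      rw [hR]
      simp only
      refine Finset.prod_congr rfl fun j hj => ?_
      rw [mem_erase, mem_erase] at hj
      rw [hu, hu, if_neg hj.1, if_neg (by omega)]
    have hGu : ∀ x y, G k (Function.update x i y) =
        F k (e x k) y (e x (k + 2)) * R k x := by
      intro x y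
      rw [hG]
      simp only
      rw [hRu, hu, hu, hu, if_neg (by omega), if_pos rfl, if_neg (by omega)]
    have hwu : ∀ x y, w (Function.update x i y) =
        (c k (e x k) y * c (k + 1) y (e x (k + 2))) * R k x := by
      intro x y
      rw [hwR k hk, hRu, hu, hu, hu, if_neg (by omega), if_pos rfl, if_neg (by omega)]
    have hsG := sum_coord (fun k : Fin K => S k) i (G k)
    have hsw := sum_coord (fun k : Fin K => S k) i w
    have hle : ∑ x ∈ P, ∑ y ∈ S (k + 1), G k (Function.update x i y) ≤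
        ε * ∑ x ∈ P, ∑ y ∈ S (k + 1), w (Function.update x i y) := by
      rw [Finset.mul_sum]
      refine Finset.sum_le_sum fun x hx => ?_
      simp only [hGu, hwu]
      rw [← Finset.sum_mul, ← Finset.sum_mul, ← mul_assoc]
      exact mul_le_mul_of_nonneg_right
        (hsite k hk _ (heS x hx k (by omega)) _ (heS x hx (k + 2) hk)) (hR0 k x)
    have h3 : ((S (k + 1)).card : ℝ) * ∑ x ∈ P, G k x ≤
        (S (k + 1)).card * (ε * ∑ x ∈ P, w x) := by
      calc ((S (k + 1)).card : ℝ) * ∑ x ∈ P, G k x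
          = ∑ x ∈ P, ∑ y ∈ S (k + 1), G k (Function.update x i y) := hsG.symm
        _ ≤ ε * ∑ x ∈ P, ∑ y ∈ S (k + 1), w (Function.update x i y) := hle
        _ = ε * ((S (k + 1)).card * ∑ x ∈ P, w x) := by
            have h4 : ∑ x ∈ P, ∑ y ∈ S (k + 1), w (Function.update x i y) =
                (S (k + 1)).card * ∑ x ∈ P, w x := hsw
            rw [h4]
        _ = (S (k + 1)).card * (ε * ∑ x ∈ P, w x) := by ring
    exact le_of_mul_le_mul_left h3 hcard
  by_cases hK : K < 3
  · exact ⟨z, hzS, hzpos, fun k hk => by omega⟩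
  have hε : 0 ≤ ε := by
    have h1 := hone 0 (by omega)
    have h2 : 0 ≤ ∑ x ∈ P, G 0 x := Finset.sum_nonneg fun x _ => hG0 0 x
    by_contra hneg
    push Not at hneg
    nlinarith
  -- averaging over all sites
  have hall : ∑ x ∈ P, ∑ k ∈ range (K - 2), G k x ≤ (K - 2 : ℕ) * ε * ∑ x ∈ P, w x := by
    rw [Finset.sum_comm]
    calc ∑ k ∈ range (K - 2), ∑ x ∈ P, G k x ≤ ∑ _k ∈ range (K - 2), ε * ∑ x ∈ P, w x := by
          refine Finset.sum_le_sum fun k hk => hone k ?_
          rw [mem_range] at hk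
          omega
      _ = (K - 2 : ℕ) * ε * ∑ x ∈ P, w x := by
          rw [Finset.sum_const, card_range, nsmul_eq_mul]; ring
  have hex : ∃ x ∈ P, 0 < w x ∧ ∑ k ∈ range (K - 2), G k x ≤ (K - 2 : ℕ) * ε * w x := by
    by_contra hno
    push Not at hno
    have h1 : (K - 2 : ℕ) * ε * ∑ x ∈ P, w x < ∑ x ∈ P, ∑ k ∈ range (K - 2), G k x := by
      rw [Finset.mul_sum]
      refine Finset.sum_lt_sum (fun x hx => ?_) ⟨_, hzP, hno _ hzP hwz⟩
      rcases (hw0 x).lt_or_eq with h | h
      · exact (hno x hx h).le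
      · rw [← h, mul_zero]
        exact Finset.sum_nonneg fun k _ => hG0 k x
    exact absurd hall (not_le.mpr h1)
  obtain ⟨x, hxP, hwx, hGx⟩ := hex
  have hcpos : ∀ k, k + 1 < K → 0 < c k (e x k) (e x (k + 1)) := by
    intro k hk
    rcases (hc k (e x k) (e x (k + 1))).lt_or_eq with h | h
    · exact h
    · exfalso
      have : w x = 0 := by
        rw [hw]
        exact Finset.prod_eq_zero (i := k) (by rw [mem_range]; omega) h.symm
      rw [this] at hwx
      exact lt_irrefl _ hwx
  refine ⟨e x, fun k hk => heS x hxP k hk, hcpos, fun k hk => ?_⟩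
  have hRpos : 0 < R k x := by
    rw [hR]
    refine Finset.prod_pos fun j hj => hcpos j ?_
    rw [mem_erase, mem_erase, mem_range] at hj
    omega
  have h1 : G k x ≤ ∑ k ∈ range (K - 2), G k x :=
    Finset.single_le_sum (f := fun k => G k x) (fun k _ => hG0 k x) (by rw [mem_range]; omega)
  have h2 : ((K - 2 : ℕ) : ℝ) * ε * w x ≤ K * ε * w x := by
    have h3 : ((K - 2 : ℕ) : ℝ) ≤ K := by exact_mod_cast Nat.sub_le _ _
    exact mul_le_mul_of_nonneg_right (mul_le_mul_of_nonneg_right h3 hε) (hw0 x)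
  have h4 : G k x ≤ K * ε * w x := h1.trans (hGx.trans h2)
  rw [hwR k hk x, ← mul_assoc] at h4
  exact le_of_mul_le_mul_right h4 hRpos

end Pool.Agent.HC
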