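import Pool.Agent.HC.SiteMain
import Pool.Agent.HC.SelAvg

/-!
# HC block G5 : the global choice of the classes of centres (note 2854, 3 GLOBAL)

Sites: the even `m` with `2 ≤ m ≤ n - 2`; `x m ∈ TT T (W (m-1)) (W m) (W (m+1)) t`. For odd `l`,
`3 ≤ l ≤ n - 3`: `C x l = W l ∩ {T (x (l-1) s) b for all s} ∩ {T b (x (l+1) s) for all s}`,
weight `∏ l, #(C x l)^M`. For a site `m` with `4 ≤ m ≤ n - 4` and fixed other coordinates the weight is
a constant times `#(innT T B1 (x m))^M * #(outT T B2 (x m))^M` with `B1 = outT T (W (m-1)) (x (m-2))`,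
`B2 = innT T (W (m+1)) (x (m+2))`, of size `≥ (1/4)^t` relative to `W (m-1)`, `W (m+1)` because
`x (m-2)`, `x (m+2)` are in their `TT`: `site_main`. Averaging (`path_select`): there is `x` of
positive weight (it exists by `site_main`, site after site) with
`nbad_m + [some small] * weight ≤ (number of sites) * ee * weight` at every site.
The sizes: `#(C x l) ≥ (1/8)^t #B1 ≥ (1/8)^t (1/4)^t #(W l)` (`l = m - 1` or `l = m + 1`).
-/

namespace Pool.Agent.HC

open Finset Classical
open Pool.Agent.H97.QD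

variable {V : Type}

lemma outT_innT_comm (T : V → V → Prop) (B : Finset V) {k l : ℕ} (x : Fin k → V) (y : Fin l → V) :
    outT T (innT T B y) x = innT T (outT T B x) y := by
  ext b
  rw [mem_outT, mem_innT, mem_innT, mem_outT]
  tauto

/-- the odd class between the sites `k` and `k + 1` -/
noncomputable def selc (T : V → V → Prop) (W : ℕ → Finset V) {t : ℕ} (k : ℕ)
    (a b : Fin t → V) : Finset V :=
  innT T (outT T (W (2 * k + 3)) a) b

/-- the tuples of the site `k` -/
noncomputable def selS (T : V → V → Prop) (W : ℕ → Finset V) (t k : ℕ) : Finset (Fin t → V) :=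
  TT T (W (2 * k + 1)) (W (2 * k + 2)) (W (2 * k + 3)) t

lemma selS_out {T : V → V → Prop} {W : ℕ → Finset V} {t k : ℕ} {a : Fin t → V}
    (ha : a ∈ selS T W t k) :
    (1 / 4 : ℝ) ^ t * (W (2 * k + 3)).card ≤ (outT T (W (2 * k + 3)) a).card := by
  unfold selS TT at ha
  rw [Finset.mem_filter] at ha
  exact ha.2.2

lemma selS_inn {T : V → V → Prop} {W : ℕ → Finset V} {t k : ℕ} {a : Fin t → V}
    (ha : a ∈ selS T W t k) :
    (1 / 4 : ℝ) ^ t * (W (2 * k + 1)).card ≤ (innT T (W (2 * k + 1)) a).card := by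
  unfold selS TT at ha
  rw [Finset.mem_filter] at ha
  exact ha.2.1

theorem select {T : V → V → Prop} {n : ℕ} {W : ℕ → Finset V} {p : ℕ → ℝ}
    {q τ lam w0 ρ θ nu κ a1 r al e0 ee : ℝ} {t M : ℕ}
    (h : CChain T n W p q τ lam w0) (hw0 : 0 < w0) (hn : 8 ≤ n)
    (hP : SPar q τ lam ρ θ nu κ a1 r al e0 t M)
    (hee : 2 * M * (a1 / r) ^ t + 3 * e0 ≤ ee) (hee1 : n * ee < 1) :
    ∃ C : ℕ → Finset V,
      (∀ l, Odd l → 3 ≤ l → l + 3 ≤ n → C l ⊆ W l ∧ (1 / 32 : ℝ) ^ t * (W l).card ≤ (C l).card) ∧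
      ∀ m, Even m → 4 ≤ m → m + 4 ≤ n →
        (nbad T (W m) nu al M (C (m - 1)) (C (m + 1)) : ℝ) ≤
          n * ee * (((C (m - 1)).card : ℝ) ^ M * ((C (m + 1)).card : ℝ) ^ M) := by
  have hne : ∀ i, i ≤ n → (W i).Nonempty := fun i hi => by
    rw [← Finset.card_pos]
    exact_mod_cast lt_of_lt_of_le hw0 (h.size i hi)
  have hee0 : 0 ≤ ee := by
    refine le_trans ?_ hee
    have h1 := hP.a10
    have h2 := hP.r0
    have h3 := hP.e00
    positivity
  have hq1 : ((1 / 4 : ℝ)) ^ t ≤ 1 := pow_le_one₀ (by norm_num) (by norm_num)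
  -- one site
  have hmain : ∀ j, j + 2 ≤ n → ∀ B1 B2 : Finset V, B1 ⊆ W j → B2 ⊆ W (j + 2) →
      (1 / 4 : ℝ) ^ t * (W j).card ≤ B1.card → (1 / 4 : ℝ) ^ t * (W (j + 2)).card ≤ B2.card → _ :=
    fun j hj B1 B2 hB1 hB2 hB1c hB2c =>
      site_main hP (h.link (i := j) (by omega)) (h.link (i := j + 1) (by omega))
        (h.pq j (by omega)) (h.p1 j (by omega)) (h.pq (j + 1) (by omega)) (h.p1 (j + 1) (by omega))
        (hne (j + 1) (by omega)) (hne j (by omega)) (hne (j + 2) (by omega)) hB1 hB2 hB1c hB2c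
  set K : ℕ := (n - 2) / 2 with hK
  have hK3 : 3 ≤ K := by omega
  set c : ℕ → (Fin t → V) → (Fin t → V) → ℝ := fun k a b => ((selc T W k a b).card : ℝ) ^ M with hc
  set F : ℕ → (Fin t → V) → (Fin t → V) → (Fin t → V) → ℝ := fun k a y b =>
    (nbad T (W (2 * k + 4)) nu al M (selc T W k a y) (selc T W (k + 1) y b) : ℝ) +
      (if ((selc T W k a y).card : ℝ) < (1 / 8) ^ t * (outT T (W (2 * k + 3)) a).card ∨
          ((selc T W (k + 1) y b).card : ℝ) < (1 / 8) ^ t * (innT T (W (2 * k + 5)) b).card then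
        c k a y * c (k + 1) y b else 0) with hF
  have hc0 : ∀ k a b, 0 ≤ c k a b := fun k a b => by simp only [hc]; positivity
  have hF0 : ∀ k a y b, 0 ≤ F k a y b := fun k a y b => by
    simp only [hF]
    refine add_nonneg (Nat.cast_nonneg _) ?_
    split_ifs
    · exact mul_nonneg (hc0 _ _ _) (hc0 _ _ _)
    · exact le_refl _
  have h0 : (selS T W t 0).Nonempty := by
    have h1 := (hmain 1 (by omega) (W 1) (W 3) subset_rfl subset_rfl
      (mul_le_of_le_one_left (Nat.cast_nonneg _) hq1)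
      (mul_le_of_le_one_left (Nat.cast_nonneg _) hq1)).1
    obtain ⟨x, hx, _⟩ := Finset.exists_ne_zero_of_sum_ne_zero h1.ne'
    exact ⟨x, hx⟩
  have hstep : ∀ k, k + 1 < K → ∀ a ∈ selS T W t k, ∃ b ∈ selS T W t (k + 1), 0 < c k a b := by
    intro k hk a ha
    have h1 := (hmain (2 * k + 3) (by omega) (outT T (W (2 * k + 3)) a) (W (2 * k + 5))
      (outT_subset _ _ _) subset_rfl (selS_out ha)
      (mul_le_of_le_one_left (Nat.cast_nonneg _) hq1)).1
    obtain ⟨x, hx, hx'⟩ := Finset.exists_ne_zero_of_sum_ne_zero h1.ne'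
    refine ⟨x, hx, ?_⟩
    have h2 : ((innT T (outT T (W (2 * k + 3)) a) x).card : ℝ) ^ M ≠ 0 := left_ne_zero_of_mul hx'
    exact lt_of_le_of_ne (by positivity) (Ne.symm h2)
  have hsite : ∀ k, k + 2 < K → ∀ a ∈ selS T W t k, ∀ b ∈ selS T W t (k + 2),
      ∑ y ∈ selS T W t (k + 1), F k a y b ≤
        ee * ∑ y ∈ selS T W t (k + 1), c k a y * c (k + 1) y b := by
    intro k hk a ha b hb
    have h1 := (hmain (2 * k + 3) (by omega) (outT T (W (2 * k + 3)) a) (innT T (W (2 * k + 5)) b)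
      (outT_subset _ _ _) (innT_subset _ _ _) (selS_out ha) (selS_inn hb)).2
    have h2 : ∀ y : Fin t → V, outT T (innT T (W (2 * k + 5)) b) y = selc T W (k + 1) y b := by
      intro y
      rw [outT_innT_comm]
      rfl
    simp only [h2] at h1
    have h3 : 0 ≤ ∑ y ∈ selS T W t (k + 1), c k a y * c (k + 1) y b :=
      Finset.sum_nonneg fun y _ => mul_nonneg (hc0 _ _ _) (hc0 _ _ _)
    exact h1.trans (mul_le_mul_of_nonneg_right hee h3)
  obtain ⟨x, hxS, hxc, hxF⟩ := path_select (K := K) (selS T W t) c F ee hc0 hF0 h0 hstep hsite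
  have hKn : (K : ℝ) * ee ≤ n * ee := by
    refine mul_le_mul_of_nonneg_right ?_ hee0
    have : K ≤ n := by omega
    exact_mod_cast this
  have hgood : ∀ k, k + 2 < K →
      (1 / 8 : ℝ) ^ t * (outT T (W (2 * k + 3)) (x k)).card ≤ (selc T W k (x k) (x (k + 1))).card ∧
      (1 / 8 : ℝ) ^ t * (innT T (W (2 * k + 5)) (x (k + 2))).card ≤
        (selc T W (k + 1) (x (k + 1)) (x (k + 2))).card := by
    intro k hk
    by_contra hcon
    have hsm : ((selc T W k (x k) (x (k + 1))).card : ℝ) <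
          (1 / 8) ^ t * (outT T (W (2 * k + 3)) (x k)).card ∨
        ((selc T W (k + 1) (x (k + 1)) (x (k + 2))).card : ℝ) <
          (1 / 8) ^ t * (innT T (W (2 * k + 5)) (x (k + 2))).card := by
      by_contra h4
      push Not at h4
      exact hcon h4
    have h1 := hxF k hk
    have h2 : c k (x k) (x (k + 1)) * c (k + 1) (x (k + 1)) (x (k + 2)) ≤
        F k (x k) (x (k + 1)) (x (k + 2)) := by
      simp only [hF]
      rw [if_pos hsm]
      exact le_add_of_nonneg_left (Nat.cast_nonneg _)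
    have h3 : 0 < c k (x k) (x (k + 1)) * c (k + 1) (x (k + 1)) (x (k + 2)) :=
      mul_pos (hxc k (by omega)) (hxc (k + 1) (by omega))
    have h4 : (K : ℝ) * ee < 1 := lt_of_le_of_lt hKn hee1
    nlinarith
  refine ⟨fun l => selc T W ((l - 3) / 2) (x ((l - 3) / 2)) (x ((l - 3) / 2 + 1)), ?_, ?_⟩
  · intro l hl h3 hln
    obtain ⟨k, rfl⟩ : ∃ k, l = 2 * k + 3 := by
      obtain ⟨j, hj⟩ := hl
      exact ⟨j - 1, by omega⟩
    have e1 : (2 * k + 3 - 3) / 2 = k := by omega
    simp only [e1]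
    refine ⟨?_, ?_⟩
    · unfold selc
      exact (innT_subset _ _ _).trans (outT_subset _ _ _)
    · have e32 : (1 / 32 : ℝ) ^ t = (1 / 8) ^ t * (1 / 4) ^ t := by
        rw [← mul_pow]; norm_num
      rw [e32, mul_assoc]
      by_cases hk : k + 2 < K
      · refine le_trans ?_ (hgood k hk).1
        exact mul_le_mul_of_nonneg_left (selS_out (hxS k (by omega))) (by positivity)
      · obtain ⟨j, rfl⟩ : ∃ j, k = j + 1 := ⟨k - 1, by omega⟩
        have h5 := (hgood j (by omega)).2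
        refine le_trans ?_ h5
        have h6 := selS_inn (hxS (j + 2) (by omega))
        have e2 : 2 * (j + 2) + 1 = 2 * j + 5 := by ring
        have e3 : 2 * (j + 1) + 3 = 2 * j + 5 := by ring
        rw [e2] at h6
        rw [e3]
        exact mul_le_mul_of_nonneg_left h6 (by positivity)
  · intro m hm h4 hmn
    obtain ⟨k, rfl⟩ : ∃ k, m = 2 * k + 4 := by
      obtain ⟨j, hj⟩ := hm
      exact ⟨j - 2, by omega⟩
    have e1 : (2 * k + 4 - 1 - 3) / 2 = k := by omega
    have e2 : (2 * k + 4 + 1 - 3) / 2 = k + 1 := by omega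
    simp only [e1, e2]
    have h5 := hxF k (by omega)
    have h6 : (nbad T (W (2 * k + 4)) nu al M (selc T W k (x k) (x (k + 1)))
        (selc T W (k + 1) (x (k + 1)) (x (k + 2))) : ℝ) ≤ F k (x k) (x (k + 1)) (x (k + 2)) := by
      simp only [hF]
      refine le_add_of_nonneg_right ?_
      split_ifs
      · exact mul_nonneg (hc0 _ _ _) (hc0 _ _ _)
      · exact le_refl _
    refine h6.trans (h5.trans ?_)
    exact mul_le_mul_of_nonneg_right hKn (mul_nonneg (hc0 _ _ _) (hc0 _ _ _))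

end Pool.Agent.HC
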