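import Pool.Agent.HC.Place
import Pool.Agent.HC.Sel
import Pool.Agent.HC.CellsEx
import Pool.Agent.HC.Chain
import Pool.Agent.HC.SParEx
import Pool.Agent.HC.Num

/-!
# HC : the theorem

`ξ = ε/100`; `spar_ex`; `chain_ex` with `τ`; `cells_exist` with `η = δ/16`; `select` with `n = d + 12`;
`placement` with the data `W := W`, `C := C`, `nu = 2^(-δ d/2)`, `al`, `th = (1/2)^t`, `K = 2 d`.
-/

namespace Pool.Agent.HC

open Finset Classical
open Pool.Agent.H97.QD

theorem core1 {ε : ℝ} (hε : 0 < ε) (hε1 : ε ≤ 1) : ∃ d0 : ℕ, ∀ d : ℕ, d0 ≤ d → ∀ N : ℕ,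
    (2:ℝ) ^ ((1 + ε) * d) ≤ N → ∀ T : Fin N → Fin N → Prop, IsTournament T → Med T →
    ∃ φ : Finset (Fin d) → Fin N, Function.Injective φ ∧
      ∀ (s : Finset (Fin d)) (a : Fin d), a ∉ s → T (φ s) (φ (insert a s)) := by
  obtain ⟨τ, ρ, θ, κ, a1, r, al, hτ0, hτ1, ha1, har, hal0, hal1, hal2, hS⟩ :=
    spar_ex (ξ := ε / 100) (by positivity) (by linarith)
  obtain ⟨δ, hδ0, hδε, dC, hC⟩ := chain_ex hε hε1 hτ0 hτ1
  obtain ⟨dS, hS'⟩ := hS δ hδ0 (by linarith)
  obtain ⟨R, dP, hcell⟩ := cells_exist (η := δ / 16) (by positivity)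
  have hr : 0 < r := ha1.trans har
  have hc0 : 0 < a1 / r := div_pos ha1 hr
  have hc1 : a1 / r < 1 := (div_lt_one hr).2 har
  obtain ⟨dN, hnum⟩ := num hε hε1 hδ0 (by linarith) hc0 hc1 R
  refine ⟨max (max dC dS) (max (max dP dN) 1), fun d hd N hN0 T hT hmed => ?_⟩
  have h1 : dC ≤ d := by omega
  have h2 : dS ≤ d := by omega
  have h3 : dP ≤ d := by omega
  have h4 : dN ≤ d := by omega
  have h5 : 1 ≤ d := by omega
  have hdR : (0:ℝ) < d := by exact_mod_cast h5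
  have hNpos : 0 < N := by
    have : (0:ℝ) < N := lt_of_lt_of_le (by positivity) hN0
    exact_mod_cast this
  haveI : NeZero N := ⟨hNpos.ne'⟩
  obtain ⟨W, p, hW⟩ := hC d h1 N hN0 T hT hmed
  have hSP := hS' d h2
  obtain ⟨Om, hOm, ⟨cl⟩⟩ := hcell d h3 ⌈δ / 16 * d⌉₊ (Nat.le_ceil _)
  obtain ⟨hn1, hn2, hn3⟩ := hnum d h4
  obtain ⟨t, ht⟩ : ∃ t, t = ⌈Real.sqrt d⌉₊ := ⟨_, rfl⟩
  obtain ⟨M, hM⟩ : ∃ M, M = ⌈δ / 16 * d⌉₊ := ⟨_, rfl⟩
  rw [← ht, ← hM] at hSP hn1 hn3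
  rw [← ht] at hn2
  rw [← hM] at cl
  have hw0 : (0:ℝ) < (2:ℝ) ^ ((1 + 3 / 4 * ε) * d) := by positivity
  obtain ⟨C, hC1, hC2⟩ := select hW hw0 (by omega) hSP (le_refl _) hn1
  -- the data
  obtain ⟨P, hP⟩ : ∃ P : Data N d M ((d + 1) ^ (R + 1)) (2 * d) Om,
    P = ⟨T, W, C, cl, (2:ℝ) ^ (-(δ / 2 * d)), al, (1 / 2) ^ t⟩ := ⟨_, rfl⟩
  have hal3 : (2:ℝ) ^ (-((1 + ε / 100) * d)) ≤ al ^ d := by
    have h6 : (2:ℝ) ^ (-(1 + ε / 100)) ≤ al := by
      rw [Real.rpow_neg (by norm_num)]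
      rw [one_div] at hal2
      exact inv_le_of_inv_le₀ hal0 hal2
    have h7 : ((2:ℝ) ^ (-(1 + ε / 100))) ^ d ≤ al ^ d := pow_le_pow_left₀ (by positivity) h6 d
    rw [← Real.rpow_natCast, ← Real.rpow_mul (by norm_num)] at h7
    have h8 : -(1 + ε / 100) * (d:ℝ) = -((1 + ε / 100) * d) := by ring
    rw [h8] at h7
    exact h7
  have hOk : P.Ok ((((d + 12 : ℕ) : ℝ)) * (2 * M * (a1 / r) ^ t + 3 * (1 / 2) ^ t))
      ((1 / 32) ^ t * (2:ℝ) ^ ((1 + 3 / 4 * ε) * d)) ((2:ℝ) ^ ((1 + ε / 2) * d)) := by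
    subst hP
    constructor
    · exact h5
    · intro i j hij hi hj _ _
      rcases lt_or_gt_of_ne hij with h | h
      · exact hW.disj i j h (by omega)
      · exact (hW.disj j i h (by omega)).symm
    · intro l hl hl3 hl5
      exact (hC1 l hl hl3 (by omega)).1
    · intro m hm hm4 hm5
      exact hC2 m hm hm4 (by omega)
    · positivity
    · intro l hl hl3 hl5
      refine le_trans ?_ (hC1 l hl hl3 (by omega)).2
      exact mul_le_mul_of_nonneg_left (hW.size l (by omega)) (by positivity)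
    · positivity
    · intro m hm hm4 hm5
      have h6 := hW.size m (by omega)
      calc (2:ℝ) ^ ((1 + ε / 2) * d) ≤ (2:ℝ) ^ (-(δ / 2 * d) + (1 + 3 / 4 * ε) * d) := by
            apply Real.rpow_le_rpow_of_exponent_le (by norm_num)
            nlinarith
        _ = (2:ℝ) ^ (-(δ / 2 * d)) * (2:ℝ) ^ ((1 + 3 / 4 * ε) * d) :=
            Real.rpow_add (by norm_num) _ _
        _ ≤ (2:ℝ) ^ (-(δ / 2 * d)) * ((W m).card : ℝ) :=
            mul_le_mul_of_nonneg_left h6 (by positivity)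
    · exact hal0
    · exact hal1
    · positivity
    · show (1 / al) ^ d ≤ 2 ^ (2 * d)
      rw [pow_mul]
      apply pow_le_pow_left₀ (by positivity)
      refine hal2.trans ?_
      calc (2:ℝ) ^ (1 + ε / 100) ≤ (2:ℝ) ^ (2:ℝ) :=
            Real.rpow_le_rpow_of_exponent_le (by norm_num) (by linarith)
        _ = 2 ^ 2 := by norm_num
  obtain ⟨f, hf1, hf2⟩ := placement (s := (2:ℝ) ^ (ε / 2 * d)) P hOk (by positivity) (by
      subst hP
      refine hn2.trans ?_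
      exact mul_le_mul_of_nonneg_left hal3 (by positivity)) (le_refl _) (by
      subst hP
      exact hn3)
  refine ⟨f, hf1, fun s a ha => ?_⟩
  have h9 := hf2 s a ha
  rw [hP] at h9
  exact h9

/-- The theorem for arbitrary tournaments, `ε ≤ 1`. -/
theorem cube1 {ε : ℝ} (hε : 0 < ε) (hε1 : ε ≤ 1) : ∃ d0 : ℕ, ∀ d : ℕ, d0 ≤ d →
    ∀ (V : Type) [Fintype V] (T : V → V → Prop), IsTournament T →
    (2:ℝ) ^ ((1 + ε) * d) ≤ Fintype.card V →
    ∃ φ : Finset (Fin d) → V, Function.Injective φ ∧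
      ∀ (s : Finset (Fin d)) (a : Fin d), a ∉ s → T (φ s) (φ (insert a s)) := by
  obtain ⟨d0, hd0⟩ := core1 hε hε1
  refine ⟨d0, fun d hd V _ T hT hN => ?_⟩
  obtain ⟨σ, hσ⟩ := exists_median T hT
  obtain ⟨φ, hφ, hφ2⟩ := hd0 d hd (Fintype.card V) hN (fun a b => T (σ.symm a) (σ.symm b))
    ⟨fun a => hT.1 _, fun a b hab => hT.2 _ _ (fun h => hab (σ.symm.injective h))⟩ (by
      intro v j
      have h := hσ (σ.symm v) j
      have key : ∀ P : V → Prop, (univ.filter (fun u : Fin (Fintype.card V) =>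
          (v < u ∧ (u : ℕ) < j) ∧ P (σ.symm u))).card =
          (univ.filter (fun u : V => (σ (σ.symm v) < σ u ∧ (σ u : ℕ) < j) ∧ P u)).card := by
        intro P
        apply Finset.card_bij (fun u _ => σ.symm u)
        · intro u hu
          simp only [Finset.mem_filter, Finset.mem_univ, true_and] at hu ⊢
          simpa using hu
        · intro a _ b _ hab
          exact σ.symm.injective hab
        · intro u hu
          simp only [Finset.mem_filter, Finset.mem_univ, true_and] at hu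
          refine ⟨σ u, ?_, by simp⟩
          simp only [Finset.mem_filter, Finset.mem_univ, true_and]
          simpa using hu
      rw [key (fun u => T u (σ.symm v)), key (fun u => T (σ.symm v) u)]
      exact h)
  exact ⟨fun s => σ.symm (φ s), fun a b h => hφ (σ.symm.injective h), fun s a ha => hφ2 s a ha⟩

/-- The theorem for arbitrary tournaments. -/
theorem cube_upper1 {ε : ℝ} (hε : 0 < ε) : ∃ d0 : ℕ, ∀ d : ℕ, d0 ≤ d →
    ∀ (V : Type) [Fintype V] (T : V → V → Prop), IsTournament T →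
    (2:ℝ) ^ ((1 + ε) * d) ≤ Fintype.card V →
    ∃ φ : Finset (Fin d) → V, Function.Injective φ ∧
      ∀ (s : Finset (Fin d)) (a : Fin d), a ∉ s → T (φ s) (φ (insert a s)) := by
  obtain ⟨d0, hd0⟩ := cube1 (ε := min ε 1) (lt_min hε one_pos) (min_le_right _ _)
  refine ⟨d0, fun d hd V _ T hT hN => hd0 d hd V T hT (le_trans ?_ hN)⟩
  apply Real.rpow_le_rpow_of_exponent_le (by norm_num)
  have h1 : min ε 1 ≤ ε := min_le_left _ _
  have h2 : (0:ℝ) ≤ d := Nat.cast_nonneg _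
  nlinarith

end Pool.Agent.HC
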