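import Pool.Agent.HC.Defs

/-!
# HC block L : asymmetric local lemma for events indexed by pairs of sites

General form first: events `A j` (`j : J`, `Fintype J`), `DepOn (S j) (A j)`, numbers `p j` with
`Pr (A j) ≤ p j ≤ 1/4` and `∑ i with ¬ Disjoint (S j) (S i), p i ≤ 1/4`; then some `z` avoids all.
Proof as `Pool.Agent.H23.RS.LLL.lll_key` (strong induction:
`Pr (A j ∧ T) ≤ 2 * p j * Pr T`, `T` = none of the events of the finite set `T`).
Then apply it with `J = Q × Q`: an event `(v', w')` which meets `S v ∪ S w` has `v'` or `w'` among the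
at most `2 D` sites which meet `S v` or `S w`, so the sum of the probabilities is at most
`2 * D * (2 * q) ≤ 1/4`. (`1 ≤ D` is used only for `Pr (A v w) ≤ q ≤ 1/16`.)
-/

namespace Pool.Agent.HC

open Finset Classical
open Pool.Agent.H23.RS

theorem lll_gen_key {V Ω J : Type} [Fintype V] [Fintype Ω] [Nonempty Ω]
    (A : J → (V → Ω) → Prop) (S : J → Finset V) (hdep : ∀ j, DepOn (S j) (A j)) (p : J → ℝ)
    (hp : ∀ j, Pr (A j) ≤ p j)
    (hs : ∀ (T : Finset J) (j : J), ∑ i ∈ T.filter (fun i => ¬ Disjoint (S j) (S i)), p i ≤ 1 / 4)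
    (n : ℕ) : ∀ T : Finset J, T.card ≤ n → ∀ j,
      Pr (fun x => A j x ∧ ∀ i ∈ T, ¬ A i x) ≤ 2 * p j * Pr (fun x => ∀ i ∈ T, ¬ A i x) := by
  have hp0 : ∀ j, 0 ≤ p j := fun j => le_trans (Pr_nonneg (A j)) (hp j)
  induction n with
  | zero =>
    intro T hT j
    have hT0 : T = ∅ := Finset.card_eq_zero.mp (Nat.le_zero.mp hT)
    subst hT0
    have h1 : Pr (fun x => A j x ∧ ∀ i ∈ (∅ : Finset J), ¬ A i x) ≤ Pr (A j) :=
      Pr_mono (fun x hx => hx.1)
    have h2 : (1 : ℝ) ≤ Pr (fun x : V → Ω => ∀ i ∈ (∅ : Finset J), ¬ A i x) := by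
      rw [← Pr_true (V := V) (Ω := Ω)]
      exact Pr_mono (fun x _ i hi => absurd hi (Finset.notMem_empty i))
    have h3 := hp j
    have h4 := hp0 j
    nlinarith
  | succ n ih =>
    intro T hT j
    set T1 := T.filter (fun i => ¬ Disjoint (S j) (S i)) with hT1
    set T2 := T.filter (fun i => Disjoint (S j) (S i)) with hT2
    have hPT0 : 0 ≤ Pr (fun x => ∀ i ∈ T, ¬ A i x) := Pr_nonneg _
    have hPT20 : 0 ≤ Pr (fun x => ∀ i ∈ T2, ¬ A i x) := Pr_nonneg _
    -- first step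
    have h1 : Pr (fun x => A j x ∧ ∀ i ∈ T, ¬ A i x) ≤
        Pr (fun x => A j x ∧ ∀ i ∈ T2, ¬ A i x) := by
      refine Pr_mono (fun x hx => ⟨hx.1, fun i hi => hx.2 i ?_⟩)
      exact (Finset.mem_filter.mp hi).1
    have h2 : Pr (fun x => A j x ∧ ∀ i ∈ T2, ¬ A i x) =
        Pr (A j) * Pr (fun x => ∀ i ∈ T2, ¬ A i x) := by
      have hd2 : DepOn (T2.biUnion S) (fun x => ∀ i ∈ T2, ¬ A i x) := by
        refine DepOn.all (A := fun i x => ¬ A i x) (fun i hi => ?_)
        exact (DepOn.not (hdep i)).mono (Finset.subset_biUnion_of_mem S hi)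
      have hdis : Disjoint (S j) (T2.biUnion S) := by
        rw [Finset.disjoint_biUnion_right]
        intro i hi
        exact (Finset.mem_filter.mp hi).2
      exact Pr_indep (hdep j) hd2 hdis
    have h3 : Pr (fun x => ∀ i ∈ T2, ¬ A i x) ≤ 2 * Pr (fun x => ∀ i ∈ T, ¬ A i x) := by
      by_cases he : T1 = ∅
      · have hTT : ∀ i ∈ T, i ∈ T2 := by
          intro i hi
          rw [hT2, Finset.mem_filter]
          refine ⟨hi, ?_⟩
          by_contra hc
          have : i ∈ T1 := by rw [hT1, Finset.mem_filter]; exact ⟨hi, hc⟩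
          rw [he] at this
          exact absurd this (Finset.notMem_empty i)
        have : Pr (fun x => ∀ i ∈ T2, ¬ A i x) ≤ Pr (fun x => ∀ i ∈ T, ¬ A i x) :=
          Pr_mono (fun x hx i hi => hx i (hTT i hi))
        linarith
      · obtain ⟨i0, hi0⟩ := Finset.nonempty_iff_ne_empty.mpr he
        have hcard : T2.card ≤ n := by
          have hlt : T2.card < T.card := by
            apply Finset.card_lt_card
            rw [Finset.ssubset_iff_of_subset (Finset.filter_subset _ _)]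
            refine ⟨i0, (Finset.mem_filter.mp hi0).1, ?_⟩
            intro hc
            exact (Finset.mem_filter.mp hi0).2 (Finset.mem_filter.mp hc).2
          omega
        have hs1 := Pr_split (fun x => ∀ i ∈ T2, ¬ A i x) (fun x => ∀ i ∈ T, ¬ A i x)
        have ha : Pr (fun x => (∀ i ∈ T2, ¬ A i x) ∧ ∀ i ∈ T, ¬ A i x) ≤
            Pr (fun x => ∀ i ∈ T, ¬ A i x) := Pr_mono (fun x hx => hx.2)
        have hb : Pr (fun x => (∀ i ∈ T2, ¬ A i x) ∧ ¬ ∀ i ∈ T, ¬ A i x) ≤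
            Pr (fun x => ∃ i ∈ T1, (A i x ∧ ∀ k ∈ T2, ¬ A k x)) := by
          refine Pr_mono (fun x hx => ?_)
          have h5 := hx.2
          push Not at h5
          obtain ⟨i, hi, hAi⟩ := h5
          refine ⟨i, ?_, hAi, hx.1⟩
          rw [hT1, Finset.mem_filter]
          refine ⟨hi, fun hc => ?_⟩
          exact hx.1 i (by rw [hT2, Finset.mem_filter]; exact ⟨hi, hc⟩) hAi
        have hc := Pr_exists_le T1 (fun i x => A i x ∧ ∀ k ∈ T2, ¬ A k x)
        have hd : ∑ i ∈ T1, Pr (fun x => A i x ∧ ∀ k ∈ T2, ¬ A k x) ≤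
            ∑ i ∈ T1, 2 * p i * Pr (fun x => ∀ i ∈ T2, ¬ A i x) :=
          Finset.sum_le_sum (fun i _ => ih T2 hcard i)
        have hd2 : ∑ i ∈ T1, 2 * p i * Pr (fun x => ∀ i ∈ T2, ¬ A i x) =
            2 * (∑ i ∈ T1, p i) * Pr (fun x => ∀ i ∈ T2, ¬ A i x) := by
          rw [← Finset.sum_mul, ← Finset.mul_sum]
        rw [hd2] at hd
        have hT1s : ∑ i ∈ T1, p i ≤ 1 / 4 := hs T j
        have he2 : 2 * (∑ i ∈ T1, p i) * Pr (fun x => ∀ i ∈ T2, ¬ A i x) ≤
            (1 / 2) * Pr (fun x => ∀ i ∈ T2, ¬ A i x) :=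
          mul_le_mul_of_nonneg_right (by linarith) hPT20
        linarith
    calc Pr (fun x => A j x ∧ ∀ i ∈ T, ¬ A i x) ≤ _ := h1
      _ = Pr (A j) * Pr (fun x => ∀ i ∈ T2, ¬ A i x) := h2
      _ ≤ p j * Pr (fun x => ∀ i ∈ T2, ¬ A i x) := mul_le_mul_of_nonneg_right (hp j) hPT20
      _ ≤ p j * (2 * Pr (fun x => ∀ i ∈ T, ¬ A i x)) := mul_le_mul_of_nonneg_left h3 (hp0 j)
      _ = _ := by ring

theorem lll_gen {V Ω J : Type} [Fintype V] [Fintype Ω] [Nonempty Ω] [Fintype J]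
    (A : J → (V → Ω) → Prop) (S : J → Finset V) (hdep : ∀ j, DepOn (S j) (A j)) (p : J → ℝ)
    (hp : ∀ j, Pr (A j) ≤ p j) (hp4 : ∀ j, p j ≤ 1 / 4)
    (hs : ∀ j, ∑ i ∈ univ.filter (fun i => ¬ Disjoint (S j) (S i)), p i ≤ 1 / 4) :
    ∃ z, ∀ j, ¬ A j z := by
  have hp0 : ∀ j, 0 ≤ p j := fun j => le_trans (Pr_nonneg (A j)) (hp j)
  have hs' : ∀ (T : Finset J) (j : J),
      ∑ i ∈ T.filter (fun i => ¬ Disjoint (S j) (S i)), p i ≤ 1 / 4 := by
    intro T j
    refine le_trans (Finset.sum_le_sum_of_subset_of_nonneg ?_ (fun i _ _ => hp0 i)) (hs j)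
    exact Finset.filter_subset_filter _ (Finset.subset_univ T)
  have key := lll_gen_key A S hdep p hp hs'
  have hpos : ∀ T : Finset J, 0 < Pr (fun x => ∀ i ∈ T, ¬ A i x) := by
    intro T
    induction T using Finset.induction_on with
    | empty =>
      have : (1 : ℝ) ≤ Pr (fun x : V → Ω => ∀ i ∈ (∅ : Finset J), ¬ A i x) := by
        rw [← Pr_true (V := V) (Ω := Ω)]
        exact Pr_mono (fun x _ i hi => absurd hi (Finset.notMem_empty i))
      linarith
    | insert j T hj ih =>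
      have h1 := key T.card T le_rfl j
      have h2 := Pr_split (fun x => ∀ i ∈ T, ¬ A i x) (A j)
      have h3 : Pr (fun x => (∀ i ∈ T, ¬ A i x) ∧ A j x) ≤
          Pr (fun x => A j x ∧ ∀ i ∈ T, ¬ A i x) := Pr_mono (fun x hx => ⟨hx.2, hx.1⟩)
      have h4 : Pr (fun x => (∀ i ∈ T, ¬ A i x) ∧ ¬ A j x) ≤
          Pr (fun x => ∀ i ∈ insert j T, ¬ A i x) := by
        refine Pr_mono (fun x hx i hi => ?_)
        rcases Finset.mem_insert.mp hi with rfl | hi
        · exact hx.2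
        · exact hx.1 i hi
      have h5 := hp4 j
      nlinarith
  obtain ⟨x, hx⟩ := exists_of_Pr (hpos univ)
  exact ⟨x, fun j => hx j (Finset.mem_univ j)⟩

theorem lll_pair {V Ω Q : Type} [Fintype V] [Fintype Ω] [Nonempty Ω] [Fintype Q]
    (S : Q → Finset V) (A : Q → Q → (V → Ω) → Prop)
    (hdep : ∀ v w, DepOn (S v ∪ S w) (A v w)) {D : ℕ} (hD1 : 1 ≤ D)
    (hD : ∀ v, (univ.filter fun w => ¬ Disjoint (S v) (S w)).card ≤ D)
    {q : ℝ} (h1 : ∀ v, ∑ w, Pr (A v w) ≤ q) (h2 : ∀ v, ∑ w, Pr (A w v) ≤ q)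
    (hq : 16 * D * q ≤ 1) : ∃ z, ∀ v w, ¬ A v w z := by
  have hD1' : (1 : ℝ) ≤ D := by exact_mod_cast hD1
  have hle : ∀ v w, Pr (A v w) ≤ q := fun v w =>
    le_trans (Finset.single_le_sum (f := fun w => Pr (A v w)) (fun i _ => Pr_nonneg _)
      (Finset.mem_univ w)) (h1 v)
  rcases isEmpty_or_nonempty Q with hQ | hQ
  · obtain ⟨w0⟩ := (inferInstance : Nonempty Ω)
    exact ⟨fun _ => w0, fun v => (hQ.false v).elim⟩
  have hq0 : 0 ≤ q := by
    obtain ⟨v0⟩ := hQ
    exact le_trans (Pr_nonneg _) (hle v0 v0)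
  have hq16 : q ≤ 1 / 16 := by nlinarith
  obtain ⟨z, hz⟩ := lll_gen (J := Q × Q) (fun j => A j.1 j.2) (fun j => S j.1 ∪ S j.2)
    (fun j => hdep j.1 j.2) (fun j => Pr (A j.1 j.2)) (fun j => le_rfl)
    (fun j => by have := hle j.1 j.2; linarith) (by
      intro j
      set N : Finset Q := (univ.filter fun w => ¬ Disjoint (S j.1) (S w)) ∪
        (univ.filter fun w => ¬ Disjoint (S j.2) (S w)) with hN
      have hNc : (N.card : ℝ) ≤ 2 * D := by
        have : N.card ≤ D + D := le_trans (Finset.card_union_le _ _) (add_le_add (hD _) (hD _))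
        have h' : (N.card : ℝ) ≤ (D : ℝ) + D := by exact_mod_cast this
        linarith
      have hsub : (univ.filter fun i : Q × Q =>
          ¬ Disjoint (S j.1 ∪ S j.2) (S i.1 ∪ S i.2)) ⊆ (N ×ˢ univ) ∪ (univ ×ˢ N) := by
        intro i hi
        rw [Finset.mem_filter] at hi
        have hi2 := hi.2
        rw [Finset.disjoint_union_left, Finset.disjoint_union_right,
          Finset.disjoint_union_right] at hi2
        rw [Finset.mem_union, Finset.mem_product, Finset.mem_product]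
        by_cases c1 : i.1 ∈ N
        · left; exact ⟨c1, Finset.mem_univ _⟩
        · right
          refine ⟨Finset.mem_univ _, ?_⟩
          by_contra c2
          rw [hN, Finset.mem_union, Finset.mem_filter, Finset.mem_filter] at c1 c2
          push Not at c1 c2
          exact hi2 ⟨⟨c1.1 (Finset.mem_univ _), c2.1 (Finset.mem_univ _)⟩,
            ⟨c1.2 (Finset.mem_univ _), c2.2 (Finset.mem_univ _)⟩⟩
      have s1 : ∑ i ∈ N ×ˢ (univ : Finset Q), Pr (A i.1 i.2) ≤ 2 * D * q := by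
        rw [Finset.sum_product]
        calc ∑ v ∈ N, ∑ w, Pr (A v w) ≤ ∑ _v ∈ N, q := Finset.sum_le_sum fun v _ => h1 v
          _ = N.card * q := by rw [Finset.sum_const, nsmul_eq_mul]
          _ ≤ 2 * D * q := mul_le_mul_of_nonneg_right hNc hq0
      have s2 : ∑ i ∈ (univ : Finset Q) ×ˢ N, Pr (A i.1 i.2) ≤ 2 * D * q := by
        rw [Finset.sum_product_right]
        calc ∑ v ∈ N, ∑ w, Pr (A w v) ≤ ∑ _v ∈ N, q := Finset.sum_le_sum fun v _ => h2 v
          _ = N.card * q := by rw [Finset.sum_const, nsmul_eq_mul]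
          _ ≤ 2 * D * q := mul_le_mul_of_nonneg_right hNc hq0
      have s3 : ∑ i ∈ (N ×ˢ (univ : Finset Q)) ∪ (univ ×ˢ N), Pr (A i.1 i.2) ≤
          ∑ i ∈ N ×ˢ (univ : Finset Q), Pr (A i.1 i.2) +
            ∑ i ∈ (univ : Finset Q) ×ˢ N, Pr (A i.1 i.2) := by
        have h := Finset.sum_union_inter (s₁ := N ×ˢ (univ : Finset Q))
          (s₂ := (univ : Finset Q) ×ˢ N) (f := fun i : Q × Q => Pr (A i.1 i.2))
        have h0 : 0 ≤ ∑ i ∈ (N ×ˢ (univ : Finset Q)) ∩ (univ ×ˢ N), Pr (A i.1 i.2) :=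
          Finset.sum_nonneg fun i _ => Pr_nonneg _
        linarith
      calc ∑ i ∈ univ.filter (fun i : Q × Q => ¬ Disjoint (S j.1 ∪ S j.2) (S i.1 ∪ S i.2)),
            Pr (A i.1 i.2)
          ≤ ∑ i ∈ (N ×ˢ (univ : Finset Q)) ∪ (univ ×ˢ N), Pr (A i.1 i.2) :=
            Finset.sum_le_sum_of_subset_of_nonneg hsub (fun i _ _ => Pr_nonneg _)
        _ ≤ _ := s3
        _ ≤ 2 * D * q + 2 * D * q := add_le_add s1 s2
        _ ≤ 1 / 4 := by linarith)
  exact ⟨z, fun v w => hz (v, w)⟩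

end Pool.Agent.HC
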