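import Pool.Agent.HC.SiteMain

/-!
# HC numerics : the conditions `SPar` hold for all large `t ≤ M` and `lam ≤ 2 ^ (-15 M)`

All constants are written with a small `x` and `k = 1 - x`:
`θ = ρ ≤ x / 10`, `τ ≤ ρ ^ 2 / 16`, `q ≥ 1/2 - x/50`, `κ = k`, `a1 = k^2/2`, `r = k/2`, `al = k^3/2`,
`e0 = (1/2)^t`.
-/

namespace Pool.Agent.HC

open Finset

/-- powers of a number in `(0,1)` become small -/
theorem exists_pow_le {c e : ℝ} (hc0 : 0 ≤ c) (hc : c < 1) (he : 0 < e) :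
    ∃ K : ℕ, ∀ n : ℕ, K ≤ n → c ^ n ≤ e := by
  obtain ⟨K, hK⟩ := exists_pow_lt_of_lt_one he hc
  exact ⟨K, fun n hn => (pow_le_pow_of_le_one hc0 hc.le hn).trans hK.le⟩

theorem spar_of_large {x ρ τ q : ℝ} (hx0 : 0 < x) (hx1 : x ≤ 1 / 100) (hρ0 : 0 < ρ)
    (hρ : ρ ≤ x / 10) (hτ0 : 0 < τ) (hτ : τ ≤ ρ ^ 2 / 16) (hq : 1 / 2 - x / 50 ≤ q) :
    ∃ K0 : ℕ, 1 ≤ K0 ∧ ∀ (t M : ℕ) (lam nu : ℝ), K0 ≤ t → t ≤ M → 0 < lam →
      lam ≤ (1 / 2) ^ (15 * M) → lam ≤ nu → nu ≤ (1 / 2) ^ (7 * M) → lam / nu ≤ (1 / 2) ^ (7 * M) →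
      SPar q τ lam ρ ρ nu (1 - x) ((1 - x) ^ 2 / 2) ((1 - x) / 2) ((1 - x) ^ 3 / 2) ((1 / 2) ^ t)
        t M := by
  have hρ1 : ρ ≤ 1 / 1000 := by linarith
  have hτ1 : τ ≤ ρ / 16000 := by nlinarith
  have hτ2 : τ ≤ 1 / 10000000 := by linarith
  have hq' : 4998 / 10000 ≤ q := by linarith
  obtain ⟨K1, hK1⟩ := exists_pow_le (c := 1 - x / 2) (e := 1 / 4) (by linarith) (by linarith)
    (by norm_num)
  obtain ⟨K2, hK2⟩ := exists_pow_le (c := 1 / 2) (e := τ) (by norm_num) (by norm_num) hτ0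
  obtain ⟨K3, hK3⟩ := exists_pow_le (c := 1 - x / 10) (e := 1 / 4) (by linarith) (by linarith)
    (by norm_num)
  refine ⟨K1 + K2 + K3 + 3, by omega, ?_⟩
  intro t M lam nu ht htM hlam0 hlam hnu0 hnu hlnu
  have hk0 : 0 < 1 - x := by linarith
  have ht3 : 3 ≤ t := by omega
  have hM3 : 3 ≤ M := by omega
  have hM : K3 ≤ M := by omega
  have ht1 : K1 ≤ t := by omega
  have ht2 : K2 ≤ t := by omega
  -- `1/4` bounds
  have h4t : (1 - x / 2) ^ t ≤ 1 / 4 := hK1 t ht1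
  have h4M : (1 - x / 10) ^ M ≤ 1 / 4 := hK3 M hM
  have hτt : (1 / 2 : ℝ) ^ t ≤ τ := hK2 t ht2
  have hlam1 : lam ≤ τ * (1 / 16) ^ t := by
    calc lam ≤ (1 / 2) ^ (15 * M) := hlam
      _ ≤ (1 / 2) ^ (t + 4 * t) := by
          apply pow_le_pow_of_le_one (by norm_num) (by norm_num); omega
      _ = (1 / 2) ^ t * (1 / 16) ^ t := by
          rw [pow_add, pow_mul]; norm_num
      _ ≤ τ * (1 / 16) ^ t := mul_le_mul_of_nonneg_right hτt (by positivity)
  have hlamτ : lam ≤ τ := by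
    refine hlam1.trans ?_
    have : (1 / 16 : ℝ) ^ t ≤ 1 := pow_le_one₀ (by norm_num) (by norm_num)
    nlinarith
  -- `(1 - x/10)^M ≤ 1/4` gives the room for `e0 (1-θ)^t / 2`
  have hroom : ∀ s : ℝ, 0 ≤ s → (((1 - x / 10) * s) ^ t) ^ M ≤ (1 / 4) ^ t * (s ^ t) ^ M := by
    intro s hs
    have : (((1 - x / 10) * s) ^ t) ^ M = ((1 - x / 10) ^ M) ^ t * (s ^ t) ^ M := by
      rw [mul_pow, mul_pow, ← pow_mul, ← pow_mul, ← pow_mul, mul_comm M t]
    rw [this]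
    apply mul_le_mul_of_nonneg_right _ (by positivity)
    exact pow_le_pow_left₀ (pow_nonneg (by linarith) M) h4M t
  have h14 : (1 / 4 : ℝ) ^ t ≤ (1 - ρ) ^ t / 2 := by
    have h1 : (1 / 4 : ℝ) ^ t = (1 / 2) ^ t * (1 / 2) ^ t := by rw [← mul_pow]; norm_num
    have h2 : (1 / 2 : ℝ) ^ t ≤ (1 / 2) ^ 1 := pow_le_pow_of_le_one (by norm_num) (by norm_num) (by omega)
    have h3 : (1 / 2 : ℝ) ^ t ≤ (1 - ρ) ^ t := pow_le_pow_left₀ (by norm_num) (by linarith) t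
    have h4 : (0 : ℝ) ≤ (1 / 2) ^ t := by positivity
    rw [h1]
    calc (1 / 2 : ℝ) ^ t * (1 / 2) ^ t ≤ (1 - ρ) ^ t * (1 / 2) ^ 1 :=
          mul_le_mul h3 h2 h4 (pow_nonneg (by linarith) t)
      _ = (1 - ρ) ^ t / 2 := by ring
  have h14' : (1 / 4 : ℝ) ^ t ≤ (1 / 2) ^ t * (1 - ρ) ^ t := by
    rw [← mul_pow]
    apply pow_le_pow_left₀ (by norm_num)
    linarith
  refine ⟨by omega, by omega, hτ0, by linarith, hρ0, by linarith, by linarith, hlam0, by linarith,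
    ?_, hlam1, ?_, hnu0, hk0.le, by positivity, by positivity, ?_, by positivity, ?_, ?_, ?_, ?_⟩
  · -- hθ
    have h1 : 16 * τ ≤ ρ ^ 2 := by linarith
    nlinarith
  · -- lamM
    have h1 : (M : ℝ) ≤ 2 ^ (M * t) := by
      have h2 : M < 2 ^ M := Nat.lt_two_pow_self
      have h3 : (2 : ℕ) ^ M ≤ 2 ^ (M * t) := Nat.pow_le_pow_right (by norm_num)
        (Nat.le_mul_of_pos_right M (by omega))
      exact_mod_cast h2.le.trans h3
    have h2 : lam ^ t ≤ (1 / 2) ^ (15 * M * t) := by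
      rw [pow_mul]
      exact pow_le_pow_left₀ hlam0.le hlam t
    calc (M : ℝ) * lam ^ t ≤ 2 ^ (M * t) * (1 / 2) ^ (15 * M * t) :=
          mul_le_mul h1 h2 (by positivity) (by positivity)
      _ = (1 / 2) ^ (14 * M * t) := by
          have : 15 * M * t = M * t + 14 * M * t := by ring
          rw [this, pow_add, ← mul_assoc, ← mul_pow]
          norm_num
      _ ≤ (1 / 2) ^ (2 * (t * M)) := by
          apply pow_le_pow_of_le_one (by norm_num) (by norm_num)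
          nlinarith
      _ = (1 / 4) ^ (t * M) := by rw [pow_mul]; norm_num
  · -- hal
    apply le_of_eq; ring
  · -- dens
    intro p1 p2 hp1 hp1' hp2 hp2'
    have hP1 : 4997 / 10000 ≤ p1 - τ := by linarith
    have hP2 : 4997 / 10000 ≤ p2 - τ := by linarith
    have hA1 : p1 + τ ≤ (1 + x / 100) * (p1 - τ) := by nlinarith
    have hA2 : p2 + τ ≤ (1 + x / 100) * (p2 - τ) := by nlinarith
    have hP : (1 / 5 : ℝ) ≤ (p1 - τ) * (p2 - τ) := by nlinarith
    have hP0 : (0 : ℝ) < (p1 - τ) * (p2 - τ) := by linarith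
    set P := (p1 - τ) * (p2 - τ) with hPdef
    -- term 1
    have hT1 : (1 - x) ^ t * ((p1 + τ) * (p2 + τ)) ^ t ≤ 1 / 4 * P ^ t := by
      rw [← mul_pow]
      have h1 : (1 - x) * ((p1 + τ) * (p2 + τ)) ≤ (1 - x / 2) * P := by
        have h2 : (p1 + τ) * (p2 + τ) ≤ (1 + x / 100) * (p1 - τ) * ((1 + x / 100) * (p2 - τ)) :=
          mul_le_mul hA1 hA2 (by linarith) (by nlinarith)
        have h3 : (1 + x / 100) * (p1 - τ) * ((1 + x / 100) * (p2 - τ)) = (1 + x / 100) ^ 2 * P := by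
          rw [hPdef]; ring
        have h4 : (1 - x) * (1 + x / 100) ^ 2 ≤ 1 - x / 2 := by
          have h5 : (1 + x / 100) ^ 2 ≤ 1 + x / 40 := by nlinarith
          calc (1 - x) * (1 + x / 100) ^ 2 ≤ (1 - x) * (1 + x / 40) :=
                mul_le_mul_of_nonneg_left h5 hk0.le
            _ ≤ 1 - x / 2 := by nlinarith
        calc (1 - x) * ((p1 + τ) * (p2 + τ)) ≤ (1 - x) * ((1 + x / 100) ^ 2 * P) := by
              apply mul_le_mul_of_nonneg_left _ hk0.le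
              rw [← h3]; exact h2
          _ = ((1 - x) * (1 + x / 100) ^ 2) * P := by ring
          _ ≤ _ := mul_le_mul_of_nonneg_right h4 hP0.le
      calc ((1 - x) * ((p1 + τ) * (p2 + τ))) ^ t ≤ ((1 - x / 2) * P) ^ t := by
            apply pow_le_pow_left₀ _ h1
            apply mul_nonneg hk0.le
            apply mul_nonneg <;> linarith
        _ = (1 - x / 2) ^ t * P ^ t := mul_pow _ _ _
        _ ≤ _ := mul_le_mul_of_nonneg_right h4t (by positivity)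
    have h35 : (3 / 5 : ℝ) ^ t ≤ 1 / 4 := by
      calc (3 / 5 : ℝ) ^ t ≤ (3 / 5) ^ 3 := pow_le_pow_of_le_one (by norm_num) (by norm_num) ht3
        _ ≤ 1 / 4 := by norm_num
    have hT2 : (1 / 4 : ℝ) ^ t * (p1 + τ) ^ t ≤ 1 / 4 * P ^ t := by
      rw [← mul_pow]
      have h1 : 1 / 4 * (p1 + τ) ≤ 3 / 5 * P := by
        have h2 : (p1 - τ) * (4997 / 10000) ≤ P := mul_le_mul_of_nonneg_left hP2 (by linarith)
        nlinarith
      calc (1 / 4 * (p1 + τ)) ^ t ≤ (3 / 5 * P) ^ t := pow_le_pow_left₀ (by linarith) h1 t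
        _ = (3 / 5) ^ t * P ^ t := mul_pow _ _ _
        _ ≤ _ := mul_le_mul_of_nonneg_right h35 (by positivity)
    have hT3 : (1 / 4 : ℝ) ^ t * (p2 + τ) ^ t ≤ 1 / 4 * P ^ t := by
      rw [← mul_pow]
      have h1 : 1 / 4 * (p2 + τ) ≤ 3 / 5 * P := by
        have h2 : (4997 / 10000) * (p2 - τ) ≤ P := mul_le_mul_of_nonneg_right hP1 (by linarith)
        nlinarith
      calc (1 / 4 * (p2 + τ)) ^ t ≤ (3 / 5 * P) ^ t := pow_le_pow_left₀ (by linarith) h1 t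
        _ = (3 / 5) ^ t * P ^ t := mul_pow _ _ _
        _ ≤ _ := mul_le_mul_of_nonneg_right h35 (by positivity)
    have hT4 : 2 * (t : ℝ) * (lam / nu) ≤ 1 / 4 * P ^ t := by
      have h1 : (t : ℝ) ≤ 2 ^ t := by exact_mod_cast (Nat.lt_two_pow_self (n := t)).le
      have h2 : (1 / 2 : ℝ) ^ (7 * M) ≤ (1 / 2) ^ (7 * t) :=
        pow_le_pow_of_le_one (by norm_num) (by norm_num) (by omega)
      have hln0 : 0 ≤ lam / nu := div_nonneg hlam0.le (hlam0.le.trans hnu0)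
      calc 2 * (t : ℝ) * (lam / nu) ≤ 2 * 2 ^ t * (1 / 2) ^ (7 * t) := by
            apply mul_le_mul _ (hlnu.trans h2) hln0 (by positivity)
            linarith
        _ = 2 * (1 / 2) ^ (6 * t) := by
            have : 7 * t = t + 6 * t := by ring
            rw [this, pow_add, ← mul_assoc, mul_assoc 2 (2 ^ t), ← mul_pow]
            norm_num
        _ ≤ 1 / 4 * (1 / 5) ^ t := by
            have h3 : (1 / 2 : ℝ) ^ (6 * t) = ((1 / 8) ^ t) * ((1 / 2) ^ (3 * t)) := by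
              have : 6 * t = 3 * t + 3 * t := by ring
              rw [this, pow_add, pow_mul]; norm_num
            have h4 : (1 / 2 : ℝ) ^ (3 * t) ≤ (1 / 2) ^ 3 :=
              pow_le_pow_of_le_one (by norm_num) (by norm_num) (by omega)
            have h5 : (1 / 8 : ℝ) ^ t ≤ (1 / 5) ^ t := pow_le_pow_left₀ (by norm_num) (by norm_num) t
            rw [h3]
            have h6 : (1 / 8 : ℝ) ^ t * (1 / 2) ^ (3 * t) ≤ (1 / 5) ^ t * (1 / 2) ^ 3 :=
              mul_le_mul h5 h4 (by positivity) (by positivity)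
            linarith
        _ ≤ 1 / 4 * P ^ t := by
            apply mul_le_mul_of_nonneg_left _ (by norm_num)
            exact pow_le_pow_left₀ (by norm_num) hP t
    linarith
  · -- ratio
    intro p1 p2 hp1 hp1' hp2 hp2'
    have hp2p : 0 < p2 + 2 * τ := by linarith
    have hR : (1 - x) / 2 ≤ (1 - x / 10) * ((p1 - ρ) * (p2 - ρ) / (p2 + 2 * τ)) := by
      rw [← mul_div_assoc, le_div_iff₀ hp2p]
      have h1 : 1 / 2 * (1 - 24 / 100 * x) ≤ p1 - ρ := by linarith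
      have h2 : (1 - 21 / 100 * x) * (p2 + 2 * τ) ≤ p2 - ρ := by nlinarith
      have h3 : 1 / 2 * (1 - 24 / 100 * x) * ((1 - 21 / 100 * x) * (p2 + 2 * τ)) ≤
          (p1 - ρ) * (p2 - ρ) := mul_le_mul h1 h2 (by nlinarith) (by linarith)
      have h4 : (1 - x) ≤ (1 - x / 10) * ((1 - 24 / 100 * x) * (1 - 21 / 100 * x)) := by
        have h5 : 1 - 45 / 100 * x ≤ (1 - 24 / 100 * x) * (1 - 21 / 100 * x) := by nlinarith
        calc (1 - x) ≤ (1 - x / 10) * (1 - 45 / 100 * x) := by nlinarith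
          _ ≤ _ := mul_le_mul_of_nonneg_left h5 (by linarith)
      calc (1 - x) / 2 * (p2 + 2 * τ) ≤
            ((1 - x / 10) * ((1 - 24 / 100 * x) * (1 - 21 / 100 * x))) / 2 * (p2 + 2 * τ) := by
              apply mul_le_mul_of_nonneg_right _ hp2p.le
              linarith
        _ = (1 - x / 10) * (1 / 2 * (1 - 24 / 100 * x) * ((1 - 21 / 100 * x) * (p2 + 2 * τ))) := by
              ring
        _ ≤ _ := mul_le_mul_of_nonneg_left h3 (by linarith)
    have hR0 : 0 ≤ (p1 - ρ) * (p2 - ρ) / (p2 + 2 * τ) := by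
      apply div_nonneg _ hp2p.le
      apply mul_nonneg <;> linarith
    calc (((1 - x) / 2) ^ t) ^ M ≤
          (((1 - x / 10) * ((p1 - ρ) * (p2 - ρ) / (p2 + 2 * τ))) ^ t) ^ M := by
            apply pow_le_pow_left₀ (by positivity)
            exact pow_le_pow_left₀ (by positivity) hR t
      _ ≤ (1 / 4) ^ t * (((p1 - ρ) * (p2 - ρ) / (p2 + 2 * τ)) ^ t) ^ M := hroom _ hR0
      _ ≤ _ := mul_le_mul_of_nonneg_right h14 (by positivity)
  · -- size
    intro p1 p2 hp1 hp1' hp2 hp2'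
    have hS0 : (1 / 5 : ℝ) ≤ (p1 - ρ) * (p2 - ρ) := by
      have h1 : (49 / 100 : ℝ) ≤ p1 - ρ := by linarith
      have h2 : (49 / 100 : ℝ) ≤ p2 - ρ := by linarith
      have h3 : (49 / 100 : ℝ) * (49 / 100) ≤ (p1 - ρ) * (p2 - ρ) :=
        mul_le_mul h1 h2 (by norm_num) (by linarith)
      linarith
    have h0nu : 0 ≤ nu := hlam0.le.trans hnu0
    have h1 : nu ≤ (1 / 2) ^ M * (1 / 5) ^ M := by
      refine hnu.trans ?_
      rw [pow_mul, ← mul_pow]
      exact pow_le_pow_left₀ (by norm_num) (by norm_num) M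
    have h2 : (1 / 2 : ℝ) ^ M ≤ 1 / 2 * (1 - ρ) := by
      calc (1 / 2 : ℝ) ^ M ≤ (1 / 2) ^ 2 :=
            pow_le_pow_of_le_one (by norm_num) (by norm_num) (by omega)
        _ ≤ 1 / 2 * (1 - ρ) := by norm_num; linarith
    have h3 : (1 / 5 : ℝ) ^ M ≤ ((p1 - ρ) * (p2 - ρ)) ^ M := pow_le_pow_left₀ (by norm_num) hS0 M
    have h4 : nu ≤ 1 / 2 * (1 - ρ) * ((p1 - ρ) * (p2 - ρ)) ^ M :=
      h1.trans (mul_le_mul h2 h3 (by positivity) (by linarith))
    calc nu ^ t ≤ (1 / 2 * (1 - ρ) * ((p1 - ρ) * (p2 - ρ)) ^ M) ^ t := pow_le_pow_left₀ h0nu h4 t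
      _ = (1 / 2) ^ t * (1 - ρ) ^ t * (((p1 - ρ) * (p2 - ρ)) ^ t) ^ M := by
          rw [mul_pow, mul_pow, ← pow_mul, ← pow_mul, mul_comm M t]
  · -- small
    intro p1 p2 hp1 hp1' hp2 hp2'
    have hS0 : 0 ≤ (p1 - ρ) * (p2 - ρ) := by apply mul_nonneg <;> linarith
    have h1 : 1 / 8 * (p2 + 2 * τ) ≤ 1 / 2 * ((p1 - ρ) * (p2 - ρ)) := by
      have h2 : (4 / 10 : ℝ) * (p2 - ρ) ≤ (p1 - ρ) * (p2 - ρ) :=
        mul_le_mul_of_nonneg_right (by linarith) (by linarith)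
      linarith
    calc 2 * ((1 / 8 * (p2 + 2 * τ)) ^ t) ^ M ≤ 2 * ((1 / 2 * ((p1 - ρ) * (p2 - ρ))) ^ t) ^ M := by
          apply mul_le_mul_of_nonneg_left _ (by norm_num)
          have h0 : 0 ≤ 1 / 8 * (p2 + 2 * τ) := by linarith
          exact pow_le_pow_left₀ (pow_nonneg h0 t) (pow_le_pow_left₀ h0 h1 t) M
      _ = 2 * (1 / 2) ^ (t * M) * (((p1 - ρ) * (p2 - ρ)) ^ t) ^ M := by
          rw [mul_pow, mul_pow, ← pow_mul]; ring
      _ ≤ (1 / 4) ^ t * (((p1 - ρ) * (p2 - ρ)) ^ t) ^ M := by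
          apply mul_le_mul_of_nonneg_right _ (by positivity)
          calc 2 * (1 / 2 : ℝ) ^ (t * M) ≤ 2 * (1 / 2) ^ (2 * t + 1) := by
                apply mul_le_mul_of_nonneg_left _ (by norm_num)
                apply pow_le_pow_of_le_one (by norm_num) (by norm_num)
                nlinarith
            _ = (1 / 4) ^ t := by
                have h9 : ((1 / 2 : ℝ) ^ 2) = 1 / 4 := by norm_num
                rw [pow_succ, pow_mul, h9]; ring
      _ ≤ _ := mul_le_mul_of_nonneg_right h14' (by positivity)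

end Pool.Agent.HC
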