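import Pool.Agent.HC.Defs

/-!
# HC block P, part (ii): few neighbours of `x` are far from the random set

`ω : Finset (Fin d) → Fin L`, the random set is `{z | ω z < Lam}`.

`block_miss`: for `a ∈ I` let `F a = {x Δ Y : #Y = r + 1, Y ∩ S = {a}}` (`S ⊇ I`). These sets are
disjoint for different `a`, `#(F a) = (d - #S).choose r ≥ L`, and `(flip x a) Δ (x Δ Y) = Y \ {a}` has
`r` elements. So the event is contained in: no `z` in the union of the `F a` has `ω z < Lam`, which
has probability `(1 - Lam/L)^(card of the union) ≤ exp(-(Lam/L) * #I * L)` (`Pr_coord`; `Lam ≤ L`).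

`miss_le`: `S b = {i : i % B = b}`, `b < B`, has at most `g` elements. If more than `B * u` of the
`a` are missed, some `S b` has at least `u` of them, so some `I ⊆ S b` with `#I = u`; union bound over
`B` blocks and at most `2 ^ g` subsets.
-/

namespace Pool.Agent.HC

open Finset Classical
open Pool.Agent.H23.RS

/-- `a` is missed: no element of the random set within distance `r` of `flip x a` -/
def Missed {d L : ℕ} (Lam r : ℕ) (x : Finset (Fin d)) (ω : Finset (Fin d) → Fin L) (a : Fin d) :
    Prop :=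
  ∀ z, (symmDiff (flip x a) z).card ≤ r → ¬ ((ω z : ℕ) < Lam)

/-- the sets `x Δ Y` with `#Y = r + 1` and `Y ∩ S = {a}` -/
noncomputable def fam {d : ℕ} (r : ℕ) (x S : Finset (Fin d)) (a : Fin d) :
    Finset (Finset (Fin d)) :=
  (powersetCard r Sᶜ).image fun Y => symmDiff x (insert a Y)

theorem fam_card {d r : ℕ} (x S : Finset (Fin d)) {a : Fin d} (ha : a ∈ S) :
    (fam r x S a).card = (d - S.card).choose r := by
  unfold fam
  rw [Finset.card_image_of_injOn, Finset.card_powersetCard, Finset.card_compl, Fintype.card_fin]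
  intro Y hY Y' hY' h
  have h1 : insert a Y = insert a Y' := by
    have := congrArg (fun z => symmDiff x z) h
    simpa [symmDiff_symmDiff_cancel_left] using this
  have hn : ∀ Z ∈ (powersetCard r Sᶜ : Finset (Finset (Fin d))), a ∉ Z := by
    intro Z hZ haZ
    have := (Finset.mem_powersetCard.1 hZ).1 haZ
    exact (Finset.mem_compl.1 this) ha
  have h2 := hn Y (by simpa using hY)
  have h3 := hn Y' (by simpa using hY')
  rw [← Finset.erase_insert h2, ← Finset.erase_insert h3, h1]

theorem fam_disj {d r : ℕ} (x S : Finset (Fin d)) {a b : Fin d} (hb : b ∈ S)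
    (hab : a ≠ b) : Disjoint (fam r x S a) (fam r x S b) := by
  rw [Finset.disjoint_left]
  intro z hz hz'
  unfold fam at hz hz'
  obtain ⟨Y, hY, rfl⟩ := Finset.mem_image.1 hz
  obtain ⟨Y', hY', h⟩ := Finset.mem_image.1 hz'
  have h1 : insert b Y' = insert a Y := by
    have := congrArg (fun z => symmDiff x z) h
    simpa [symmDiff_symmDiff_cancel_left] using this
  have h2 : b ∈ insert a Y := h1 ▸ Finset.mem_insert_self b Y'
  rw [Finset.mem_insert] at h2
  rcases h2 with h2 | h2
  · exact hab h2.symm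
  · exact (Finset.mem_compl.1 ((Finset.mem_powersetCard.1 hY).1 h2)) hb

theorem fam_ball {d r : ℕ} (x S : Finset (Fin d)) {a : Fin d} (ha : a ∈ S) {z : Finset (Fin d)}
    (hz : z ∈ fam r x S a) : (symmDiff (flip x a) z).card ≤ r := by
  unfold fam at hz
  obtain ⟨Y, hY, rfl⟩ := Finset.mem_image.1 hz
  obtain ⟨hY1, hY2⟩ := Finset.mem_powersetCard.1 hY
  have hn : a ∉ Y := fun h => (Finset.mem_compl.1 (hY1 h)) ha
  have h1 : symmDiff (flip x a) (symmDiff x (insert a Y)) = Y := by
    unfold flip
    ext b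
    simp only [Finset.mem_symmDiff, Finset.mem_singleton, Finset.mem_insert]
    by_cases hb : b = a
    · subst hb
      by_cases hx : b ∈ x <;> simp [hx, hn]
    · by_cases hx : b ∈ x <;> by_cases hy : b ∈ Y <;> simp [hx, hb, hy]
  rw [h1, hY2]

theorem block_miss {d L Lam : ℕ} (hL : 0 < L) (hLam : Lam ≤ L) (x : Finset (Fin d)) (r : ℕ)
    (S : Finset (Fin d)) (hS : L ≤ (d - S.card).choose r) (I : Finset (Fin d)) (hI : I ⊆ S) :
    Pr (fun ω : Finset (Fin d) → Fin L => ∀ a ∈ I, Missed Lam r x ω a) ≤
      Real.exp (-((Lam : ℝ) * I.card)) := by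
  have : NeZero L := ⟨hL.ne'⟩
  have hL0 : (0 : ℝ) < L := by exact_mod_cast hL
  have h1 : Pr (fun ω : Finset (Fin d) → Fin L => ∀ a ∈ I, Missed Lam r x ω a) ≤
      Pr (fun ω : Finset (Fin d) → Fin L => ∀ z ∈ I.biUnion (fam r x S), ¬ ((ω z : ℕ) < Lam)) := by
    refine Pr_mono fun w hw z hz => ?_
    obtain ⟨a, ha, hz⟩ := Finset.mem_biUnion.1 hz
    exact hw a ha z (fam_ball x S (hI ha) hz)
  refine h1.trans ?_
  rw [Pr_coord (I.biUnion (fam r x S)) fun (_ : Finset (Fin d)) (o : Fin L) => ¬ ((o : ℕ) < Lam)]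
  rw [Finset.prod_const]
  have h3 : (univ.filter fun o : Fin L => ¬ ((o : ℕ) < Lam)).card = L - Lam := by
    have h4 : (univ.filter fun o : Fin L => (o : ℕ) < Lam).card +
        (univ.filter fun o : Fin L => ¬ ((o : ℕ) < Lam)).card = L := by
      rw [Finset.card_filter_add_card_filter_not, Finset.card_univ, Fintype.card_fin]
    have h5 : (univ.filter fun o : Fin L => (o : ℕ) < Lam).card = (Finset.range Lam).card := by
      refine Finset.card_bij (fun o _ => o.val) ?_ ?_ ?_
      · intro o ho
        simp only [Finset.mem_filter, Finset.mem_univ, true_and] at ho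
        exact Finset.mem_range.2 ho
      · intro o _ o' _ h
        exact Fin.ext h
      · intro m hm
        rw [Finset.mem_range] at hm
        exact ⟨⟨m, hm.trans_le hLam⟩, by simpa using hm, rfl⟩
    rw [Finset.card_range] at h5
    omega
  have hb : ∀ inst : DecidablePred fun o : Fin L => ¬ ((o : ℕ) < Lam),
      (@Finset.filter (Fin L) (fun o : Fin L => ¬ ((o : ℕ) < Lam)) inst univ).card = L - Lam := by
    intro inst
    convert h3
  rw [hb, Fintype.card_fin]
  have h2 : ((L - Lam : ℕ) : ℝ) / (L : ℝ) ≤ Real.exp (-(Lam / L : ℝ)) := by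
    rw [Nat.cast_sub hLam, sub_div, div_self hL0.ne']
    have := Real.add_one_le_exp (-(Lam / L : ℝ))
    linarith
  have h6 : (I.biUnion (fam r x S)).card = I.card * (d - S.card).choose r := by
    rw [Finset.card_biUnion, Finset.sum_congr rfl fun a ha => fam_card x S (hI ha),
      Finset.sum_const, smul_eq_mul]
    intro a _ b hb hab
    exact fam_disj x S (hI hb) hab
  rw [h6]
  calc (((L - Lam : ℕ) : ℝ) / (L : ℝ)) ^ (I.card * (d - S.card).choose r)
      ≤ (Real.exp (-(Lam / L : ℝ))) ^ (I.card * (d - S.card).choose r) :=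
        pow_le_pow_left₀ (by positivity) h2 _
    _ ≤ (Real.exp (-(Lam / L : ℝ))) ^ (I.card * L) := by
        refine pow_le_pow_of_le_one (Real.exp_pos _).le ?_ (Nat.mul_le_mul_left _ hS)
        rw [Real.exp_le_one_iff]
        have : (0 : ℝ) ≤ Lam / L := by positivity
        linarith
    _ = Real.exp (-((Lam : ℝ) * I.card)) := by
        rw [← Real.exp_nat_mul]
        congr 1
        push_cast
        field_simp

theorem pr_block {d L Lam : ℕ} (hL : 0 < L) (hLam : Lam ≤ L) (x : Finset (Fin d)) (r g u : ℕ)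
    (hS : L ≤ (d - g).choose r) (S : Finset (Fin d)) (hSg : S.card ≤ g) :
    Pr (fun ω : Finset (Fin d) → Fin L => u ≤ (S.filter fun a => Missed Lam r x ω a).card) ≤
      2 ^ g * Real.exp (-((Lam : ℝ) * u)) := by
  have : NeZero L := ⟨hL.ne'⟩
  have h1 : Pr (fun ω : Finset (Fin d) → Fin L =>
        u ≤ (S.filter fun a => Missed Lam r x ω a).card) ≤
      Pr (fun ω : Finset (Fin d) → Fin L =>
        ∃ U ∈ powersetCard u S, ∀ a ∈ U, Missed Lam r x ω a) := by
    refine Pr_mono fun w hw => ?_
    obtain ⟨U, hU, hUc⟩ := Finset.exists_subset_card_eq hw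
    refine ⟨U, Finset.mem_powersetCard.2 ⟨hU.trans (Finset.filter_subset _ _), hUc⟩, ?_⟩
    intro a ha
    exact (Finset.mem_filter.1 (hU ha)).2
  refine h1.trans ((Pr_exists_le _ _).trans ?_)
  have h2 : ∀ U ∈ powersetCard u S,
      Pr (fun ω : Finset (Fin d) → Fin L => ∀ a ∈ U, Missed Lam r x ω a) ≤
      Real.exp (-((Lam : ℝ) * u)) := by
    intro U hU
    obtain ⟨hU1, hU2⟩ := Finset.mem_powersetCard.1 hU
    have := block_miss hL hLam x r S
      (hS.trans (Nat.choose_le_choose r (Nat.sub_le_sub_left hSg d))) U hU1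
    rwa [hU2] at this
  refine (Finset.sum_le_sum h2).trans ?_
  rw [Finset.sum_const, nsmul_eq_mul]
  refine mul_le_mul_of_nonneg_right ?_ (Real.exp_pos _).le
  rw [Finset.card_powersetCard]
  calc ((S.card.choose u : ℕ) : ℝ) ≤ ((2 ^ S.card : ℕ) : ℝ) := by
        exact_mod_cast Nat.choose_le_two_pow _ _
    _ ≤ 2 ^ g := by
        push_cast
        exact pow_le_pow_right₀ (by norm_num) hSg

theorem blk_card {d B : ℕ} (b : ℕ) :
    (univ.filter fun a : Fin d => (a : ℕ) % B = b).card ≤ d / B + 1 := by
  have h : (univ.filter fun a : Fin d => (a : ℕ) % B = b).card ≤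
      (Finset.range (d / B + 1)).card := by
    refine Finset.card_le_card_of_injOn (fun a => a.val / B) ?_ ?_
    · intro a _
      simp only [Finset.coe_range, Set.mem_Iio]
      exact Nat.lt_succ_of_le (Nat.div_le_div_right a.2.le)
    · intro a ha a' ha' h
      have h1 : (a : ℕ) % B = b := by simpa using ha
      have h2 : (a' : ℕ) % B = b := by simpa using ha'
      have h3 : (a : ℕ) / B = (a' : ℕ) / B := h
      apply Fin.ext
      rw [← Nat.div_add_mod (a : ℕ) B, ← Nat.div_add_mod (a' : ℕ) B, h3, h1, h2]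
  simpa using h

theorem miss_le {d L Lam : ℕ} (hL : 0 < L) (hLam : Lam ≤ L) (x : Finset (Fin d)) (r B g u : ℕ)
    (hB : 0 < B) (hg : d / B + 1 ≤ g) (hS : L ≤ (d - g).choose r) :
    Pr (fun ω : Finset (Fin d) → Fin L =>
        B * u < (univ.filter fun a : Fin d => Missed Lam r x ω a).card) ≤
      (B : ℝ) * 2 ^ g * Real.exp (-((Lam : ℝ) * u)) := by
  have : NeZero L := ⟨hL.ne'⟩
  have h1 : Pr (fun ω : Finset (Fin d) → Fin L =>
        B * u < (univ.filter fun a : Fin d => Missed Lam r x ω a).card) ≤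
      Pr (fun ω : Finset (Fin d) → Fin L => ∃ b ∈ Finset.range B,
        u ≤ ((univ.filter fun a : Fin d => (a : ℕ) % B = b).filter
          fun a => Missed Lam r x ω a).card) := by
    refine Pr_mono fun w hw => ?_
    by_contra hcon
    push Not at hcon
    have h3 : (univ.filter fun a : Fin d => Missed Lam r x w a) ⊆
        (Finset.range B).biUnion fun b => (univ.filter fun a : Fin d => (a : ℕ) % B = b).filter
          fun a => Missed Lam r x w a := by
      intro a ha
      rw [Finset.mem_biUnion]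
      refine ⟨(a : ℕ) % B, Finset.mem_range.2 (Nat.mod_lt _ hB), ?_⟩
      simp only [Finset.mem_filter, Finset.mem_univ, true_and] at ha ⊢
      exact ha
    have h4 := (Finset.card_le_card h3).trans Finset.card_biUnion_le
    have h5 : ∑ b ∈ Finset.range B, ((univ.filter fun a : Fin d => (a : ℕ) % B = b).filter
          fun a => Missed Lam r x w a).card ≤ ∑ _b ∈ Finset.range B, u :=
      Finset.sum_le_sum fun b hb => (hcon b hb).le
    rw [Finset.sum_const, Finset.card_range, smul_eq_mul] at h5
    omega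
  refine h1.trans ((Pr_exists_le _ _).trans ?_)
  refine (Finset.sum_le_sum fun b _ => pr_block hL hLam x r g u hS _
    ((blk_card b).trans hg)).trans ?_
  rw [Finset.sum_const, Finset.card_range, nsmul_eq_mul, mul_assoc]

end Pool.Agent.HC
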