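import Pool.Agent.HC.Part1
import Pool.Agent.HC.Part2

/-!
# HC block P : the partition into pieces of Hamming balls (note 2854, section 1)

Random `Z`: independent values in `Fin L`, `L = (d - d / (2 r)).choose r`, for all vertices, `z ∈ Z`
iff the value is `< Lam`. `c y = inl z` for some `z ∈ Z` with distance `≤ r` from `y` if there is one,
else `inr y`. The events `many points of Z in the ball of radius r + 1` (`many_le`) and `many missed
neighbours` (`miss_le`) are exponentially rare, and the event at `x` depends on the ball of radius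
`r + 1`; local lemma (`Pool.Agent.H23.RS.lll`).
-/

namespace Pool.Agent.HC

open Finset Classical
open Pool.Agent.H23.RS

/-- part (i) -/
theorem partA {η : ℝ} (hη : 0 < η) {Lam r : ℕ} (hr0 : 1 ≤ r)
    (hr : 112 * (Lam : ℝ) ≤ η * (r + 1)) :
    ∃ d1 : ℕ, ∀ d, d1 ≤ d → ∀ (L : ℕ), 0 < L → L = (d - d / (2 * r)).choose r → Lam ≤ L →
      ∀ x : Finset (Fin d), Pr (fun w : Finset (Fin d) → Fin L => η / 2 * d <
        (((hball x (r + 1)).filter fun z => (w z : ℕ) < Lam).card : ℝ)) ≤
          Real.exp (-(η / 2 * d)) := by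
  refine ⟨4 * r * r + 2 ^ r * (r + 1).factorial, fun d hd L hL hLd hLam x => ?_⟩
  have hL' : (0 : ℝ) < L := by exact_mod_cast hL
  set m : ℕ := ⌊η / 2 * d⌋₊ + 1 with hm
  have hm1 : η / 2 * d ≤ m := by
    rw [hm]; push_cast
    exact (Nat.lt_floor_add_one _).le
  have h1 := many_le (W := Finset (Fin d)) hL hLam (hball x (r + 1)) m
  have h2 : 7 * (((hball x (r + 1)).card : ℝ) * Lam / L) ≤ m := by
    refine le_trans ?_ hm1
    have h3 := card_hball_le2 x r (by omega)
    have h4 : (d : ℝ) ^ r / (4 * r.factorial) ≤ (L : ℝ) := by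
      rw [hLd]
      exact le_choose (by omega) (by omega)
    have hd1 : (0 : ℝ) < d := by
      have : 0 < d := lt_of_lt_of_le (by positivity) hd
      exact_mod_cast this
    have hf : (0 : ℝ) < (r.factorial : ℝ) := by exact_mod_cast Nat.factorial_pos _
    have hf1 : ((r + 1).factorial : ℝ) = (r + 1) * r.factorial := by
      rw [Nat.factorial_succ]; push_cast; ring
    have h5 : ((hball x (r + 1)).card : ℝ) * (r + 1) ≤ 8 * d * L := by
      calc ((hball x (r + 1)).card : ℝ) * (r + 1)
          ≤ (2 * (d : ℝ) ^ (r + 1) / (r + 1).factorial) * (r + 1) := by gcongr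
        _ = 8 * d * ((d : ℝ) ^ r / (4 * r.factorial)) := by
            rw [hf1, pow_succ]
            have : (r : ℝ) + 1 ≠ 0 := by positivity
            field_simp
            ring
        _ ≤ 8 * d * L := by gcongr
    have h6 : ((hball x (r + 1)).card : ℝ) * Lam / L ≤ 8 * d * Lam / (r + 1) := by
      rw [div_le_div_iff₀ hL' (by positivity)]
      have : (0 : ℝ) ≤ Lam := Nat.cast_nonneg _
      nlinarith [mul_le_mul_of_nonneg_right h5 this]
    have h7 : 8 * (d : ℝ) * Lam / (r + 1) ≤ η * d / 14 := by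
      rw [div_le_iff₀ (by positivity)]
      nlinarith
    linarith
  have h3 : Pr (fun w : Finset (Fin d) → Fin L => η / 2 * d <
        (((hball x (r + 1)).filter fun z => (w z : ℕ) < Lam).card : ℝ)) ≤
      Pr (fun w : Finset (Fin d) → Fin L =>
        m ≤ ((hball x (r + 1)).filter fun z => (w z : ℕ) < Lam).card) := by
    refine Pr_mono fun w hw => ?_
    rw [hm]
    have h5 : ⌊η / 2 * (d : ℝ)⌋₊ < ((hball x (r + 1)).filter fun z => (w z : ℕ) < Lam).card :=
      (Nat.floor_lt (by positivity)).mpr hw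
    exact h5
  refine h3.trans (h1.trans ?_)
  have h4 : Real.exp (7 * (((hball x (r + 1)).card : ℝ) * Lam / L)) ≤ Real.exp m :=
    Real.exp_le_exp.mpr h2
  have h8 : Real.exp 2 ≤ 8 := by
    have := Real.exp_one_lt_d9
    have h9 : Real.exp 2 = Real.exp 1 * Real.exp 1 := by rw [← Real.exp_add]; norm_num
    rw [h9]
    have := Real.exp_pos 1
    nlinarith
  calc Real.exp (7 * (((hball x (r + 1)).card : ℝ) * Lam / L)) / 8 ^ m
      ≤ Real.exp m / (Real.exp 2) ^ m := by
        gcongr
    _ = Real.exp (-(m : ℝ)) := by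
        rw [← Real.exp_nat_mul, ← Real.exp_sub]
        congr 1
        ring
    _ ≤ Real.exp (-(η / 2 * d)) := by
        apply Real.exp_le_exp.mpr
        linarith

/-- part (ii) -/
theorem partB {η : ℝ} (hη : 0 < η) {Lam r : ℕ} (hLam6 : 6 ≤ η * Lam) (hr : 1 ≤ r) {d L : ℕ}
    (hd : 4 * r ≤ d) (hL : 0 < L) (hLd : L = (d - d / (2 * r)).choose r) (hLam : Lam ≤ L)
    (x : Finset (Fin d)) :
    Pr (fun w : Finset (Fin d) → Fin L => η / 2 * d <
        ((univ.filter fun a : Fin d => Missed Lam r x w a).card : ℝ)) ≤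
      8 * r * Real.exp Lam * Real.exp (-(1 / (4 * r) * (d : ℝ))) := by
  have hrr : (0 : ℝ) < r := by exact_mod_cast hr
  set u : ℕ := ⌊η * d / (8 * r)⌋₊ with hu
  have hu1 : (u : ℝ) ≤ η * d / (8 * r) := Nat.floor_le (by positivity)
  have hu2 : η * d / (8 * r) < u + 1 := Nat.lt_floor_add_one _
  have hdiv : 1 ≤ d / (4 * r) := by
    rw [Nat.le_div_iff_mul_le (by omega)]
    omega
  have hdiv2 : d / (4 * r) + 1 ≤ d / (2 * r) := by
    have h1 : 2 * (d / (4 * r)) ≤ d / (2 * r) := by
      rw [Nat.le_div_iff_mul_le (by omega)]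
      have := Nat.div_mul_le_self d (4 * r)
      calc 2 * (d / (4 * r)) * (2 * r) = d / (4 * r) * (4 * r) := by ring
        _ ≤ d := this
    omega
  have h1 := miss_le (Lam := Lam) hL hLam x r (4 * r) (d / (4 * r) + 1) u (by omega) le_rfl
    (by rw [hLd]; exact Nat.choose_le_choose r (by omega))
  refine le_trans (Pr_mono ?_) (h1.trans ?_)
  · intro w hw
    have h2 : ((4 * r * u : ℕ) : ℝ) ≤ η / 2 * d := by
      push_cast
      rw [le_div_iff₀ (by positivity)] at hu1
      linarith
    exact_mod_cast h2.trans_lt hw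
  · have h3 : (2 : ℝ) ^ (d / (4 * r) + 1) ≤ 2 * Real.exp (1 / (4 * r) * d) := by
      have h4 : (2 : ℝ) ≤ Real.exp 1 := by
        have := Real.add_one_le_exp (1 : ℝ)
        linarith
      calc (2 : ℝ) ^ (d / (4 * r) + 1) = 2 * 2 ^ (d / (4 * r)) := by rw [pow_succ]; ring
        _ ≤ 2 * (Real.exp 1) ^ (d / (4 * r)) := by gcongr
        _ = 2 * Real.exp ((d / (4 * r) : ℕ) : ℝ) := by
            rw [← Real.exp_nat_mul, mul_one]
        _ ≤ _ := by
            gcongr
            rw [one_div, inv_mul_eq_div, le_div_iff₀ (by positivity)]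
            have := Nat.div_mul_le_self d (4 * r)
            exact_mod_cast this
    have h5 : -((Lam : ℝ) * u) ≤ Lam - 3 / (4 * r) * d := by
      have h6 : (Lam : ℝ) * (η * d / (8 * r)) ≤ Lam * (u + 1) := by
        apply mul_le_mul_of_nonneg_left hu2.le (by positivity)
      have h7 : 3 / (4 * r) * (d : ℝ) ≤ Lam * (η * d / (8 * r)) := by
        have h8 : (Lam : ℝ) * (η * d / (8 * r)) = (η * Lam) * (d / (8 * r)) := by ring
        have h9 : 3 / (4 * r) * (d : ℝ) = 6 * (d / (8 * r)) := by
          field_simp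
          ring
        rw [h8, h9]
        apply mul_le_mul_of_nonneg_right hLam6 (by positivity)
      linarith
    calc ((4 * r : ℕ) : ℝ) * 2 ^ (d / (4 * r) + 1) * Real.exp (-((Lam : ℝ) * u))
        ≤ (4 * r) * (2 * Real.exp (1 / (4 * r) * d)) * Real.exp (Lam - 3 / (4 * r) * d) := by
          push_cast
          gcongr
      _ = 8 * r * Real.exp Lam * (Real.exp (1 / (4 * r) * d) * Real.exp (-(3 / (4 * r) * d))) := by
          rw [sub_eq_add_neg, Real.exp_add]
          ring
      _ = 8 * r * Real.exp Lam * Real.exp (1 / (4 * r) * d + -(3 / (4 * r) * d)) := by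
          rw [Real.exp_add]
      _ ≤ 8 * r * Real.exp Lam * Real.exp (-(1 / (4 * r) * (d : ℝ))) := by
          gcongr
          have h10 : 3 / (4 * (r : ℝ)) * (d : ℝ) = 3 * (1 / (4 * r) * d) := by ring
          have h11 : (0 : ℝ) ≤ 1 / (4 * r) * d := by positivity
          rw [h10]
          linarith

/-- the random set -/
theorem exists_set {η : ℝ} (hη : 0 < η) : ∃ r d0 : ℕ, ∀ d : ℕ, d0 ≤ d →
    ∃ Z : Finset (Finset (Fin d)),
      (∀ x : Finset (Fin d), (((hball x (r + 1)).filter fun z => z ∈ Z).card : ℝ) ≤ η / 2 * d) ∧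
      ∀ x : Finset (Fin d), ((univ.filter fun a : Fin d =>
        ∀ z, (symmDiff (flip x a) z).card ≤ r → z ∉ Z).card : ℝ) ≤ η / 2 * d := by
  obtain ⟨Lam, hLam⟩ := exists_nat_ge (6 / η)
  have hLam6 : 6 ≤ η * Lam := by
    rw [div_le_iff₀ hη] at hLam
    linarith
  obtain ⟨r, hr⟩ := exists_nat_ge (112 * (Lam : ℝ) / η + 1)
  have hLam0 : (0 : ℝ) < Lam := by
    by_contra h
    have : (Lam : ℝ) ≤ 0 := not_lt.mp h
    nlinarith
  have hr1 : 1 ≤ r := by
    have h1 : (1 : ℝ) ≤ r := by
      have : 0 ≤ 112 * (Lam : ℝ) / η := by positivity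
      linarith
    exact_mod_cast h1
  have hr2 : 112 * (Lam : ℝ) ≤ η * (r + 1) := by
    have h1 : 112 * (Lam : ℝ) / η ≤ r := by linarith
    rw [div_le_iff₀ hη] at h1
    nlinarith
  obtain ⟨d1, hd1⟩ := partA hη hr1 hr2
  set c : ℝ := min (η / 2) (1 / (4 * r)) with hc
  have hrr : (0 : ℝ) < r := by exact_mod_cast hr1
  have hc0 : 0 < c := by rw [hc]; positivity
  obtain ⟨d3, hd3⟩ := eventually_small (4 * (1 + 8 * r * Real.exp Lam)) c hc0 (2 * r + 2)
  refine ⟨r, d1 + 4 * r + d3 + 4 * r * r + 4 * r.factorial * (Lam + 1), fun d hd => ?_⟩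
  have hf1 : 1 ≤ r.factorial := Nat.factorial_pos r
  have hd0 : 1 ≤ d := by
    have : 1 ≤ 4 * r.factorial * (Lam + 1) := Nat.one_le_iff_ne_zero.mpr (by positivity)
    omega
  obtain ⟨L, hL⟩ : ∃ L : ℕ, L = (d - d / (2 * r)).choose r := ⟨_, rfl⟩
  have hLamL : Lam + 1 ≤ L := by
    have h1 : (d : ℝ) ^ r / (4 * r.factorial) ≤ (L : ℝ) := by
      rw [hL]
      exact le_choose (by omega) (by omega)
    have hf : (0 : ℝ) < (r.factorial : ℝ) := by exact_mod_cast hf1
    have h2 : (d : ℝ) ≤ (d : ℝ) ^ r := by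
      calc (d : ℝ) = (d : ℝ) ^ 1 := (pow_one _).symm
        _ ≤ (d : ℝ) ^ r := pow_le_pow_right₀ (by exact_mod_cast hd0) hr1
    have h3 : 4 * (r.factorial : ℝ) * (Lam + 1) ≤ d := by
      have : 4 * r.factorial * (Lam + 1) ≤ d := by omega
      exact_mod_cast this
    have h4 : ((Lam : ℝ) + 1) ≤ (d : ℝ) ^ r / (4 * r.factorial) := by
      rw [le_div_iff₀ (by positivity)]
      linarith
    exact_mod_cast h4.trans h1
  haveI : NeZero L := ⟨by omega⟩
  haveI : Nonempty (Fin L) := ⟨⟨0, by omega⟩⟩
  have hA := hd1 d (by omega) L (by omega) hL (by omega)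
  have hB := partB hη hLam6 hr1 (d := d) (L := L) (by omega) (by omega) hL (by omega)
  have hC := hd3 d (by omega)
  set p : ℝ := Real.exp (-(η / 2 * d)) +
    8 * r * Real.exp Lam * Real.exp (-(1 / (4 * r) * (d : ℝ))) with hp
  have hp1 : p ≤ (1 + 8 * r * Real.exp Lam) * Real.exp (-(c * d)) := by
    have h1 : Real.exp (-(η / 2 * d)) ≤ Real.exp (-(c * d)) := by
      apply Real.exp_le_exp.mpr
      have : c * d ≤ η / 2 * d := by
        apply mul_le_mul_of_nonneg_right (min_le_left _ _) (by positivity)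
      linarith
    have h2 : Real.exp (-(1 / (4 * r) * (d : ℝ))) ≤ Real.exp (-(c * d)) := by
      apply Real.exp_le_exp.mpr
      have h3 : c * d ≤ 1 / (4 * r) * d := by
        apply mul_le_mul_of_nonneg_right (min_le_right _ _) (by positivity)
      linarith
    have h5 : (0 : ℝ) ≤ 8 * r * Real.exp Lam := by positivity
    have h6 := mul_le_mul_of_nonneg_left h2 h5
    rw [hp]
    linarith
  have hp0 : 0 ≤ p := by
    rw [hp]; positivity
  have hpN : 4 * p * (((d + 1) ^ (2 * r + 2) : ℕ) : ℝ) ≤ 1 := by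
    refine le_trans ?_ hC
    push_cast
    have h0 : (0 : ℝ) ≤ ((d : ℝ) + 1) ^ (2 * r + 2) := by positivity
    have := mul_le_mul_of_nonneg_right (mul_le_mul_of_nonneg_left hp1 (by norm_num : (0:ℝ) ≤ 4)) h0
    calc 4 * p * ((d : ℝ) + 1) ^ (2 * r + 2) ≤ _ := this
      _ = _ := by ring
  have hphalf : p < 1 / 2 := by
    have h1 : (1 : ℝ) ≤ (((d + 1) ^ (2 * r + 2) : ℕ) : ℝ) := by
      exact_mod_cast Nat.one_le_pow _ _ (by omega)
    nlinarith
  obtain ⟨ω, hω⟩ := lll (V := Finset (Fin d)) (Ω := Fin L) (J := Finset (Fin d))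
    (fun x w => η / 2 * d < (((hball x (r + 1)).filter fun z => (w z : ℕ) < Lam).card : ℝ) ∨
      η / 2 * d < ((univ.filter fun a : Fin d => Missed Lam r x w a).card : ℝ))
    (fun x => hball x (r + 1))
    (by
      intro x w w' hww hx
      have h1 : ((hball x (r + 1)).filter fun z => (w z : ℕ) < Lam) =
          ((hball x (r + 1)).filter fun z => (w' z : ℕ) < Lam) := by
        apply Finset.filter_congr
        intro z hz
        rw [hww z hz]
      have h2 : (univ.filter fun a : Fin d => Missed Lam r x w a) =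
          (univ.filter fun a : Fin d => Missed Lam r x w' a) := by
        apply Finset.filter_congr
        intro a _
        unfold Missed
        refine forall_congr' fun z => ?_
        refine imp_congr_right fun hz => ?_
        rw [hww z]
        rw [mem_hball]
        have h3 := card_symmDiff_triangle x (flip x a) z
        rw [card_symmDiff_flip] at h3
        omega
      rw [h1, h2] at hx
      exact hx)
    (p := p) (N := (d + 1) ^ (2 * r + 2))
    (fun x => (Pr_or_le _ _).trans (add_le_add (hA x) (hB x)))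
    hphalf
    (by
      intro x
      refine le_trans (Finset.card_le_card ?_) (card_hball_le x (2 * r + 2))
      intro x' hx'
      have h1 : ¬ Disjoint (hball x (r + 1)) (hball x' (r + 1)) := by
        simpa only [Finset.mem_filter, Finset.mem_univ, true_and] using hx'
      rw [Finset.not_disjoint_iff] at h1
      obtain ⟨z, hz1, hz2⟩ := h1
      rw [mem_hball] at hz1 hz2 ⊢
      have h2 := card_symmDiff_triangle x z x'
      rw [symmDiff_comm z x'] at h2
      omega)
    hpN
  refine ⟨univ.filter fun z => (ω z : ℕ) < Lam, ?_, ?_⟩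
  · intro x
    have h1 := hω x
    push Not at h1
    have h2 := h1.1
    simp only [Finset.mem_filter, Finset.mem_univ, true_and]
    exact h2
  · intro x
    have h1 := hω x
    push Not at h1
    have h2 := h1.2
    have h3 : (univ.filter fun a : Fin d => ∀ z, (symmDiff (flip x a) z).card ≤ r →
        z ∉ univ.filter fun z => (ω z : ℕ) < Lam) =
        (univ.filter fun a : Fin d => Missed Lam r x ω a) := by
      apply Finset.filter_congr
      intro a _
      unfold Missed
      simp only [Finset.mem_filter, Finset.mem_univ, true_and]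
    rw [h3]
    exact h2

theorem partition {η : ℝ} (hη : 0 < η) : ∃ r d0 : ℕ, ∀ d : ℕ, d0 ≤ d →
    ∃ c : Finset (Fin d) → Finset (Fin d) ⊕ Finset (Fin d),
      (∀ y z, c y = Sum.inl z → (symmDiff y z).card ≤ r) ∧ (∀ y z, c y = Sum.inr z → z = y) ∧
      ∀ x, ((univ.image fun a : Fin d => c (flip x a)).card : ℝ) ≤ η * d := by
  obtain ⟨r, d0, h0⟩ := exists_set hη
  refine ⟨r, d0, fun d hd => ?_⟩
  obtain ⟨Z, hZ1, hZ2⟩ := h0 d hd
  refine ⟨fun y => if h : ∃ z, (symmDiff y z).card ≤ r ∧ z ∈ Z then Sum.inl h.choose else Sum.inr y,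
    ?_, ?_, ?_⟩
  · intro y z hyz
    by_cases h : ∃ z, (symmDiff y z).card ≤ r ∧ z ∈ Z
    · simp only [dif_pos h] at hyz
      have := Sum.inl.inj hyz
      rw [← this]
      exact h.choose_spec.1
    · simp only [dif_neg h] at hyz
      cases hyz
  · intro y z hyz
    by_cases h : ∃ z, (symmDiff y z).card ≤ r ∧ z ∈ Z
    · simp only [dif_pos h] at hyz
      cases hyz
    · simp only [dif_neg h] at hyz
      exact (Sum.inr.inj hyz).symm
  · intro x
    have hsub : (univ.image fun a : Fin d =>
        (if h : ∃ z, (symmDiff (flip x a) z).card ≤ r ∧ z ∈ Z then Sum.inl h.choose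
          else Sum.inr (flip x a) : Finset (Fin d) ⊕ Finset (Fin d))) ⊆
        (((hball x (r + 1)).filter fun z => z ∈ Z).image Sum.inl) ∪
        ((univ.filter fun a : Fin d =>
          ∀ z, (symmDiff (flip x a) z).card ≤ r → z ∉ Z).image fun a => Sum.inr (flip x a)) := by
      intro w hw
      obtain ⟨a, -, rfl⟩ := Finset.mem_image.mp hw
      rw [Finset.mem_union]
      by_cases h : ∃ z, (symmDiff (flip x a) z).card ≤ r ∧ z ∈ Z
      · left
        rw [dif_pos h]
        refine Finset.mem_image_of_mem _ ?_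
        rw [Finset.mem_filter, mem_hball]
        refine ⟨?_, h.choose_spec.2⟩
        have h1 := card_symmDiff_triangle x (flip x a) h.choose
        rw [card_symmDiff_flip] at h1
        have h2 := h.choose_spec.1
        omega
      · right
        rw [dif_neg h, Finset.mem_image]
        refine ⟨a, ?_, rfl⟩
        rw [Finset.mem_filter]
        push Not at h
        exact ⟨Finset.mem_univ _, h⟩
    have h1 := Finset.card_le_card hsub
    have h2 := Finset.card_union_le
      (((hball x (r + 1)).filter fun z => z ∈ Z).image (Sum.inl : _ → _ ⊕ Finset (Fin d)))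
      ((univ.filter fun a : Fin d =>
          ∀ z, (symmDiff (flip x a) z).card ≤ r → z ∉ Z).image
            fun a => (Sum.inr (flip x a) : Finset (Fin d) ⊕ _))
    have h3 := Finset.card_image_le (s := (hball x (r + 1)).filter fun z => z ∈ Z)
      (f := (Sum.inl : _ → _ ⊕ Finset (Fin d)))
    have h4 := Finset.card_image_le (s := univ.filter fun a : Fin d =>
          ∀ z, (symmDiff (flip x a) z).card ≤ r → z ∉ Z)
      (f := fun a => (Sum.inr (flip x a) : Finset (Fin d) ⊕ _))
    have h5 : ((univ.image fun a : Fin d =>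
        (if h : ∃ z, (symmDiff (flip x a) z).card ≤ r ∧ z ∈ Z then Sum.inl h.choose
          else Sum.inr (flip x a) : Finset (Fin d) ⊕ Finset (Fin d))).card : ℝ) ≤
        ((hball x (r + 1)).filter fun z => z ∈ Z).card +
        (univ.filter fun a : Fin d =>
          ∀ z, (symmDiff (flip x a) z).card ≤ r → z ∉ Z).card := by
      exact_mod_cast h1.trans (h2.trans (add_le_add h3 h4))
    have h6 := hZ1 x
    have h7 := hZ2 x
    linarith

end Pool.Agent.HC
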