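import Pool.Agent.HC.Defs

/-!
# HC block P, part (i): balls in the cube, few random points in a ball, numerics
-/

namespace Pool.Agent.HC

open Finset Classical
open Pool.Agent.H23.RS

/-- the ball of radius `k` around `x` -/
noncomputable def hball {d : ℕ} (x : Finset (Fin d)) (k : ℕ) : Finset (Finset (Fin d)) :=
  univ.filter fun z => (symmDiff x z).card ≤ k

lemma mem_hball {d : ℕ} {x z : Finset (Fin d)} {k : ℕ} :
    z ∈ hball x k ↔ (symmDiff x z).card ≤ k := by
  simp [hball]

lemma card_symmDiff_triangle {d : ℕ} (x y z : Finset (Fin d)) :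
    (symmDiff x z).card ≤ (symmDiff x y).card + (symmDiff y z).card := by
  have h : symmDiff x z ⊆ symmDiff x y ∪ symmDiff y z := symmDiff_triangle x y z
  exact (Finset.card_le_card h).trans (Finset.card_union_le _ _)

lemma card_symmDiff_flip {d : ℕ} (x : Finset (Fin d)) (a : Fin d) :
    (symmDiff x (flip x a)).card = 1 := by
  unfold flip
  rw [← symmDiff_assoc, symmDiff_self, bot_symmDiff, Finset.card_singleton]

lemma card_sphere {d : ℕ} (x : Finset (Fin d)) (j : ℕ) :
    (univ.filter fun z : Finset (Fin d) => (symmDiff x z).card = j).card = d.choose j := by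
  have h : (Finset.powersetCard j (univ : Finset (Fin d))).card = d.choose j := by
    rw [Finset.card_powersetCard, Finset.card_univ, Fintype.card_fin]
  rw [← h]
  refine Finset.card_bij (fun z _ => symmDiff x z) ?_ ?_ ?_
  · intro z hz
    rw [Finset.mem_powersetCard]
    exact ⟨Finset.subset_univ _, (Finset.mem_filter.mp hz).2⟩
  · intro z _ w _ hzw
    exact symmDiff_right_injective x hzw
  · intro w hw
    refine ⟨symmDiff x w, ?_, ?_⟩
    · rw [Finset.mem_filter]
      refine ⟨Finset.mem_univ _, ?_⟩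
      rw [symmDiff_symmDiff_cancel_left]
      exact (Finset.mem_powersetCard.mp hw).2
    · exact symmDiff_symmDiff_cancel_left x w

lemma card_hball {d : ℕ} (x : Finset (Fin d)) (k : ℕ) :
    (hball x k).card = ∑ j ∈ Finset.range (k + 1), d.choose j := by
  unfold hball
  rw [Finset.card_eq_sum_card_fiberwise (f := fun z => (symmDiff x z).card)
    (t := Finset.range (k + 1))]
  · refine Finset.sum_congr rfl fun j hj => ?_
    rw [← card_sphere x j]
    congr 1
    ext z
    simp only [Finset.mem_filter, Finset.mem_univ, true_and]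
    constructor
    · rintro ⟨_, h⟩; exact h
    · intro h
      have := Finset.mem_range.mp hj
      exact ⟨by omega, h⟩
  · intro z hz
    have := (Finset.mem_filter.mp hz).2
    simp only [Finset.coe_range, Set.mem_Iio]
    omega

lemma choose_le_pow' (d j : ℕ) : d.choose j ≤ d ^ j := by
  have h := Nat.choose_le_pow_div (α := ℝ) j d
  have h2 : ((d : ℝ) ^ j) / (j.factorial : ℝ) ≤ (d : ℝ) ^ j := by
    apply div_le_self (by positivity)
    exact_mod_cast Nat.one_le_iff_ne_zero.mpr (Nat.factorial_ne_zero j)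
  exact_mod_cast h.trans h2

lemma card_hball_le {d : ℕ} (x : Finset (Fin d)) (k : ℕ) : (hball x k).card ≤ (d + 1) ^ k := by
  rw [card_hball, add_pow]
  refine Finset.sum_le_sum fun j hj => ?_
  have h1 : 1 ≤ k.choose j := Nat.choose_pos (by have := Finset.mem_range.mp hj; omega)
  calc d.choose j ≤ d ^ j := choose_le_pow' d j
    _ = d ^ j * 1 := (mul_one _).symm
    _ ≤ d ^ j * k.choose j := Nat.mul_le_mul_left _ h1
    _ = d ^ j * 1 ^ (k - j) * k.choose j := by rw [one_pow, mul_one]

/-- the volume of a ball of radius `r + 1` -/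
lemma card_hball_le2 {d : ℕ} (x : Finset (Fin d)) (r : ℕ) (hd : 2 ^ r * (r + 1).factorial ≤ d) :
    ((hball x (r + 1)).card : ℝ) ≤ 2 * (d : ℝ) ^ (r + 1) / (r + 1).factorial := by
  have hf : (0 : ℝ) < ((r + 1).factorial : ℝ) := by exact_mod_cast Nat.factorial_pos _
  have hd1 : 1 ≤ d := le_trans (Nat.one_le_iff_ne_zero.mpr
    (Nat.mul_ne_zero (by positivity) (Nat.factorial_ne_zero _))) hd
  have h0 : (hball x (r + 1)).card = (hball x r).card + d.choose (r + 1) := by
    rw [card_hball, card_hball, Finset.sum_range_succ]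
  have h1 : ((hball x r).card : ℝ) ≤ (d : ℝ) ^ (r + 1) / (r + 1).factorial := by
    have h2 : ((hball x r).card : ℝ) ≤ ((d : ℝ) + 1) ^ r := by
      exact_mod_cast card_hball_le x r
    refine h2.trans ?_
    rw [le_div_iff₀ hf]
    have h3 : ((d : ℝ) + 1) ^ r ≤ (2 * (d : ℝ)) ^ r := by
      apply pow_le_pow_left₀ (by positivity)
      have : (1 : ℝ) ≤ d := by exact_mod_cast hd1
      linarith
    calc ((d : ℝ) + 1) ^ r * ((r + 1).factorial : ℝ)
        ≤ (2 * (d : ℝ)) ^ r * ((r + 1).factorial : ℝ) := by gcongr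
      _ = (d : ℝ) ^ r * ((2 : ℝ) ^ r * ((r + 1).factorial : ℝ)) := by rw [mul_pow]; ring
      _ ≤ (d : ℝ) ^ r * d := by
          gcongr
          exact_mod_cast hd
      _ = (d : ℝ) ^ (r + 1) := by rw [pow_succ]
  have h2 : ((d.choose (r + 1) : ℕ) : ℝ) ≤ (d : ℝ) ^ (r + 1) / (r + 1).factorial :=
    Nat.choose_le_pow_div (α := ℝ) (r + 1) d
  rw [h0]
  push_cast
  calc ((hball x r).card : ℝ) + (d.choose (r + 1) : ℝ) ≤ _ := add_le_add h1 h2
    _ = _ := by ring

/-- a lower bound for the number of `r`-subsets outside a block -/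
lemma le_choose {d r : ℕ} (hr : 0 < r) (hd : 4 * r * r ≤ d) :
    (d : ℝ) ^ r / (4 * r.factorial) ≤ ((d - d / (2 * r)).choose r : ℝ) := by
  set g := d / (2 * r) with hg
  have h1 := Nat.pow_le_choose (α := ℝ) r (d - g)
  refine le_trans ?_ h1
  have hf : (0 : ℝ) < (r.factorial : ℝ) := by exact_mod_cast Nat.factorial_pos _
  have hrr : (0 : ℝ) < (r : ℝ) := by exact_mod_cast hr
  have hr1 : (1 : ℝ) ≤ r := by exact_mod_cast hr
  rw [div_le_div_iff₀ (by positivity) hf]
  have h2 : (d : ℝ) * (1 - 3 / (4 * r)) ≤ ((d - g + 1 - r : ℕ) : ℝ) := by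
    have h6 : ((d - g + 1 - r : ℕ) : ℝ) ≥ (d : ℝ) - g - r := by
      have : d ≤ (d - g + 1 - r) + g + r := by omega
      have h7 : (d : ℝ) ≤ ((d - g + 1 - r : ℕ) : ℝ) + g + r := by exact_mod_cast this
      linarith
    have h7 : (g : ℝ) ≤ d / (2 * r) := by
      rw [le_div_iff₀ (by positivity)]
      have := Nat.div_mul_le_self d (2 * r)
      exact_mod_cast this
    have h8 : (r : ℝ) ≤ d / (4 * r) := by
      rw [le_div_iff₀ (by positivity)]
      have : r * (4 * r) ≤ d := by linarith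
      exact_mod_cast this
    have h9 : (d : ℝ) * (1 - 3 / (4 * r)) = d - d / (2 * r) - d / (4 * r) := by
      field_simp
      ring
    linarith
  have h0 : (0 : ℝ) ≤ 1 - 3 / (4 * r) := by
    have : (3 : ℝ) / (4 * r) ≤ 1 := by
      rw [div_le_one (by positivity)]
      linarith
    linarith
  have h3 : (1 : ℝ) / 4 ≤ (1 - 3 / (4 * r)) ^ r := by
    have := one_add_mul_le_pow (a := -(3 / (4 * (r : ℝ)))) (by linarith) r
    have h4 : (1 : ℝ) + r * (-(3 / (4 * (r : ℝ)))) = 1 / 4 := by
      field_simp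
      norm_num
    rw [h4] at this
    rwa [← sub_eq_add_neg] at this
  have h4 : (d : ℝ) ^ r * (1 / 4) ≤ ((d - g + 1 - r : ℕ) : ℝ) ^ r := by
    calc (d : ℝ) ^ r * (1 / 4) ≤ (d : ℝ) ^ r * (1 - 3 / (4 * r)) ^ r := by gcongr
      _ = ((d : ℝ) * (1 - 3 / (4 * r))) ^ r := by rw [mul_pow]
      _ ≤ _ := pow_le_pow_left₀ (mul_nonneg (by positivity) h0) h2 r
  calc (d : ℝ) ^ r * (r.factorial : ℝ) = ((d : ℝ) ^ r * (1 / 4)) * (4 * r.factorial) := by ring
    _ ≤ _ := by gcongr

/-- the number of points of the random set in a set `B` is rarely `≥ m` -/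
theorem many_le {W : Type} [Fintype W] {L Lam : ℕ} (hL : 0 < L) (hLam : Lam ≤ L) (B : Finset W)
    (m : ℕ) :
    Pr (fun ω : W → Fin L => m ≤ (B.filter fun z => (ω z : ℕ) < Lam).card) ≤
      Real.exp (7 * ((B.card : ℝ) * Lam / L)) / 8 ^ m := by
  haveI : Nonempty (Fin L) := ⟨⟨0, hL⟩⟩
  have hL' : (0 : ℝ) < L := by exact_mod_cast hL
  have h1 : ∀ ω : W → Fin L, ∏ z ∈ B, (if (ω z : ℕ) < Lam then (8 : ℝ) else 1) =
      8 ^ (B.filter fun z => (ω z : ℕ) < Lam).card := by
    intro ω
    rw [Finset.prod_ite, Finset.prod_const, Finset.prod_const_one, mul_one]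
  have h2 := markov (V := W) (Ω := Fin L)
    (fun ω => ∏ z ∈ B, (if (ω z : ℕ) < Lam then (8 : ℝ) else 1))
    (fun ω => Finset.prod_nonneg fun z _ => by split_ifs <;> norm_num)
    (t := (8 : ℝ) ^ m) (by positivity)
  have h3 := Ex_prod (V := W) (Ω := Fin L) B
    (fun _ a => if (a : ℕ) < Lam then (8 : ℝ) else 1)
  rw [h3] at h2
  refine le_trans (Pr_mono ?_) (h2.trans ?_)
  · intro ω hω
    rw [h1]
    exact pow_le_pow_right₀ (by norm_num) hω
  · apply div_le_div_of_nonneg_right _ (by positivity)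
    rw [Finset.prod_const, Fintype.card_fin]
    have h4 : ∑ a : Fin L, (if (a : ℕ) < Lam then (8 : ℝ) else 1) = L + 7 * Lam := by
      have h5 : ∀ a : Fin L, (if (a : ℕ) < Lam then (8 : ℝ) else 1) =
          1 + 7 * (if (a : ℕ) < Lam then (1 : ℝ) else 0) := by
        intro a; split_ifs <;> norm_num
      simp only [h5]
      rw [Finset.sum_add_distrib, ← Finset.mul_sum, Finset.sum_boole]
      have h6 : (univ.filter fun a : Fin L => (a : ℕ) < Lam).card = Lam := by
        rw [Fin.card_filter_val_lt]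
        exact min_eq_right hLam
      rw [h6]
      simp
    rw [h4]
    have h5 : ((L : ℝ) + 7 * Lam) / L = 1 + 7 * (Lam / L) := by
      field_simp
    rw [h5]
    calc (1 + 7 * ((Lam : ℝ) / L)) ^ B.card ≤ (Real.exp (7 * ((Lam : ℝ) / L))) ^ B.card := by
          apply pow_le_pow_left₀ (by positivity)
          have := Real.add_one_le_exp (7 * ((Lam : ℝ) / L))
          linarith
      _ = Real.exp (7 * ((B.card : ℝ) * Lam / L)) := by
          rw [← Real.exp_nat_mul]
          congr 1
          ring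

/-- the numerical fact about exponentials and powers -/
theorem eventually_small (K c : ℝ) (hc : 0 < c) (k : ℕ) :
    ∃ d0 : ℕ, ∀ d : ℕ, d0 ≤ d → K * Real.exp (-(c * d)) * ((d : ℝ) + 1) ^ k ≤ 1 := by
  have h1 := Real.tendsto_pow_mul_exp_neg_atTop_nhds_zero k
  have h2 : Filter.Tendsto (fun d : ℕ => c * (d : ℝ) + c) Filter.atTop Filter.atTop := by
    apply Filter.tendsto_atTop_add_const_right
    exact Filter.Tendsto.const_mul_atTop hc tendsto_natCast_atTop_atTop
  have h3 := h1.comp h2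
  have h4 := h3.const_mul (K * Real.exp c / c ^ k)
  rw [mul_zero] at h4
  have h5 := (h4.eventually (ge_mem_nhds (show (0 : ℝ) < 1 by norm_num)))
  obtain ⟨d0, hd0⟩ := Filter.eventually_atTop.mp h5
  refine ⟨d0, fun d hd => ?_⟩
  have h6 := hd0 d hd
  simp only [Function.comp] at h6
  have h7 : K * Real.exp c / c ^ k * ((c * (d : ℝ) + c) ^ k * Real.exp (-(c * (d : ℝ) + c))) =
      K * Real.exp (-(c * d)) * ((d : ℝ) + 1) ^ k := by
    have h8 : (c * (d : ℝ) + c) ^ k = c ^ k * ((d : ℝ) + 1) ^ k := by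
      rw [← mul_pow]; ring_nf
    have h9 : Real.exp (-(c * (d : ℝ) + c)) = Real.exp (-(c * d)) / Real.exp c := by
      rw [neg_add, Real.exp_add, Real.exp_neg c]
      rfl
    rw [h8, h9]
    have hck : c ^ k ≠ 0 := by positivity
    have hec : Real.exp c ≠ 0 := (Real.exp_pos c).ne'
    field_simp
  rw [h7] at h6
  exact h6

end Pool.Agent.HC
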