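import Pool.Agent.HC.Defs

/-!
# HC block K : uniform elements of finite sets from one seed

`pick S i` is the `(i mod #S)`-th element of `S`. If `i` is uniform in `Fin N!` it is uniform on `S`,
because `#S` divides `N!`.
-/

namespace Pool.Agent.HC

open Finset Classical
open Pool.Agent.H23.RS

/-- the seeds -/
abbrev Sd (N : ℕ) : Type := Fin N.factorial

instance (N : ℕ) : Nonempty (Sd N) := ⟨⟨0, N.factorial_pos⟩⟩

variable {N : ℕ} [NeZero N]

noncomputable def pick (S : Finset (Fin N)) (i : Sd N) : Fin N :=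
  if h : S.Nonempty then S.orderEmbOfFin rfl ⟨(i : ℕ) % S.card, Nat.mod_lt _ h.card_pos⟩ else 0

theorem pick_mem {S : Finset (Fin N)} (h : S.Nonempty) (i : Sd N) : pick S i ∈ S := by
  rw [pick, dif_pos h]
  exact S.orderEmbOfFin_mem rfl _

theorem card_mod_eq {n k r : ℕ} (hr : r < k) (hk : k ∣ n) :
    (univ.filter fun i : Fin n => (i : ℕ) % k = r).card * k = n := by
  obtain ⟨q, rfl⟩ := hk
  have hk0 : 0 < k := lt_of_le_of_lt (Nat.zero_le _) hr
  have h1 : (univ.filter fun i : Fin (k * q) => (i : ℕ) % k = r).card = q := by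
    have h2 : (univ.filter fun i : Fin (k * q) => (i : ℕ) % k = r).card =
        (univ : Finset (Fin q)).card := by
      symm
      refine Finset.card_bij (fun (j : Fin q) _ => (⟨r + k * j, ?_⟩ : Fin (k * q))) ?_ ?_ ?_
      · have hj := j.isLt
        calc r + k * (j : ℕ) < k + k * (j : ℕ) := by omega
          _ = k * ((j : ℕ) + 1) := by ring
          _ ≤ k * q := Nat.mul_le_mul_left k hj
      · intro j _
        rw [Finset.mem_filter]
        refine ⟨Finset.mem_univ _, ?_⟩
        change (r + k * (j : ℕ)) % k = r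
        rw [Nat.add_mul_mod_self_left, Nat.mod_eq_of_lt hr]
      · intro a _ b _ hab
        have h3 : r + k * (a : ℕ) = r + k * (b : ℕ) := congrArg Fin.val hab
        have h4 : k * (a : ℕ) = k * (b : ℕ) := by omega
        exact Fin.ext (Nat.eq_of_mul_eq_mul_left hk0 h4)
      · intro b hb
        rw [Finset.mem_filter] at hb
        have h3 := Nat.mod_add_div (b : ℕ) k
        have h4 : (b : ℕ) / k < q := Nat.div_lt_of_lt_mul b.isLt
        refine ⟨⟨(b : ℕ) / k, h4⟩, Finset.mem_univ _, ?_⟩
        apply Fin.ext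
        change r + k * ((b : ℕ) / k) = b
        rw [hb.2] at h3
        exact h3
    rw [h2, Finset.card_univ, Fintype.card_fin]
  rw [h1, Nat.mul_comm]

/-- `pick S` is uniform on `S`. -/
theorem pick_count {S : Finset (Fin N)} {a : Fin N} (ha : a ∈ S) :
    ((univ.filter fun i : Sd N => pick S i = a).card : ℝ) / (Fintype.card (Sd N) : ℝ) =
      1 / (S.card : ℝ) := by
  have hS : S.Nonempty := ⟨a, ha⟩
  have hpos : 0 < S.card := hS.card_pos
  have hcard : S.card ≤ N := by
    have := Finset.card_le_univ S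
    rwa [Fintype.card_fin] at this
  have hdvd : S.card ∣ N.factorial := Nat.dvd_factorial hpos hcard
  obtain ⟨r, hr⟩ : ∃ r : Fin S.card, S.orderEmbOfFin rfl r = a := by
    have h1 : a ∈ Set.range (S.orderEmbOfFin rfl) := by
      rw [Finset.range_orderEmbOfFin]
      exact ha
    exact h1
  have h2 : (univ.filter fun i : Sd N => pick S i = a) =
      univ.filter fun i : Fin N.factorial => (i : ℕ) % S.card = (r : ℕ) := by
    apply Finset.filter_congr
    intro i _
    rw [pick, dif_pos hS, ← hr]
    constructor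
    · intro h
      exact congrArg Fin.val ((S.orderEmbOfFin rfl).injective h)
    · intro h
      congr 1
      exact Fin.ext h
  have h3 := card_mod_eq r.isLt hdvd
  have hS0 : (S.card : ℝ) ≠ 0 := by exact_mod_cast hpos.ne'
  have hN0 : (N.factorial : ℝ) ≠ 0 := Nat.cast_ne_zero.mpr N.factorial_pos.ne'
  have h4 : (((univ.filter fun i : Fin N.factorial => (i : ℕ) % S.card = (r : ℕ)).card : ℕ) : ℝ) *
      (S.card : ℝ) = (N.factorial : ℝ) := by
    rw [← Nat.cast_mul, h3]
  rw [h2, Fintype.card_fin, div_eq_div_iff hN0 hS0, one_mul]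
  exact h4

theorem pick_count_le {S : Finset (Fin N)} (hS : S.Nonempty) (a : Fin N) :
    ((univ.filter fun i : Sd N => pick S i = a).card : ℝ) / (Fintype.card (Sd N) : ℝ) ≤
      1 / (S.card : ℝ) := by
  by_cases ha : a ∈ S
  · exact (pick_count ha).le
  · have h1 : (univ.filter fun i : Sd N => pick S i = a) = ∅ := by
      apply Finset.filter_eq_empty_iff.mpr
      intro i _ h
      exact ha (h ▸ pick_mem hS i)
    rw [h1, Finset.card_empty, Nat.cast_zero, zero_div]
    positivity

theorem card_filter_inst {α : Type} (s : Finset α) (p : α → Prop) (i1 i2 : DecidablePred p) :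
    (@Finset.filter α p i1 s).card = (@Finset.filter α p i2 s).card := by
  rw [Subsingleton.elim i1 i2]

/-- Probability of prescribed values on distinct coordinates (from `Pr_coord`). -/
theorem Pr_pick {Q : Type} [Fintype Q] (I : Finset Q) (S : Q → Finset (Fin N)) (a : Q → Fin N)
    (ha : ∀ v ∈ I, a v ∈ S v) :
    Pr (fun z : Q → Sd N => ∀ v ∈ I, pick (S v) (z v) = a v) = ∏ v ∈ I, (1 / ((S v).card : ℝ)) := by
  rw [Pr_coord I (fun v i => pick (S v) i = a v)]
  refine Finset.prod_congr rfl fun v hv => ?_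
  rw [← pick_count (S := S v) (a := a v) (ha v hv)]
  exact congrArg (fun n : ℕ => (n : ℝ) / (Fintype.card (Sd N) : ℝ)) (card_filter_inst _ _ _ _)

end Pool.Agent.HC
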