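import Pool.Agent.HC.Conf

/-!
# HC block E-emb : an outcome without bad events gives the embedding

`f v = phi z v` (even), `psi z v` (odd). Different numbers of elements: different classes
`W (#v + 4)`, disjoint. Arcs: `psi z y ∈ Hy z y` (`F3`, `pick_mem`), and positive weight means that all
`phi z (flip y a)` are in `nbr ..`, i.e. `Ry y a (psi z y) (phi z (flip y a))`.
-/

namespace Pool.Agent.HC

open Finset Classical
open Pool.Agent.H23.RS

theorem emb_flip_mem {d : ℕ} {y : Finset (Fin d)} {a : Fin d} (h : a ∈ y) : flip y a = y.erase a := by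
  ext b
  unfold flip
  simp only [Finset.mem_symmDiff, Finset.mem_singleton, Finset.mem_erase]
  constructor
  · rintro (⟨h1, h2⟩ | ⟨h1, h2⟩)
    · exact ⟨h2, h1⟩
    · subst h1; exact absurd h h2
  · rintro ⟨h1, h2⟩
    exact Or.inl ⟨h2, h1⟩

theorem emb_flip_not_mem {d : ℕ} {y : Finset (Fin d)} {a : Fin d} (h : a ∉ y) :
    flip y a = insert a y := by
  ext b
  unfold flip
  simp only [Finset.mem_symmDiff, Finset.mem_singleton, Finset.mem_insert]
  constructor
  · rintro (⟨h1, h2⟩ | ⟨h1, h2⟩)
    · exact Or.inr h1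
    · exact Or.inl h1
  · rintro (h1 | h1)
    · subst h1; exact Or.inr ⟨rfl, h⟩
    · refine Or.inl ⟨h1, ?_⟩
      rintro rfl
      exact h h1

theorem emb_flip_even {d : ℕ} {y : Finset (Fin d)} (hy : ¬ Even y.card) (a : Fin d) :
    Even (flip y a).card := by
  rw [Nat.not_even_iff_odd] at hy
  by_cases h : a ∈ y
  · rw [emb_flip_mem h, Finset.card_erase_of_mem h]
    obtain ⟨k, hk⟩ := hy
    exact ⟨k, by omega⟩
  · rw [emb_flip_not_mem h, Finset.card_insert_of_notMem h]
    obtain ⟨k, hk⟩ := hy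
    exact ⟨k + 1, by omega⟩

theorem emb_card_le {d : ℕ} (y : Finset (Fin d)) : y.card ≤ d := by
  have h := Finset.card_le_univ y
  rwa [Fintype.card_fin] at h

variable {N d M D0 K : ℕ} [NeZero N] {Om : Type} [Fintype Om]

namespace Data

variable {P : Data N d M D0 K Om} {e1 c0 L : ℝ}

theorem emb_Ast_nonempty (hP : P.Ok e1 c0 L) {z : Ix d Om → Sd N} {x : Finset (Fin d)}
    (hx : Even x.card) (h : P.okx z x) : (P.Ast z x).Nonempty := by
  have h1 := h.1
  have h2 := hP.Wc (x.card + 4) (by
    obtain ⟨k, hk⟩ := hx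
    exact ⟨k + 2, by omega⟩) (by omega) (by have := emb_card_le x; omega)
  have h3 := hP.Lpos
  have h4 : (0 : ℝ) < ((P.Ast z x).card : ℝ) := by
    unfold Ast
    linarith
  exact Finset.card_pos.mp (by exact_mod_cast h4)

omit [Fintype Om] in
theorem emb_Ast_subset_Ay (z : Ix d Om → Sd N) (y : Finset (Fin d)) (a : Fin d) :
    P.Ast z (flip y a) ⊆ P.Ay z y a := by
  intro v hv
  unfold Ast com at hv
  rw [Finset.mem_filter] at hv
  unfold Ay
  split_ifs with h
  · unfold comR
    rw [Finset.mem_filter]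
    exact ⟨hv.1, hv.2.1, fun i _ => hv.2.2 i⟩
  · unfold comL
    rw [Finset.mem_filter]
    exact ⟨hv.1, fun i _ => hv.2.1 i, hv.2.2⟩

theorem emb_phi_mem_W (hP : P.Ok e1 c0 L) {z : Ix d Om → Sd N} {x : Finset (Fin d)}
    (hx : Even x.card) (h : P.okx z x) : P.phi z x ∈ P.W (x.card + 4) := by
  have h1 : P.phi z x ∈ P.Ast z x := pick_mem (emb_Ast_nonempty hP hx h) _
  unfold Ast com at h1
  exact (Finset.mem_filter.mp h1).1

theorem emb_Hy_nonempty (hP : P.Ok e1 c0 L) {z : Ix d Om → Sd N} {y : Finset (Fin d)}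
    (hy : ¬ Even y.card) (h0 : P.oky z y) (h1 : P.th * (P.C (y.card + 4)).card ≤ P.Wy z y) :
    (P.Hy z y).Nonempty := by
  have hA : ∀ a, (P.Ay z y a).Nonempty := fun a =>
    (emb_Ast_nonempty hP (emb_flip_even hy a) (h0 a)).mono (emb_Ast_subset_Ay z y a)
  have hK : (1 / P.al) ^ Fintype.card (Fin d) ≤ 2 ^ K := by
    rw [Fintype.card_fin]; exact hP.hK
  have h2 := F3 (R := P.Ry y) hP.al0 hA (P.C (y.card + 4)) hK (fun a => P.phi z (flip y a)) h1
  have h3 := hP.Cc (y.card + 4) (by
    rw [Nat.not_even_iff_odd] at hy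
    obtain ⟨k, hk⟩ := hy
    exact ⟨k + 2, by omega⟩) (by omega) (by have := emb_card_le y; omega)
  have h4 : 0 < P.th * (P.C (y.card + 4)).card * P.al ^ Fintype.card (Fin d) :=
    mul_pos (mul_pos hP.th0 (lt_of_lt_of_le hP.c0pos h3)) (pow_pos hP.al0 _)
  have h5 : (0 : ℝ) < ((K : ℝ) + 1) * ((P.Hy z y).card : ℝ) := lt_of_lt_of_le h4 h2
  have h6 : (0 : ℝ) < ((P.Hy z y).card : ℝ) := by
    have : (0 : ℝ) < (K : ℝ) + 1 := by positivity
    exact (pos_iff_pos_of_mul_pos h5).mp this
  exact Finset.card_pos.mp (by exact_mod_cast h6)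

theorem emb_psi_mem (hP : P.Ok e1 c0 L) {z : Ix d Om → Sd N} {y : Finset (Fin d)}
    (hy : ¬ Even y.card) (h0 : P.oky z y) (h1 : P.th * (P.C (y.card + 4)).card ≤ P.Wy z y) :
    P.psi z y ∈ P.Hy z y := pick_mem (emb_Hy_nonempty hP hy h0 h1) _

theorem emb_psi_mem_W (hP : P.Ok e1 c0 L) {z : Ix d Om → Sd N} {y : Finset (Fin d)}
    (hy : ¬ Even y.card) (h0 : P.oky z y) (h1 : P.th * (P.C (y.card + 4)).card ≤ P.Wy z y) :
    P.psi z y ∈ P.W (y.card + 4) := by
  have h2 : P.psi z y ∈ P.C (y.card + 4) := heavy_subset _ _ _ _ _ _ (emb_psi_mem hP hy h0 h1)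
  refine hP.CW (y.card + 4) ?_ (by omega) (by have := emb_card_le y; omega) h2
  rw [Nat.not_even_iff_odd] at hy
  obtain ⟨k, hk⟩ := hy
  exact ⟨k + 2, by omega⟩

theorem emb_psi_adj (hP : P.Ok e1 c0 L) {z : Ix d Om → Sd N} {y : Finset (Fin d)}
    (hy : ¬ Even y.card) (h0 : P.oky z y) (h1 : P.th * (P.C (y.card + 4)).card ≤ P.Wy z y)
    (a : Fin d) : P.Ry y a (P.psi z y) (P.phi z (flip y a)) :=
  heavy_adj (emb_psi_mem hP hy h0 h1) a

theorem embed (hP : P.Ok e1 c0 L) (z : Ix d Om → Sd N)
    (h0 : ∀ x : Finset (Fin d), Even x.card → P.okx z x)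
    (h1 : ∀ y : Finset (Fin d), ¬ Even y.card → P.th * (P.C (y.card + 4)).card ≤ P.Wy z y)
    (h2 : ∀ x x' : Finset (Fin d), Even x.card → x'.card = x.card → x ≠ x' →
      P.phi z x ≠ P.phi z x')
    (h3 : ∀ y y' : Finset (Fin d), ¬ Even y.card → y'.card = y.card → y ≠ y' →
        P.psi z y ≠ P.psi z y') :
    ∃ f : Finset (Fin d) → Fin N, Function.Injective f ∧
      ∀ (s : Finset (Fin d)) (a : Fin d), a ∉ s → P.T (f s) (f (insert a s)) := by
  have hoky : ∀ y : Finset (Fin d), ¬ Even y.card → P.oky z y :=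
    fun y hy a => h0 _ (emb_flip_even hy a)
  have hW : ∀ v : Finset (Fin d),
      (if Even v.card then P.phi z v else P.psi z v) ∈ P.W (v.card + 4) := by
    intro v
    split_ifs with h
    · exact emb_phi_mem_W hP h (h0 v h)
    · exact emb_psi_mem_W hP h (hoky v h) (h1 v h)
  refine ⟨fun v => if Even v.card then P.phi z v else P.psi z v, ?_, ?_⟩
  · intro v w hvw
    have hvw' : (if Even v.card then P.phi z v else P.psi z v) =
      (if Even w.card then P.phi z w else P.psi z w) := hvw
    by_contra hne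
    have hc : w.card = v.card := by
      by_contra hcne
      have hd := hP.disj (v.card + 4) (w.card + 4) (by omega) (by have := emb_card_le v; omega)
        (by have := emb_card_le w; omega) (by omega) (by omega)
      have hv := hW v
      have hw := hW w
      rw [← hvw'] at hw
      exact (Finset.disjoint_left.mp hd) hv hw
    by_cases he : Even v.card
    · have he' : Even w.card := by rw [hc]; exact he
      rw [if_pos he, if_pos he'] at hvw'
      exact h2 v w he hc hne hvw'
    · have he' : ¬ Even w.card := by rw [hc]; exact he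
      rw [if_neg he, if_neg he'] at hvw'
      exact h3 v w he hc hne hvw'
  · intro s a ha
    show P.T (if Even s.card then P.phi z s else P.psi z s)
      (if Even (insert a s).card then P.phi z (insert a s) else P.psi z (insert a s))
    have hcard : (insert a s).card = s.card + 1 := Finset.card_insert_of_notMem ha
    by_cases he : Even s.card
    · have he' : ¬ Even (insert a s).card := by
        rw [hcard, Nat.even_add_one]; exact not_not.mpr he
      rw [if_pos he, if_neg he']
      have h := emb_psi_adj hP he' (hoky _ he') (h1 _ he') a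
      unfold Ry at h
      have hmem : a ∈ insert a s := Finset.mem_insert_self a s
      rw [if_pos hmem, emb_flip_mem hmem, Finset.erase_insert ha] at h
      exact h
    · have he' : Even (insert a s).card := by
        rw [hcard, Nat.even_add_one]; exact he
      rw [if_neg he, if_pos he']
      have h := emb_psi_adj hP he (hoky _ he) (h1 _ he) a
      unfold Ry at h
      rw [if_neg ha, emb_flip_not_mem ha] at h
      exact h

end Data

end Pool.Agent.HC
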