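import Pool.Agent.HC.PlaceSum
import Pool.Agent.HC.PlaceEmb

/-!
# HC : the placement theorem (note 2854, section 4)
-/

namespace Pool.Agent.HC

variable {N d M D0 K : ℕ} [NeZero N] {Om : Type} [Fintype Om]

theorem placement (P : Data N d M D0 K Om) {e1 c0 L s : ℝ} (hP : P.Ok e1 c0 L) (hs : 0 < s)
    (hs2 : s * (2 * (K + 1)) ≤ P.th * c0 * P.al ^ d)
    {D : ℕ} (hD : (d + 1) ^ 2 * (1 + 2 * M * D0) + 1 ≤ D)
    (hq : 16 * (D : ℝ) * (e1 + P.th + 2 ^ d / L + 2 ^ d * (2 * (K + 1) / c0) + D / s) ≤ 1) :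
    ∃ f : Finset (Fin d) → Fin N, Function.Injective f ∧
      ∀ (s : Finset (Fin d)) (a : Fin d), a ∉ s → P.T (f s) (f (insert a s)) := by
  obtain ⟨z, h0, h1, h2, h3⟩ := Data.sum_le hP hs hs2 hD hq
  exact Data.embed hP z h0 h1 h2 h3

end Pool.Agent.HC
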