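import Pool.Agent.HC.Conf

/-!
# HC block E-deg : every set of variables meets few others

`Vr v` meets `Vr w` only if `v = w` or there are even vertices `x` (`x = v` or `x = flip v a`) and `x'`
(`x' = w` or `x' = flip w b`) with `x = x'` or with a common centre. For given `x` there are at most
`1 + 2 M D0` such `x'` (`P.cl.deg`), for given `x'` at most `d + 1` such `w`; at most `d + 1` vertices `x`.
-/

namespace Pool.Agent.HC

open Finset Classical
open Pool.Agent.H23.RS

variable {N d M D0 K : ℕ} [NeZero N] {Om : Type}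

omit [NeZero N] in
theorem flip_flip' (x : Finset (Fin d)) (a : Fin d) : flip (flip x a) a = x := by
  unfold flip
  rw [symmDiff_assoc, symmDiff_self]
  simp

/-- a vertex and its neighbours -/
noncomputable def nbE (x : Finset (Fin d)) : Finset (Finset (Fin d)) :=
  insert x (univ.image fun a => flip x a)

theorem nbE_card (x : Finset (Fin d)) : (nbE x).card ≤ d + 1 := by
  unfold nbE
  refine (Finset.card_insert_le _ _).trans ?_
  have h := Finset.card_image_le (s := (univ : Finset (Fin d))) (f := fun a => flip x a)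
  simp only [Finset.card_univ, Fintype.card_fin] at h
  omega

theorem mem_nbE {x y : Finset (Fin d)} : y ∈ nbE x ↔ y = x ∨ ∃ a, flip x a = y := by
  unfold nbE
  simp

theorem nbE_symm {x y : Finset (Fin d)} (h : y ∈ nbE x) : x ∈ nbE y := by
  rw [mem_nbE] at h ⊢
  rcases h with h | ⟨a, h⟩
  · exact Or.inl h.symm
  · refine Or.inr ⟨a, ?_⟩
    rw [← h]
    exact flip_flip' x a

namespace Data

variable {P : Data N d M D0 K Om}

/-- the centre `c` is seen by `x` -/
def seen (P : Data N d M D0 K Om) (x : Finset (Fin d)) (c : Om) : Prop :=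
  (∃ i, P.cl.lo x i = c) ∨ ∃ i, P.cl.up x i = c

omit [NeZero N] in
theorem mem_Vx {x : Finset (Fin d)} {e : Ix d Om} (h : e ∈ P.Vx x) :
    e = Sum.inr x ∨ ∃ c, e = Sum.inl c ∧ seen P x c := by
  unfold Vx at h
  simp only [Finset.mem_union, Finset.mem_singleton, Finset.mem_image, Finset.mem_univ, true_and] at h
  rcases h with (h | ⟨i, h⟩) | ⟨i, h⟩
  · exact Or.inl h
  · exact Or.inr ⟨_, h.symm, Or.inl ⟨i, rfl⟩⟩
  · exact Or.inr ⟨_, h.symm, Or.inr ⟨i, rfl⟩⟩

omit [NeZero N] in
theorem mem_Vr {v : Finset (Fin d)} {e : Ix d Om} (h : e ∈ P.Vr v) :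
    ∃ x ∈ nbE v, e = Sum.inr x ∨ ∃ c, e = Sum.inl c ∧ seen P x c := by
  unfold Vr at h
  split_ifs at h with hv
  · exact ⟨v, mem_nbE.2 (Or.inl rfl), mem_Vx h⟩
  · rw [Finset.mem_union, Finset.mem_singleton, Finset.mem_biUnion] at h
    rcases h with h | ⟨a, -, h⟩
    · exact ⟨v, mem_nbE.2 (Or.inl rfl), Or.inl h⟩
    · exact ⟨flip v a, mem_nbE.2 (Or.inr ⟨a, rfl⟩), mem_Vx h⟩

/-- the vertices which see the centre `c` -/
noncomputable def seers (P : Data N d M D0 K Om) (c : Om) : Finset (Finset (Fin d)) :=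
  univ.filter fun x => (∃ i, P.cl.lo x i = c) ∨ ∃ i, P.cl.up x i = c

/-- `x` and the vertices with a common centre -/
noncomputable def rel (P : Data N d M D0 K Om) (x : Finset (Fin d)) : Finset (Finset (Fin d)) :=
  insert x ((univ.biUnion fun i => seers P (P.cl.lo x i)) ∪ univ.biUnion fun i => seers P (P.cl.up x i))

omit [NeZero N] in
theorem rel_card (x : Finset (Fin d)) : (rel P x).card ≤ 1 + 2 * M * D0 := by
  unfold rel
  refine (Finset.card_insert_le _ _).trans ?_
  have h1 : (univ.biUnion fun i => seers P (P.cl.lo x i)).card ≤ M * D0 := by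
    refine (Finset.card_biUnion_le_card_mul _ _ D0 fun i _ => P.cl.deg _).trans ?_
    simp
  have h2 : (univ.biUnion fun i => seers P (P.cl.up x i)).card ≤ M * D0 := by
    refine (Finset.card_biUnion_le_card_mul _ _ D0 fun i _ => P.cl.deg _).trans ?_
    simp
  have h3 := Finset.card_union_le (univ.biUnion fun i => seers P (P.cl.lo x i))
    (univ.biUnion fun i => seers P (P.cl.up x i))
  have h4 : 2 * M * D0 = M * D0 + M * D0 := by ring
  omega

omit [NeZero N] in
theorem mem_rel {x x' : Finset (Fin d)} {c : Om} (h : seen P x c) (h' : seen P x' c) :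
    x' ∈ rel P x := by
  unfold rel
  refine Finset.mem_insert_of_mem ?_
  rw [Finset.mem_union, Finset.mem_biUnion, Finset.mem_biUnion]
  rcases h with ⟨i, h⟩ | ⟨i, h⟩
  · refine Or.inl ⟨i, Finset.mem_univ _, ?_⟩
    unfold seers
    rw [Finset.mem_filter, h]
    exact ⟨Finset.mem_univ _, h'⟩
  · refine Or.inr ⟨i, Finset.mem_univ _, ?_⟩
    unfold seers
    rw [Finset.mem_filter, h]
    exact ⟨Finset.mem_univ _, h'⟩

omit [NeZero N] in
theorem degV (v : Finset (Fin d)) :
    (univ.filter fun w => ¬ Disjoint (P.Vr v) (P.Vr w)).card ≤ (d + 1) ^ 2 * (1 + 2 * M * D0) + 1 := by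
  have hsub : (univ.filter fun w => ¬ Disjoint (P.Vr v) (P.Vr w)) ⊆
      (nbE v).biUnion fun x => (rel P x).biUnion fun x' => nbE x' := by
    intro w hw
    rw [Finset.mem_filter, Finset.not_disjoint_iff] at hw
    obtain ⟨-, e, he, he'⟩ := hw
    obtain ⟨x, hx, hxe⟩ := mem_Vr he
    obtain ⟨x', hx', hxe'⟩ := mem_Vr he'
    rw [Finset.mem_biUnion]
    refine ⟨x, hx, ?_⟩
    rw [Finset.mem_biUnion]
    refine ⟨x', ?_, nbE_symm hx'⟩
    rcases hxe with h1 | ⟨c, h1, hc⟩
    · rcases hxe' with h2 | ⟨c', h2, hc'⟩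
      · have : x = x' := by
          have := h1.symm.trans h2
          exact Sum.inr_injective this
        rw [← this]
        exact Finset.mem_insert_self _ _
      · exact absurd (h1.symm.trans h2) (by simp)
    · rcases hxe' with h2 | ⟨c', h2, hc'⟩
      · exact absurd (h1.symm.trans h2) (by simp)
      · have hcc : c = c' := Sum.inl_injective (h1.symm.trans h2)
        rw [← hcc] at hc'
        exact mem_rel hc hc'
  refine (Finset.card_le_card hsub).trans ?_
  have h1 : ∀ x ∈ nbE v, ((rel P x).biUnion fun x' => nbE x').card ≤ (1 + 2 * M * D0) * (d + 1) := by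
    intro x _
    refine (Finset.card_biUnion_le_card_mul _ _ (d + 1) fun x' _ => nbE_card x').trans ?_
    exact Nat.mul_le_mul_right _ (rel_card x)
  refine (Finset.card_biUnion_le_card_mul _ _ _ h1).trans ?_
  have h2 := nbE_card v
  have h3 : (nbE v).card * ((1 + 2 * M * D0) * (d + 1)) ≤ (d + 1) * ((1 + 2 * M * D0) * (d + 1)) :=
    Nat.mul_le_mul_right _ h2
  refine h3.trans ?_
  have h4 : (d + 1) * ((1 + 2 * M * D0) * (d + 1)) = (d + 1) ^ 2 * (1 + 2 * M * D0) := by ring
  omega

end Data

end Pool.Agent.HC
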