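import Pool.Agent.HC.ConfD
import Pool.Agent.HC.ConfE0
import Pool.Agent.HC.ConfE1
import Pool.Agent.HC.ConfE2
import Pool.Agent.HC.PlaceDeg
import Pool.Agent.HC.LLLp

/-!
# HC block E-sum : the local lemma (note 2854, end of section 4)

Events `A v w` for cube vertices `v`, `w`, `S v = Vr v`: `v = w` even: `¬ okx`; `v = w` odd:
`oky ∧ Wy < th #C`; `v ≠ w` both even, same number of elements: `okx z v ∧ phi z v = phi z w`; `v ≠ w`
both odd, same number of elements: both `oky ∧ th #C ≤ Wy` and `psi z v = psi z w`; otherwise `False`.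
`∑ w, Pr (A v w) ≤ q := e1 + th + 2^d / L + 2^d * (2 (K+1) / c0) + D / s`: for odd `v`, `w` with disjoint
`Vr v`, `Vr w`: `Pr ≤ ∑ b, Pr (.. psi z v = b) * Pr (.. psi z w = b) ≤ 2 (K+1) / c0` (`Pr_indep`, `pF2`,
`∑ b, Pr (psi z v = b) ≤ 1`), the others (at most `D` by `degV`) `≤ 1 / s` (`pE3near`).
-/

namespace Pool.Agent.HC

open Finset Classical
open Pool.Agent.H23.RS

private theorem sum_Pr_eq_le {V Ω B : Type} [Fintype V] [Fintype Ω] [Nonempty Ω] [Fintype B]
    (F : (V → Ω) → Prop) (g : (V → Ω) → B) : ∑ b, Pr (fun z => F z ∧ g z = b) ≤ 1 := by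
  have h1 : ∑ b, Pr (fun z => F z ∧ g z = b) = Pr F := by
    simp only [PrAux.Pr_eq]
    rw [← Finset.sum_div, Finset.sum_comm]
    congr 1
    refine Finset.sum_congr rfl fun z _ => ?_
    by_cases hF : F z
    · rw [PrAux.I_pos hF, Finset.sum_eq_single (g z)]
      · exact PrAux.I_pos (A := fun z => F z ∧ g z = g _) ⟨hF, rfl⟩
      · intro b _ hb
        exact PrAux.I_neg (A := fun z => F z ∧ g z = b) (fun h => hb h.2.symm)
      · intro h
        exact absurd (Finset.mem_univ _) h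
    · rw [PrAux.I_neg hF]
      refine Finset.sum_eq_zero fun b _ => ?_
      exact PrAux.I_neg (A := fun z => F z ∧ g z = b) (fun h => hF h.1)
  rw [h1, ← Pr_true (V := V) (Ω := Ω)]
  exact Pr_mono fun _ _ => trivial

/-- collisions of two independent random elements -/
private theorem Pr_coll_le {V Ω B : Type} [Fintype V] [Fintype Ω] [Nonempty Ω] [Fintype B]
    {S T : Finset V} (hST : Disjoint S T) {F G : (V → Ω) → Prop} {f g : (V → Ω) → B}
    (hF : ∀ b, DepOn S (fun z => F z ∧ f z = b)) (hG : ∀ b, DepOn T (fun z => G z ∧ g z = b)) {p : ℝ}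
    (hp : ∀ b, Pr (fun z => F z ∧ f z = b) ≤ p) (hp0 : 0 ≤ p) :
    Pr (fun z => (F z ∧ G z) ∧ f z = g z) ≤ p := by
  have h1 : Pr (fun z => (F z ∧ G z) ∧ f z = g z) ≤
      Pr (fun z => ∃ b ∈ (univ : Finset B), (F z ∧ f z = b) ∧ (G z ∧ g z = b)) := by
    refine Pr_mono fun z hz => ⟨f z, Finset.mem_univ _, ⟨hz.1.1, rfl⟩, hz.1.2, hz.2.symm⟩
  refine le_trans h1 (le_trans (Pr_exists_le _ _) ?_)
  have h2 : ∀ b ∈ (univ : Finset B), Pr (fun z => (F z ∧ f z = b) ∧ (G z ∧ g z = b)) ≤
      p * Pr (fun z => G z ∧ g z = b) := by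
    intro b _
    rw [Pr_indep (hF b) (hG b) hST]
    exact mul_le_mul_of_nonneg_right (hp b) (Pr_nonneg _)
  refine le_trans (Finset.sum_le_sum h2) ?_
  rw [← Finset.mul_sum]
  have h3 := sum_Pr_eq_le G g
  calc p * ∑ b, Pr (fun z => G z ∧ g z = b) ≤ p * 1 := mul_le_mul_of_nonneg_left h3 hp0
    _ = p := mul_one p

private theorem even_flip {d : ℕ} {y : Finset (Fin d)} (hy : ¬ Even y.card) (a : Fin d) :
    Even (flip y a).card := by
  unfold flip
  by_cases ha : a ∈ y
  · have h1 : symmDiff y {a} = y.erase a := by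
      ext i
      simp only [Finset.mem_symmDiff, Finset.mem_singleton, Finset.mem_erase]
      by_cases hi : i = a
      · subst hi; simp [ha]
      · simp [hi]
    have h2 : 0 < y.card := Finset.card_pos.mpr ⟨a, ha⟩
    rw [h1, Finset.card_erase_of_mem ha]
    rcases Nat.even_or_odd y.card with h | h
    · exact absurd h hy
    · obtain ⟨k, hk⟩ := h
      exact ⟨k, by omega⟩
  · have h1 : symmDiff y {a} = insert a y := by
      ext i
      simp only [Finset.mem_symmDiff, Finset.mem_singleton, Finset.mem_insert]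
      by_cases hi : i = a
      · subst hi; simp [ha]
      · simp [hi]
    rw [h1, Finset.card_insert_of_notMem ha]
    rcases Nat.even_or_odd y.card with h | h
    · exact absurd h hy
    · obtain ⟨k, hk⟩ := h
      exact ⟨k + 1, by omega⟩

variable {N d M D0 K : ℕ} [NeZero N] {Om : Type} [Fintype Om]

namespace Data

variable (P : Data N d M D0 K Om)

/-- the bad events -/
private def Ev (v w : Finset (Fin d)) (z : Ix d Om → Sd N) : Prop :=
  if v = w then
    (if Even v.card then ¬ P.okx z v else P.oky z v ∧ P.Wy z v < P.th * (P.C (v.card + 4)).card)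
  else if w.card = v.card then
    (if Even v.card then P.okx z v ∧ P.phi z v = P.phi z w
      else ((P.oky z v ∧ P.th * (P.C (v.card + 4)).card ≤ P.Wy z v) ∧
        (P.oky z w ∧ P.th * (P.C (w.card + 4)).card ≤ P.Wy z w)) ∧ P.psi z v = P.psi z w)
  else False

variable {P} {e1 c0 L : ℝ}

private theorem dep_hi (y : Finset (Fin d)) (hy : ¬ Even y.card) : DepOn (P.Vr y)
    (fun z => P.oky z y ∧ P.th * (P.C (y.card + 4)).card ≤ P.Wy z y) := by
  refine (dep_oky y hy).and ?_
  have h := (dep_Wy (P := P) y hy (P.th * (P.C (y.card + 4)).card)).not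
  intro z z' hz h1
  exact not_lt.mp (h z z' hz (not_lt.mpr h1))

omit [Fintype Om] in
private theorem Vr_even {v : Finset (Fin d)} (hv : Even v.card) : P.Vr v = P.Vx v := if_pos hv

private theorem dep_Ev (v w : Finset (Fin d)) : DepOn (P.Vr v ∪ P.Vr w) (P.Ev v w) := by
  intro z z' hz h
  have hv : ∀ i ∈ P.Vr v, z i = z' i := fun i hi => hz i (Finset.mem_union_left _ hi)
  have hw : ∀ i ∈ P.Vr w, z i = z' i := fun i hi => hz i (Finset.mem_union_right _ hi)
  unfold Ev at h ⊢
  by_cases h1 : v = w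
  · rw [if_pos h1] at h ⊢
    by_cases h2 : Even v.card
    · rw [if_pos h2] at h ⊢
      rw [Vr_even h2] at hv
      exact (dep_okx v).not z z' hv h
    · rw [if_neg h2] at h ⊢
      exact ((dep_oky v h2).and (dep_Wy v h2 _)) z z' hv h
  · rw [if_neg h1] at h ⊢
    by_cases h2 : w.card = v.card
    · rw [if_pos h2] at h ⊢
      by_cases h3 : Even v.card
      · rw [if_pos h3] at h ⊢
        have h4 : Even w.card := by rw [h2]; exact h3
        rw [Vr_even h3] at hv
        rw [Vr_even h4] at hw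
        refine ⟨dep_okx v z z' hv h.1, ?_⟩
        have h5 := dep_phi v (P.phi z v) z z' hv rfl
        have h6 := dep_phi w (P.phi z w) z z' hw rfl
        rw [h5, h6]
        exact h.2
      · rw [if_neg h3] at h ⊢
        have h4 : ¬ Even w.card := by rw [h2]; exact h3
        refine ⟨⟨dep_hi v h3 z z' hv h.1.1, dep_hi w h4 z z' hw h.1.2⟩, ?_⟩
        have h5 := dep_psi v h3 (P.psi z v) z z' hv rfl
        have h6 := dep_psi w h4 (P.psi z w) z z' hw rfl
        rw [h5, h6]
        exact h.2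
    · rw [if_neg h2] at h
      exact absurd h not_false

private theorem e1_nonneg (hP : P.Ok e1 c0 L) : 0 ≤ e1 :=
  le_trans (Pr_nonneg _) (pE0 hP ∅ (by simp))

private theorem Pr_Ev (hP : P.Ok e1 c0 L) {s : ℝ} (hs : 0 < s)
    (hs2 : s * (2 * (K + 1)) ≤ P.th * c0 * P.al ^ d) (v w : Finset (Fin d)) :
    Pr (P.Ev v w) ≤ (if v = w then e1 + P.th else 0) + (1 / L + 2 * (K + 1) / c0) +
      (if ¬ Disjoint (P.Vr v) (P.Vr w) then 1 / s else 0) := by
  have he := e1_nonneg hP
  have ht := hP.th0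
  have hL : 0 ≤ 1 / L := by have := hP.Lpos; positivity
  have hc : 0 ≤ 2 * ((K : ℝ) + 1) / c0 := by have := hP.c0pos; positivity
  have hs' : 0 ≤ 1 / s := by positivity
  have hlast : (0 : ℝ) ≤ (if ¬ Disjoint (P.Vr v) (P.Vr w) then 1 / s else 0) := by
    split_ifs
    · exact le_rfl
    · exact hs'
  by_cases h1 : v = w
  · rw [if_pos h1]
    have h2 : Pr (P.Ev v w) ≤ e1 + P.th := by
      by_cases h3 : Even v.card
      · have h4 : Pr (P.Ev v w) ≤ Pr (fun z => ¬ P.okx z v) := by
          refine Pr_mono fun z hz => ?_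
          unfold Ev at hz
          rw [if_pos h1, if_pos h3] at hz
          exact hz
        have h5 := pE0 hP v h3
        linarith
      · have h4 : Pr (P.Ev v w) ≤ Pr (fun z => P.oky z v ∧ P.Wy z v < P.th * (P.C (v.card + 4)).card) := by
          refine Pr_mono fun z hz => ?_
          unfold Ev at hz
          rw [if_pos h1, if_neg h3] at hz
          exact hz
        have h5 := pE1 hP v h3
        linarith
    linarith
  · rw [if_neg h1, zero_add]
    by_cases h2 : w.card = v.card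
    · by_cases h3 : Even v.card
      · have h4 : Even w.card := by rw [h2]; exact h3
        have h5 : Pr (P.Ev v w) ≤ Pr (fun z => P.okx z v ∧ P.phi z v = P.phi z w) := by
          refine Pr_mono fun z hz => ?_
          unfold Ev at hz
          rw [if_neg h1, if_pos h2, if_pos h3] at hz
          exact hz
        have h6 := pE2 hP v w h3 h4 h1
        linarith
      · have h4 : ¬ Even w.card := by rw [h2]; exact h3
        have h5 : Pr (P.Ev v w) ≤ Pr (fun z => ((P.oky z v ∧ P.th * (P.C (v.card + 4)).card ≤ P.Wy z v) ∧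
            (P.oky z w ∧ P.th * (P.C (w.card + 4)).card ≤ P.Wy z w)) ∧ P.psi z v = P.psi z w) := by
          refine Pr_mono fun z hz => ?_
          unfold Ev at hz
          rw [if_neg h1, if_pos h2, if_neg h3] at hz
          exact hz
        by_cases h6 : Disjoint (P.Vr v) (P.Vr w)
        · have h7 := Pr_coll_le h6 (F := fun z => P.oky z v ∧ P.th * (P.C (v.card + 4)).card ≤ P.Wy z v)
            (G := fun z => P.oky z w ∧ P.th * (P.C (w.card + 4)).card ≤ P.Wy z w)
            (f := fun z => P.psi z v) (g := fun z => P.psi z w)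
            (fun b => (dep_hi v h3).and (dep_psi v h3 b)) (fun b => (dep_hi w h4).and (dep_psi w h4 b))
            (pF2 hP v h3) hc
          linarith
        · have h7 := pE3near hP hs hs2 v w h3 h4 h1
          have h8 : Pr (P.Ev v w) ≤
              Pr (fun z => P.th * (P.C (v.card + 4)).card ≤ P.Wy z v ∧ P.psi z v = P.psi z w) :=
            le_trans h5 (Pr_mono fun z hz => ⟨hz.1.1.2, hz.2⟩)
          rw [if_pos h6]
          linarith
    · have h5 : Pr (P.Ev v w) ≤ Pr (fun _ : Ix d Om → Sd N => False) := by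
        refine Pr_mono fun z hz => ?_
        unfold Ev at hz
        rw [if_neg h1, if_neg h2] at hz
        exact hz
      rw [Pr_false] at h5
      linarith

omit [Fintype Om] in
private theorem Ev_sum {s : ℝ} (hs : 0 < s) {D : ℕ}
    (hdeg : ∀ v : Finset (Fin d), (univ.filter fun w => ¬ Disjoint (P.Vr v) (P.Vr w)).card ≤ D)
    (v : Finset (Fin d)) : ∑ w, ((if v = w then e1 + P.th else 0) +
      (1 / L + 2 * (K + 1) / c0) + (if ¬ Disjoint (P.Vr v) (P.Vr w) then 1 / s else 0)) ≤
      e1 + P.th + 2 ^ d / L + 2 ^ d * (2 * (K + 1) / c0) + D / s := by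
  have hcard : ((univ : Finset (Finset (Fin d))).card : ℝ) = 2 ^ d := by
    rw [Finset.card_univ, Fintype.card_finset, Fintype.card_fin]
    norm_num
  have hs' : 0 ≤ 1 / s := by positivity
  rw [Finset.sum_add_distrib, Finset.sum_add_distrib, Finset.sum_ite_eq, if_pos (Finset.mem_univ _),
    Finset.sum_const, nsmul_eq_mul, hcard, ← Finset.sum_filter, Finset.sum_const, nsmul_eq_mul]
  have h1 : ((univ.filter fun w => ¬ Disjoint (P.Vr v) (P.Vr w)).card : ℝ) * (1 / s) ≤
      D * (1 / s) := mul_le_mul_of_nonneg_right (by exact_mod_cast hdeg v) hs'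
  have h2 : (D : ℝ) * (1 / s) = D / s := by ring
  have h3 : (2 : ℝ) ^ d * (1 / L + 2 * (K + 1) / c0) = 2 ^ d / L + 2 ^ d * (2 * (K + 1) / c0) := by
    ring
  rw [h3]
  linarith

private theorem Ev_sum' (hP : P.Ok e1 c0 L) {s : ℝ} (hs : 0 < s)
    (hs2 : s * (2 * (K + 1)) ≤ P.th * c0 * P.al ^ d) {D : ℕ}
    (hdeg : ∀ v : Finset (Fin d), (univ.filter fun w => ¬ Disjoint (P.Vr v) (P.Vr w)).card ≤ D)
    (v : Finset (Fin d)) : ∑ w, Pr (P.Ev v w) ≤
      e1 + P.th + 2 ^ d / L + 2 ^ d * (2 * (K + 1) / c0) + D / s :=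
  le_trans (Finset.sum_le_sum fun w _ => Pr_Ev hP hs hs2 v w) (Ev_sum hs hdeg v)

private theorem Ev_sum'' (hP : P.Ok e1 c0 L) {s : ℝ} (hs : 0 < s)
    (hs2 : s * (2 * (K + 1)) ≤ P.th * c0 * P.al ^ d) {D : ℕ}
    (hdeg : ∀ v : Finset (Fin d), (univ.filter fun w => ¬ Disjoint (P.Vr v) (P.Vr w)).card ≤ D)
    (v : Finset (Fin d)) : ∑ w, Pr (P.Ev w v) ≤
      e1 + P.th + 2 ^ d / L + 2 ^ d * (2 * (K + 1) / c0) + D / s := by
  refine le_trans (Finset.sum_le_sum fun w _ => Pr_Ev hP hs hs2 w v) ?_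
  refine le_trans (le_of_eq (Finset.sum_congr rfl fun w _ => ?_)) (Ev_sum (e1 := e1) (L := L) hs hdeg v)
  have h1 : (w = v) = (v = w) := propext eq_comm
  have h2 : Disjoint (P.Vr w) (P.Vr v) = Disjoint (P.Vr v) (P.Vr w) := propext disjoint_comm
  simp only [h1, h2]

private theorem un_inst {I : Type} (d1 d2 : DecidableEq I) (A B : Finset I) :
    @Union.union (Finset I) (@Finset.instUnion I d1) A B =
      @Union.union (Finset I) (@Finset.instUnion I d2) A B := by
  have h : d1 = d2 := Subsingleton.elim _ _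
  rw [h]

private theorem filt_inst {I : Type} (A : Finset I) (p : I → Prop) (d1 d2 : DecidablePred p) :
    @Finset.filter I p d1 A = @Finset.filter I p d2 A := by
  have h : d1 = d2 := Subsingleton.elim _ _
  rw [h]

private theorem exists_z (hP : P.Ok e1 c0 L) {s : ℝ} (hs : 0 < s)
    (hs2 : s * (2 * (K + 1)) ≤ P.th * c0 * P.al ^ d)
    {D : ℕ} (hD1 : 1 ≤ D)
    (hdeg : ∀ v : Finset (Fin d), (univ.filter fun w => ¬ Disjoint (P.Vr v) (P.Vr w)).card ≤ D)
    (hq : 16 * (D : ℝ) * (e1 + P.th + 2 ^ d / L + 2 ^ d * (2 * (K + 1) / c0) + D / s) ≤ 1) :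
    ∃ z : Ix d Om → Sd N, ∀ v w, ¬ P.Ev v w z := by
  refine lll_pair (Ω := Sd N) (Q := Finset (Fin d)) (V := Ix d Om) (fun v => P.Vr v) (fun v w => P.Ev v w) ?_ (D := D) hD1 ?_
    (q := e1 + P.th + 2 ^ d / L + 2 ^ d * (2 * (K + 1) / c0) + D / s) ?_ ?_ hq
  · intro v w
    exact (dep_Ev (P := P) v w).mono (le_of_eq (un_inst _ _ _ _))
  · intro v
    exact le_trans (le_of_eq (congrArg Finset.card (filt_inst _ _ _ _))) (hdeg v)
  · intro v
    exact Ev_sum' hP hs hs2 hdeg v
  · intro v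
    exact Ev_sum'' hP hs hs2 hdeg v

theorem sum_le (hP : P.Ok e1 c0 L) {s : ℝ} (hs : 0 < s)
    (hs2 : s * (2 * (K + 1)) ≤ P.th * c0 * P.al ^ d)
    {D : ℕ} (hD : (d + 1) ^ 2 * (1 + 2 * M * D0) + 1 ≤ D)
    (hq : 16 * (D : ℝ) * (e1 + P.th + 2 ^ d / L + 2 ^ d * (2 * (K + 1) / c0) + D / s) ≤ 1) :
    ∃ z : Ix d Om → Sd N,
      (∀ x : Finset (Fin d), Even x.card → P.okx z x) ∧
      (∀ y : Finset (Fin d), ¬ Even y.card → P.th * (P.C (y.card + 4)).card ≤ P.Wy z y) ∧
      (∀ x x' : Finset (Fin d), Even x.card → x'.card = x.card → x ≠ x' → P.phi z x ≠ P.phi z x') ∧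
      (∀ y y' : Finset (Fin d), ¬ Even y.card → y'.card = y.card → y ≠ y' →
        P.psi z y ≠ P.psi z y') := by
  have hD1 : 1 ≤ D := le_trans (Nat.le_add_left 1 _) hD
  obtain ⟨z, hz⟩ := exists_z hP hs hs2 hD1 (fun v => le_trans (degV v) hD) hq
  have hok : ∀ x : Finset (Fin d), Even x.card → P.okx z x := by
    intro x hx
    have h := hz x x
    unfold Ev at h
    rw [if_pos rfl, if_pos hx] at h
    exact not_not.mp h
  have hoky : ∀ y : Finset (Fin d), ¬ Even y.card → P.oky z y := by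
    intro y hy a
    exact hok _ (even_flip hy a)
  have hW : ∀ y : Finset (Fin d), ¬ Even y.card → P.th * (P.C (y.card + 4)).card ≤ P.Wy z y := by
    intro y hy
    have h := hz y y
    unfold Ev at h
    rw [if_pos rfl, if_neg hy] at h
    by_contra hc
    exact h ⟨hoky y hy, not_le.mp hc⟩
  refine ⟨z, hok, hW, ?_, ?_⟩
  · intro x x' hx hc hne heq
    have h := hz x x'
    unfold Ev at h
    rw [if_neg hne, if_pos hc, if_pos hx] at h
    exact h ⟨hok x hx, heq⟩
  · intro y y' hy hc hne heq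
    have h := hz y y'
    unfold Ev at h
    rw [if_neg hne, if_pos hc, if_neg hy] at h
    have hy' : ¬ Even y'.card := by rw [hc]; exact hy
    exact h ⟨⟨⟨hoky y hy, hW y hy⟩, hoky y' hy', hW y' hy'⟩, heq⟩

end Data

end Pool.Agent.HC
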