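import Pool.Agent.HC.Defs

/-!
# HC block G3 : `TT` is dense in `A^t` for every large `A ⊆ W` (note 2854, 3 (7))

`H1 x = #(innT T U1 x) / #U1`, `H2 x = #(outT T U2 x) / #U2` for `x ∈ A^t`.
(a) `∑ x, H1 x * H2 x ≥ (((p1 - τ) * (p2 - τ))^t) * #A^t` (`dbl`): double counting and power mean.
(b) exceptional `x`: `H1 x > (p1+τ)^t` or `H2 x > (p2+τ)^t` (`few_exc`): at most
`2 * t * (lam/nu) * #A^t` of them.
(c) the others outside `TT` have `H1 x * H2 x ≤ (1/4)^t * (p1+τ)^t` or `≤ (1/4)^t * (p2+τ)^t`,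
those in `TT` have `H1 x * H2 x ≤ ((p1+τ)*(p2+τ))^t`.
-/

namespace Pool.Agent.HC

open Finset Classical
open Pool.Agent.H97.QD

variable {V : Type}

/-- There are few exceptional tuples, abstract form. -/
lemma few_exc {A : Finset V} {t : ℕ} {F : ∀ k : ℕ, (Fin k → V) → ℝ} {q ε u : ℝ}
    (h0 : ∀ x : Fin 0 → V, F 0 x ≤ u) (hε : 0 ≤ ε) (hq : 0 ≤ q)
    (hstep : ∀ k < t, ∀ x : Fin k → V, (∀ i, x i ∈ A) → q ^ (k + 1) * u < F k x →
      ((A.filter fun v => q * F k x < F (k + 1) (Fin.cons v x : Fin (k + 1) → V)).card : ℝ)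
        ≤ ε * A.card)
    (hmono : ∀ (k : ℕ) (x : Fin k → V) (v : V), F (k + 1) (Fin.cons v x : Fin (k + 1) → V) ≤ F k x) :
    ∀ k ≤ t, ((((Fintype.piFinset fun _ : Fin k => A).filter fun x => q ^ k * u < F k x).card : ℝ))
      ≤ k * ε * (A.card : ℝ) ^ k := by
  intro k
  induction k with
  | zero =>
    intro _
    have : ((Fintype.piFinset fun _ : Fin 0 => A).filter fun x => q ^ 0 * u < F 0 x) = ∅ := by
      apply Finset.filter_eq_empty_iff.2
      intro x _
      have := h0 x
      rw [pow_zero, one_mul, not_lt]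
      exact this
    rw [this]
    simp
  | succ k ih =>
    intro hk
    have ih' := ih (by omega)
    set B := (Fintype.piFinset fun _ : Fin k => A).filter fun x => q ^ k * u < F k x with hB
    set G : (Fin k → V) → Finset V := fun x =>
      A.filter fun v => q ^ (k + 1) * u < F (k + 1) (Fin.cons v x : Fin (k + 1) → V) with hG
    have hcard : (((Fintype.piFinset fun _ : Fin (k + 1) => A).filter
        fun x => q ^ (k + 1) * u < F (k + 1) x).card) ≤
        ((Fintype.piFinset fun _ : Fin k => A).sigma G).card := by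
      apply Finset.card_le_card_of_injOn
        (fun x : Fin (k + 1) → V => (⟨Fin.tail x, x 0⟩ : Σ _ : Fin k → V, V))
      · intro x hx
        rw [Finset.mem_coe, Finset.mem_filter, Fintype.mem_piFinset] at hx
        rw [Finset.mem_coe, Finset.mem_sigma]
        refine ⟨?_, ?_⟩
        · rw [Fintype.mem_piFinset]
          intro i
          exact hx.1 i.succ
        · rw [hG, Finset.mem_filter]
          refine ⟨hx.1 0, ?_⟩
          simp only [Fin.cons_self_tail]
          exact hx.2
      · intro x _ y _ hxy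
        simp only [Sigma.mk.injEq, heq_eq_eq] at hxy
        rw [← Fin.cons_self_tail x, ← Fin.cons_self_tail y, hxy.1, hxy.2]
    have hGx : ∀ x ∈ Fintype.piFinset (fun _ : Fin k => A),
        ((G x).card : ℝ) ≤ (if q ^ k * u < F k x then (A.card : ℝ) else 0) + ε * A.card := by
      intro x hx
      have hA0 : (0 : ℝ) ≤ ε * A.card := by positivity
      split_ifs with hB'
      · have : ((G x).card : ℝ) ≤ A.card := by
          exact_mod_cast Finset.card_le_card (Finset.filter_subset _ _)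
        linarith
      · rw [not_lt] at hB'
        rw [zero_add]
        rcases (G x).eq_empty_or_nonempty with he | ⟨v, hv⟩
        · rw [he, Finset.card_empty, Nat.cast_zero]; exact hA0
        · rw [hG, Finset.mem_filter] at hv
          have hlt : q ^ (k + 1) * u < F k x := lt_of_lt_of_le hv.2 (hmono k x v)
          refine le_trans ?_ (hstep k (by omega) x (fun i => (Fintype.mem_piFinset.1 hx) i) hlt)
          have : (G x) ⊆ (A.filter fun v => q * F k x < F (k + 1) (Fin.cons v x : Fin (k + 1) → V)) := by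
            intro w hw
            rw [hG, Finset.mem_filter] at hw
            rw [Finset.mem_filter]
            refine ⟨hw.1, lt_of_le_of_lt ?_ hw.2⟩
            calc q * F k x ≤ q * (q ^ k * u) := mul_le_mul_of_nonneg_left hB' hq
              _ = q ^ (k + 1) * u := by ring
          exact_mod_cast Finset.card_le_card this
    have h1 : ((((Fintype.piFinset fun _ : Fin (k + 1) => A).filter
        fun x => q ^ (k + 1) * u < F (k + 1) x).card : ℝ)) ≤
        ∑ x ∈ Fintype.piFinset (fun _ : Fin k => A), ((G x).card : ℝ) := by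
      rw [Finset.card_sigma] at hcard
      exact_mod_cast hcard
    refine h1.trans ((Finset.sum_le_sum hGx).trans ?_)
    rw [Finset.sum_add_distrib, ← Finset.sum_filter, Finset.sum_const, Finset.sum_const,
      nsmul_eq_mul, nsmul_eq_mul, Fintype.card_piFinset_const]
    push_cast
    have hAc : (0 : ℝ) ≤ A.card := Nat.cast_nonneg _
    calc (B.card : ℝ) * A.card + (A.card : ℝ) ^ k * (ε * A.card)
        ≤ (k * ε * (A.card : ℝ) ^ k) * A.card + (A.card : ℝ) ^ k * (ε * A.card) := by
          gcongr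
      _ = (k + 1) * ε * (A.card : ℝ) ^ (k + 1) := by ring

/-- Double counting and the power mean inequality. -/
lemma dbl {T : V → V → Prop} {U1 U2 A : Finset V} {t : ℕ} (ht : 0 < t) {a b : ℝ}
    (ha : 0 ≤ a) (hb : 0 ≤ b) (h1 : ∀ x ∈ A, a * U1.card ≤ (inn T U1 x).card)
    (h2 : ∀ x ∈ A, b * U2.card ≤ (out T U2 x).card) (hU1 : U1.Nonempty) (hU2 : U2.Nonempty) :
    (a * b) ^ t * (A.card : ℝ) ^ t * ((U1.card : ℝ) * U2.card) ≤
      ∑ x ∈ Fintype.piFinset (fun _ : Fin t => A),
        ((innT T U1 x).card : ℝ) * (outT T U2 x).card := by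
  set c : V × V → Finset V := fun z => A.filter fun v => T z.1 v ∧ T v z.2 with hc
  have e1 : ∑ x ∈ Fintype.piFinset (fun _ : Fin t => A),
        ((innT T U1 x).card : ℝ) * (outT T U2 x).card =
      ∑ z ∈ U1 ×ˢ U2, ((c z).card : ℝ) ^ t := by
    have e2 : ∀ x : Fin t → V, ((innT T U1 x).card : ℝ) * (outT T U2 x).card =
        ∑ z ∈ U1 ×ˢ U2, if (∀ s, T z.1 (x s) ∧ T (x s) z.2) then (1 : ℝ) else 0 := by
      intro x
      have : ((innT T U1 x) ×ˢ (outT T U2 x)) =
          (U1 ×ˢ U2).filter fun z => ∀ s, T z.1 (x s) ∧ T (x s) z.2 := by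
        ext z
        rw [Finset.mem_product, Finset.mem_filter, Finset.mem_product, mem_innT, mem_outT]
        constructor
        · rintro ⟨⟨h1, h2⟩, h3, h4⟩
          exact ⟨⟨h1, h3⟩, fun s => ⟨h2 s, h4 s⟩⟩
        · rintro ⟨⟨h1, h3⟩, h4⟩
          exact ⟨⟨h1, fun s => (h4 s).1⟩, h3, fun s => (h4 s).2⟩
      rw [← Finset.sum_filter, Finset.sum_const, nsmul_eq_mul, mul_one, ← this,
        Finset.card_product]
      push_cast
      rfl
    rw [Finset.sum_congr rfl fun x _ => e2 x, Finset.sum_comm]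
    apply Finset.sum_congr rfl
    intro z _
    have : (Fintype.piFinset fun _ : Fin t => c z) =
        (Fintype.piFinset fun _ : Fin t => A).filter fun x => ∀ s, T z.1 (x s) ∧ T (x s) z.2 := by
      ext x
      simp only [hc, Fintype.mem_piFinset, Finset.mem_filter]
      constructor
      · intro h; exact ⟨fun i => (h i).1, fun i => (h i).2⟩
      · rintro ⟨h, h'⟩ i; exact ⟨h i, h' i⟩
    rw [← Finset.sum_filter, Finset.sum_const, nsmul_eq_mul, mul_one, ← this,
      Fintype.card_piFinset_const]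
    push_cast
    rfl
  rw [e1]
  -- the sum of the sizes
  have e3 : ∑ z ∈ U1 ×ˢ U2, ((c z).card : ℝ) =
      ∑ v ∈ A, ((inn T U1 v).card : ℝ) * (out T U2 v).card := by
    have e4 : ∀ z : V × V, ((c z).card : ℝ) = ∑ v ∈ A, if (T z.1 v ∧ T v z.2) then (1 : ℝ) else 0 := by
      intro z
      rw [← Finset.sum_filter, Finset.sum_const, nsmul_eq_mul, mul_one]
    rw [Finset.sum_congr rfl fun z _ => e4 z, Finset.sum_comm]
    apply Finset.sum_congr rfl
    intro v _
    have : ((inn T U1 v) ×ˢ (out T U2 v)) = (U1 ×ˢ U2).filter fun z => T z.1 v ∧ T v z.2 := by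
      ext z
      rw [Finset.mem_product, Finset.mem_filter, Finset.mem_product, mem_inn, mem_out]
      tauto
    rw [← Finset.sum_filter, Finset.sum_const, nsmul_eq_mul, mul_one, ← this, Finset.card_product]
    push_cast
    rfl
  have hu1 : (0 : ℝ) < U1.card := by exact_mod_cast hU1.card_pos
  have hu2 : (0 : ℝ) < U2.card := by exact_mod_cast hU2.card_pos
  have e5 : (A.card : ℝ) * ((a * U1.card) * (b * U2.card)) ≤ ∑ z ∈ U1 ×ˢ U2, ((c z).card : ℝ) := by
    rw [e3, ← nsmul_eq_mul, ← Finset.sum_const]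
    apply Finset.sum_le_sum
    intro v hv
    exact mul_le_mul (h1 v hv) (h2 v hv) (by positivity) (Nat.cast_nonneg _)
  obtain ⟨n, rfl⟩ : ∃ n, t = n + 1 := ⟨t - 1, by omega⟩
  have e6 := pow_sum_div_card_le_sum_pow (s := U1 ×ˢ U2) (f := fun z => ((c z).card : ℝ))
    (fun z _ => Nat.cast_nonneg _) n
  refine le_trans ?_ e6
  have hprod : (((U1 ×ˢ U2).card : ℕ) : ℝ) = (U1.card : ℝ) * U2.card := by
    rw [Finset.card_product]; push_cast; rfl
  rw [hprod, le_div_iff₀ (by positivity)]
  calc (a * b) ^ (n + 1) * (A.card : ℝ) ^ (n + 1) * ((U1.card : ℝ) * U2.card) *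
        ((U1.card : ℝ) * U2.card) ^ n
      = ((A.card : ℝ) * ((a * U1.card) * (b * U2.card))) ^ (n + 1) := by ring
    _ ≤ _ := pow_le_pow_left₀ (by positivity) e5 _

theorem site_dense {T : V → V → Prop} {U1 W U2 A : Finset V} {p1 p2 τ lam nu κ : ℝ} {t : ℕ}
    (h1 : Link T U1 W p1 τ lam) (h2 : Link T W U2 p2 τ lam) (ht : 0 < t)
    (hτ : 0 ≤ τ) (hlam : 0 < lam) (hp1 : 1 / 4 ≤ p1 - τ) (hp2 : 1 / 4 ≤ p2 - τ)
    (hU1 : U1.Nonempty) (hU2 : U2.Nonempty) (hA : A ⊆ W) (hAne : A.Nonempty)
    (hnu : lam ≤ nu) (hAc : nu * W.card ≤ A.card) (hlt : lam ≤ (1 / 4) ^ t)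
    (hκ : κ ^ t * ((p1 + τ) * (p2 + τ)) ^ t + (1 / 4) ^ t * (p1 + τ) ^ t +
      (1 / 4) ^ t * (p2 + τ) ^ t + 2 * t * (lam / nu) ≤ ((p1 - τ) * (p2 - τ)) ^ t) :
    κ ^ t * (A.card : ℝ) ^ t ≤ (((TT T U1 W U2 t).filter fun x => ∀ i, x i ∈ A).card : ℝ) := by
  have hu1 : (0 : ℝ) < U1.card := by exact_mod_cast hU1.card_pos
  have hu2 : (0 : ℝ) < U2.card := by exact_mod_cast hU2.card_pos
  have hAp : (0 : ℝ) < A.card := by exact_mod_cast hAne.card_pos
  have hnup : 0 < nu := lt_of_lt_of_le hlam hnu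
  have hq1 : (1 : ℝ) / 4 ≤ p1 + τ := by linarith
  have hq2 : (1 : ℝ) / 4 ≤ p2 + τ := by linarith
  have hε : 0 ≤ lam / nu := by positivity
  have hWA : lam * (W.card : ℝ) ≤ lam / nu * A.card := by
    calc lam * (W.card : ℝ) = lam / nu * (nu * W.card) := by field_simp
      _ ≤ lam / nu * A.card := mul_le_mul_of_nonneg_left hAc hε
  have hpow : ∀ q : ℝ, 1 / 4 ≤ q → ∀ k < t, lam ≤ q ^ (k + 1) := by
    intro q hq k hk
    calc lam ≤ (1 / 4) ^ t := hlt
      _ ≤ (1 / 4) ^ (k + 1) := pow_le_pow_of_le_one (by norm_num) (by norm_num) (by omega)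
      _ ≤ q ^ (k + 1) := pow_le_pow_left₀ (by norm_num) hq _
  -- the exceptional tuples
  have b1 := few_exc (A := A) (t := t) (F := fun k x => ((innT T U1 x).card : ℝ)) (q := p1 + τ)
    (ε := lam / nu) (u := U1.card)
    (fun x => by exact_mod_cast Finset.card_le_card (innT_subset T U1 x)) hε (by linarith)
    (by
      intro k hk x hx hlt'
      have hS : lam * (U1.card : ℝ) ≤ (innT T U1 x).card :=
        le_trans (mul_le_mul_of_nonneg_right (hpow _ hq1 k hk) hu1.le) hlt'.le
      have hSne : (innT T U1 x).Nonempty := by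
        rw [← Finset.card_pos]
        have : (0 : ℝ) < (innT T U1 x).card := lt_of_lt_of_le (by positivity) hS
        exact_mod_cast this
      have h3 := h1.high_in hlam.le (innT_subset T U1 x) hSne hS
      refine le_trans ?_ (h3.trans hWA)
      have : (A.filter fun v => (p1 + τ) * ((innT T U1 x).card : ℝ) <
          ((innT T U1 (Fin.cons v x : Fin (k + 1) → V)).card : ℝ)) ⊆
          W.filter (fun v => (p1 + τ) * ((innT T U1 x).card : ℝ) <
            ((inn T (innT T U1 x) v).card : ℝ)) := by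
        intro v hv
        rw [Finset.mem_filter, innT_cons] at hv
        rw [Finset.mem_filter]
        exact ⟨hA hv.1, hv.2⟩
      exact_mod_cast Finset.card_le_card this)
    (by
      intro k x v
      rw [innT_cons]
      exact card_inn_le T _ v)
    t le_rfl
  have b2 := few_exc (A := A) (t := t) (F := fun k x => ((outT T U2 x).card : ℝ)) (q := p2 + τ)
    (ε := lam / nu) (u := U2.card)
    (fun x => by exact_mod_cast Finset.card_le_card (outT_subset T U2 x)) hε (by linarith)
    (by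
      intro k hk x hx hlt'
      have hS : lam * (U2.card : ℝ) ≤ (outT T U2 x).card :=
        le_trans (mul_le_mul_of_nonneg_right (hpow _ hq2 k hk) hu2.le) hlt'.le
      have hSne : (outT T U2 x).Nonempty := by
        rw [← Finset.card_pos]
        have : (0 : ℝ) < (outT T U2 x).card := lt_of_lt_of_le (by positivity) hS
        exact_mod_cast this
      have h3 := h2.high_out hlam.le (outT_subset T U2 x) hSne hS
      refine le_trans ?_ (h3.trans hWA)
      have : (A.filter fun v => (p2 + τ) * ((outT T U2 x).card : ℝ) <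
          ((outT T U2 (Fin.cons v x : Fin (k + 1) → V)).card : ℝ)) ⊆
          W.filter (fun v => (p2 + τ) * ((outT T U2 x).card : ℝ) <
            ((out T (outT T U2 x) v).card : ℝ)) := by
        intro v hv
        rw [Finset.mem_filter, outT_cons] at hv
        rw [Finset.mem_filter]
        exact ⟨hA hv.1, hv.2⟩
      exact_mod_cast Finset.card_le_card this)
    (by
      intro k x v
      rw [outT_cons]
      exact card_out_le T _ v)
    t le_rfl
  have a1 := dbl (T := T) (U1 := U1) (U2 := U2) (A := A) ht (a := p1 - τ) (b := p2 - τ)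
    (by linarith) (by linarith) (fun x hx => h1.hin x (hA hx)) (fun x hx => h2.hout x (hA hx))
    hU1 hU2
  set X := Fintype.piFinset (fun _ : Fin t => A) with hX
  set E1 := X.filter fun x => (p1 + τ) ^ t * (U1.card : ℝ) < (innT T U1 x).card with hE1
  set E2 := X.filter fun x => (p2 + τ) ^ t * (U2.card : ℝ) < (outT T U2 x).card with hE2
  set TA := (TT T U1 W U2 t).filter fun x => ∀ i, x i ∈ A with hTA
  have hTAX : TA = X.filter fun x => (1 / 4 : ℝ) ^ t * U1.card ≤ (innT T U1 x).card ∧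
      (1 / 4 : ℝ) ^ t * U2.card ≤ (outT T U2 x).card := by
    ext x
    rw [hTA, TT, Finset.mem_filter, Finset.mem_filter, Finset.mem_filter, Fintype.mem_piFinset,
      hX, Fintype.mem_piFinset]
    constructor
    · rintro ⟨⟨h3, h4⟩, h5⟩
      exact ⟨h5, h4⟩
    · rintro ⟨h3, h4⟩
      exact ⟨⟨fun i => hA (h3 i), h4⟩, h3⟩
  have hq1t : (0 : ℝ) ≤ (p1 + τ) ^ t := by positivity
  have hq2t : (0 : ℝ) ≤ (p2 + τ) ^ t := by positivity
  have h4t : (0 : ℝ) ≤ (1 / 4 : ℝ) ^ t := by positivity
  have huu : (0 : ℝ) < (U1.card : ℝ) * U2.card := by positivity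
  -- pointwise bound
  have pt : ∀ x ∈ X, ((innT T U1 x).card : ℝ) * (outT T U2 x).card ≤
      ((if (p1 + τ) ^ t * (U1.card : ℝ) < (innT T U1 x).card then (1 : ℝ) else 0) +
        (if (p2 + τ) ^ t * (U2.card : ℝ) < (outT T U2 x).card then (1 : ℝ) else 0) +
        ((p1 + τ) * (p2 + τ)) ^ t * (if ((1 / 4 : ℝ) ^ t * U1.card ≤ (innT T U1 x).card ∧
          (1 / 4 : ℝ) ^ t * U2.card ≤ (outT T U2 x).card) then (1 : ℝ) else 0) +
        ((1 / 4) ^ t * (p1 + τ) ^ t + (1 / 4) ^ t * (p2 + τ) ^ t)) *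
        ((U1.card : ℝ) * U2.card) := by
    intro x _
    have c1 : ((innT T U1 x).card : ℝ) ≤ U1.card := by
      exact_mod_cast Finset.card_le_card (innT_subset T U1 x)
    have c2 : ((outT T U2 x).card : ℝ) ≤ U2.card := by
      exact_mod_cast Finset.card_le_card (outT_subset T U2 x)
    have c1' : (0 : ℝ) ≤ (innT T U1 x).card := Nat.cast_nonneg _
    have c2' : (0 : ℝ) ≤ (outT T U2 x).card := Nat.cast_nonneg _
    have c3 : ((innT T U1 x).card : ℝ) * (outT T U2 x).card ≤ (U1.card : ℝ) * U2.card :=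
      mul_le_mul c1 c2 c2' hu1.le
    have d1 : (0 : ℝ) ≤ ((p1 + τ) * (p2 + τ)) ^ t := by positivity
    have d2 : (0 : ℝ) ≤ (1 / 4) ^ t * (p1 + τ) ^ t + (1 / 4) ^ t * (p2 + τ) ^ t := by positivity
    by_cases hx1 : (p1 + τ) ^ t * (U1.card : ℝ) < (innT T U1 x).card
    · rw [if_pos hx1]
      refine c3.trans ?_
      have i1 : (0 : ℝ) ≤ (if (p2 + τ) ^ t * (U2.card : ℝ) < (outT T U2 x).card then (1 : ℝ) else 0) := by
        split_ifs <;> norm_num
      have i2 : (0 : ℝ) ≤ (if ((1 / 4 : ℝ) ^ t * U1.card ≤ (innT T U1 x).card ∧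
          (1 / 4 : ℝ) ^ t * U2.card ≤ (outT T U2 x).card) then (1 : ℝ) else 0) := by
        split_ifs <;> norm_num
      have i3 := mul_nonneg d1 i2
      calc (U1.card : ℝ) * U2.card = 1 * ((U1.card : ℝ) * U2.card) := by ring
        _ ≤ _ := mul_le_mul_of_nonneg_right (by linarith) huu.le
    · by_cases hx2 : (p2 + τ) ^ t * (U2.card : ℝ) < (outT T U2 x).card
      · rw [if_neg hx1, if_pos hx2]
        refine c3.trans ?_
        have i2 : (0 : ℝ) ≤ (if ((1 / 4 : ℝ) ^ t * U1.card ≤ (innT T U1 x).card ∧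
            (1 / 4 : ℝ) ^ t * U2.card ≤ (outT T U2 x).card) then (1 : ℝ) else 0) := by
          split_ifs <;> norm_num
        have i3 := mul_nonneg d1 i2
        calc (U1.card : ℝ) * U2.card = 1 * ((U1.card : ℝ) * U2.card) := by ring
          _ ≤ _ := mul_le_mul_of_nonneg_right (by linarith) huu.le
      · rw [if_neg hx1, if_neg hx2]
        rw [not_lt] at hx1 hx2
        by_cases hx3 : ((1 / 4 : ℝ) ^ t * U1.card ≤ (innT T U1 x).card ∧
            (1 / 4 : ℝ) ^ t * U2.card ≤ (outT T U2 x).card)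
        · rw [if_pos hx3]
          calc ((innT T U1 x).card : ℝ) * (outT T U2 x).card
              ≤ ((p1 + τ) ^ t * U1.card) * ((p2 + τ) ^ t * U2.card) :=
                mul_le_mul hx1 hx2 c2' (by positivity)
            _ = ((p1 + τ) * (p2 + τ)) ^ t * ((U1.card : ℝ) * U2.card) := by rw [mul_pow]; ring
            _ ≤ _ := mul_le_mul_of_nonneg_right (by linarith) huu.le
        · rw [if_neg hx3]
          rw [not_and_or, not_le, not_le] at hx3
          rcases hx3 with hx3 | hx3
          · calc ((innT T U1 x).card : ℝ) * (outT T U2 x).card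
                ≤ ((1 / 4) ^ t * U1.card) * ((p2 + τ) ^ t * U2.card) :=
                  mul_le_mul hx3.le hx2 c2' (by positivity)
              _ = ((1 / 4) ^ t * (p2 + τ) ^ t) * ((U1.card : ℝ) * U2.card) := by ring
              _ ≤ _ := by
                apply mul_le_mul_of_nonneg_right _ huu.le
                have : (0 : ℝ) ≤ (1 / 4) ^ t * (p1 + τ) ^ t := by positivity
                linarith
          · calc ((innT T U1 x).card : ℝ) * (outT T U2 x).card
                ≤ ((p1 + τ) ^ t * U1.card) * ((1 / 4) ^ t * U2.card) :=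
                  mul_le_mul hx1 hx3.le c2' (by positivity)
              _ = ((1 / 4) ^ t * (p1 + τ) ^ t) * ((U1.card : ℝ) * U2.card) := by ring
              _ ≤ _ := by
                apply mul_le_mul_of_nonneg_right _ huu.le
                have : (0 : ℝ) ≤ (1 / 4) ^ t * (p2 + τ) ^ t := by positivity
                linarith
  have s1 := a1.trans (Finset.sum_le_sum pt)
  rw [← Finset.sum_mul] at s1
  have s2 := le_of_mul_le_mul_right s1 huu
  rw [Finset.sum_add_distrib, Finset.sum_add_distrib, Finset.sum_add_distrib, ← Finset.mul_sum,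
    ← Finset.sum_filter, ← Finset.sum_filter, ← Finset.sum_filter, Finset.sum_const,
    Finset.sum_const, Finset.sum_const, Finset.sum_const, nsmul_eq_mul, nsmul_eq_mul,
    nsmul_eq_mul, nsmul_eq_mul, mul_one, mul_one, mul_one, ← hTAX] at s2
  have hXc : (X.card : ℝ) = (A.card : ℝ) ^ t := by
    rw [hX, Fintype.card_piFinset_const]; push_cast; rfl
  rw [hXc] at s2
  have hAt : (0 : ℝ) < (A.card : ℝ) ^ t := by positivity
  have s3 := mul_le_mul_of_nonneg_right hκ hAt.le
  have hQ : (0 : ℝ) < ((p1 + τ) * (p2 + τ)) ^ t := by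
    have : 0 < p1 + τ := by linarith
    have : 0 < p2 + τ := by linarith
    positivity
  have s4 : ((p1 + τ) * (p2 + τ)) ^ t * (κ ^ t * (A.card : ℝ) ^ t) ≤
      ((p1 + τ) * (p2 + τ)) ^ t * (TA.card : ℝ) := by
    nlinarith [b1, b2, s2, s3]
  exact le_of_mul_le_mul_left s4 hQ

end Pool.Agent.HC
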