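import Pool.Agent.HC.Defs

/-!
# HC block G1 : many tuples with many common neighbours (note 2854, 3 (1))

Entry by entry as in `Pool.Agent.H97.QD.good_tuples` (`Tuples.lean`; `Link.low_in`, `Link.low_out`,
`innT_cons`, `outT_cons`): for a tuple `x` of length `k < t` in the set, each of the four sets
`innT T B1 x`, `innT T U1 x`, `outT T B2 x`, `outT T U2 x` has relative size `≥ (1/16)^t ≥ lam`
in `U1` resp. `U2`, so at most `4 * (2 τ + lam) / (ρ + τ) * #W ≤ θ * #W` extensions fail.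
-/

namespace Pool.Agent.HC

open Finset Classical
open Pool.Agent.H97.QD

variable {V : Type}

/-- the four conditions on a tuple of length `k` -/
def LowT (T : V → V → Prop) (U1 U2 B1 B2 : Finset V) (p1 p2 ρ : ℝ) {k : ℕ} (x : Fin k → V) :
    Prop :=
  ((p1 - ρ) ^ k * B1.card ≤ (innT T B1 x).card) ∧
  ((p1 - ρ) ^ k * U1.card ≤ (innT T U1 x).card) ∧
  ((p2 - ρ) ^ k * B2.card ≤ (outT T B2 x).card) ∧
  ((p2 - ρ) ^ k * U2.card ≤ (outT T U2 x).card)

/-- Most one-step extensions keep the four lower bounds. -/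
lemma ext_low {T : V → V → Prop} {U1 W U2 : Finset V} {p1 p2 τ lam ρ θ : ℝ}
    (h1 : Link T U1 W p1 τ lam) (h2 : Link T W U2 p2 τ lam)
    (hp1 : 0 ≤ p1 + τ) (hp2 : 0 ≤ p2 + τ) (hlam : 0 ≤ lam) (hρ : 0 < ρ + τ)
    (hθ : 4 * (2 * τ + lam) ≤ θ * (ρ + τ))
    {S1 S2 S3 S4 : Finset V} (s1 : S1 ⊆ U1) (s2 : S2 ⊆ U1) (s3 : S3 ⊆ U2) (s4 : S4 ⊆ U2)
    (n1 : S1.Nonempty) (n2 : S2.Nonempty) (n3 : S3.Nonempty) (n4 : S4.Nonempty)
    (c1 : lam * U1.card ≤ S1.card) (c2 : lam * U1.card ≤ S2.card)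
    (c3 : lam * U2.card ≤ S3.card) (c4 : lam * U2.card ≤ S4.card) :
    (1 - θ) * W.card ≤ ((W.filter (fun x => ((p1 - ρ) * S1.card ≤ (inn T S1 x).card) ∧
      ((p1 - ρ) * S2.card ≤ (inn T S2 x).card) ∧ ((p2 - ρ) * S3.card ≤ (out T S3 x).card) ∧
      ((p2 - ρ) * S4.card ≤ (out T S4 x).card))).card : ℝ) := by
  have a1 := h1.low_in hp1 hlam hρ s1 n1 c1
  have a2 := h1.low_in hp1 hlam hρ s2 n2 c2
  have a3 := h2.low_out hp2 hlam hρ s3 n3 c3
  have a4 := h2.low_out hp2 hlam hρ s4 n4 c4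
  set G := W.filter (fun x => ((p1 - ρ) * S1.card ≤ (inn T S1 x).card) ∧
      ((p1 - ρ) * S2.card ≤ (inn T S2 x).card) ∧ ((p2 - ρ) * S3.card ≤ (out T S3 x).card) ∧
      ((p2 - ρ) * S4.card ≤ (out T S4 x).card)) with hG
  set L1 := W.filter (fun x => ((inn T S1 x).card : ℝ) < (p1 - ρ) * S1.card)
  set L2 := W.filter (fun x => ((inn T S2 x).card : ℝ) < (p1 - ρ) * S2.card)
  set L3 := W.filter (fun x => ((out T S3 x).card : ℝ) < (p2 - ρ) * S3.card)
  set L4 := W.filter (fun x => ((out T S4 x).card : ℝ) < (p2 - ρ) * S4.card)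
  have hcov : W ⊆ G ∪ (L1 ∪ (L2 ∪ (L3 ∪ L4))) := by
    intro x hx
    simp only [Finset.mem_union, hG, L1, L2, L3, L4, Finset.mem_filter, hx, true_and]
    by_contra hcon
    push Not at hcon
    obtain ⟨d1, d2, d3, d4, d5⟩ := hcon
    exact absurd (d1 d2 d3 d4) (not_lt.2 d5)
  have hcard : W.card ≤ G.card + (L1.card + (L2.card + (L3.card + L4.card))) := by
    refine (Finset.card_le_card hcov).trans ?_
    refine (Finset.card_union_le _ _).trans ?_
    gcongr
    refine (Finset.card_union_le _ _).trans ?_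
    gcongr
    refine (Finset.card_union_le _ _).trans ?_
    gcongr
    exact Finset.card_union_le _ _
  have hcard' : (W.card : ℝ) ≤ G.card + (L1.card + (L2.card + (L3.card + L4.card))) := by
    exact_mod_cast hcard
  have hW : (0:ℝ) ≤ W.card := Nat.cast_nonneg _
  have h5 : ((L1.card : ℝ) + L2.card + L3.card + L4.card) * (ρ + τ) ≤
      (θ * W.card) * (ρ + τ) := by
    have h6 : 4 * (2 * τ + lam) * (W.card : ℝ) ≤ θ * (ρ + τ) * W.card :=
      mul_le_mul_of_nonneg_right hθ hW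
    nlinarith
  have h6 := le_of_mul_le_mul_right h5 hρ
  linarith

/-- There are many tuples of length `k ≤ t` with the four lower bounds. -/
lemma low_tuples {T : V → V → Prop} {U1 W U2 B1 B2 : Finset V} {p1 p2 τ lam ρ θ : ℝ} {t : ℕ}
    (h1 : Link T U1 W p1 τ lam) (h2 : Link T W U2 p2 τ lam)
    (hτ : 0 ≤ τ) (hlam : 0 < lam) (hρ : 0 < ρ) (hp1 : 1 / 4 ≤ p1 - ρ) (hp2 : 1 / 4 ≤ p2 - ρ)
    (hθ : 4 * (2 * τ + lam) ≤ θ * (ρ + τ)) (hθ1 : θ ≤ 1) (hlt : lam ≤ (1 / 16) ^ t)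
    (hU1 : U1.Nonempty) (hU2 : U2.Nonempty) (hB1 : B1 ⊆ U1) (hB2 : B2 ⊆ U2)
    (hB1c : (1 / 4 : ℝ) ^ t * U1.card ≤ B1.card) (hB2c : (1 / 4 : ℝ) ^ t * U2.card ≤ B2.card)
    (k : ℕ) (hk : k ≤ t) :
    ((1 - θ) * W.card) ^ k ≤ (((Fintype.piFinset (fun _ : Fin k => W)).filter
      (fun x => LowT T U1 U2 B1 B2 p1 p2 ρ x)).card : ℝ) := by
  have hu1 : (0:ℝ) < U1.card := by exact_mod_cast hU1.card_pos
  have hu2 : (0:ℝ) < U2.card := by exact_mod_cast hU2.card_pos
  have h16 : (1 / 16 : ℝ) ^ t = (1 / 4) ^ t * (1 / 4) ^ t := by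
    rw [← mul_pow]; norm_num
  have h41 : (1 / 4 : ℝ) ^ t ≤ 1 := pow_le_one₀ (by norm_num) (by norm_num)
  have h40 : (0 : ℝ) < (1 / 4 : ℝ) ^ t := by positivity
  induction k with
  | zero =>
    have : (Fintype.piFinset (fun _ : Fin 0 => W)).filter
      (fun x => LowT T U1 U2 B1 B2 p1 p2 ρ x) = Finset.univ := by
      apply Finset.eq_univ_of_forall
      intro x
      rw [Finset.mem_filter]
      refine ⟨?_, ?_⟩
      · rw [Fintype.mem_piFinset]; intro i; exact i.elim0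
      · have e1 : ∀ A : Finset V, innT T A x = A := by
          intro A; ext a; rw [mem_innT]; simp
        have e2 : ∀ A : Finset V, outT T A x = A := by
          intro A; ext a; rw [mem_outT]; simp
        unfold LowT
        rw [e1, e1, e2, e2]
        simp
    rw [this]
    simp
  | succ k ih =>
    have ih' := ih (by omega)
    set GT := (Fintype.piFinset (fun _ : Fin k => W)).filter
      (fun x => LowT T U1 U2 B1 B2 p1 p2 ρ x) with hGT
    set ext : (Fin k → V) → Finset V := fun x => W.filter (fun v =>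
      ((p1 - ρ) * (innT T B1 x).card ≤ (inn T (innT T B1 x) v).card) ∧
      ((p1 - ρ) * (innT T U1 x).card ≤ (inn T (innT T U1 x) v).card) ∧
      ((p2 - ρ) * (outT T B2 x).card ≤ (out T (outT T B2 x) v).card) ∧
      ((p2 - ρ) * (outT T U2 x).card ≤ (out T (outT T U2 x) v).card)) with hext
    have hpk : ∀ q : ℝ, 1 / 4 ≤ q → (1 / 4 : ℝ) ^ t ≤ q ^ k := by
      intro q hq
      calc (1 / 4 : ℝ) ^ t ≤ (1 / 4) ^ k :=
            pow_le_pow_of_le_one (by norm_num) (by norm_num) (by omega)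
        _ ≤ q ^ k := pow_le_pow_left₀ (by norm_num) hq k
    -- relative size of a set with the lower bound
    have hsz : ∀ q : ℝ, 1 / 4 ≤ q → ∀ u b s : ℝ, 0 < u → (1 / 4 : ℝ) ^ t * u ≤ b →
        q ^ k * b ≤ s → lam * u ≤ s := by
      intro q hq u b s hu hb hs
      calc lam * u ≤ (1 / 16) ^ t * u := mul_le_mul_of_nonneg_right hlt hu.le
        _ = (1 / 4) ^ t * ((1 / 4) ^ t * u) := by rw [h16]; ring
        _ ≤ (1 / 4) ^ t * b := mul_le_mul_of_nonneg_left hb h40.le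
        _ ≤ q ^ k * b := mul_le_mul_of_nonneg_right (hpk q hq)
            (le_trans (by positivity) hb)
        _ ≤ s := hs
    have hself : ∀ u : ℝ, 0 < u → (1 / 4 : ℝ) ^ t * u ≤ u := by
      intro u hu
      nlinarith
    have hne : ∀ (u : ℝ) (S : Finset V), 0 < u → lam * u ≤ (S.card : ℝ) → S.Nonempty := by
      intro u S hu hS
      rw [← Finset.card_pos]
      have : (0 : ℝ) < S.card := lt_of_lt_of_le (mul_pos hlam hu) hS
      exact_mod_cast this
    have hext_card : ∀ x ∈ GT, (1 - θ) * W.card ≤ ((ext x).card : ℝ) := by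
      intro x hx
      rw [hGT, Finset.mem_filter] at hx
      obtain ⟨_, g1, g2, g3, g4⟩ := hx
      have e1 := hsz _ hp1 _ _ _ hu1 hB1c g1
      have e2 := hsz _ hp1 _ _ _ hu1 (hself _ hu1) g2
      have e3 := hsz _ hp2 _ _ _ hu2 hB2c g3
      have e4 := hsz _ hp2 _ _ _ hu2 (hself _ hu2) g4
      exact ext_low h1 h2 (by linarith) (by linarith) hlam.le (by linarith) hθ
        ((innT_subset T B1 x).trans hB1) (innT_subset T U1 x)
        ((outT_subset T B2 x).trans hB2) (outT_subset T U2 x)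
        (hne _ _ hu1 e1) (hne _ _ hu1 e2) (hne _ _ hu2 e3) (hne _ _ hu2 e4) e1 e2 e3 e4
    have hcard : ((GT.sigma ext).card : ℝ) ≤ (((Fintype.piFinset (fun _ : Fin (k + 1) => W)).filter
      (fun x => LowT T U1 U2 B1 B2 p1 p2 ρ x)).card : ℝ) := by
      have : (GT.sigma ext).card ≤ ((Fintype.piFinset (fun _ : Fin (k + 1) => W)).filter
          (fun x => LowT T U1 U2 B1 B2 p1 p2 ρ x)).card := by
        apply Finset.card_le_card_of_injOn
          (fun z : (Σ _ : Fin k → V, V) => (Fin.cons z.2 z.1 : Fin (k + 1) → V))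
        · rintro ⟨x, v⟩ hz
          rw [Finset.mem_coe, Finset.mem_sigma] at hz
          obtain ⟨hx, hv⟩ := hz
          simp only at hx hv
          rw [hGT, Finset.mem_filter, Fintype.mem_piFinset] at hx
          obtain ⟨hx0, g1, g2, g3, g4⟩ := hx
          rw [hext, Finset.mem_filter] at hv
          obtain ⟨hvW, e1, e2, e3, e4⟩ := hv
          rw [Finset.mem_coe, Finset.mem_filter, Fintype.mem_piFinset]
          have key : ∀ q : ℝ, 1 / 4 ≤ q → ∀ b s s' : ℝ, q ^ k * b ≤ s → q * s ≤ s' →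
              q ^ (k + 1) * b ≤ s' := by
            intro q hq b s s' hs hs'
            calc q ^ (k + 1) * b = q * (q ^ k * b) := by ring
              _ ≤ q * s := mul_le_mul_of_nonneg_left hs (by linarith)
              _ ≤ s' := hs'
          refine ⟨?_, ?_⟩
          · intro s
            refine Fin.cases ?_ (fun s => ?_) s
            · exact hvW
            · exact hx0 s
          · unfold LowT
            rw [innT_cons, innT_cons, outT_cons, outT_cons]
            exact ⟨key _ hp1 _ _ _ g1 e1, key _ hp1 _ _ _ g2 e2, key _ hp2 _ _ _ g3 e3,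
              key _ hp2 _ _ _ g4 e4⟩
        · rintro ⟨x, v⟩ _ ⟨x', v'⟩ _ hxx
          simp only at hxx
          have h3 := Fin.cons_inj.1 hxx
          rw [h3.1, h3.2]
      exact_mod_cast this
    refine le_trans ?_ hcard
    rw [Finset.card_sigma]
    push_cast
    calc ((1 - θ) * (W.card : ℝ)) ^ (k + 1) = ((1 - θ) * W.card) ^ k * ((1 - θ) * W.card) := by
          rw [pow_succ]
      _ ≤ GT.card * ((1 - θ) * W.card) := by
          apply mul_le_mul_of_nonneg_right ih'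
          have : 0 ≤ 1 - θ := by linarith
          positivity
      _ = ∑ _x ∈ GT, (1 - θ) * W.card := by rw [Finset.sum_const, nsmul_eq_mul]
      _ ≤ ∑ x ∈ GT, ((ext x).card : ℝ) := Finset.sum_le_sum hext_card

theorem site_low {T : V → V → Prop} {U1 W U2 B1 B2 : Finset V} {p1 p2 τ lam ρ θ : ℝ} {t : ℕ}
    (h1 : Link T U1 W p1 τ lam) (h2 : Link T W U2 p2 τ lam)
    (hτ : 0 ≤ τ) (hlam : 0 < lam) (hρ : 0 < ρ) (hp1 : 1 / 4 ≤ p1 - ρ) (hp2 : 1 / 4 ≤ p2 - ρ)
    (hθ : 4 * (2 * τ + lam) ≤ θ * (ρ + τ)) (hθ1 : θ ≤ 1) (hlt : lam ≤ (1 / 16) ^ t)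
    (hU1 : U1.Nonempty) (hU2 : U2.Nonempty) (hB1 : B1 ⊆ U1) (hB2 : B2 ⊆ U2)
    (hB1c : (1 / 4 : ℝ) ^ t * U1.card ≤ B1.card) (hB2c : (1 / 4 : ℝ) ^ t * U2.card ≤ B2.card) :
    ((1 - θ) * W.card) ^ t ≤ (((Fintype.piFinset (fun _ : Fin t => W)).filter fun x =>
      ((p1 - ρ) ^ t * B1.card ≤ (innT T B1 x).card) ∧
      ((p1 - ρ) ^ t * U1.card ≤ (innT T U1 x).card) ∧
      ((p2 - ρ) ^ t * B2.card ≤ (outT T B2 x).card) ∧
      ((p2 - ρ) ^ t * U2.card ≤ (outT T U2 x).card)).card : ℝ) := by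
  have h := low_tuples h1 h2 hτ hlam hρ hp1 hp2 hθ hθ1 hlt hU1 hU2 hB1 hB2 hB1c hB2c t le_rfl
  unfold LowT at h
  refine le_trans h (le_of_eq ?_)
  congr 2
  apply Finset.filter_congr_decidable

end Pool.Agent.HC
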