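import Pool.Agent.HC.SiteZ
import Pool.Agent.HC.SiteDense

/-!
# HC block G4 : one site (note 2854, 3 (3)-(6))

Notation: `X x = #(innT T B1 x)`, `Y x = #(outT T B2 x)`, sums over `x ∈ TT`,
`a β = #{x ∈ TT | ∀ i, x i ∈ com T W β.1 β.2}`, `Z k l = ∑ X^k Y^l = ∑ β ∈ B1^k × B2^l, a β`.
(3) `Z k M ^ 2 ≤ Z (k-1) M * Z (k+1) M` (Cauchy-Schwarz), so
`(Z M M / (#B1 * Z (M-1) M))^M ≥ Z M M / (#B1^M * Z 0 M) ≥ (r^t)^M` by `site_low`, `site_up` (drop `TT`
in `Z 0 M`) and `hP.ratio`. So `#B1 * Z (M-1) M ≤ Z M M / r^t`; same for the other side with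
`hP.ratio p2 p1`.
(4) for every entry `j`: the sum of `a β` over the `β` with `a β < a1^t * a (β without j)` is at most
`a1^t * #B1 * Z (M-1) M ≤ (a1/r)^t * Z M M`; `2 M` entries.
(5) the sum over the `β` with `#com < nu * #W` is at most `#B1^M #B2^M (nu #W)^t ≤ e0 * Z M M`
(`hP.size`). (6) small `X` (or `Y`): `(1/8)^(t M) #B1^M Z 0 M ≤ e0 * Z M M` (`hP.small`).
All other `β` are good: `#com^t ≥ a β ≥ a1^t * a (β without j) ≥ a1^t * κ^t * #(comL ..)^t` by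
`site_dense` (`comL ..` is at least as large as `com ..`), `al ≤ a1 * κ`.
`∑ x ∈ TT, nbad (innT T B1 x) (outT T B2 x) = ∑ β not good, a β`.
-/

namespace Pool.Agent.HC

open Finset Classical
open Pool.Agent.H97.QD

variable {V : Type}

/-- The numerical conditions for one site. -/
structure SPar (q τ lam ρ θ nu κ a1 r al e0 : ℝ) (t M : ℕ) : Prop where
  t0 : 0 < t
  M0 : 0 < M
  τ0 : 0 < τ
  τ1 : τ ≤ 1
  ρ0 : 0 < ρ
  qρ : 1 / 4 ≤ q - ρ
  qτ : 1 / 4 ≤ q - τ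
  lam0 : 0 < lam
  θ1 : θ < 1
  hθ : 4 * (2 * τ + lam) ≤ θ * (ρ + τ)
  lam1 : lam ≤ τ * (1 / 16) ^ t
  lamM : (M : ℝ) * lam ^ t ≤ (1 / 4) ^ (t * M)
  nu0 : lam ≤ nu
  κ0 : 0 ≤ κ
  a10 : 0 < a1
  r0 : 0 < r
  hal : al ≤ a1 * κ
  e00 : 0 ≤ e0
  dens : ∀ p1 p2 : ℝ, q ≤ p1 → p1 ≤ 1 → q ≤ p2 → p2 ≤ 1 →
    κ ^ t * ((p1 + τ) * (p2 + τ)) ^ t + (1 / 4) ^ t * (p1 + τ) ^ t + (1 / 4) ^ t * (p2 + τ) ^ t +
      2 * t * (lam / nu) ≤ ((p1 - τ) * (p2 - τ)) ^ t
  ratio : ∀ p1 p2 : ℝ, q ≤ p1 → p1 ≤ 1 → q ≤ p2 → p2 ≤ 1 →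
    (r ^ t) ^ M ≤ (1 - θ) ^ t / 2 * (((p1 - ρ) * (p2 - ρ) / (p2 + 2 * τ)) ^ t) ^ M
  size : ∀ p1 p2 : ℝ, q ≤ p1 → p1 ≤ 1 → q ≤ p2 → p2 ≤ 1 →
    nu ^ t ≤ e0 * (1 - θ) ^ t * (((p1 - ρ) * (p2 - ρ)) ^ t) ^ M
  small : ∀ p1 p2 : ℝ, q ≤ p1 → p1 ≤ 1 → q ≤ p2 → p2 ≤ 1 →
    2 * ((1 / 8 * (p2 + 2 * τ)) ^ t) ^ M ≤ e0 * (1 - θ) ^ t * (((p1 - ρ) * (p2 - ρ)) ^ t) ^ M

/-- the number of `x ∈ TT` with all entries in `S` -/
noncomputable def cntT (T : V → V → Prop) (U1 W U2 : Finset V) (t : ℕ) (S : Finset V) : ℕ :=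
  ((TT T U1 W U2 t).filter fun x => ∀ i, x i ∈ S).card

lemma mem_TT_W {T : V → V → Prop} {U1 W U2 : Finset V} {t : ℕ} {x : Fin t → V}
    (hx : x ∈ TT T U1 W U2 t) : ∀ i, x i ∈ W := by
  unfold TT at hx
  rw [mem_filter, Fintype.mem_piFinset] at hx
  exact hx.1

lemma card_pairs (M : ℕ) (C1 C2 : Finset V) :
    (pairs M C1 C2).card = C1.card ^ M * C2.card ^ M := by
  simp [pairs, card_product, Fintype.card_piFinset]

lemma dc (T : V → V → Prop) (U1 W U2 B1 B2 : Finset V) (t M : ℕ)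
    (F : (Fin M → V) × (Fin M → V) → ℝ) :
    ∑ x ∈ TT T U1 W U2 t, ∑ b ∈ pairs M (innT T B1 x) (outT T B2 x), F b =
      ∑ b ∈ pairs M B1 B2, (cntT T U1 W U2 t (com T W b.1 b.2) : ℝ) * F b := by
  have h1 : ∀ x ∈ TT T U1 W U2 t, pairs M (innT T B1 x) (outT T B2 x) =
      (pairs M B1 B2).filter fun b => ∀ i, x i ∈ com T W b.1 b.2 := by
    intro x hx
    have hW := mem_TT_W hx
    ext b
    simp only [pairs, mem_filter, mem_product, Fintype.mem_piFinset, mem_innT, mem_outT, com]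
    constructor
    · rintro ⟨h1, h2⟩
      exact ⟨⟨fun i => (h1 i).1, fun i => (h2 i).1⟩,
        fun i => ⟨hW i, fun k => (h1 k).2 i, fun k => (h2 k).2 i⟩⟩
    · rintro ⟨⟨h1, h2⟩, h3⟩
      exact ⟨fun k => ⟨h1 k, fun i => (h3 i).2.1 k⟩, fun k => ⟨h2 k, fun i => (h3 i).2.2 k⟩⟩
  rw [sum_congr rfl fun x hx => by rw [h1 x hx, sum_filter]]
  rw [sum_comm]
  refine sum_congr rfl fun b hb => ?_
  rw [← sum_filter, sum_const, nsmul_eq_mul]
  rfl

lemma card_pi_ite {M : ℕ} (j : Fin M) (A B : Finset V) :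
    (Fintype.piFinset fun i : Fin M => if i = j then A else B).card = A.card * B.card ^ (M - 1) := by
  rw [Fintype.card_piFinset, ← Finset.mul_prod_erase univ _ (mem_univ j)]
  have h2 : ∀ i ∈ univ.erase j, (if i = j then A else B).card = B.card := by
    intro i hi
    rw [if_neg (ne_of_mem_erase hi)]
  rw [prod_congr rfl h2, prod_const, card_erase_of_mem (mem_univ j), card_univ, Fintype.card_fin,
    if_pos rfl]

lemma dcL (T : V → V → Prop) (U1 W U2 B1 B2 : Finset V) (t M : ℕ) (j : Fin M) :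
    ∑ b ∈ pairs M B1 B2, (cntT T U1 W U2 t (comL T W b.1 b.2 j) : ℝ) =
      B1.card * Zm T U1 W U2 B1 B2 t (M - 1) M := by
  have h1 : ∀ x ∈ TT T U1 W U2 t, ((pairs M B1 B2).filter fun b => ∀ i, x i ∈ comL T W b.1 b.2 j) =
      (Fintype.piFinset fun i : Fin M => if i = j then B1 else innT T B1 x) ×ˢ
        (Fintype.piFinset fun _ : Fin M => outT T B2 x) := by
    intro x hx
    have hW := mem_TT_W hx
    ext b
    simp only [pairs, mem_filter, mem_product, Fintype.mem_piFinset, mem_outT, comL]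
    constructor
    · rintro ⟨⟨h1, h2⟩, h3⟩
      refine ⟨fun k => ?_, fun k => ⟨h2 k, fun i => (h3 i).2.2 k⟩⟩
      by_cases hk : k = j
      · rw [if_pos hk]; exact h1 k
      · rw [if_neg hk, mem_innT]
        exact ⟨h1 k, fun i => (h3 i).2.1 k hk⟩
    · rintro ⟨h1, h2⟩
      refine ⟨⟨fun k => ?_, fun k => (h2 k).1⟩, fun i => ⟨hW i, fun k hk => ?_, fun k => (h2 k).2 i⟩⟩
      · have := h1 k
        by_cases hk : k = j
        · rwa [if_pos hk] at this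
        · rw [if_neg hk, mem_innT] at this
          exact this.1
      · have := h1 k
        rw [if_neg hk, mem_innT] at this
        exact this.2 i
  have h2 : ∑ b ∈ pairs M B1 B2, (cntT T U1 W U2 t (comL T W b.1 b.2 j) : ℝ) =
      ∑ x ∈ TT T U1 W U2 t,
        (((pairs M B1 B2).filter fun b => ∀ i, x i ∈ comL T W b.1 b.2 j).card : ℝ) := by
    unfold cntT
    simp only [card_filter, Nat.cast_sum]
    rw [sum_comm]
  rw [h2, Zm, mul_sum]
  refine sum_congr rfl fun x hx => ?_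
  rw [h1 x hx, card_product, card_pi_ite, Fintype.card_piFinset, prod_const, card_univ,
    Fintype.card_fin]
  push_cast
  ring

lemma dcR (T : V → V → Prop) (U1 W U2 B1 B2 : Finset V) (t M : ℕ) (j : Fin M) :
    ∑ b ∈ pairs M B1 B2, (cntT T U1 W U2 t (comR T W b.1 b.2 j) : ℝ) =
      B2.card * Zm T U1 W U2 B1 B2 t M (M - 1) := by
  have h1 : ∀ x ∈ TT T U1 W U2 t, ((pairs M B1 B2).filter fun b => ∀ i, x i ∈ comR T W b.1 b.2 j) =
      (Fintype.piFinset fun _ : Fin M => innT T B1 x) ×ˢ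
        (Fintype.piFinset fun i : Fin M => if i = j then B2 else outT T B2 x) := by
    intro x hx
    have hW := mem_TT_W hx
    ext b
    simp only [pairs, mem_filter, mem_product, Fintype.mem_piFinset, mem_innT, comR]
    constructor
    · rintro ⟨⟨h1, h2⟩, h3⟩
      refine ⟨fun k => ⟨h1 k, fun i => (h3 i).2.1 k⟩, fun k => ?_⟩
      by_cases hk : k = j
      · rw [if_pos hk]; exact h2 k
      · rw [if_neg hk, mem_outT]
        exact ⟨h2 k, fun i => (h3 i).2.2 k hk⟩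
    · rintro ⟨h1, h2⟩
      refine ⟨⟨fun k => (h1 k).1, fun k => ?_⟩, fun i => ⟨hW i, fun k => (h1 k).2 i, fun k hk => ?_⟩⟩
      · have := h2 k
        by_cases hk : k = j
        · rwa [if_pos hk] at this
        · rw [if_neg hk, mem_outT] at this
          exact this.1
      · have := h2 k
        rw [if_neg hk, mem_outT] at this
        exact this.2 i
  have h2 : ∑ b ∈ pairs M B1 B2, (cntT T U1 W U2 t (comR T W b.1 b.2 j) : ℝ) =
      ∑ x ∈ TT T U1 W U2 t,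
        (((pairs M B1 B2).filter fun b => ∀ i, x i ∈ comR T W b.1 b.2 j).card : ℝ) := by
    unfold cntT
    simp only [card_filter, Nat.cast_sum]
    rw [sum_comm]
  rw [h2, Zm, mul_sum]
  refine sum_congr rfl fun x hx => ?_
  rw [h1 x hx, card_product, card_pi_ite, Fintype.card_piFinset, prod_const, card_univ,
    Fintype.card_fin]
  push_cast
  ring

lemma cntT_le (T : V → V → Prop) (U1 W U2 : Finset V) (t : ℕ) (S : Finset V) :
    (cntT T U1 W U2 t S : ℝ) ≤ (S.card : ℝ) ^ t := by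
  have h : cntT T U1 W U2 t S ≤ (Fintype.piFinset fun _ : Fin t => S).card := by
    apply card_le_card
    intro x hx
    rw [mem_filter] at hx
    rw [Fintype.mem_piFinset]
    exact hx.2
  rw [Fintype.card_piFinset, prod_const, card_univ, Fintype.card_fin] at h
  exact_mod_cast h

/-- The pairs of tuples which survive (4) and (5) are good. -/
lemma good_of {T : V → V → Prop} {U1 W U2 : Finset V} {nu κ a1 al : ℝ} {t M : ℕ}
    (ht : 0 < t) (hκ0 : 0 ≤ κ) (ha1 : 0 < a1) (hal : al ≤ a1 * κ) (hnu : 0 < nu) (hW : W.Nonempty)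
    (hd : ∀ A ⊆ W, A.Nonempty → nu * W.card ≤ A.card →
      κ ^ t * (A.card : ℝ) ^ t ≤ (cntT T U1 W U2 t A : ℝ))
    (b : (Fin M → V) × (Fin M → V)) (h5 : nu * W.card ≤ (com T W b.1 b.2).card)
    (hL : ∀ j, a1 ^ t * (cntT T U1 W U2 t (comL T W b.1 b.2 j) : ℝ) ≤
      cntT T U1 W U2 t (com T W b.1 b.2))
    (hR : ∀ j, a1 ^ t * (cntT T U1 W U2 t (comR T W b.1 b.2 j) : ℝ) ≤
      cntT T U1 W U2 t (com T W b.1 b.2)) : Good T W nu al b.1 b.2 := by
  have hWp : (0 : ℝ) < W.card := by exact_mod_cast hW.card_pos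
  have key : ∀ A ⊆ W, com T W b.1 b.2 ⊆ A →
      a1 ^ t * (cntT T U1 W U2 t A : ℝ) ≤ cntT T U1 W U2 t (com T W b.1 b.2) →
      al * A.card ≤ (com T W b.1 b.2).card := by
    intro A hA hcA h
    have hAc : ((com T W b.1 b.2).card : ℝ) ≤ A.card := by exact_mod_cast card_le_card hcA
    have hAp : (0 : ℝ) < A.card := lt_of_lt_of_le (mul_pos hnu hWp) (h5.trans hAc)
    have hAne : A.Nonempty := by
      rw [← card_pos]; exact_mod_cast hAp
    have h6 := hd A hA hAne (h5.trans hAc)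
    have h7 : (a1 * κ * A.card) ^ t ≤ ((com T W b.1 b.2).card : ℝ) ^ t := by
      calc (a1 * κ * A.card) ^ t = a1 ^ t * (κ ^ t * (A.card : ℝ) ^ t) := by
            rw [mul_pow, mul_pow]; ring
        _ ≤ a1 ^ t * (cntT T U1 W U2 t A : ℝ) := mul_le_mul_of_nonneg_left h6 (by positivity)
        _ ≤ cntT T U1 W U2 t (com T W b.1 b.2) := h
        _ ≤ _ := cntT_le T U1 W U2 t _
    have h8 : a1 * κ * A.card ≤ (com T W b.1 b.2).card :=
      le_of_pow_le_pow_left₀ ht.ne' (Nat.cast_nonneg _) h7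
    exact (mul_le_mul_of_nonneg_right hal hAp.le).trans h8
  refine ⟨h5, fun j => ?_, fun j => ?_⟩
  · refine key _ (filter_subset _ _) ?_ (hL j)
    intro a ha
    simp only [com, comL, mem_filter] at ha ⊢
    exact ⟨ha.1, fun i _ => ha.2.1 i, ha.2.2⟩
  · refine key _ (filter_subset _ _) ?_ (hR j)
    intro a ha
    simp only [com, comR, mem_filter] at ha ⊢
    exact ⟨ha.1, ha.2.1, fun i _ => ha.2.2 i⟩

lemma Zm_eq (T : V → V → Prop) (U1 W U2 B1 B2 : Finset V) (t M : ℕ) :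
    Zm T U1 W U2 B1 B2 t M M =
      ∑ b ∈ pairs M B1 B2, (cntT T U1 W U2 t (com T W b.1 b.2) : ℝ) := by
  have h := dc T U1 W U2 B1 B2 t M fun _ => 1
  simp only [mul_one] at h
  rw [← h, Zm]
  refine sum_congr rfl fun x _ => ?_
  rw [sum_const, nsmul_eq_mul, mul_one, card_pairs]
  push_cast
  rfl

lemma nbad_eq (T : V → V → Prop) (U1 W U2 B1 B2 : Finset V) (nu al : ℝ) (t M : ℕ) :
    ∑ x ∈ TT T U1 W U2 t, (nbad T W nu al M (innT T B1 x) (outT T B2 x) : ℝ) =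
      ∑ b ∈ pairs M B1 B2, (cntT T U1 W U2 t (com T W b.1 b.2) : ℝ) *
        (if ¬ Good T W nu al b.1 b.2 then 1 else 0) := by
  rw [← dc T U1 W U2 B1 B2 t M fun b => if ¬ Good T W nu al b.1 b.2 then (1 : ℝ) else 0]
  refine sum_congr rfl fun x _ => ?_
  unfold nbad
  rw [card_filter]
  push_cast
  rfl

/-- (4) and (5) together -/
lemma bad_le {T : V → V → Prop} {U1 W U2 B1 B2 : Finset V} {nu κ a1 al : ℝ} {t M : ℕ}
    (ht : 0 < t) (hκ0 : 0 ≤ κ) (ha1 : 0 < a1) (hal : al ≤ a1 * κ) (hnu : 0 < nu) (hW : W.Nonempty)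
    (hd : ∀ A ⊆ W, A.Nonempty → nu * W.card ≤ A.card →
      κ ^ t * (A.card : ℝ) ^ t ≤ (cntT T U1 W U2 t A : ℝ)) :
    ∑ x ∈ TT T U1 W U2 t, (nbad T W nu al M (innT T B1 x) (outT T B2 x) : ℝ) ≤
      (B1.card : ℝ) ^ M * (B2.card : ℝ) ^ M * (nu * W.card) ^ t +
        M * (a1 ^ t * (B1.card * Zm T U1 W U2 B1 B2 t (M - 1) M)) +
        M * (a1 ^ t * (B2.card * Zm T U1 W U2 B1 B2 t M (M - 1))) := by
  rw [nbad_eq]
  have h1 : ∀ b ∈ pairs M B1 B2, (cntT T U1 W U2 t (com T W b.1 b.2) : ℝ) *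
        (if ¬ Good T W nu al b.1 b.2 then 1 else 0) ≤ (nu * W.card) ^ t +
        ∑ j : Fin M, a1 ^ t * (cntT T U1 W U2 t (comL T W b.1 b.2 j) : ℝ) +
        ∑ j : Fin M, a1 ^ t * (cntT T U1 W U2 t (comR T W b.1 b.2 j) : ℝ) := by
    intro b _
    have n1 : (0 : ℝ) ≤ ∑ j : Fin M, a1 ^ t * (cntT T U1 W U2 t (comL T W b.1 b.2 j) : ℝ) :=
      sum_nonneg fun j _ => by positivity
    have n2 : (0 : ℝ) ≤ ∑ j : Fin M, a1 ^ t * (cntT T U1 W U2 t (comR T W b.1 b.2 j) : ℝ) :=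
      sum_nonneg fun j _ => by positivity
    have n3 : (0 : ℝ) ≤ (nu * W.card) ^ t := by positivity
    by_cases hg : Good T W nu al b.1 b.2
    · rw [if_neg (not_not.2 hg), mul_zero]
      positivity
    rw [if_pos hg, mul_one]
    by_cases h5 : nu * W.card ≤ (com T W b.1 b.2).card
    · by_cases hL : ∀ j, a1 ^ t * (cntT T U1 W U2 t (comL T W b.1 b.2 j) : ℝ) ≤
          cntT T U1 W U2 t (com T W b.1 b.2)
      · by_cases hR : ∀ j, a1 ^ t * (cntT T U1 W U2 t (comR T W b.1 b.2 j) : ℝ) ≤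
            cntT T U1 W U2 t (com T W b.1 b.2)
        · exact absurd (good_of ht hκ0 ha1 hal hnu hW hd b h5 hL hR) hg
        · push Not at hR
          obtain ⟨j, hj⟩ := hR
          have := single_le_sum (f := fun j : Fin M =>
            a1 ^ t * (cntT T U1 W U2 t (comR T W b.1 b.2 j) : ℝ))
            (fun i _ => by positivity) (mem_univ j)
          linarith
      · push Not at hL
        obtain ⟨j, hj⟩ := hL
        have := single_le_sum (f := fun j : Fin M =>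
          a1 ^ t * (cntT T U1 W U2 t (comL T W b.1 b.2 j) : ℝ))
          (fun i _ => by positivity) (mem_univ j)
        linarith
    · push Not at h5
      have h6 := cntT_le T U1 W U2 t (com T W b.1 b.2)
      have h7 : ((com T W b.1 b.2).card : ℝ) ^ t ≤ (nu * W.card) ^ t :=
        pow_le_pow_left₀ (Nat.cast_nonneg _) h5.le t
      linarith
  refine (sum_le_sum h1).trans (le_of_eq ?_)
  rw [sum_add_distrib, sum_add_distrib, sum_const, nsmul_eq_mul, card_pairs, sum_comm,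
    sum_comm (s := pairs M B1 B2) (t := univ) (f := fun b j =>
      a1 ^ t * (cntT T U1 W U2 t (comR T W b.1 b.2 j) : ℝ))]
  have h2 : ∀ j : Fin M, ∑ b ∈ pairs M B1 B2,
      a1 ^ t * (cntT T U1 W U2 t (comL T W b.1 b.2 j) : ℝ) =
      a1 ^ t * (B1.card * Zm T U1 W U2 B1 B2 t (M - 1) M) := by
    intro j
    rw [← mul_sum, dcL]
  have h3 : ∀ j : Fin M, ∑ b ∈ pairs M B1 B2,
      a1 ^ t * (cntT T U1 W U2 t (comR T W b.1 b.2 j) : ℝ) =
      a1 ^ t * (B2.card * Zm T U1 W U2 B1 B2 t M (M - 1)) := by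
    intro j
    rw [← mul_sum, dcR]
  rw [sum_congr rfl fun j _ => h2 j, sum_congr rfl fun j _ => h3 j, sum_const, sum_const,
    nsmul_eq_mul, nsmul_eq_mul, card_univ, Fintype.card_fin]
  push_cast
  ring

/-- (6) -/
lemma small_le {T : V → V → Prop} {U1 W U2 B1 B2 : Finset V} {t M : ℕ} :
    ∑ x ∈ TT T U1 W U2 t,
      (if ((innT T B1 x).card : ℝ) < (1 / 8) ^ t * B1.card ∨
          ((outT T B2 x).card : ℝ) < (1 / 8) ^ t * B2.card then
        ((innT T B1 x).card : ℝ) ^ M * ((outT T B2 x).card : ℝ) ^ M else 0) ≤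
      ((1 / 8) ^ t * B1.card) ^ M * Zm T U1 W U2 B1 B2 t 0 M +
      ((1 / 8) ^ t * B2.card) ^ M * Zm T U1 W U2 B1 B2 t M 0 := by
  unfold Zm
  rw [mul_sum, mul_sum, ← sum_add_distrib]
  refine sum_le_sum fun x _ => ?_
  have hX : (0 : ℝ) ≤ ((innT T B1 x).card : ℝ) := Nat.cast_nonneg _
  have hY : (0 : ℝ) ≤ ((outT T B2 x).card : ℝ) := Nat.cast_nonneg _
  have n1 : (0 : ℝ) ≤ ((1 / 8) ^ t * B1.card) ^ M *
      (((innT T B1 x).card : ℝ) ^ 0 * ((outT T B2 x).card : ℝ) ^ M) := by positivity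
  have n2 : (0 : ℝ) ≤ ((1 / 8) ^ t * B2.card) ^ M *
      (((innT T B1 x).card : ℝ) ^ M * ((outT T B2 x).card : ℝ) ^ 0) := by positivity
  split_ifs with h
  · rcases h with h | h
    · have h2 := pow_le_pow_left₀ hX h.le M
      have h3 : ((innT T B1 x).card : ℝ) ^ M * ((outT T B2 x).card : ℝ) ^ M ≤
          ((1 / 8) ^ t * B1.card) ^ M * ((outT T B2 x).card : ℝ) ^ M :=
        mul_le_mul_of_nonneg_right h2 (by positivity)
      rw [pow_zero, one_mul]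
      linarith
    · have h2 := pow_le_pow_left₀ hY h.le M
      have h3 : ((innT T B1 x).card : ℝ) ^ M * ((outT T B2 x).card : ℝ) ^ M ≤
          ((innT T B1 x).card : ℝ) ^ M * ((1 / 8) ^ t * B2.card) ^ M :=
        mul_le_mul_of_nonneg_left h2 (by positivity)
      rw [pow_zero, mul_one] at n2
      rw [pow_zero, pow_zero, mul_one]
      have h4 : ((innT T B1 x).card : ℝ) ^ M * ((1 / 8) ^ t * B2.card) ^ M =
        ((1 / 8) ^ t * B2.card) ^ M * ((innT T B1 x).card : ℝ) ^ M := mul_comm _ _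
      linarith
  · linarith

theorem site_main {T : V → V → Prop} {U1 W U2 B1 B2 : Finset V}
    {p1 p2 q τ lam ρ θ nu κ a1 r al e0 : ℝ} {t M : ℕ}
    (hP : SPar q τ lam ρ θ nu κ a1 r al e0 t M)
    (h1 : Link T U1 W p1 τ lam) (h2 : Link T W U2 p2 τ lam)
    (hp1 : q ≤ p1) (hp1' : p1 ≤ 1) (hp2 : q ≤ p2) (hp2' : p2 ≤ 1)
    (hW : W.Nonempty) (hU1 : U1.Nonempty) (hU2 : U2.Nonempty) (hB1 : B1 ⊆ U1) (hB2 : B2 ⊆ U2)
    (hB1c : (1 / 4 : ℝ) ^ t * U1.card ≤ B1.card) (hB2c : (1 / 4 : ℝ) ^ t * U2.card ≤ B2.card) :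
    0 < ∑ x ∈ TT T U1 W U2 t, ((innT T B1 x).card : ℝ) ^ M * ((outT T B2 x).card : ℝ) ^ M ∧
    ∑ x ∈ TT T U1 W U2 t, ((nbad T W nu al M (innT T B1 x) (outT T B2 x) : ℝ) +
      (if ((innT T B1 x).card : ℝ) < (1 / 8) ^ t * B1.card ∨
          ((outT T B2 x).card : ℝ) < (1 / 8) ^ t * B2.card then
        ((innT T B1 x).card : ℝ) ^ M * ((outT T B2 x).card : ℝ) ^ M else 0)) ≤
      (2 * M * (a1 / r) ^ t + 3 * e0) *
        ∑ x ∈ TT T U1 W U2 t, ((innT T B1 x).card : ℝ) ^ M * ((outT T B2 x).card : ℝ) ^ M := by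
  change 0 < Zm T U1 W U2 B1 B2 t M M ∧ _ ≤ _ * Zm T U1 W U2 B1 B2 t M M
  have ht := hP.t0
  have hτ := hP.τ0
  have hρ := hP.ρ0
  have hlam := hP.lam0
  have hWp : (0 : ℝ) < W.card := by exact_mod_cast hW.card_pos
  have hU1p : (0 : ℝ) < U1.card := by exact_mod_cast hU1.card_pos
  have hU2p : (0 : ℝ) < U2.card := by exact_mod_cast hU2.card_pos
  have hB1p : (0 : ℝ) < B1.card := lt_of_lt_of_le (by positivity) hB1c
  have hB2p : (0 : ℝ) < B2.card := lt_of_lt_of_le (by positivity) hB2c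
  have hB1n : B1.Nonempty := by rw [← card_pos]; exact_mod_cast hB1p
  have hB2n : B2.Nonempty := by rw [← card_pos]; exact_mod_cast hB2p
  have hqρ := hP.qρ
  have hqτ := hP.qτ
  have hp1ρ : 1 / 4 ≤ p1 - ρ := by linarith
  have hp2ρ : 1 / 4 ≤ p2 - ρ := by linarith
  have h16 : lam ≤ (1 / 16) ^ t := hP.lam1.trans (by
    have : (0 : ℝ) ≤ (1 / 16 : ℝ) ^ t := by positivity
    nlinarith [hP.τ1])
  have h4 : lam ≤ (1 / 4) ^ t := h16.trans (pow_le_pow_left₀ (by norm_num) (by norm_num) t)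
  have hnu : 0 < nu := lt_of_lt_of_le hlam hP.nu0
  have hθ1 : 0 < 1 - θ := by linarith [hP.θ1]
  have hs : 0 < (1 - θ) ^ t := by positivity
  have low := zpos (T := T) (U1 := U1) (W := W) (U2 := U2) (B1 := B1) (B2 := B2) M h1 h2 hτ.le hlam
    hρ hp1ρ hp2ρ hP.hθ hP.θ1.le h16 hU1 hU2 hB1 hB2 hB1c hB2c
  have hP1 : 0 < (p1 - ρ) ^ t := by
    have : 0 < p1 - ρ := by linarith
    positivity
  have hP2 : 0 < (p2 - ρ) ^ t := by
    have : 0 < p2 - ρ := by linarith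
    positivity
  have hQ1 : 0 < (p1 + 2 * τ) ^ t := by
    have : 0 < p1 + 2 * τ := by linarith
    positivity
  have hQ2 : 0 < (p2 + 2 * τ) ^ t := by
    have : 0 < p2 + 2 * τ := by linarith
    positivity
  have hRt : 0 < r ^ t := pow_pos hP.r0 t
  rw [mul_pow] at low
  set Z := Zm T U1 W U2 B1 B2 t M M with hZ
  have hZ0 : 0 < Z := by
    refine lt_of_lt_of_le ?_ low
    positivity
  have up := zup (T := T) (U1 := U1) (W := W) (U2 := U2) (B1 := B1) (B2 := B2) (M := M) h2 ht hτ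
    hP.τ1 hlam (by linarith) hP.lam1 hP.lamM hU2 hB2 hB2c
  have up' := zup' (T := T) (U1 := U1) (W := W) (U2 := U2) (B1 := B1) (B2 := B2) (M := M) h1 ht hτ
    hP.τ1 hlam (by linarith) hP.lam1 hP.lamM hU1 hB1 hB1c
  have r1 := zratio1 (T := T) (U1 := U1) (W := W) (U2 := U2) (B1 := B1) (B2 := B2) (t := t)
    (Rt := r ^ t) hP.M0 hW hB1n hB2n hP1 hP2 hQ2 hs hRt low up (by
      have := hP.ratio p1 p2 hp1 hp1' hp2 hp2'
      rwa [div_pow, mul_pow] at this)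
  have r2 := zratio2 (T := T) (U1 := U1) (W := W) (U2 := U2) (B1 := B1) (B2 := B2) (t := t)
    (Rt := r ^ t) hP.M0 hW hB1n hB2n hP1 hP2 hQ1 hs hRt low up' (by
      have := hP.ratio p2 p1 hp2 hp2' hp1 hp1'
      rwa [div_pow, mul_pow] at this)
  have hd : ∀ A ⊆ W, A.Nonempty → nu * W.card ≤ A.card →
      κ ^ t * (A.card : ℝ) ^ t ≤ (cntT T U1 W U2 t A : ℝ) := by
    intro A hA hAne hAc
    exact site_dense h1 h2 ht hτ.le hlam (by linarith) (by linarith) hU1 hU2 hA hAne hP.nu0 hAc h4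
      (hP.dens p1 p2 hp1 hp1' hp2 hp2')
  have hb := bad_le (T := T) (U1 := U1) (W := W) (U2 := U2) (B1 := B1) (B2 := B2) (M := M)
    (al := al) ht hP.κ0 hP.a10 hP.hal hnu hW hd
  have hsm := small_le (T := T) (U1 := U1) (W := W) (U2 := U2) (B1 := B1) (B2 := B2) (t := t)
    (M := M)
  refine ⟨hZ0, ?_⟩
  rw [sum_add_distrib]
  -- (4)
  have e4 : ∀ z : ℝ, r ^ t * z ≤ Z → M * (a1 ^ t * z) ≤ M * (a1 / r) ^ t * Z := by
    intro z hz
    have ha : 0 < a1 ^ t := pow_pos hP.a10 t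
    calc M * (a1 ^ t * z) = M * (a1 / r) ^ t * (r ^ t * z) := by
          rw [div_pow]; field_simp
      _ ≤ M * (a1 / r) ^ t * Z := by
          apply mul_le_mul_of_nonneg_left hz
          have : 0 < a1 / r := div_pos hP.a10 hP.r0
          positivity
  have e41 := e4 _ r1
  have e42 := e4 _ r2
  -- (5)
  have e5 : (B1.card : ℝ) ^ M * (B2.card : ℝ) ^ M * (nu * W.card) ^ t ≤ e0 * Z := by
    have h5 := hP.size p1 p2 hp1 hp1' hp2 hp2'
    calc (B1.card : ℝ) ^ M * (B2.card : ℝ) ^ M * (nu * W.card) ^ t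
        = nu ^ t * ((B1.card : ℝ) ^ M * (B2.card : ℝ) ^ M * (W.card : ℝ) ^ t) := by
          rw [mul_pow]; ring
      _ ≤ (e0 * (1 - θ) ^ t * (((p1 - ρ) * (p2 - ρ)) ^ t) ^ M) *
          ((B1.card : ℝ) ^ M * (B2.card : ℝ) ^ M * (W.card : ℝ) ^ t) :=
          mul_le_mul_of_nonneg_right h5 (by positivity)
      _ = e0 * ((1 - θ) ^ t * (W.card : ℝ) ^ t *
          (((p1 - ρ) ^ t * B1.card) ^ M * ((p2 - ρ) ^ t * B2.card) ^ M)) := by
          simp only [mul_pow]; ring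
      _ ≤ e0 * Z := mul_le_mul_of_nonneg_left low hP.e00
  -- (6)
  have e61 : ((1 / 8 : ℝ) ^ t * B1.card) ^ M * Zm T U1 W U2 B1 B2 t 0 M ≤ e0 * Z := by
    have h6 := hP.small p1 p2 hp1 hp1' hp2 hp2'
    calc ((1 / 8 : ℝ) ^ t * B1.card) ^ M * Zm T U1 W U2 B1 B2 t 0 M
        ≤ ((1 / 8 : ℝ) ^ t * B1.card) ^ M *
          (2 * (B2.card : ℝ) ^ M * (W.card : ℝ) ^ t * ((p2 + 2 * τ) ^ t) ^ M) :=
          mul_le_mul_of_nonneg_left up (by positivity)
      _ = (2 * ((1 / 8 * (p2 + 2 * τ)) ^ t) ^ M) *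
          ((B1.card : ℝ) ^ M * (B2.card : ℝ) ^ M * (W.card : ℝ) ^ t) := by
          simp only [mul_pow]; ring
      _ ≤ (e0 * (1 - θ) ^ t * (((p1 - ρ) * (p2 - ρ)) ^ t) ^ M) *
          ((B1.card : ℝ) ^ M * (B2.card : ℝ) ^ M * (W.card : ℝ) ^ t) :=
          mul_le_mul_of_nonneg_right h6 (by positivity)
      _ = e0 * ((1 - θ) ^ t * (W.card : ℝ) ^ t *
          (((p1 - ρ) ^ t * B1.card) ^ M * ((p2 - ρ) ^ t * B2.card) ^ M)) := by
          simp only [mul_pow]; ring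
      _ ≤ e0 * Z := mul_le_mul_of_nonneg_left low hP.e00
  have e62 : ((1 / 8 : ℝ) ^ t * B2.card) ^ M * Zm T U1 W U2 B1 B2 t M 0 ≤ e0 * Z := by
    have h6 := hP.small p2 p1 hp2 hp2' hp1 hp1'
    calc ((1 / 8 : ℝ) ^ t * B2.card) ^ M * Zm T U1 W U2 B1 B2 t M 0
        ≤ ((1 / 8 : ℝ) ^ t * B2.card) ^ M *
          (2 * (B1.card : ℝ) ^ M * (W.card : ℝ) ^ t * ((p1 + 2 * τ) ^ t) ^ M) :=
          mul_le_mul_of_nonneg_left up' (by positivity)
      _ = (2 * ((1 / 8 * (p1 + 2 * τ)) ^ t) ^ M) *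
          ((B1.card : ℝ) ^ M * (B2.card : ℝ) ^ M * (W.card : ℝ) ^ t) := by
          simp only [mul_pow]; ring
      _ ≤ (e0 * (1 - θ) ^ t * (((p2 - ρ) * (p1 - ρ)) ^ t) ^ M) *
          ((B1.card : ℝ) ^ M * (B2.card : ℝ) ^ M * (W.card : ℝ) ^ t) :=
          mul_le_mul_of_nonneg_right h6 (by positivity)
      _ = e0 * ((1 - θ) ^ t * (W.card : ℝ) ^ t *
          (((p1 - ρ) ^ t * B1.card) ^ M * ((p2 - ρ) ^ t * B2.card) ^ M)) := by
          simp only [mul_pow]; ring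
      _ ≤ e0 * Z := mul_le_mul_of_nonneg_left low hP.e00
  have e7 : (2 * M * (a1 / r) ^ t + 3 * e0) * Z =
      (e0 * Z + M * (a1 / r) ^ t * Z + M * (a1 / r) ^ t * Z) + (e0 * Z + e0 * Z) := by ring
  rw [e7]
  exact add_le_add (hb.trans (add_le_add (add_le_add e5 e41) e42)) (hsm.trans (add_le_add e61 e62))

end Pool.Agent.HC
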