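import Pool.Agent.HC.Defs

/-!
# HC block G2 : upper bound for the moments of one side (note 2854, 3 (2))

Let `S k = ∑ β ∈ B2^k, #(innT T W β)^t`, `P = (p2 + 2 τ)^t`. Double counting: the left side is `S M`
(`x ∈ W^t`, `β ∈ B2^M`, all `T (x i) (β j)`). `S (k+1) ≤ #B2 * P * S k + #B2^(k+1) * (lam * #W)^t`:
write `A = innT T W β`, `innT_cons`; if `lam * #W ≤ #A`, at most `lam * #U2` of the `b ∈ U2` have
`#(inn T A b) > (p2 + τ) * #A` (`Link.high_in`), so
`∑ b ∈ B2, #(inn T A b)^t ≤ #A^t * #B2 * ((p2+τ)^t + lam * 4^t) ≤ #A^t * #B2 * P`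
(`(p2+2τ)^t - (p2+τ)^t ≥ τ (1/4)^(t-1)`); otherwise it is at most `#B2 * (lam * #W)^t`.
So `S M ≤ #B2^M #W^t (P^M + lam^t ∑_{j<M} P^j)` and the second term is at most the first by `hlM`
(case `P ≥ 1` and case `P < 1`, `P ≥ (1/4)^t`).
-/

namespace Pool.Agent.HC

open Finset Classical
open Pool.Agent.H97.QD

variable {V : Type}

/-- the moment sum over the tuples of `B` -/
private noncomputable def mom (T : V → V → Prop) (W B : Finset V) (t k : ℕ) : ℝ :=
  ∑ β ∈ Fintype.piFinset (fun _ : Fin k => B), ((innT T W β).card : ℝ) ^ t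

private lemma double_count (T : V → V → Prop) (W B : Finset V) (t M : ℕ) :
    ∑ x ∈ Fintype.piFinset (fun _ : Fin t => W), ((outT T B x).card : ℝ) ^ M = mom T W B t M := by
  have h1 : ∀ x : Fin t → V, ((outT T B x).card : ℝ) ^ M =
      ∑ β ∈ Fintype.piFinset (fun _ : Fin M => B),
        if (∀ j s, T (x s) (β j)) then (1 : ℝ) else 0 := by
    intro x
    rw [← Nat.cast_pow]
    rw [← Fintype.card_piFinset_const (outT T B x) M]
    rw [Finset.sum_boole]
    congr 2
    ext β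
    simp only [Fintype.mem_piFinset, Finset.mem_filter, mem_outT]
    constructor
    · intro h
      exact ⟨fun j => (h j).1, fun j s => (h j).2 s⟩
    · rintro ⟨h, h'⟩ j
      exact ⟨h j, h' j⟩
  have h2 : ∀ β : Fin M → V, ((innT T W β).card : ℝ) ^ t =
      ∑ x ∈ Fintype.piFinset (fun _ : Fin t => W),
        if (∀ j s, T (x s) (β j)) then (1 : ℝ) else 0 := by
    intro β
    rw [← Nat.cast_pow]
    rw [← Fintype.card_piFinset_const (innT T W β) t]
    rw [Finset.sum_boole]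
    congr 2
    ext x
    simp only [Fintype.mem_piFinset, Finset.mem_filter, mem_innT]
    constructor
    · intro h
      exact ⟨fun j => (h j).1, fun j s => (h s).2 j⟩
    · rintro ⟨h, h'⟩ j
      exact ⟨h j, fun s => h' s j⟩
  unfold mom
  rw [Finset.sum_congr rfl fun x _ => h1 x, Finset.sum_congr rfl fun β _ => h2 β,
    Finset.sum_comm]

private lemma mom_zero (T : V → V → Prop) (W B : Finset V) (t : ℕ) :
    mom T W B t 0 = (W.card : ℝ) ^ t := by
  unfold mom
  rw [Fintype.piFinset_of_isEmpty, Finset.univ_unique, Finset.sum_singleton]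
  congr 3
  ext a
  rw [mem_innT]
  simp

private lemma mom_succ (T : V → V → Prop) (W B : Finset V) (t k : ℕ) :
    mom T W B t (k + 1) = ∑ β ∈ Fintype.piFinset (fun _ : Fin k => B),
      ∑ b ∈ B, ((inn T (innT T W β) b).card : ℝ) ^ t := by
  unfold mom
  rw [Finset.sum_sigma' (Fintype.piFinset (fun _ : Fin k => B)) (fun _ => B)]
  symm
  refine Finset.sum_nbij' (fun p => (Fin.cons p.2 p.1 : Fin (k + 1) → V))
    (fun f => ⟨Fin.tail f, f 0⟩) ?_ ?_ ?_ ?_ ?_
  · rintro ⟨β, b⟩ hp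
    rw [Finset.mem_sigma] at hp
    rw [Fintype.mem_piFinset, Fin.forall_fin_succ]
    simp only [Fin.cons_zero, Fin.cons_succ]
    exact ⟨hp.2, fun i => (Fintype.mem_piFinset.1 hp.1) i⟩
  · intro f hf
    rw [Fintype.mem_piFinset] at hf
    rw [Finset.mem_sigma, Fintype.mem_piFinset]
    exact ⟨fun i => hf i.succ, hf 0⟩
  · rintro ⟨β, b⟩ _
    simp
  · intro f _
    simp
  · rintro ⟨β, b⟩ _
    simp only
    rw [innT_cons]

private lemma pow_gap {p τ lam : ℝ} {t : ℕ} (ht : 0 < t) (hτ : 0 < τ) (hp : 1 / 4 ≤ p)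
    (hlt : lam ≤ τ * (1 / 16) ^ t) :
    (p + τ) ^ t + lam * 4 ^ t ≤ (p + 2 * τ) ^ t := by
  have h1 : lam * 4 ^ t ≤ τ * (1 / 4) ^ t := by
    calc lam * 4 ^ t ≤ (τ * (1 / 16) ^ t) * 4 ^ t := by gcongr
      _ = τ * ((1 / 16) * 4) ^ t := by rw [mul_pow]; ring
      _ = τ * (1 / 4) ^ t := by norm_num
  obtain ⟨s, rfl⟩ : ∃ s, t = s + 1 := ⟨t - 1, by omega⟩
  have h2 : (p + τ) ^ (s + 1) + τ * (1 / 4) ^ (s + 1) ≤ (p + 2 * τ) ^ (s + 1) := by
    have a1 : (p + τ) ^ s ≤ (p + 2 * τ) ^ s := by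
      apply pow_le_pow_left₀ (by linarith); linarith
    have a2 : (1 / 4 : ℝ) ^ (s + 1) ≤ (p + τ) ^ s := by
      calc (1 / 4 : ℝ) ^ (s + 1) ≤ (1 / 4) ^ s :=
            pow_le_pow_of_le_one (by norm_num) (by norm_num) (by omega)
        _ ≤ (p + τ) ^ s := pow_le_pow_left₀ (by norm_num) (by linarith) _
    calc (p + τ) ^ (s + 1) + τ * (1 / 4) ^ (s + 1)
        ≤ (p + τ) ^ (s + 1) + τ * (p + τ) ^ s := by gcongr
      _ = (p + τ) ^ s * (p + 2 * τ) := by ring
      _ ≤ (p + 2 * τ) ^ s * (p + 2 * τ) := by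
          apply mul_le_mul_of_nonneg_right a1; linarith
      _ = (p + 2 * τ) ^ (s + 1) := by ring
  linarith

private lemma step_bound {T : V → V → Prop} {W U2 B2 : Finset V} {p2 τ lam : ℝ} {t : ℕ}
    (h2 : Link T W U2 p2 τ lam) (ht : 0 < t) (hτ : 0 < τ) (hlam : 0 < lam)
    (hp2 : 1 / 4 ≤ p2) (hlt : lam ≤ τ * (1 / 16) ^ t) (hB2 : B2 ⊆ U2)
    (hB2c : (1 / 4 : ℝ) ^ t * U2.card ≤ B2.card) (A : Finset V) (hA : A ⊆ W) :
    ∑ b ∈ B2, ((inn T A b).card : ℝ) ^ t ≤
      B2.card * (p2 + 2 * τ) ^ t * (A.card : ℝ) ^ t + B2.card * (lam * W.card) ^ t := by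
  have hB0 : (0 : ℝ) ≤ B2.card := Nat.cast_nonneg _
  have hW0 : (0 : ℝ) ≤ W.card := Nat.cast_nonneg _
  have hA0 : (0 : ℝ) ≤ A.card := Nat.cast_nonneg _
  have hP : (0 : ℝ) ≤ (p2 + 2 * τ) ^ t := by apply pow_nonneg; linarith
  have hinn : ∀ b, ((inn T A b).card : ℝ) ≤ A.card := fun b => by
    exact_mod_cast card_inn_le T A b
  by_cases hc : lam * W.card ≤ A.card
  · rcases A.eq_empty_or_nonempty with hAe | hAne
    · have : ∀ b ∈ B2, ((inn T A b).card : ℝ) ^ t = 0 := by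
        intro b _
        have := hinn b
        rw [hAe] at this ⊢
        have h0 : ((inn T (∅ : Finset V) b).card : ℝ) = 0 := by
          have h00 : (0 : ℝ) ≤ (inn T (∅ : Finset V) b).card := Nat.cast_nonneg _
          simp only [Finset.card_empty, Nat.cast_zero] at this
          linarith
        rw [h0, zero_pow ht.ne']
      rw [Finset.sum_eq_zero this]
      positivity
    · have hhigh := h2.high_in hlam.le hA hAne hc
      set Hi := B2.filter (fun x => (p2 + τ) * A.card < ((inn T A x).card : ℝ)) with hHi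
      have hHic : (Hi.card : ℝ) ≤ lam * U2.card := by
        refine le_trans ?_ hhigh
        exact_mod_cast Finset.card_le_card (Finset.filter_subset_filter _ hB2)
      have hU : (U2.card : ℝ) ≤ 4 ^ t * B2.card := by
        have := mul_le_mul_of_nonneg_left hB2c (show (0 : ℝ) ≤ 4 ^ t by positivity)
        rw [← mul_assoc, ← mul_pow] at this
        norm_num at this
        exact this
      have hHic2 : (Hi.card : ℝ) ≤ lam * 4 ^ t * B2.card := by
        calc (Hi.card : ℝ) ≤ lam * U2.card := hHic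
          _ ≤ lam * (4 ^ t * B2.card) := by gcongr
          _ = lam * 4 ^ t * B2.card := by ring
      have hsplit : ∑ b ∈ B2, ((inn T A b).card : ℝ) ^ t =
          ∑ b ∈ Hi, ((inn T A b).card : ℝ) ^ t +
          ∑ b ∈ B2.filter (fun x => ¬ (p2 + τ) * A.card < ((inn T A x).card : ℝ)),
            ((inn T A b).card : ℝ) ^ t := by
        rw [hHi, Finset.sum_filter_add_sum_filter_not]
      have hs1 : ∑ b ∈ Hi, ((inn T A b).card : ℝ) ^ t ≤ lam * 4 ^ t * B2.card * (A.card : ℝ) ^ t := by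
        calc ∑ b ∈ Hi, ((inn T A b).card : ℝ) ^ t ≤ ∑ _b ∈ Hi, (A.card : ℝ) ^ t := by
              apply Finset.sum_le_sum
              intro b _
              exact pow_le_pow_left₀ (Nat.cast_nonneg _) (hinn b) _
          _ = Hi.card * (A.card : ℝ) ^ t := by rw [Finset.sum_const, nsmul_eq_mul]
          _ ≤ lam * 4 ^ t * B2.card * (A.card : ℝ) ^ t := by gcongr
      have hs2 : ∑ b ∈ B2.filter (fun x => ¬ (p2 + τ) * A.card < ((inn T A x).card : ℝ)),
            ((inn T A b).card : ℝ) ^ t ≤ B2.card * ((p2 + τ) ^ t * (A.card : ℝ) ^ t) := by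
        calc ∑ b ∈ B2.filter (fun x => ¬ (p2 + τ) * A.card < ((inn T A x).card : ℝ)),
            ((inn T A b).card : ℝ) ^ t
            ≤ ∑ _b ∈ B2.filter (fun x => ¬ (p2 + τ) * A.card < ((inn T A x).card : ℝ)),
              ((p2 + τ) ^ t * (A.card : ℝ) ^ t) := by
              apply Finset.sum_le_sum
              intro b hb
              rw [Finset.mem_filter, not_lt] at hb
              rw [← mul_pow]
              exact pow_le_pow_left₀ (Nat.cast_nonneg _) hb.2 _
          _ = (B2.filter (fun x => ¬ (p2 + τ) * A.card < ((inn T A x).card : ℝ))).card *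
              ((p2 + τ) ^ t * (A.card : ℝ) ^ t) := by rw [Finset.sum_const, nsmul_eq_mul]
          _ ≤ B2.card * ((p2 + τ) ^ t * (A.card : ℝ) ^ t) := by
              have hpp : (0 : ℝ) ≤ (p2 + τ) ^ t * (A.card : ℝ) ^ t := by
                apply mul_nonneg (pow_nonneg (by linarith) _) (by positivity)
              apply mul_le_mul_of_nonneg_right _ hpp
              exact_mod_cast Finset.card_le_card (Finset.filter_subset _ _)
      have hgap := pow_gap ht hτ hp2 hlt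
      have hAt : (0 : ℝ) ≤ (A.card : ℝ) ^ t := by positivity
      calc ∑ b ∈ B2, ((inn T A b).card : ℝ) ^ t
          ≤ lam * 4 ^ t * B2.card * (A.card : ℝ) ^ t +
            B2.card * ((p2 + τ) ^ t * (A.card : ℝ) ^ t) := by rw [hsplit]; exact add_le_add hs1 hs2
        _ = B2.card * ((p2 + τ) ^ t + lam * 4 ^ t) * (A.card : ℝ) ^ t := by ring
        _ ≤ B2.card * (p2 + 2 * τ) ^ t * (A.card : ℝ) ^ t := by gcongr
        _ ≤ B2.card * (p2 + 2 * τ) ^ t * (A.card : ℝ) ^ t + B2.card * (lam * W.card) ^ t := by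
            have : (0 : ℝ) ≤ B2.card * (lam * W.card) ^ t := by positivity
            linarith
  · push Not at hc
    calc ∑ b ∈ B2, ((inn T A b).card : ℝ) ^ t ≤ ∑ _b ∈ B2, (lam * W.card) ^ t := by
          apply Finset.sum_le_sum
          intro b _
          exact pow_le_pow_left₀ (Nat.cast_nonneg _) ((hinn b).trans hc.le) _
      _ = B2.card * (lam * W.card) ^ t := by rw [Finset.sum_const, nsmul_eq_mul]
      _ ≤ B2.card * (p2 + 2 * τ) ^ t * (A.card : ℝ) ^ t + B2.card * (lam * W.card) ^ t := by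
          have : (0 : ℝ) ≤ B2.card * (p2 + 2 * τ) ^ t * (A.card : ℝ) ^ t :=
            mul_nonneg (mul_nonneg hB0 hP) (by positivity)
          linarith

private lemma mom_rec {T : V → V → Prop} {W U2 B2 : Finset V} {p2 τ lam : ℝ} {t : ℕ}
    (h2 : Link T W U2 p2 τ lam) (ht : 0 < t) (hτ : 0 < τ) (hlam : 0 < lam)
    (hp2 : 1 / 4 ≤ p2) (hlt : lam ≤ τ * (1 / 16) ^ t) (hB2 : B2 ⊆ U2)
    (hB2c : (1 / 4 : ℝ) ^ t * U2.card ≤ B2.card) (k : ℕ) :
    mom T W B2 t (k + 1) ≤ B2.card * (p2 + 2 * τ) ^ t * mom T W B2 t k +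
      (B2.card : ℝ) ^ (k + 1) * (lam * W.card) ^ t := by
  rw [mom_succ]
  calc ∑ β ∈ Fintype.piFinset (fun _ : Fin k => B2),
        ∑ b ∈ B2, ((inn T (innT T W β) b).card : ℝ) ^ t
      ≤ ∑ β ∈ Fintype.piFinset (fun _ : Fin k => B2),
        (B2.card * (p2 + 2 * τ) ^ t * ((innT T W β).card : ℝ) ^ t +
          B2.card * (lam * W.card) ^ t) := by
        apply Finset.sum_le_sum
        intro β _
        exact step_bound h2 ht hτ hlam hp2 hlt hB2 hB2c _ (innT_subset _ _ _)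
    _ = B2.card * (p2 + 2 * τ) ^ t * mom T W B2 t k +
      (B2.card : ℝ) ^ (k + 1) * (lam * W.card) ^ t := by
        rw [Finset.sum_add_distrib, ← Finset.mul_sum, Finset.sum_const, nsmul_eq_mul,
          Fintype.card_piFinset_const, Nat.cast_pow]
        unfold mom
        ring

private lemma mom_le {T : V → V → Prop} {W U2 B2 : Finset V} {p2 τ lam : ℝ} {t : ℕ}
    (h2 : Link T W U2 p2 τ lam) (ht : 0 < t) (hτ : 0 < τ) (hlam : 0 < lam)
    (hp2 : 1 / 4 ≤ p2) (hlt : lam ≤ τ * (1 / 16) ^ t) (hB2 : B2 ⊆ U2)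
    (hB2c : (1 / 4 : ℝ) ^ t * U2.card ≤ B2.card) (k : ℕ) :
    mom T W B2 t k ≤ (B2.card : ℝ) ^ k * (W.card : ℝ) ^ t *
      (((p2 + 2 * τ) ^ t) ^ k + lam ^ t * ∑ j ∈ Finset.range k, ((p2 + 2 * τ) ^ t) ^ j) := by
  induction k with
  | zero => rw [mom_zero]; simp
  | succ k ih =>
      have hP : (0 : ℝ) ≤ (p2 + 2 * τ) ^ t := by apply pow_nonneg; linarith
      set P := (p2 + 2 * τ) ^ t with hPdef
      have h1 := mom_rec h2 ht hτ hlam hp2 hlt hB2 hB2c k
      rw [← hPdef] at h1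
      have hB0 : (0 : ℝ) ≤ B2.card := Nat.cast_nonneg _
      calc mom T W B2 t (k + 1)
          ≤ B2.card * P * mom T W B2 t k + (B2.card : ℝ) ^ (k + 1) * (lam * W.card) ^ t := h1
        _ ≤ B2.card * P * ((B2.card : ℝ) ^ k * (W.card : ℝ) ^ t *
            (P ^ k + lam ^ t * ∑ j ∈ Finset.range k, P ^ j)) +
            (B2.card : ℝ) ^ (k + 1) * (lam * W.card) ^ t := by gcongr
        _ = (B2.card : ℝ) ^ (k + 1) * (W.card : ℝ) ^ t *
            (P ^ (k + 1) + lam ^ t * (∑ j ∈ Finset.range k, P ^ (j + 1) + 1)) := by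
            rw [mul_pow lam]
            have : ∑ j ∈ Finset.range k, P ^ (j + 1) = P * ∑ j ∈ Finset.range k, P ^ j := by
              rw [Finset.mul_sum]
              exact Finset.sum_congr rfl fun j _ => by ring
            rw [this]
            ring
        _ = _ := by
            rw [Finset.sum_range_succ' (fun j => P ^ j) k]
            simp

theorem site_up {T : V → V → Prop} {W U2 B2 : Finset V} {p2 τ lam : ℝ} {t M : ℕ}
    (h2 : Link T W U2 p2 τ lam) (ht : 0 < t) (hτ : 0 < τ) (hτ1 : τ ≤ 1) (hlam : 0 < lam)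
    (hp2 : 1 / 4 ≤ p2) (hlt : lam ≤ τ * (1 / 16) ^ t)
    (hlM : (M : ℝ) * lam ^ t ≤ (1 / 4) ^ (t * M)) (hU2 : U2.Nonempty) (hB2 : B2 ⊆ U2)
    (hB2c : (1 / 4 : ℝ) ^ t * U2.card ≤ B2.card) :
    ∑ x ∈ Fintype.piFinset (fun _ : Fin t => W), ((outT T B2 x).card : ℝ) ^ M ≤
      2 * (B2.card : ℝ) ^ M * (W.card : ℝ) ^ t * ((p2 + 2 * τ) ^ t) ^ M := by
  rw [double_count]
  have h := mom_le h2 ht hτ hlam hp2 hlt hB2 hB2c M
  have hP : (1 / 4 : ℝ) ^ t ≤ (p2 + 2 * τ) ^ t :=
    pow_le_pow_left₀ (by norm_num) (by linarith) _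
  set P := (p2 + 2 * τ) ^ t with hPdef
  have hP0 : (0 : ℝ) ≤ P := le_trans (by positivity) hP
  have hkey : lam ^ t * ∑ j ∈ Finset.range M, P ^ j ≤ P ^ M := by
    rcases Nat.eq_zero_or_pos M with rfl | hM
    · simp
    · have hM' : (0 : ℝ) < M := by exact_mod_cast hM
      have hj : ∀ j ∈ Finset.range M, (1 / 4 : ℝ) ^ (t * M) * P ^ j ≤ P ^ M := by
        intro j hj
        rw [Finset.mem_range] at hj
        calc (1 / 4 : ℝ) ^ (t * M) * P ^ j ≤ (1 / 4 : ℝ) ^ (t * (M - j)) * P ^ j := by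
              apply mul_le_mul_of_nonneg_right _ (pow_nonneg hP0 _)
              exact pow_le_pow_of_le_one (by norm_num) (by norm_num)
                (Nat.mul_le_mul_left _ (Nat.sub_le _ _))
          _ = ((1 / 4 : ℝ) ^ t) ^ (M - j) * P ^ j := by rw [pow_mul]
          _ ≤ P ^ (M - j) * P ^ j := by
              apply mul_le_mul_of_nonneg_right _ (pow_nonneg hP0 _)
              exact pow_le_pow_left₀ (by positivity) hP _
          _ = P ^ M := by rw [← pow_add]; congr 1; omega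
      have hsum : (1 / 4 : ℝ) ^ (t * M) * ∑ j ∈ Finset.range M, P ^ j ≤ M * P ^ M := by
        rw [Finset.mul_sum]
        calc ∑ j ∈ Finset.range M, (1 / 4 : ℝ) ^ (t * M) * P ^ j
            ≤ ∑ _j ∈ Finset.range M, P ^ M := Finset.sum_le_sum hj
          _ = M * P ^ M := by rw [Finset.sum_const, Finset.card_range, nsmul_eq_mul]
      have hs0 : (0 : ℝ) ≤ ∑ j ∈ Finset.range M, P ^ j :=
        Finset.sum_nonneg fun j _ => pow_nonneg hP0 _
      have h3 : (M : ℝ) * (lam ^ t * ∑ j ∈ Finset.range M, P ^ j) ≤ M * P ^ M := by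
        calc (M : ℝ) * (lam ^ t * ∑ j ∈ Finset.range M, P ^ j)
            = (M * lam ^ t) * ∑ j ∈ Finset.range M, P ^ j := by ring
          _ ≤ (1 / 4 : ℝ) ^ (t * M) * ∑ j ∈ Finset.range M, P ^ j := by gcongr
          _ ≤ M * P ^ M := hsum
      exact le_of_mul_le_mul_left h3 hM'
  calc mom T W B2 t M ≤ (B2.card : ℝ) ^ M * (W.card : ℝ) ^ t *
      (P ^ M + lam ^ t * ∑ j ∈ Finset.range M, P ^ j) := h
    _ ≤ (B2.card : ℝ) ^ M * (W.card : ℝ) ^ t * (P ^ M + P ^ M) := by gcongr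
    _ = 2 * (B2.card : ℝ) ^ M * (W.card : ℝ) ^ t * P ^ M := by ring

private lemma inn_rev (T : V → V → Prop) (A : Finset V) (b : V) :
    inn (fun a b => T b a) A b = out T A b := by
  ext a
  rw [mem_inn, mem_out]

private lemma out_rev (T : V → V → Prop) (A : Finset V) (b : V) :
    out (fun a b => T b a) A b = inn T A b := by
  ext a
  rw [mem_inn, mem_out]

private lemma e_rev (T : V → V → Prop) (A B : Finset V) :
    e (fun a b => T b a) A B = e T B A := by
  rw [e_eq T B A]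
  unfold e
  exact Finset.sum_congr rfl fun a _ => by rw [out_rev]

private lemma link_rev {T : V → V → Prop} {A B : Finset V} {p τ lam : ℝ}
    (h : Link T A B p τ lam) : Link (fun a b => T b a) B A p τ lam := by
  refine ⟨?_, ?_, ?_⟩
  · intro y hy
    rw [inn_rev]
    exact h.hout y hy
  · intro w hw
    rw [out_rev]
    exact h.hin w hw
  · intro A' hA' B' hB' hA'c hB'c
    rw [e_rev]
    have := h.reg B' hB' A' hA' hB'c hA'c
    linarith [mul_comm (B'.card : ℝ) A'.card]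

/-- The same for the other side: apply `site_up` to the reversed relation. -/
theorem site_up' {T : V → V → Prop} {W U1 B1 : Finset V} {p1 τ lam : ℝ} {t M : ℕ}
    (h1 : Link T U1 W p1 τ lam) (ht : 0 < t) (hτ : 0 < τ) (hτ1 : τ ≤ 1) (hlam : 0 < lam)
    (hp1 : 1 / 4 ≤ p1) (hlt : lam ≤ τ * (1 / 16) ^ t)
    (hlM : (M : ℝ) * lam ^ t ≤ (1 / 4) ^ (t * M)) (hU1 : U1.Nonempty) (hB1 : B1 ⊆ U1)
    (hB1c : (1 / 4 : ℝ) ^ t * U1.card ≤ B1.card) :
    ∑ x ∈ Fintype.piFinset (fun _ : Fin t => W), ((innT T B1 x).card : ℝ) ^ M ≤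
      2 * (B1.card : ℝ) ^ M * (W.card : ℝ) ^ t * ((p1 + 2 * τ) ^ t) ^ M := by
  have h := site_up (link_rev h1) ht hτ hτ1 hlam hp1 hlt hlM hU1 hB1 hB1c
  have e1 : ∀ x : Fin t → V, outT (fun a b => T b a) B1 x = innT T B1 x := by
    intro x
    ext b
    rw [mem_outT, mem_innT]
  simp only [e1] at h
  exact h

end Pool.Agent.HC
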