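import Pool.Agent.HC.SiteLow
import Pool.Agent.HC.SiteUp

/-!
# HC block G4a : moments of one site (note 2854, 3 (3)) (owner: helper62)

`Zm k l = ∑ x ∈ TT, #(innT T B1 x)^k * #(outT T B2 x)^l`.
`zpos`: `site_low` (those tuples are in `TT` since `1/4 ≤ p - ρ`).
`zratio1`: `M * c * X^(M-1) ≤ (M-1) * X^M + c^M` (Bernoulli) with `c = Rt * #B1`, so
`c * Z (M-1) M ≤ ((M-1) * Z M M + c^M * Z 0 M) / M ≤ Z M M`, since `c^M * Z 0 M ≤ Z M M` by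
`low`, `up` and `hr`. `zratio2`: the same for the other side.
-/

namespace Pool.Agent.HC

open Finset Classical
open Pool.Agent.H97.QD

variable {V : Type}

/-- the moments of one site -/
noncomputable def Zm (T : V → V → Prop) (U1 W U2 B1 B2 : Finset V) (t k l : ℕ) : ℝ :=
  ∑ x ∈ TT T U1 W U2 t, ((innT T B1 x).card : ℝ) ^ k * ((outT T B2 x).card : ℝ) ^ l

theorem zpos {T : V → V → Prop} {U1 W U2 B1 B2 : Finset V} {p1 p2 τ lam ρ θ : ℝ} {t : ℕ} (M : ℕ)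
    (h1 : Link T U1 W p1 τ lam) (h2 : Link T W U2 p2 τ lam)
    (hτ : 0 ≤ τ) (hlam : 0 < lam) (hρ : 0 < ρ) (hp1 : 1 / 4 ≤ p1 - ρ) (hp2 : 1 / 4 ≤ p2 - ρ)
    (hθ : 4 * (2 * τ + lam) ≤ θ * (ρ + τ)) (hθ1 : θ ≤ 1) (hlt : lam ≤ (1 / 16) ^ t)
    (hU1 : U1.Nonempty) (hU2 : U2.Nonempty) (hB1 : B1 ⊆ U1) (hB2 : B2 ⊆ U2)
    (hB1c : (1 / 4 : ℝ) ^ t * U1.card ≤ B1.card) (hB2c : (1 / 4 : ℝ) ^ t * U2.card ≤ B2.card) :
    ((1 - θ) * W.card) ^ t * (((p1 - ρ) ^ t * B1.card) ^ M * ((p2 - ρ) ^ t * B2.card) ^ M) ≤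
      Zm T U1 W U2 B1 B2 t M M := by
  have hlow := site_low h1 h2 hτ hlam hρ hp1 hp2 hθ hθ1 hlt hU1 hU2 hB1 hB2 hB1c hB2c
  set G := ((Fintype.piFinset (fun _ : Fin t => W)).filter fun x =>
      ((p1 - ρ) ^ t * B1.card ≤ (innT T B1 x).card) ∧
      ((p1 - ρ) ^ t * U1.card ≤ (innT T U1 x).card) ∧
      ((p2 - ρ) ^ t * B2.card ≤ (outT T B2 x).card) ∧
      ((p2 - ρ) ^ t * U2.card ≤ (outT T U2 x).card)) with hG
  have hq1 : (1 / 4 : ℝ) ^ t ≤ (p1 - ρ) ^ t := pow_le_pow_left₀ (by norm_num) hp1 t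
  have hq2 : (1 / 4 : ℝ) ^ t ≤ (p2 - ρ) ^ t := pow_le_pow_left₀ (by norm_num) hp2 t
  have h01 : (0 : ℝ) ≤ (p1 - ρ) ^ t := le_trans (by positivity) hq1
  have h02 : (0 : ℝ) ≤ (p2 - ρ) ^ t := le_trans (by positivity) hq2
  have hsub : G ⊆ TT T U1 W U2 t := by
    intro x hx
    rw [hG, mem_filter] at hx
    obtain ⟨hx1, -, hx2, -, hx3⟩ := hx
    unfold TT
    rw [mem_filter]
    refine ⟨hx1, ?_, ?_⟩
    · exact (mul_le_mul_of_nonneg_right hq1 (Nat.cast_nonneg _)).trans hx2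
    · exact (mul_le_mul_of_nonneg_right hq2 (Nat.cast_nonneg _)).trans hx3
  have hone : ∀ x ∈ G, ((p1 - ρ) ^ t * B1.card) ^ M * ((p2 - ρ) ^ t * B2.card) ^ M ≤
      ((innT T B1 x).card : ℝ) ^ M * ((outT T B2 x).card : ℝ) ^ M := by
    intro x hx
    rw [hG, mem_filter] at hx
    obtain ⟨-, hx2, -, hx3, -⟩ := hx
    have e1 : (0 : ℝ) ≤ (p1 - ρ) ^ t * B1.card := mul_nonneg h01 (Nat.cast_nonneg _)
    have e2 : (0 : ℝ) ≤ (p2 - ρ) ^ t * B2.card := mul_nonneg h02 (Nat.cast_nonneg _)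
    exact mul_le_mul (pow_le_pow_left₀ e1 hx2 M) (pow_le_pow_left₀ e2 hx3 M) (pow_nonneg e2 M)
      (pow_nonneg (Nat.cast_nonneg _) M)
  have hc0 : 0 ≤ ((p1 - ρ) ^ t * B1.card) ^ M * ((p2 - ρ) ^ t * B2.card) ^ M :=
    mul_nonneg (pow_nonneg (mul_nonneg h01 (Nat.cast_nonneg _)) M)
      (pow_nonneg (mul_nonneg h02 (Nat.cast_nonneg _)) M)
  calc ((1 - θ) * W.card) ^ t *
        (((p1 - ρ) ^ t * B1.card) ^ M * ((p2 - ρ) ^ t * B2.card) ^ M)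
      ≤ (G.card : ℝ) * (((p1 - ρ) ^ t * B1.card) ^ M * ((p2 - ρ) ^ t * B2.card) ^ M) :=
        mul_le_mul_of_nonneg_right hlow hc0
    _ = ∑ x ∈ G, ((p1 - ρ) ^ t * B1.card) ^ M * ((p2 - ρ) ^ t * B2.card) ^ M := by
        rw [sum_const, nsmul_eq_mul]
    _ ≤ ∑ x ∈ G, ((innT T B1 x).card : ℝ) ^ M * ((outT T B2 x).card : ℝ) ^ M := sum_le_sum hone
    _ ≤ Zm T U1 W U2 B1 B2 t M M :=
        sum_le_sum_of_subset_of_nonneg hsub fun x _ _ => by positivity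

theorem zup {T : V → V → Prop} {U1 W U2 B1 B2 : Finset V} {p2 τ lam : ℝ} {t M : ℕ}
    (h2 : Link T W U2 p2 τ lam) (ht : 0 < t) (hτ : 0 < τ) (hτ1 : τ ≤ 1) (hlam : 0 < lam)
    (hp2 : 1 / 4 ≤ p2) (hlt : lam ≤ τ * (1 / 16) ^ t)
    (hlM : (M : ℝ) * lam ^ t ≤ (1 / 4) ^ (t * M)) (hU2 : U2.Nonempty) (hB2 : B2 ⊆ U2)
    (hB2c : (1 / 4 : ℝ) ^ t * U2.card ≤ B2.card) :
    Zm T U1 W U2 B1 B2 t 0 M ≤
      2 * (B2.card : ℝ) ^ M * (W.card : ℝ) ^ t * ((p2 + 2 * τ) ^ t) ^ M := by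
  refine le_trans ?_ (site_up h2 ht hτ hτ1 hlam hp2 hlt hlM hU2 hB2 hB2c)
  unfold Zm
  simp only [pow_zero, one_mul]
  apply sum_le_sum_of_subset_of_nonneg
  · unfold TT
    exact filter_subset _ _
  · intro x _ _
    positivity

theorem zup' {T : V → V → Prop} {U1 W U2 B1 B2 : Finset V} {p1 τ lam : ℝ} {t M : ℕ}
    (h1 : Link T U1 W p1 τ lam) (ht : 0 < t) (hτ : 0 < τ) (hτ1 : τ ≤ 1) (hlam : 0 < lam)
    (hp1 : 1 / 4 ≤ p1) (hlt : lam ≤ τ * (1 / 16) ^ t)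
    (hlM : (M : ℝ) * lam ^ t ≤ (1 / 4) ^ (t * M)) (hU1 : U1.Nonempty) (hB1 : B1 ⊆ U1)
    (hB1c : (1 / 4 : ℝ) ^ t * U1.card ≤ B1.card) :
    Zm T U1 W U2 B1 B2 t M 0 ≤
      2 * (B1.card : ℝ) ^ M * (W.card : ℝ) ^ t * ((p1 + 2 * τ) ^ t) ^ M := by
  refine le_trans ?_ (site_up' h1 ht hτ hτ1 hlam hp1 hlt hlM hU1 hB1 hB1c)
  unfold Zm
  simp only [pow_zero, mul_one]
  apply sum_le_sum_of_subset_of_nonneg
  · unfold TT
    exact filter_subset _ _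
  · intro x _ _
    positivity

/-- Bernoulli: `M c X^(M-1) ≤ (M-1) X^M + c^M` -/
theorem young_pow {X c : ℝ} (hX : 0 ≤ X) (hc : 0 < c) {M : ℕ} (hM : 0 < M) :
    (M : ℝ) * (c * X ^ (M - 1)) ≤ ((M : ℝ) - 1) * X ^ M + c ^ M := by
  obtain ⟨m, rfl⟩ : ∃ m, M = m + 1 := ⟨M - 1, by omega⟩
  rw [Nat.add_sub_cancel]
  rcases hX.eq_or_lt with h0 | h0
  · rw [← h0]
    rcases Nat.eq_zero_or_pos m with hm | hm
    · rw [hm]
      norm_num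
    · rw [zero_pow hm.ne', zero_pow (Nat.succ_ne_zero m)]
      have : (0 : ℝ) < c ^ (m + 1) := by positivity
      linarith
  · have hb := one_add_mul_sub_le_pow (a := c / X) (by
      have : 0 < c / X := div_pos hc h0
      linarith) (m + 1)
    have hXm : 0 < X ^ (m + 1) := pow_pos h0 _
    have h3 := mul_le_mul_of_nonneg_right hb hXm.le
    rw [div_pow, div_mul_cancel₀ _ hXm.ne'] at h3
    have h4 : (1 + ((m + 1 : ℕ) : ℝ) * (c / X - 1)) * X ^ (m + 1) =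
        ((m + 1 : ℕ) : ℝ) * (c * X ^ m) - ((((m + 1 : ℕ) : ℝ)) - 1) * X ^ (m + 1) := by
      rw [pow_succ]
      field_simp
      ring
    linarith

/-- Ratio of moments, first side. `low`, `up` are `zpos`, `zup` and `hr` is `SPar.ratio`. -/
theorem zratio1 {T : V → V → Prop} {U1 W U2 B1 B2 : Finset V} {P1 P2 Q2 s Rt : ℝ} {t M : ℕ}
    (hM : 0 < M) (hW : W.Nonempty) (hB1 : B1.Nonempty) (hB2 : B2.Nonempty)
    (hP1 : 0 < P1) (hP2 : 0 < P2) (hQ2 : 0 < Q2) (hs : 0 < s) (hRt : 0 < Rt)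
    (low : s * (W.card : ℝ) ^ t * ((P1 * B1.card) ^ M * (P2 * B2.card) ^ M) ≤
      Zm T U1 W U2 B1 B2 t M M)
    (up : Zm T U1 W U2 B1 B2 t 0 M ≤ 2 * (B2.card : ℝ) ^ M * (W.card : ℝ) ^ t * Q2 ^ M)
    (hr : Rt ^ M ≤ s / 2 * (P1 * P2 / Q2) ^ M) :
    Rt * (B1.card * Zm T U1 W U2 B1 B2 t (M - 1) M) ≤ Zm T U1 W U2 B1 B2 t M M := by
  have hb1 : (0 : ℝ) < B1.card := by exact_mod_cast hB1.card_pos
  have hb2 : (0 : ℝ) < B2.card := by exact_mod_cast hB2.card_pos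
  have hMR : (0 : ℝ) < M := by exact_mod_cast hM
  set c : ℝ := Rt * B1.card with hc
  have hc0 : 0 < c := mul_pos hRt hb1
  -- pointwise
  have h1 : (M : ℝ) * (c * Zm T U1 W U2 B1 B2 t (M - 1) M) ≤
      ((M : ℝ) - 1) * Zm T U1 W U2 B1 B2 t M M + c ^ M * Zm T U1 W U2 B1 B2 t 0 M := by
    unfold Zm
    rw [mul_sum, mul_sum, mul_sum, mul_sum, ← sum_add_distrib]
    apply sum_le_sum
    intro x _
    have h2 := young_pow (X := ((innT T B1 x).card : ℝ)) (Nat.cast_nonneg _) hc0 hM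
    have h3 := mul_le_mul_of_nonneg_right h2
      (pow_nonneg (Nat.cast_nonneg (α := ℝ) (outT T B2 x).card) M)
    rw [pow_zero, one_mul]
    nlinarith [h3]
  have h2 : c ^ M * Zm T U1 W U2 B1 B2 t 0 M ≤ Zm T U1 W U2 B1 B2 t M M := by
    refine le_trans ?_ low
    calc c ^ M * Zm T U1 W U2 B1 B2 t 0 M
        ≤ c ^ M * (2 * (B2.card : ℝ) ^ M * (W.card : ℝ) ^ t * Q2 ^ M) :=
          mul_le_mul_of_nonneg_left up (by positivity)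
      _ = Rt ^ M * (2 * (B1.card : ℝ) ^ M * (B2.card : ℝ) ^ M * (W.card : ℝ) ^ t * Q2 ^ M) := by
          rw [hc, mul_pow]
          ring
      _ ≤ (s / 2 * (P1 * P2 / Q2) ^ M) *
            (2 * (B1.card : ℝ) ^ M * (B2.card : ℝ) ^ M * (W.card : ℝ) ^ t * Q2 ^ M) :=
          mul_le_mul_of_nonneg_right hr (by positivity)
      _ = s * (W.card : ℝ) ^ t * ((P1 * B1.card) ^ M * (P2 * B2.card) ^ M) := by
          rw [div_pow, mul_pow, mul_pow, mul_pow]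
          have : Q2 ^ M ≠ 0 := (pow_pos hQ2 M).ne'
          field_simp
  have h3 : (M : ℝ) * (c * Zm T U1 W U2 B1 B2 t (M - 1) M) ≤
      (M : ℝ) * Zm T U1 W U2 B1 B2 t M M := by linarith
  have h4 := le_of_mul_le_mul_left h3 hMR
  rw [← mul_assoc]
  exact h4

/-- Ratio of moments, second side. -/
theorem zratio2 {T : V → V → Prop} {U1 W U2 B1 B2 : Finset V} {P1 P2 Q1 s Rt : ℝ} {t M : ℕ}
    (hM : 0 < M) (hW : W.Nonempty) (hB1 : B1.Nonempty) (hB2 : B2.Nonempty)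
    (hP1 : 0 < P1) (hP2 : 0 < P2) (hQ1 : 0 < Q1) (hs : 0 < s) (hRt : 0 < Rt)
    (low : s * (W.card : ℝ) ^ t * ((P1 * B1.card) ^ M * (P2 * B2.card) ^ M) ≤
      Zm T U1 W U2 B1 B2 t M M)
    (up : Zm T U1 W U2 B1 B2 t M 0 ≤ 2 * (B1.card : ℝ) ^ M * (W.card : ℝ) ^ t * Q1 ^ M)
    (hr : Rt ^ M ≤ s / 2 * (P2 * P1 / Q1) ^ M) :
    Rt * (B2.card * Zm T U1 W U2 B1 B2 t M (M - 1)) ≤ Zm T U1 W U2 B1 B2 t M M := by
  have hb1 : (0 : ℝ) < B1.card := by exact_mod_cast hB1.card_pos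
  have hb2 : (0 : ℝ) < B2.card := by exact_mod_cast hB2.card_pos
  have hMR : (0 : ℝ) < M := by exact_mod_cast hM
  set c : ℝ := Rt * B2.card with hc
  have hc0 : 0 < c := mul_pos hRt hb2
  -- pointwise
  have h1 : (M : ℝ) * (c * Zm T U1 W U2 B1 B2 t M (M - 1)) ≤
      ((M : ℝ) - 1) * Zm T U1 W U2 B1 B2 t M M + c ^ M * Zm T U1 W U2 B1 B2 t M 0 := by
    unfold Zm
    rw [mul_sum, mul_sum, mul_sum, mul_sum, ← sum_add_distrib]
    apply sum_le_sum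
    intro x _
    have h2 := young_pow (X := ((outT T B2 x).card : ℝ)) (Nat.cast_nonneg _) hc0 hM
    have h3 := mul_le_mul_of_nonneg_right h2
      (pow_nonneg (Nat.cast_nonneg (α := ℝ) (innT T B1 x).card) M)
    rw [pow_zero, mul_one]
    nlinarith [h3]
  have h2 : c ^ M * Zm T U1 W U2 B1 B2 t M 0 ≤ Zm T U1 W U2 B1 B2 t M M := by
    refine le_trans ?_ low
    calc c ^ M * Zm T U1 W U2 B1 B2 t M 0
        ≤ c ^ M * (2 * (B1.card : ℝ) ^ M * (W.card : ℝ) ^ t * Q1 ^ M) :=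
          mul_le_mul_of_nonneg_left up (by positivity)
      _ = Rt ^ M * (2 * (B1.card : ℝ) ^ M * (B2.card : ℝ) ^ M * (W.card : ℝ) ^ t * Q1 ^ M) := by
          rw [hc, mul_pow]
          ring
      _ ≤ (s / 2 * (P2 * P1 / Q1) ^ M) *
            (2 * (B1.card : ℝ) ^ M * (B2.card : ℝ) ^ M * (W.card : ℝ) ^ t * Q1 ^ M) :=
          mul_le_mul_of_nonneg_right hr (by positivity)
      _ = s * (W.card : ℝ) ^ t * ((P1 * B1.card) ^ M * (P2 * B2.card) ^ M) := by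
          rw [div_pow, mul_pow, mul_pow, mul_pow]
          have : Q1 ^ M ≠ 0 := (pow_pos hQ1 M).ne'
          field_simp
  have h3 : (M : ℝ) * (c * Zm T U1 W U2 B1 B2 t M (M - 1)) ≤
      (M : ℝ) * Zm T U1 W U2 B1 B2 t M M := by linarith
  have h4 := le_of_mul_le_mul_left h3 hMR
  rw [← mul_assoc]
  exact h4

end Pool.Agent.HC
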